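import Pool.Agent.H692.FL.Model

/-!
# The adversary
-/

namespace Pool.Agent.H692.FL

open Finset Filter

/-- large multiples decide the sign -/
theorem evsign {A : ℝ} (hA : A ≠ 0) (B : ℝ) :
    ∀ᶠ n : ℕ in atTop, SignType.sign ((n : ℝ) * A + B) = SignType.sign A := by
  rcases lt_or_gt_of_ne hA with h | h
  · have h1 : Tendsto (fun n : ℕ => (n : ℝ) * A + B) atTop atBot :=
      tendsto_atBot_add_const_right _ _ (tendsto_natCast_atTop_atTop.atTop_mul_const_of_neg h)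
    filter_upwards [h1.eventually_lt_atBot 0] with n hn
    rw [sign_neg hn, sign_neg h]
  · have h1 : Tendsto (fun n : ℕ => (n : ℝ) * A + B) atTop atTop :=
      tendsto_atTop_add_const_right _ _ (tendsto_natCast_atTop_atTop.atTop_mul_const h)
    filter_upwards [h1.eventually_gt_atTop 0] with n hn
    rw [sign_pos hn, sign_pos h]

/-- a finite set of non-zero vectors: some integer vector is orthogonal to none of them -/
theorem exists_gen {P : Type*} [Fintype P] (D : Finset (P → ℝ)) (hD : ∀ d ∈ D, ∃ p, d p ≠ 0) :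
    ∃ φ : P → ℤ, ∀ d ∈ D, ∑ p, d p * (φ p : ℝ) ≠ 0 := by
  classical
  obtain ⟨idx⟩ : Nonempty (P ≃ Fin (Fintype.card P)) := ⟨Fintype.equivFin P⟩
  obtain ⟨pol, hpol⟩ : ∃ pol : (P → ℝ) → Polynomial ℝ,
      pol = fun d => ∑ p, Polynomial.monomial (idx p : ℕ) (d p) := ⟨_, rfl⟩
  have hne : ∀ d ∈ D, pol d ≠ 0 := by
    intro d hd h0
    obtain ⟨p, hp⟩ := hD d hd
    apply hp
    have h1 : (pol d).coeff (idx p : ℕ) = d p := by
      rw [hpol]
      simp only [Polynomial.finsetSum_coeff, Polynomial.coeff_monomial]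
      rw [Finset.sum_eq_single p]
      · simp
      · intro p' _ hp'
        rw [if_neg]
        intro h
        exact hp' (idx.injective (Fin.ext h))
      · simp
    rw [h0] at h1
    simpa using h1.symm
  have hprod : (∏ d ∈ D, pol d) ≠ 0 := Finset.prod_ne_zero_iff.2 hne
  have hfin : Set.Finite {x : ℝ | (∏ d ∈ D, pol d).IsRoot x} := Polynomial.finite_setOfPred_isRoot hprod
  obtain ⟨K, hK⟩ : ∃ K : ℕ, (K : ℝ) ∉ {x : ℝ | (∏ d ∈ D, pol d).IsRoot x} := by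
    by_contra hcon
    push Not at hcon
    have : (Set.range fun n : ℕ => (n : ℝ)).Finite := hfin.subset (by
      rintro _ ⟨n, rfl⟩
      exact hcon n)
    exact (Set.infinite_range_of_injective Nat.cast_injective) this
  refine ⟨fun p => (K : ℤ) ^ (idx p : ℕ), fun d hd h0 => hK ?_⟩
  change (∏ d ∈ D, pol d).eval (K : ℝ) = 0
  rw [Polynomial.eval_prod]
  refine Finset.prod_eq_zero hd ?_
  rw [hpol]
  simp only [Polynomial.eval_finsetSum, Polynomial.eval_monomial]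
  rw [← h0]
  refine Finset.sum_congr rfl fun p _ => ?_
  push_cast
  rfl

section

variable {ι P T : Type*} [Fintype ι] [Fintype P] [Fintype T]

/-- the sum over a triangle -/
def V3 {R : Type*} [AddCommMonoid R] (tr : T → ZMod 3 → ι) (g : ι → R) (t : T) : R :=
  ∑ c, g (tr t c)

/-- the shape of a small circulation -/
def Shp (tr : T → ZMod 3 → ι) (f : ι → ℝ) : Prop :=
  (∃ l : ℝ, l ≠ 0 ∧ ∃ t, ∀ g : ι → ℝ, ∑ e, f e * g e = l * V3 tr g t) ∨
  ∃ l : ℝ, l ≠ 0 ∧ ∃ t t', t ≠ t' ∧ (∃ c, tr t c = tr t' c) ∧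
    ∀ g : ι → ℝ, ∑ e, f e * g e = l * (V3 tr g t - V3 tr g t')

/-- the shape of a circulation with at most five terms -/
def Shp5 (tr : T → ZMod 3 → ι) (f : ι → ℝ) : Prop :=
  Shp tr f ∨
  (∃ t t' i j, t ≠ t' ∧ (∃ c, tr t c = tr t' c) ∧ (f i ≠ 0 ∨ f j ≠ 0) ∧
    ∀ g : ι → ℝ, ∑ e, f e * g e = f i * V3 tr g t + f j * V3 tr g t') ∨
  ∃ l : ℝ, l ≠ 0 ∧ ∃ t t' t'' c c', t ≠ t' ∧ t' ≠ t'' ∧ c ≠ c' ∧ tr t c = tr t' c ∧
    tr t' c' = tr t'' c' ∧ ∀ g : ι → ℝ, ∑ e, f e * g e = l * (V3 tr g t - V3 tr g t' + V3 tr g t'')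

/-- the data of the adversary -/
structure AD (H : ℕ) (ι P T : Type*) [Fintype ι] where
  tr : T → ZMod 3 → ι
  B : ι → P → ℤ
  glue : ∀ t p, ∑ c, B (tr t c) p = 0
  inj : ∀ i j, i ≠ j → ∃ p, B i p ≠ B j p
  cls : ∀ f : ι → ℝ, (univ.filter fun i => f i ≠ 0).card ≤ 4 → (∀ p, ∑ i, f i * (B i p : ℝ) = 0) →
    (∃ i, f i ≠ 0) → Shp tr f
  cls5 : ∀ f : ι → ℝ, (univ.filter fun i => f i ≠ 0).card ≤ 5 → (∀ p, ∑ i, f i * (B i p : ℝ) = 0) →
    (∃ i, f i ≠ 0) → Shp5 tr f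
  good : Finset T
  w : ι → ℤ
  u : T → ι → ℤ
  w1 : ∀ t, 0 < V3 tr w t
  w2 : ∀ m ∈ good, V3 tr (u m) m = 0
  w3 : ∀ m ∈ good, ∀ t, t ≠ m → 0 < V3 tr (u m) t
  w4 : ∀ t t', t ≠ t' → (∃ c, tr t c = tr t' c) → ∀ α β : ℤ, |α| ≤ H → |β| ≤ H →
    (α ≠ 0 ∨ β ≠ 0) → α * V3 tr w t + β * V3 tr w t' ≠ 0 ∧
    ∀ m ∈ good, m ≠ t → m ≠ t' →
      SignType.sign (α * V3 tr (u m) t + β * V3 tr (u m) t') =
      SignType.sign (α * V3 tr w t + β * V3 tr w t')
  w5 : ∀ t t' t'' c c', t ≠ t' → t' ≠ t'' → c ≠ c' → tr t c = tr t' c → tr t' c' = tr t'' c' →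
    V3 tr w t - V3 tr w t' + V3 tr w t'' ≠ 0 ∧
    ∀ m ∈ good, m ≠ t → m ≠ t' → m ≠ t'' →
      SignType.sign (V3 tr (u m) t - V3 tr (u m) t' + V3 tr (u m) t'') =
      SignType.sign (V3 tr w t - V3 tr w t' + V3 tr w t'')

theorem V3_cast (tr : T → ZMod 3 → ι) (g : ι → ℤ) (t : T) :
    V3 tr (fun i => (g i : ℝ)) t = ((V3 tr g t : ℤ) : ℝ) := by
  simp [V3]

theorem sign_intCast (z : ℤ) : SignType.sign (z : ℝ) = SignType.sign z := by
  rcases lt_trichotomy z 0 with h | h | h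
  · rw [sign_neg h, sign_neg (by exact_mod_cast h)]
  · subst h
    simp
  · rw [sign_pos h, sign_pos (by exact_mod_cast h)]

variable {H : ℕ}

theorem AD.ev (A : AD H ι P T) {f : ι → ℝ} (κ : ℝ) (S : Finset T)
    (hne : ∑ i, f i * (A.w i : ℝ) ≠ 0)
    (h : ∀ m ∈ A.good, m ∉ S → SignType.sign (∑ i, f i * (A.u m i : ℝ)) =
      SignType.sign (∑ i, f i * (A.w i : ℝ))) : ∀ᶠ n : ℕ in atTop,
      ∀ m ∈ A.good, m ∉ S → SignType.sign ((n : ℝ) * (∑ i, f i * (A.w i : ℝ)) + κ) =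
      SignType.sign ((n : ℝ) * (∑ i, f i * (A.u m i : ℝ)) + κ) := by
  have h3 : ∀ᶠ n : ℕ in atTop, ∀ m : T, m ∈ A.good → m ∉ S →
      SignType.sign ((n : ℝ) * (∑ i, f i * (A.u m i : ℝ)) + κ) =
      SignType.sign (∑ i, f i * (A.u m i : ℝ)) := by
    rw [Filter.eventually_all]
    intro m
    by_cases hm : m ∈ A.good ∧ m ∉ S
    · have hu : ∑ i, f i * (A.u m i : ℝ) ≠ 0 := by
        intro h0
        have h7 := h m hm.1 hm.2
        rw [h0, sign_zero] at h7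
        exact hne (sign_eq_zero_iff.1 h7.symm)
      filter_upwards [evsign hu κ] with n hn _ _
      exact hn
    · exact Eventually.of_forall fun n h h' => absurd ⟨h, h'⟩ hm
  filter_upwards [evsign hne κ, h3] with n hn h3 m hmg hm
  rw [hn, h3 m hmg hm, h m hmg hm]

open Classical in
theorem AD.small (A : AD H ι P T) (hH : 1 ≤ H) {f : ι → ℝ} (hs : Adm (H : ℝ) f)
    (hc : ∀ p, ∑ i, f i * (A.B i p : ℝ) = 0) (h0 : ∃ i, f i ≠ 0) :
    (∑ i, f i * (A.w i : ℝ) ≠ 0) ∧ ∃ S : Finset T, S.card ≤ 3 ∧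
      ∀ m ∈ A.good, m ∉ S → SignType.sign (∑ i, f i * (A.u m i : ℝ)) =
      SignType.sign (∑ i, f i * (A.w i : ℝ)) := by
  -- the shapes with at most four terms
  have hfour : Shp A.tr f → (∑ i, f i * (A.w i : ℝ) ≠ 0) ∧ ∃ S : Finset T, S.card ≤ 3 ∧
      ∀ m ∈ A.good, m ∉ S → SignType.sign (∑ i, f i * (A.u m i : ℝ)) =
      SignType.sign (∑ i, f i * (A.w i : ℝ)) := by
    rintro (⟨l, hl, t, h⟩ | ⟨l, hl, t, t', htt, hadj, h⟩)
    · have hw : ∑ i, f i * (A.w i : ℝ) = l * ((V3 A.tr A.w t : ℤ) : ℝ) := by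
        rw [h, V3_cast]
      have h1 : (0 : ℝ) < ((V3 A.tr A.w t : ℤ) : ℝ) := by exact_mod_cast A.w1 t
      refine ⟨by rw [hw]; exact mul_ne_zero hl h1.ne', {t}, by simp, ?_⟩
      intro m hmg hm
      have hm' : m ≠ t := by simpa using hm
      have h2 : (0 : ℝ) < ((V3 A.tr (A.u m) t : ℤ) : ℝ) := by exact_mod_cast A.w3 m hmg t hm'.symm
      rw [hw, h, V3_cast, sign_mul, sign_mul, sign_pos h1, sign_pos h2]
    · have hH1 : |(1 : ℤ)| ≤ H := by rw [abs_one]; exact_mod_cast hH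
      have hH2 : |(-1 : ℤ)| ≤ H := by rw [abs_neg, abs_one]; exact_mod_cast hH
      obtain ⟨h4, h5⟩ := A.w4 t t' htt hadj 1 (-1) hH1 hH2 (Or.inl one_ne_zero)
      have e : ∀ g : ι → ℤ, ∑ i, f i * (g i : ℝ) =
          l * ((1 * V3 A.tr g t + -1 * V3 A.tr g t' : ℤ) : ℝ) := by
        intro g
        rw [h, V3_cast, V3_cast]
        push_cast
        ring
      refine ⟨by rw [e]; exact mul_ne_zero hl (by exact_mod_cast h4), {t, t'},
        (Finset.card_le_two).trans (by norm_num), ?_⟩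
      intro m hmg hm
      have hm' : m ≠ t ∧ m ≠ t' := by simpa using hm
      rw [e, e, sign_mul, sign_mul, sign_intCast, sign_intCast, h5 m hmg hm'.1 hm'.2]
  rcases hs with hs | ⟨hs, hint⟩
  · exact hfour (A.cls f (by convert hs) hc h0)
  · rcases A.cls5 f (by convert hs) hc h0 with h | ⟨t, t', i, j, htt, hadj, hij, h⟩ |
      ⟨l, hl, t, t', t'', c, c', h1, h2, h3, h4, h5, h⟩
    · exact hfour h
    · obtain ⟨zi, e1, e2⟩ := hint i
      obtain ⟨zj, e3, e4⟩ := hint j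
      have b1 : |zi| ≤ (H : ℤ) := by exact_mod_cast e2
      have b2 : |zj| ≤ (H : ℤ) := by exact_mod_cast e4
      have b3 : zi ≠ 0 ∨ zj ≠ 0 := by
        rcases hij with h' | h'
        · left
          rintro rfl
          exact h' (by rw [e1]; simp)
        · right
          rintro rfl
          exact h' (by rw [e3]; simp)
      obtain ⟨h4, h5⟩ := A.w4 t t' htt hadj zi zj b1 b2 b3
      have e : ∀ g : ι → ℤ, ∑ i, f i * (g i : ℝ) =
          ((zi * V3 A.tr g t + zj * V3 A.tr g t' : ℤ) : ℝ) := by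
        intro g
        rw [h, V3_cast, V3_cast, e1, e3]
        push_cast
        ring
      refine ⟨by rw [e]; exact_mod_cast h4, {t, t'}, (Finset.card_le_two).trans (by norm_num), ?_⟩
      intro m hmg hm
      have hm' : m ≠ t ∧ m ≠ t' := by simpa using hm
      rw [e, e, sign_intCast, sign_intCast, h5 m hmg hm'.1 hm'.2]
    · obtain ⟨h6, h7⟩ := A.w5 t t' t'' c c' h1 h2 h3 h4 h5
      have e : ∀ g : ι → ℤ, ∑ i, f i * (g i : ℝ) =
          l * ((V3 A.tr g t - V3 A.tr g t' + V3 A.tr g t'' : ℤ) : ℝ) := by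
        intro g
        rw [h, V3_cast, V3_cast, V3_cast]
        push_cast
        ring
      refine ⟨by rw [e]; exact mul_ne_zero hl (by exact_mod_cast h6), {t, t', t''},
        Finset.card_le_three, ?_⟩
      intro m hmg hm
      have hm' : m ≠ t ∧ m ≠ t' ∧ m ≠ t'' := by simpa using hm
      rw [e, e, sign_mul, sign_mul, sign_intCast, sign_intCast, h7 m hmg hm'.1 hm'.2.1 hm'.2.2]

/-- The adversary: for a finite set of admissible queries there are an input without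
solution and a family of inputs with solutions such that no query separates the first one from
more than three others. -/
theorem AD.main (A : AD H ι P T) (hH : 1 ≤ H) (Q : Finset ((ι → ℝ) × ℝ))
    (hQ : ∀ s ∈ Q, Adm (H : ℝ) s.1) :
    ∃ (x : ι → ℤ) (y : T → ι → ℤ),
      (∀ s ∈ Q, ∃ S : Finset T, S.card ≤ 3 ∧ ∀ m ∈ A.good, m ∉ S →
        SignType.sign (∑ i, s.1 i * (x i : ℝ) + s.2) =
        SignType.sign (∑ i, s.1 i * (y m i : ℝ) + s.2)) ∧
      (∀ s ∈ Q, (∃ i, s.1 i ≠ 0) → ∑ i, s.1 i * (x i : ℝ) ≠ 0) ∧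
      (∀ m ∈ A.good, V3 A.tr (y m) m = 0) ∧
      (∀ s ∈ Q, (∃ p, ∑ i, s.1 i * (A.B i p : ℝ) ≠ 0) → ∑ i, s.1 i * (x i : ℝ) + s.2 ≠ 0 ∧
        ∀ m, SignType.sign (∑ i, s.1 i * (x i : ℝ) + s.2) =
          SignType.sign (∑ i, s.1 i * (y m i : ℝ) + s.2)) := by
  classical
  -- the boundary
  obtain ⟨bd, hbd⟩ : ∃ bd : (ι → ℝ) → P → ℝ, bd = fun f p => ∑ i, f i * (A.B i p : ℝ) := ⟨_, rfl⟩
  obtain ⟨φ, hφ⟩ := exists_gen ((Q.image fun s => bd s.1).filter fun d => ∃ p, d p ≠ 0)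
    (fun d hd => (Finset.mem_filter.1 hd).2)
  have hφ' : ∀ s ∈ Q, (∃ p, bd s.1 p ≠ 0) → ∑ p, bd s.1 p * (φ p : ℝ) ≠ 0 := by
    intro s hs hp
    exact hφ _ (Finset.mem_filter.2 ⟨Finset.mem_image_of_mem _ hs, hp⟩)
  -- the second scale
  have hev2 : ∀ᶠ n : ℕ in atTop, ∀ s ∈ Q, (∃ i, s.1 i ≠ 0) → (∀ p, bd s.1 p = 0) →
      ∃ S : Finset T, S.card ≤ 3 ∧ ∀ m ∈ A.good, m ∉ S →
        SignType.sign ((n : ℝ) * (∑ i, s.1 i * (A.w i : ℝ)) + s.2) =
        SignType.sign ((n : ℝ) * (∑ i, s.1 i * (A.u m i : ℝ)) + s.2) := by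
    rw [Filter.eventually_all_finset]
    intro s hs
    by_cases h1 : (∃ i, s.1 i ≠ 0) ∧ ∀ p, bd s.1 p = 0
    · obtain ⟨hne, S, hS, hev⟩ := A.small hH (hQ s hs)
        (by intro p; have := h1.2 p; rw [hbd] at this; exact this) h1.1
      filter_upwards [A.ev s.2 S hne hev] with n hn _ _
      exact ⟨S, hS, hn⟩
    · exact Eventually.of_forall fun n h2 h3 => absurd ⟨h2, h3⟩ h1
  obtain ⟨L2, hL2, hL2'⟩ := (hev2.and (eventually_ge_atTop 1)).exists
  -- the first scale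
  have hev1 : ∀ᶠ n : ℕ in atTop, ∀ s ∈ Q, (∃ p, bd s.1 p ≠ 0) →
      (SignType.sign ((n : ℝ) * (∑ p, bd s.1 p * (φ p : ℝ)) +
        (L2 : ℝ) * (∑ i, s.1 i * (A.w i : ℝ))) =
        SignType.sign (∑ p, bd s.1 p * (φ p : ℝ))) ∧
      (SignType.sign ((n : ℝ) * (∑ p, bd s.1 p * (φ p : ℝ)) +
        ((L2 : ℝ) * (∑ i, s.1 i * (A.w i : ℝ)) + s.2)) =
        SignType.sign (∑ p, bd s.1 p * (φ p : ℝ))) ∧
      ∀ m : T, SignType.sign ((n : ℝ) * (∑ p, bd s.1 p * (φ p : ℝ)) +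
        ((L2 : ℝ) * (∑ i, s.1 i * (A.u m i : ℝ)) + s.2)) =
        SignType.sign (∑ p, bd s.1 p * (φ p : ℝ)) := by
    rw [Filter.eventually_all_finset]
    intro s hs
    by_cases h1 : ∃ p, bd s.1 p ≠ 0
    · have hne := hφ' s hs h1
      have hall : ∀ᶠ n : ℕ in atTop, ∀ m : T,
          SignType.sign ((n : ℝ) * (∑ p, bd s.1 p * (φ p : ℝ)) +
          ((L2 : ℝ) * (∑ i, s.1 i * (A.u m i : ℝ)) + s.2)) =
          SignType.sign (∑ p, bd s.1 p * (φ p : ℝ)) := by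
        rw [Filter.eventually_all]
        intro m
        exact evsign hne _
      filter_upwards [evsign hne ((L2 : ℝ) * (∑ i, s.1 i * (A.w i : ℝ))),
        evsign hne ((L2 : ℝ) * (∑ i, s.1 i * (A.w i : ℝ)) + s.2), hall] with n a1 a2 a3 _
      exact ⟨a1, a2, a3⟩
    · exact Eventually.of_forall fun n h2 => absurd h2 h1
  obtain ⟨L1, hL1⟩ := hev1.exists
  -- the inputs
  have expand : ∀ (f : ι → ℝ) (g : ι → ℤ),
      ∑ i, f i * ((((L1 : ℤ) * ∑ p, A.B i p * φ p + (L2 : ℤ) * g i : ℤ)) : ℝ) =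
      (L1 : ℝ) * (∑ p, bd f p * (φ p : ℝ)) + (L2 : ℝ) * (∑ i, f i * (g i : ℝ)) := by
    intro f g
    have h1 : ∑ p, bd f p * (φ p : ℝ) = ∑ i, f i * ∑ p, (A.B i p : ℝ) * (φ p : ℝ) := by
      rw [hbd]
      simp only [Finset.sum_mul, Finset.mul_sum]
      rw [Finset.sum_comm]
      refine Finset.sum_congr rfl fun i _ => Finset.sum_congr rfl fun p _ => ?_
      ring
    rw [h1, Finset.mul_sum, Finset.mul_sum, ← Finset.sum_add_distrib]
    refine Finset.sum_congr rfl fun i _ => ?_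
    push_cast
    ring
  refine ⟨fun i => (L1 : ℤ) * ∑ p, A.B i p * φ p + (L2 : ℤ) * A.w i,
    fun m i => (L1 : ℤ) * ∑ p, A.B i p * φ p + (L2 : ℤ) * A.u m i, ?_, ?_, ?_, ?_⟩
  · intro s hs
    simp only [expand]
    by_cases h1 : ∃ p, bd s.1 p ≠ 0
    · obtain ⟨-, a2, a3⟩ := hL1 s hs h1
      refine ⟨∅, by simp, fun m _ _ => ?_⟩
      rw [add_assoc, add_assoc, a2, a3 m]
    · push Not at h1
      have h0 : ∑ p, bd s.1 p * (φ p : ℝ) = 0 := Finset.sum_eq_zero fun p _ => by rw [h1 p, zero_mul]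
      by_cases h2 : ∃ i, s.1 i ≠ 0
      · obtain ⟨S, hS, hS'⟩ := hL2 s hs h2 h1
        refine ⟨S, hS, fun m hmg hm => ?_⟩
        rw [h0, mul_zero, zero_add, zero_add]
        exact hS' m hmg hm
      · push Not at h2
        refine ⟨∅, by simp, fun m _ _ => ?_⟩
        simp [h2]
  · intro s hs h2
    simp only [expand]
    by_cases h1 : ∃ p, bd s.1 p ≠ 0
    · obtain ⟨a1, -, -⟩ := hL1 s hs h1
      intro h0
      rw [h0, sign_zero] at a1
      exact hφ' s hs h1 (sign_eq_zero_iff.1 a1.symm)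
    · push Not at h1
      have h0 : ∑ p, bd s.1 p * (φ p : ℝ) = 0 := Finset.sum_eq_zero fun p _ => by rw [h1 p, zero_mul]
      rw [h0, mul_zero, zero_add]
      refine mul_ne_zero ?_ (A.small hH (hQ s hs)
        (by intro p; have := h1 p; rw [hbd] at this; exact this) h2).1
      exact_mod_cast (by omega : L2 ≠ 0)
  · intro m hmg
    have h1 : V3 A.tr (fun i => (L1 : ℤ) * ∑ p, A.B i p * φ p + (L2 : ℤ) * A.u m i) m =
        (L1 : ℤ) * ∑ p, (∑ c, A.B (A.tr m c) p) * φ p + (L2 : ℤ) * V3 A.tr (A.u m) m := by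
      simp only [V3]
      rw [Finset.sum_add_distrib, ← Finset.mul_sum, ← Finset.mul_sum, Finset.sum_comm]
      congr 2
      refine Finset.sum_congr rfl fun p _ => ?_
      rw [Finset.sum_mul]
    rw [h1, A.w2 m hmg]
    simp [A.glue]
  · intro s hs h1
    have h1' : ∃ p, bd s.1 p ≠ 0 := by
      rw [hbd]
      exact h1
    obtain ⟨-, a2, a3⟩ := hL1 s hs h1'
    simp only [expand]
    refine ⟨fun h0 => ?_, fun m => ?_⟩
    · rw [add_assoc] at h0
      rw [h0, sign_zero] at a2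
      exact hφ' s hs h1' (sign_eq_zero_iff.1 a2.symm)
    · rw [add_assoc, add_assoc, a2, a3 m]

end

end Pool.Agent.H692.FL
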