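import Pool.Agent.H692.FL.Cx2

/-!
# Greedy choice of weights
-/

namespace Pool.Agent.H692.FL

open Finset

open Classical in
theorem greedy {ι κ : Type*} [Fintype ι] [Fintype κ] (R : ℕ) (s : κ → Finset ι)
    (Bad : κ → (ι → ℕ) → Prop)
    (hloc : ∀ k w w', (∀ i ∈ s k, w i = w' i) → Bad k w → Bad k w')
    (huniq : ∀ k w i, i ∈ s k → ∀ v v', Bad k (Function.update w i v) →
      Bad k (Function.update w i v') → v = v')
    (hd : ∀ i, (univ.filter fun k => i ∈ s k).card < R) :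
    ∃ w : ι → ℕ, (∀ i, w i < R) ∧ ∀ k, (s k).Nonempty → ¬ Bad k w := by
  have key : ∀ S : Finset ι, ∃ w : ι → ℕ, (∀ i, w i < R) ∧
      ∀ k, (s k).Nonempty → s k ⊆ S → ¬ Bad k w := by
    intro S
    induction S using Finset.induction_on with
    | empty =>
      refine ⟨fun _ => 0, fun i => lt_of_le_of_lt (Nat.zero_le _) (hd i), fun k hk hk' => ?_⟩
      obtain ⟨i, hi⟩ := hk
      exact absurd (hk' hi) (by simp)
    | insert i S hi ih =>
      obtain ⟨w, hw, hw'⟩ := ih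
      -- the forbidden values
      obtain ⟨v, hv, hv'⟩ : ∃ v < R, ∀ k, i ∈ s k → ¬ Bad k (Function.update w i v) := by
        by_contra hcon
        push Not at hcon
        have hcard : (Finset.range R).card ≤ (univ.filter fun k => i ∈ s k).card := by
          refine Finset.card_le_card_of_surjOn
            (fun k => if h : ∃ v, Bad k (Function.update w i v) then h.choose else 0) ?_
          intro v hv
          obtain ⟨k, hk, hb⟩ := hcon v (by simpa using hv)
          refine ⟨k, by simpa using hk, ?_⟩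
          have h : ∃ v, Bad k (Function.update w i v) := ⟨v, hb⟩
          simp only [h, dif_pos]
          exact huniq k w i hk _ _ h.choose_spec hb
        rw [Finset.card_range] at hcard
        exact absurd (hd i) (by omega)
      refine ⟨Function.update w i v, fun i' => ?_, fun k hk hk' => ?_⟩
      · by_cases h : i' = i
        · subst h
          simpa using hv
        · rw [Function.update_of_ne h]
          exact hw i'
      · by_cases h : i ∈ s k
        · exact hv' k h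
        · intro hb
          refine hw' k hk (fun x hx => ?_) (hloc k _ _ (fun x hx => ?_) hb)
          · rcases Finset.mem_insert.1 (hk' hx) with rfl | h'
            · exact absurd hx h
            · exact h'
          · rw [Function.update_of_ne]
            rintro rfl
            exact h hx
  obtain ⟨w, hw, hw'⟩ := key univ
  exact ⟨w, hw, fun k hk => hw' k hk (Finset.subset_univ _)⟩

/-- greedy choice for linear forms -/
theorem greedy_lin {ι κ : Type*} [Fintype ι] [Fintype κ] (R : ℕ) (F : κ → ι → ℤ) (b : κ → ℤ)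
    (hd : ∀ i, (open Classical in (univ.filter fun k => F k i ≠ 0).card) < R) :
    ∃ w : ι → ℕ, (∀ i, w i < R) ∧ ∀ k, (∃ i, F k i ≠ 0) → ∑ i, F k i * (w i : ℤ) + b k ≠ 0 := by
  classical
  obtain ⟨w, hw, hw'⟩ := greedy R (fun k => univ.filter fun i => F k i ≠ 0)
    (fun k w => ∑ i, F k i * (w i : ℤ) + b k = 0) (by
      intro k w w' h hb
      rw [← hb]
      congr 1
      refine Finset.sum_congr rfl fun i _ => ?_
      by_cases hi : F k i = 0
      · rw [hi, zero_mul, zero_mul]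
      · rw [h i (Finset.mem_filter.2 ⟨Finset.mem_univ _, hi⟩)]) (by
      intro k w i hi v v' hb hb'
      have hFi := (Finset.mem_filter.1 hi).2
      have key : ∀ v : ℕ, ∑ i', F k i' * ((Function.update w i v i' : ℕ) : ℤ) =
          F k i * v + ∑ i' ∈ univ.erase i, F k i' * (w i' : ℤ) := by
        intro v
        rw [← Finset.add_sum_erase _ _ (Finset.mem_univ i), Function.update_self]
        congr 1
        refine Finset.sum_congr rfl fun i' hi' => ?_
        rw [Function.update_of_ne (Finset.mem_erase.1 hi').1]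
      rw [key] at hb hb'
      have h1 : F k i * (v : ℤ) = F k i * v' := by linarith
      exact_mod_cast mul_left_cancel₀ hFi h1) (by
      intro i
      refine lt_of_le_of_lt (le_of_eq ?_) (hd i)
      congr 1
      ext k
      simp)
  refine ⟨w, hw, fun k hk => hw' k ?_⟩
  obtain ⟨i, hi⟩ := hk
  exact ⟨i, Finset.mem_filter.2 ⟨Finset.mem_univ _, hi⟩⟩

variable {E P T : Type*} [Fintype E] [Fintype T]

theorem Cx.zne : ∀ c : ZMod 3, c + 1 ≠ c := by decide

open Classical in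
/-- the number of sides of a triangle equal to a given edge -/
noncomputable def sd (Y : Cx E P T) (t : T) (e : E) : ℤ := ∑ c, if Y.e t c = e then 1 else 0

omit [Fintype T] in
theorem sd_sum (Y : Cx E P T) (t : T) (g : E → ℤ) : ∑ e, sd Y t e * g e = ∑ c, g (Y.e t c) := by
  classical
  simp only [sd, Finset.sum_mul, ite_mul, one_mul, zero_mul]
  rw [Finset.sum_comm]
  refine Finset.sum_congr rfl fun c _ => ?_
  rw [Finset.sum_ite_eq, if_pos (Finset.mem_univ _)]

omit [Fintype E] [Fintype T] in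
open Classical in
theorem sd_eq (Y : Cx E P T) (t : T) (e : E) : sd Y t e = if Y.e t (Y.ty e) = e then 1 else 0 := by
  rw [sd, Finset.sum_eq_single (Y.ty e)]
  · intro c _ hc
    rw [if_neg]
    intro h
    apply hc
    rw [← h, Y.e_ty]
  · simp

omit [Fintype E] [Fintype T] in
theorem sd_self (Y : Cx E P T) (t : T) (c : ZMod 3) : sd Y t (Y.e t c) = 1 := by
  rw [sd_eq, Y.e_ty, if_pos rfl]

omit [Fintype E] [Fintype T] in
theorem sd_other (Y : Cx E P T) {t t' : T} {c : ZMod 3} (h : Y.e t' c ≠ Y.e t c) :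
    sd Y t' (Y.e t c) = 0 := by
  rw [sd_eq, Y.e_ty, if_neg h]

/-- the coefficient vectors -/
noncomputable def Co (H : ℕ) : Finset (ℤ × ℤ × ℤ) :=
  (((Finset.Icc (-(H : ℤ)) H) ×ˢ (Finset.Icc (-(H : ℤ)) H)).image fun a => (a.1, a.2, 0)) ∪
    {(1, -1, 1)}

theorem Co_card (H : ℕ) : (Co H).card ≤ (2 * H + 1) ^ 2 + 1 := by
  refine (Finset.card_union_le _ _).trans ?_
  refine Nat.add_le_add (Finset.card_image_le.trans ?_) (by simp)
  rw [Finset.card_product, Int.card_Icc, sq]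
  have h : ((H : ℤ) + 1 - -(H : ℤ)).toNat = 2 * H + 1 := by omega
  rw [h]

omit [Fintype E] in
open Classical in
/-- the number of connected triples of triangles of which a given member lies on an edge -/
theorem tri_count (Y : Cx E P T) (D : ℕ)
    (hD : ∀ t c, (univ.filter fun t' => Y.e t' c = Y.e t c).card ≤ D) (g : T → T → T) (i : E) :
    (univ.filter fun x : T × T × T × ZMod 3 × ZMod 3 => Y.e x.1 (Y.ty i) = i ∧
      Y.e x.2.1 x.2.2.2.1 = Y.e x.1 x.2.2.2.1 ∧
      Y.e x.2.2.1 x.2.2.2.2 = Y.e (g x.1 x.2.1) x.2.2.2.2).card ≤ 9 * D ^ 3 := by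
  rw [Finset.card_filter, Fintype.sum_prod_type]
  have h1 : ∀ t : T, ∑ y : T × T × ZMod 3 × ZMod 3, (if Y.e t (Y.ty i) = i ∧
      Y.e y.1 y.2.2.1 = Y.e t y.2.2.1 ∧ Y.e y.2.1 y.2.2.2 = Y.e (g t y.1) y.2.2.2 then 1 else 0) ≤
      if Y.e t (Y.ty i) = i then 9 * D ^ 2 else 0 := by
    intro t
    by_cases h : Y.e t (Y.ty i) = i
    · simp only [h, true_and, if_true]
      have h2 : ∀ t' : T, ∑ y : T × ZMod 3 × ZMod 3, (if Y.e t' y.2.1 = Y.e t y.2.1 ∧
          Y.e y.1 y.2.2 = Y.e (g t t') y.2.2 then 1 else 0) ≤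
          ∑ c : ZMod 3, if Y.e t' c = Y.e t c then 3 * D else 0 := by
        intro t'
        rw [Fintype.sum_prod_type, Finset.sum_comm, Fintype.sum_prod_type]
        refine Finset.sum_le_sum fun c _ => ?_
        by_cases h3 : Y.e t' c = Y.e t c
        · simp only [h3, true_and, if_true]
          calc ∑ c' : ZMod 3, ∑ t'' : T, (if Y.e t'' c' = Y.e (g t t') c' then 1 else 0)
              ≤ ∑ _c : ZMod 3, D := by
                refine Finset.sum_le_sum fun c _ => ?_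
                have := hD (g t t') c
                rwa [Finset.card_filter] at this
            _ = 3 * D := by simp
        · simp [h3]
      rw [Fintype.sum_prod_type]
      refine (Finset.sum_le_sum fun t' _ => h2 t').trans ?_
      rw [Finset.sum_comm]
      calc ∑ c : ZMod 3, ∑ t' : T, (if Y.e t' c = Y.e t c then 3 * D else 0)
          ≤ ∑ _c : ZMod 3, D * (3 * D) := by
            refine Finset.sum_le_sum fun c _ => ?_
            rw [← Finset.sum_filter, Finset.sum_const, smul_eq_mul]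
            exact Nat.mul_le_mul_right _ (hD t c)
        _ = 9 * D ^ 2 := by
            rw [Finset.sum_const, smul_eq_mul]
            change 3 * _ = _
            ring
    · simp [h]
  refine (Finset.sum_le_sum fun t _ => h1 t).trans ?_
  rw [← Finset.sum_filter, Finset.sum_const, smul_eq_mul]
  by_cases h : ∃ t, Y.e t (Y.ty i) = i
  · obtain ⟨t, ht⟩ := h
    have h4 := hD t (Y.ty i)
    rw [ht] at h4
    calc _ ≤ D * (9 * D ^ 2) := Nat.mul_le_mul_right _ h4
      _ = 9 * D ^ 3 := by ring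
  · push Not at h
    rw [Finset.filter_false_of_mem fun t _ => h t]
    simp

open Classical in
theorem exists_w (Y : Cx E P T)
    (hinj : ∀ t t' c c', c ≠ c' → Y.e t c = Y.e t' c → Y.e t c' = Y.e t' c' → t = t') (D H : ℕ)
    (hD : ∀ t c, (univ.filter fun t' => Y.e t' c = Y.e t c).card ≤ D) :
    ∃ w : E → ℕ, (∀ i, w i < 27 * D ^ 3 * ((2 * H + 1) ^ 2 + 1) + 1) ∧
      (∀ t t', t ≠ t' → (∃ c, Y.e t c = Y.e t' c) → ∀ α β : ℤ, |α| ≤ H → |β| ≤ H →
        (α ≠ 0 ∨ β ≠ 0) →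
        α * (∑ c, ((w (Y.e t c) : ℤ) + 1)) + β * (∑ c, ((w (Y.e t' c) : ℤ) + 1)) ≠ 0) ∧
      (∀ t t' t'' c c', t ≠ t' → t' ≠ t'' → c ≠ c' → Y.e t c = Y.e t' c →
        Y.e t' c' = Y.e t'' c' → (∑ c, ((w (Y.e t c) : ℤ) + 1)) -
          (∑ c, ((w (Y.e t' c) : ℤ) + 1)) + (∑ c, ((w (Y.e t'' c) : ℤ) + 1)) ≠ 0) := by
  obtain ⟨F, hF⟩ : ∃ F : {x : T × T × T × ZMod 3 × ZMod 3 // Y.e x.2.1 x.2.2.2.1 = Y.e x.1 x.2.2.2.1 ∧
      Y.e x.2.2.1 x.2.2.2.2 = Y.e x.2.1 x.2.2.2.2} × Co H → E → ℤ, ∀ k e, F k e =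
      k.2.1.1 * sd Y k.1.1.1 e + k.2.1.2.1 * sd Y k.1.1.2.1 e +
      k.2.1.2.2 * sd Y k.1.1.2.2.1 e := ⟨_, fun _ _ => rfl⟩
  have hd : ∀ i, (univ.filter fun k => F k i ≠ 0).card < 27 * D ^ 3 * ((2 * H + 1) ^ 2 + 1) + 1 := by
    intro i
    rw [Nat.lt_succ_iff]
    obtain ⟨N, hN⟩ : ∃ N : (T → T → T) → Finset (T × T × T × ZMod 3 × ZMod 3), ∀ g, N g =
        univ.filter fun x : T × T × T × ZMod 3 × ZMod 3 => Y.e x.1 (Y.ty i) = i ∧
      Y.e x.2.1 x.2.2.2.1 = Y.e x.1 x.2.2.2.1 ∧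
      Y.e x.2.2.1 x.2.2.2.2 = Y.e (g x.1 x.2.1) x.2.2.2.2 := ⟨_, fun _ => rfl⟩
    have hNc : ∀ g, (N g ×ˢ (univ : Finset (Co H))).card ≤ 9 * D ^ 3 * ((2 * H + 1) ^ 2 + 1) := by
      intro g
      rw [Finset.card_product, Finset.card_univ, Fintype.card_coe]
      refine Nat.mul_le_mul ?_ (Co_card H)
      have := tri_count Y D hD g i
      rw [hN]
      exact this
    obtain ⟨p1, hp1⟩ : ∃ p1 : {x : T × T × T × ZMod 3 × ZMod 3 //
        Y.e x.2.1 x.2.2.2.1 = Y.e x.1 x.2.2.2.1 ∧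
        Y.e x.2.2.1 x.2.2.2.2 = Y.e x.2.1 x.2.2.2.2} × Co H → Prop,
        ∀ k, p1 k ↔ Y.e k.1.1.1 (Y.ty i) = i := ⟨_, fun _ => Iff.rfl⟩
    obtain ⟨p2, hp2⟩ : ∃ p2 : {x : T × T × T × ZMod 3 × ZMod 3 //
        Y.e x.2.1 x.2.2.2.1 = Y.e x.1 x.2.2.2.1 ∧
        Y.e x.2.2.1 x.2.2.2.2 = Y.e x.2.1 x.2.2.2.2} × Co H → Prop,
        ∀ k, p2 k ↔ Y.e k.1.1.2.1 (Y.ty i) = i := ⟨_, fun _ => Iff.rfl⟩
    obtain ⟨p3, hp3⟩ : ∃ p3 : {x : T × T × T × ZMod 3 × ZMod 3 //
        Y.e x.2.1 x.2.2.2.1 = Y.e x.1 x.2.2.2.1 ∧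
        Y.e x.2.2.1 x.2.2.2.2 = Y.e x.2.1 x.2.2.2.2} × Co H → Prop,
        ∀ k, p3 k ↔ Y.e k.1.1.2.2.1 (Y.ty i) = i := ⟨_, fun _ => Iff.rfl⟩
    have hsub : (univ.filter fun k => F k i ≠ 0) ⊆
        (univ.filter p1) ∪ ((univ.filter p2) ∪ (univ.filter p3)) := by
      intro k hk
      rw [Finset.mem_filter, hF] at hk
      rw [Finset.mem_union, Finset.mem_union, Finset.mem_filter, Finset.mem_filter,
        Finset.mem_filter, hp1, hp2, hp3]
      by_contra hcon
      simp only [Finset.mem_univ, true_and, not_or] at hcon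
      apply hk.2
      rw [sd_eq, sd_eq, sd_eq, if_neg hcon.1, if_neg hcon.2.1, if_neg hcon.2.2]
      ring
    have c1 : (univ.filter p1).card ≤ 9 * D ^ 3 * ((2 * H + 1) ^ 2 + 1) := by
      refine le_trans (Finset.card_le_card_of_injOn (fun k => (k.1.1, k.2)) ?_ ?_)
        (hNc fun _ b => b)
      · intro k hk
        rw [Finset.mem_coe, Finset.mem_filter, hp1] at hk
        rw [Finset.mem_coe, Finset.mem_product, hN, Finset.mem_filter]
        exact ⟨⟨Finset.mem_univ _, hk.2, k.1.2.1, k.1.2.2⟩, Finset.mem_univ _⟩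
      · intro a _ b _ h
        exact Prod.ext (Subtype.ext (congrArg Prod.fst h)) (congrArg Prod.snd h :)
    have c2 : (univ.filter p2).card ≤ 9 * D ^ 3 * ((2 * H + 1) ^ 2 + 1) := by
      refine le_trans (Finset.card_le_card_of_injOn (fun k => ((k.1.1.2.1, k.1.1.1, k.1.1.2.2.1,
        k.1.1.2.2.2.1, k.1.1.2.2.2.2), k.2)) ?_ ?_) (hNc fun a _ => a)
      · intro k hk
        rw [Finset.mem_coe, Finset.mem_filter, hp2] at hk
        rw [Finset.mem_coe, Finset.mem_product, hN, Finset.mem_filter]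
        exact ⟨⟨Finset.mem_univ _, hk.2, k.1.2.1.symm, k.1.2.2⟩, Finset.mem_univ _⟩
      · rintro ⟨⟨⟨a1, a2, a3, a4, a5⟩, a6⟩, a7⟩ _ ⟨⟨⟨b1, b2, b3, b4, b5⟩, b6⟩, b7⟩ _ h
        simp only [Prod.mk.injEq] at h
        obtain ⟨⟨rfl, rfl, rfl, rfl, rfl⟩, rfl⟩ := h
        rfl
    have c3 : (univ.filter p3).card ≤ 9 * D ^ 3 * ((2 * H + 1) ^ 2 + 1) := by
      refine le_trans (Finset.card_le_card_of_injOn (fun k => ((k.1.1.2.2.1, k.1.1.2.1, k.1.1.1,
        k.1.1.2.2.2.2, k.1.1.2.2.2.1), k.2)) ?_ ?_) (hNc fun _ b => b)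
      · intro k hk
        rw [Finset.mem_coe, Finset.mem_filter, hp3] at hk
        rw [Finset.mem_coe, Finset.mem_product, hN, Finset.mem_filter]
        exact ⟨⟨Finset.mem_univ _, hk.2, k.1.2.2.symm, k.1.2.1.symm⟩, Finset.mem_univ _⟩
      · rintro ⟨⟨⟨a1, a2, a3, a4, a5⟩, a6⟩, a7⟩ _ ⟨⟨⟨b1, b2, b3, b4, b5⟩, b6⟩, b7⟩ _ h
        simp only [Prod.mk.injEq] at h
        obtain ⟨⟨rfl, rfl, rfl, rfl, rfl⟩, rfl⟩ := h
        rfl
    have c4 := Finset.card_le_card hsub
    have c5 := Finset.card_union_le (univ.filter p1) ((univ.filter p2) ∪ (univ.filter p3))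
    have c6 := Finset.card_union_le (univ.filter p2) (univ.filter p3)
    have c7 : 27 * D ^ 3 * ((2 * H + 1) ^ 2 + 1) = 3 * (9 * D ^ 3 * ((2 * H + 1) ^ 2 + 1)) := by
      ring
    rw [c7]
    omega
  obtain ⟨w, hw, hw'⟩ := greedy_lin (27 * D ^ 3 * ((2 * H + 1) ^ 2 + 1) + 1) F
    (fun k => 3 * (k.2.1.1 + k.2.1.2.1 + k.2.1.2.2)) (by
      intro i
      convert hd i)
  have hsum : ∀ k, ∑ i, F k i * (w i : ℤ) + 3 * (k.2.1.1 + k.2.1.2.1 + k.2.1.2.2) =
      k.2.1.1 * (∑ c, ((w (Y.e k.1.1.1 c) : ℤ) + 1)) +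
      k.2.1.2.1 * (∑ c, ((w (Y.e k.1.1.2.1 c) : ℤ) + 1)) +
      k.2.1.2.2 * (∑ c, ((w (Y.e k.1.1.2.2.1 c) : ℤ) + 1)) := by
    intro k
    have h1 : ∀ t, ∑ c, ((w (Y.e t c) : ℤ) + 1) = ∑ e, sd Y t e * (w e : ℤ) + 3 := by
      intro t
      rw [Finset.sum_add_distrib, sd_sum]
      rfl
    rw [h1, h1, h1]
    simp only [hF, add_mul, Finset.sum_add_distrib, mul_add, Finset.mul_sum, mul_assoc]
    ring
  refine ⟨w, hw, ?_, ?_⟩
  · intro t t' htt hadj α β hα hβ hαβ
    obtain ⟨c, hc⟩ := hadj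
    have hmem : (α, β, (0 : ℤ)) ∈ Co H := by
      rw [Co, Finset.mem_union, Finset.mem_image]
      left
      rw [abs_le] at hα hβ
      exact ⟨(α, β), Finset.mem_product.2 ⟨Finset.mem_Icc.2 hα, Finset.mem_Icc.2 hβ⟩, rfl⟩
    have h1 := hw' (⟨(t, t', t', c, c), hc.symm, rfl⟩, ⟨_, hmem⟩) (by
      have h2 : Y.e t (c + 1) ≠ Y.e t' (c + 1) := fun h =>
        htt (hinj t t' c (c + 1) (Cx.zne c).symm hc h)
      rcases hαβ with h | h
      · refine ⟨Y.e t (c + 1), ?_⟩
        rw [hF]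
        simp only
        rw [sd_self, sd_other Y h2.symm]
        simpa using h
      · refine ⟨Y.e t' (c + 1), ?_⟩
        rw [hF]
        simp only
        rw [sd_self, sd_other Y h2]
        simpa using h)
    rw [hsum] at h1
    simp only [zero_mul, add_zero] at h1
    exact h1
  · intro t t' t'' c c' h1 h2 hcc h3 h4
    have hmem : ((1 : ℤ), (-1 : ℤ), (1 : ℤ)) ∈ Co H := by
      rw [Co, Finset.mem_union]
      right
      simp
    have z : ∀ c c' : ZMod 3, ∃ d : ZMod 3, d ≠ c ∧ d ≠ c' := by decide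
    obtain ⟨d, hd1, hd2⟩ := z c c'
    have h5 := hw' (⟨(t, t', t'', c, c'), h3.symm, h4.symm⟩, ⟨_, hmem⟩) (by
      refine ⟨Y.e t' d, ?_⟩
      have h6 : Y.e t d ≠ Y.e t' d := fun h => h1 (hinj t t' c d hd1.symm h3 h)
      have h7 : Y.e t'' d ≠ Y.e t' d := fun h => h2 (hinj t' t'' c' d hd2.symm h4 h.symm)
      rw [hF]
      simp only
      rw [sd_self, sd_other Y h6, sd_other Y h7]
      norm_num)
    rw [hsum] at h5
    simp only [one_mul] at h5
    intro h
    apply h5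
    linarith

end Pool.Agent.H692.FL
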