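import Pool.Agent.H692.FL.Sparse
import Pool.Agent.H692.FL.Greedy

/-!
# The weights on a sparse part of the coset complex
-/

namespace Pool.Agent.H692.FL

open Finset

theorem sign_shift {A x y : ℤ} (hx : x ≠ 0) (hy : |y| < A) :
    SignType.sign (A * x + y) = SignType.sign (A * x) := by
  have hA : 0 < A := lt_of_le_of_lt (abs_nonneg y) hy
  rw [abs_lt] at hy
  rcases lt_or_gt_of_ne hx with h | h
  · have h1 : A * x ≤ -A := by nlinarith
    rw [sign_neg (by linarith), sign_neg (by linarith)]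
  · have h1 : A ≤ A * x := by nlinarith
    rw [sign_pos (by linarith), sign_pos (by linarith)]

theorem pair_sign {K V V' W G G' ε α β H : ℤ} (hε : |ε| = 1) (h1 : α * V + β * V' ≠ 0)
    (hW : 0 ≤ W) (hH : 0 ≤ H) (hK : 3 * H * W < K) (hG : 0 ≤ G) (hG1 : G ≤ 1) (hG' : 0 ≤ G')
    (hG1' : G' ≤ 1) (hα : |α| ≤ H) (hβ : |β| ≤ H) :
    SignType.sign (α * (K * V + W * (-K * 0 + ε * G)) + β * (K * V' + W * (-K * 0 + ε * G'))) =
      SignType.sign (α * (K * V) + β * (K * V')) := by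
  have e1 : α * (K * V + W * (-K * 0 + ε * G)) + β * (K * V' + W * (-K * 0 + ε * G')) =
      K * (α * V + β * V') + W * (ε * (α * G + β * G')) := by ring
  have e2 : α * (K * V) + β * (K * V') = K * (α * V + β * V') := by ring
  rw [e1, e2]
  apply sign_shift h1
  have h6 : |α * G + β * G'| ≤ 2 * H := by
    refine (abs_add_le _ _).trans ?_
    rw [abs_mul, abs_mul, abs_of_nonneg hG, abs_of_nonneg hG']
    have a1 := abs_nonneg α
    have a2 := abs_nonneg β
    have a3 : |α| * G ≤ |α| * 1 := mul_le_mul_of_nonneg_left hG1 a1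
    have a4 : |β| * G' ≤ |β| * 1 := mul_le_mul_of_nonneg_left hG1' a2
    linarith
  rw [abs_mul, abs_mul, hε, one_mul, abs_of_nonneg hW]
  have h8 : W * |α * G + β * G'| ≤ W * (2 * H) := mul_le_mul_of_nonneg_left h6 hW
  have h9 : 0 ≤ H * W := mul_nonneg hH hW
  linarith

theorem chain_sign {K V V' V'' W G G' G'' ε H : ℤ} (hε : |ε| = 1) (h1 : V - V' + V'' ≠ 0)
    (hW : 0 ≤ W) (hH : 1 ≤ H) (hK : 3 * H * W < K) (hG : 0 ≤ G) (hG1 : G ≤ 1) (hG' : 0 ≤ G')
    (hG1' : G' ≤ 1) (hG'' : 0 ≤ G'') (hG1'' : G'' ≤ 1) :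
    SignType.sign (K * V + W * (-K * 0 + ε * G) - (K * V' + W * (-K * 0 + ε * G')) +
      (K * V'' + W * (-K * 0 + ε * G''))) = SignType.sign (K * V - K * V' + K * V'') := by
  have e1 : K * V + W * (-K * 0 + ε * G) - (K * V' + W * (-K * 0 + ε * G')) +
      (K * V'' + W * (-K * 0 + ε * G'')) = K * (V - V' + V'') + W * (ε * (G - G' + G'')) := by ring
  have e2 : K * V - K * V' + K * V'' = K * (V - V' + V'') := by ring
  rw [e1, e2]
  apply sign_shift h1
  have h6 : |G - G' + G''| ≤ 2 := by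
    rw [abs_le]
    constructor <;> linarith
  rw [abs_mul, abs_mul, hε, one_mul, abs_of_nonneg hW]
  have h8 : W * |G - G' + G''| ≤ W * 2 := mul_le_mul_of_nonneg_left h6 hW
  have h9 : 1 * W ≤ H * W := mul_le_mul_of_nonneg_right hH hW
  linarith

variable {F : Type} [Field F] [Fintype F] {M : ℕ} [NeZero M] {C : Type} [Group C] [Finite C]
  (hM : 3 ≤ M)

omit [NeZero M] [Fintype F] [Finite C] in
theorem edge_inj {t t' : Gt F M C} {c c' : ZMod 3} (hc : c ≠ c')
    (h : (gd hM).mkE c t = (gd hM).mkE c t') (h' : (gd hM).mkE c' t = (gd hM).mkE c' t') :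
    t = t' := by
  obtain ⟨a, ha⟩ := ((gd hM).mkE_eq.1 h).2
  obtain ⟨b, hb⟩ := ((gd hM).mkE_eq.1 h').2
  have hab : (kel c a 0 0 : Gt F M C) = kel c' b 0 0 := ha.symm.trans hb
  have z : ∀ c c' : ZMod 3, c ≠ c' → c' = c + 1 ∨ c = c' + 1 := by decide
  have key : ∀ g : Gt F M C, t⁻¹ * t' = g → g = 1 → t = t' := by
    intro g h1 h2
    rw [h2] at h1
    exact inv_mul_eq_one.1 h1
  rcases z c c' hc with rfl | rfl
  · have := (T2' hM (kel_inj hab)).1
    exact key _ ha (by rw [this, kel_zero])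
  · have := (T2' hM (kel_inj hab.symm)).1
    exact key _ hb (by rw [this, kel_zero])

theorem exists_wts (S : Set (gd (F := F) (M := M) (C := C) hM).Pt) (D H k : ℕ) (hH : 1 ≤ H)
    (hk : 3 * H * (81 * D ^ 3 * ((2 * H + 1) ^ 2 + 1) + 3) < 2 ^ k)
    (hD : ∀ g ∈ TS hM S, ∀ c, (open Classical in
      (univ.filter fun a : F => g * kel c a 0 0 ∈ TS hM S).card) ≤ D) :
    Nonempty (((gd (F := F) (M := M) (C := C) hM).cx.sub S).Wts H
      {m | ¬ Closed (TS hM S) m.1 (2 * (k + 1))}) := by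
  classical
  obtain ⟨hfG⟩ : Nonempty (Fintype (Gt F M C)) := nonempty_fintype _
  obtain ⟨hfE⟩ : Nonempty (Fintype (gd (F := F) (M := M) (C := C) hM).Ed) := nonempty_fintype _
  obtain ⟨Y, hY⟩ : ∃ Y, Y = (gd (F := F) (M := M) (C := C) hM).cx.sub S := ⟨_, rfl⟩
  have hYe : ∀ (t : {t : Gt F M C // ∀ c, (gd hM).cx.hd ((gd hM).cx.e t c) ∈ S}) (c : ZMod 3),
      (Y.e t c).1 = (gd hM).mkE c t.1 := by
    intro t c
    rw [hY]
    rfl
  have hTS : ∀ m : {t : Gt F M C // ∀ c, (gd hM).cx.hd ((gd hM).cx.e t c) ∈ S},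
      m.1 ∈ TS hM S := fun m => m.2
  have hDD : ∀ t c, (univ.filter fun t' => Y.e t' c = Y.e t c).card ≤ D := by
    intro t c
    refine le_trans ?_ (hD t.1 t.2 c)
    have hex : ∀ t' : {t : Gt F M C // ∀ c, (gd hM).cx.hd ((gd hM).cx.e t c) ∈ S},
        Y.e t' c = Y.e t c → ∃ a : F, t'.1 = t.1 * kel c a 0 0 := by
      intro t' h
      have h1 := congrArg Subtype.val h
      rw [hYe, hYe] at h1
      obtain ⟨a, ha⟩ := ((gd hM).mkE_eq.1 h1.symm).2
      exact ⟨a, by rw [← ha]; group⟩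
    refine Finset.card_le_card_of_injOn
      (fun t' => if h : ∃ a : F, t'.1 = t.1 * kel c a 0 0 then h.choose else 0) ?_ ?_
    · intro t' ht'
      rw [Finset.mem_coe, Finset.mem_filter] at ht'
      have h := hex t' ht'.2
      rw [Finset.mem_coe, Finset.mem_filter]
      simp only [h, dif_pos, Finset.mem_univ, true_and]
      rw [← h.choose_spec]
      exact t'.2
    · intro t1 h1 t2 h2 h12
      rw [Finset.mem_coe, Finset.mem_filter] at h1 h2
      have e1 := hex t1 h1.2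
      have e2 := hex t2 h2.2
      simp only [e1, e2, dif_pos] at h12
      apply Subtype.ext
      rw [e1.choose_spec, e2.choose_spec, h12]
  obtain ⟨w, hw, hw', hw''⟩ := exists_w Y (by
    intro t t' c c' hc h h'
    have h1 := congrArg Subtype.val h
    have h2 := congrArg Subtype.val h'
    rw [hYe, hYe] at h1 h2
    exact Subtype.ext (edge_inj hM hc h1 h2)) D H (by
    intro t c
    convert hDD t c)
  -- the values
  obtain ⟨VV, hVV⟩ : ∃ VV : {t : Gt F M C // ∀ c, (gd hM).cx.hd ((gd hM).cx.e t c) ∈ S} → ℤ,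
      ∀ t, VV t = ∑ c, ((w (Y.e t c) : ℤ) + 1) := ⟨_, fun _ => rfl⟩
  have c3 : (univ : Finset (ZMod 3)).card = 3 := rfl
  have hV1 : ∀ t, 3 ≤ VV t := by
    intro t
    rw [hVV]
    have : ∑ _c : ZMod 3, (1 : ℤ) ≤ ∑ c, ((w (Y.e t c) : ℤ) + 1) :=
      Finset.sum_le_sum fun c _ => by omega
    simpa [c3] using this
  have hV2' : ∀ t, 3 * H * VV t < 2 ^ k := by
    intro t
    rw [hVV]
    have : ∑ c, ((w (Y.e t c) : ℤ) + 1) ≤
        ∑ _c : ZMod 3, (27 * (D : ℤ) ^ 3 * ((2 * H + 1) ^ 2 + 1) + 1) := by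
      refine Finset.sum_le_sum fun c _ => ?_
      have := hw (Y.e t c)
      have h2 : (w (Y.e t c) : ℤ) < 27 * (D : ℤ) ^ 3 * ((2 * H + 1) ^ 2 + 1) + 1 := by
        exact_mod_cast this
      omega
    rw [Finset.sum_const, c3] at this
    have hk' : (3 : ℤ) * H * (81 * D ^ 3 * ((2 * H + 1) ^ 2 + 1) + 3) < 2 ^ k := by
      exact_mod_cast hk
    rw [nsmul_eq_mul] at this
    have h3 : (0 : ℤ) ≤ 3 * H := by positivity
    have h4 := mul_le_mul_of_nonneg_left this h3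
    refine lt_of_le_of_lt h4 (lt_of_le_of_lt (le_of_eq ?_) hk')
    push_cast
    ring
  have hH' : (1 : ℤ) ≤ H := by exact_mod_cast hH
  have hV2 : ∀ t, VV t < 2 ^ k := by
    intro t
    have h1 := hV1 t
    have h2 := hV2' t
    nlinarith
  have h2k : (0 : ℤ) < 2 ^ k := by positivity
  have vw : ∀ t, V3 Y.e (fun e => (2 : ℤ) ^ k * ((w e : ℤ) + 1)) t = 2 ^ k * VV t := by
    intro t
    rw [V3, ← Finset.mul_sum, hVV]
  have vu : ∀ m t, V3 Y.e (fun e => (2 : ℤ) ^ k * ((w e : ℤ) + 1) +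
      VV m * zk hM (TS hM S) m.1 k e.1) t = 2 ^ k * VV t + VV m *
      (-2 ^ k * (if t.1 = m.1 then 1 else 0) + (-1) ^ (k + 1) * GG (TS hM S) m.1 (k + 1) t.1) := by
    intro m t
    rw [V3, Finset.sum_add_distrib, ← Finset.mul_sum, ← Finset.mul_sum, ← hVV]
    have h := sum_zk hM (TS hM S) m.1 (hTS t) k
    have h' : ∑ c, zk hM (TS hM S) m.1 k (Y.e t c).1 =
        -2 ^ k * (if t.1 = m.1 then 1 else 0) + (-1) ^ (k + 1) * GG (TS hM S) m.1 (k + 1) t.1 := by
      refine Eq.trans (Finset.sum_congr rfl fun c _ => by rw [hYe]) (Eq.trans h ?_)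
      congr
    rw [h']
  rw [← hY]
  refine ⟨⟨fun e => (2 : ℤ) ^ k * ((w e : ℤ) + 1), fun m e => (2 : ℤ) ^ k * ((w e : ℤ) + 1) +
      VV m * zk hM (TS hM S) m.1 k e.1, ?_, ?_, ?_, ?_, ?_⟩⟩
  · intro t
    rw [vw]
    have := hV1 t
    positivity
  · intro m hm
    rw [vu, if_pos rfl, GG_self (hTS m) (Nat.succ_pos k) hm]
    ring
  · intro m hm t ht
    rw [vu, if_neg (fun h => ht (Subtype.ext h))]
    have h1 := GG_le (hTS m) hm t.1
    have h2 := GG_nonneg (S := TS hM S) (m := m.1) (j := k + 1) t.1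
    have h3 := hV1 t
    have h4 := hV1 m
    have h5 := hV2 m
    have h6 : |VV m * (-2 ^ k * 0 + (-1) ^ (k + 1) * GG (TS hM S) m.1 (k + 1) t.1)| < 2 ^ k := by
      rw [mul_zero, zero_add, abs_mul, abs_mul, abs_pow, abs_neg, abs_one, one_pow, one_mul,
        abs_of_nonneg h2, abs_of_nonneg (by omega : 0 ≤ VV m)]
      nlinarith
    rw [abs_lt] at h6
    nlinarith
  · intro t t' htt hadj α β hα hβ hαβ
    rw [vw, vw]
    have h1 : α * VV t + β * VV t' ≠ 0 := by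
      rw [hVV, hVV]
      exact hw' t t' htt hadj α β hα hβ hαβ
    have e2 : α * (2 ^ k * VV t) + β * (2 ^ k * VV t') = 2 ^ k * (α * VV t + β * VV t') := by ring
    refine ⟨fun h => h1 ?_, fun m hm hmt hmt' => ?_⟩
    · rw [e2] at h
      exact (mul_eq_zero.1 h).resolve_left h2k.ne'
    rw [vu, vu, if_neg (fun h => hmt (Subtype.ext h.symm)),
      if_neg (fun h => hmt' (Subtype.ext h.symm))]
    exact pair_sign (by rw [abs_pow, abs_neg, abs_one, one_pow]) h1 (by linarith [hV1 m])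
      (by positivity) (hV2' m) (GG_nonneg t.1) (GG_le (hTS m) hm t.1) (GG_nonneg t'.1)
      (GG_le (hTS m) hm t'.1) hα hβ
  · intro t t' t'' c c' h1 h2 hcc h3 h4
    rw [vw, vw, vw]
    have h5 : VV t - VV t' + VV t'' ≠ 0 := by
      rw [hVV, hVV, hVV]
      exact hw'' t t' t'' c c' h1 h2 hcc h3 h4
    have e2 : 2 ^ k * VV t - 2 ^ k * VV t' + 2 ^ k * VV t'' = 2 ^ k * (VV t - VV t' + VV t'') := by
      ring
    refine ⟨fun h => h5 ?_, fun m hm hmt hmt' hmt'' => ?_⟩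
    · rw [e2] at h
      exact (mul_eq_zero.1 h).resolve_left h2k.ne'
    rw [vu, vu, vu, if_neg (fun h => hmt (Subtype.ext h.symm)),
      if_neg (fun h => hmt' (Subtype.ext h.symm)), if_neg (fun h => hmt'' (Subtype.ext h.symm))]
    exact chain_sign (by rw [abs_pow, abs_neg, abs_one, one_pow]) h5 (by linarith [hV1 m])
      hH' (hV2' m) (GG_nonneg t.1) (GG_le (hTS m) hm t.1) (GG_nonneg t'.1)
      (GG_le (hTS m) hm t'.1) (GG_nonneg t''.1) (GG_le (hTS m) hm t''.1)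

end Pool.Agent.H692.FL
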