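import Mathlib

/-!
# The choice of the parameter for a given number of elements
-/

namespace Pool.Agent.H692.FL

open Real

theorem asym : ∃ n₀ : ℕ, ∀ n ≥ n₀, ∃ s : ℕ,
    32 * 2 ^ (3 + 29 * (18 * s ^ 2 + 158 * s + 323)) ≤ n ∧
    Real.exp (√(Real.log n) / 400) ≤ 2 ^ s / 82944 ∧
    5 * Real.exp (√(Real.log n) / 400) ≤ 2 ^ s := by
  have hev : ∀ᶠ n : ℕ in Filter.atTop, (6000 : ℝ) ^ 2 ≤ Real.log n :=
    (Real.tendsto_log_atTop.comp tendsto_natCast_atTop_atTop).eventually_ge_atTop _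
  obtain ⟨n₀, hn₀⟩ := Filter.eventually_atTop.1 hev
  refine ⟨max n₀ 1, fun n hn => ?_⟩
  have hlog := hn₀ n (le_trans (le_max_left _ _) hn)
  have hn1 : 1 ≤ n := le_trans (le_max_right _ _) hn
  have hnpos : (0 : ℝ) < n := by exact_mod_cast hn1
  obtain ⟨R, hR⟩ : ∃ R, R = √(Real.log n) := ⟨_, rfl⟩
  have hR2 : R ^ 2 = Real.log n := by
    rw [hR, Real.sq_sqrt]
    linarith [sq_nonneg (6000 : ℝ)]
  have hR0 : 0 ≤ R := by rw [hR]; exact Real.sqrt_nonneg _
  have hR1 : 6000 ≤ R := by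
    rw [hR]
    exact Real.le_sqrt_of_sq_le hlog
  rw [← hR]
  obtain ⟨s, hs⟩ : ∃ s, s = ⌊R / 100⌋₊ := ⟨_, rfl⟩
  have hs1 : (s : ℝ) ≤ R / 100 := by rw [hs]; exact Nat.floor_le (by positivity)
  have hs2 : R / 100 < s + 1 := by rw [hs]; exact Nat.lt_floor_add_one _
  have hs3 : 2 ≤ s := by
    have : (2 : ℝ) ≤ s := by linarith
    exact_mod_cast this
  have hlog2 : (1 / 2 : ℝ) ≤ Real.log 2 := by
    have := Real.log_two_gt_d9
    linarith
  have h6 : (s : ℝ) * (1 / 2) ≤ s * Real.log 2 :=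
    mul_le_mul_of_nonneg_left hlog2 (Nat.cast_nonneg s)
  have h5 : (2 : ℝ) ^ s = Real.exp (s * Real.log 2) := by
    rw [Real.exp_nat_mul, Real.exp_log (by norm_num)]
  have hfin : Real.exp (R / 400) ≤ 2 ^ s / 82944 := by
    rw [le_div_iff₀ (by norm_num)]
    have h144 : (82944 : ℝ) ≤ Real.exp 12 := by
      have h1 : Real.exp 12 = (Real.exp 1) ^ 12 := by
        rw [← Real.exp_nat_mul]
        norm_num
      rw [h1]
      have h2 : (2.7182818283 : ℝ) ≤ Real.exp 1 := Real.exp_one_gt_d9.le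
      calc (82944 : ℝ) ≤ 2.7182818283 ^ 12 := by norm_num
        _ ≤ (Real.exp 1) ^ 12 := pow_le_pow_left₀ (by norm_num) h2 12
    rw [h5]
    calc Real.exp (R / 400) * 82944 ≤ Real.exp (R / 400) * Real.exp 12 :=
          mul_le_mul_of_nonneg_left h144 (Real.exp_pos _).le
      _ = Real.exp (R / 400 + 12) := (Real.exp_add _ _).symm
      _ ≤ Real.exp (s * Real.log 2) := by
          apply Real.exp_le_exp.2
          linarith
  refine ⟨s, ?_, hfin, ?_⟩
  · have h1 : 5 + (3 + 29 * (18 * s ^ 2 + 158 * s + 323)) ≤ 10000 * s ^ 2 := by nlinarith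
    have h2 : ((10000 * s ^ 2 : ℕ) : ℝ) ≤ Real.log n := by
      rw [← hR2]
      push_cast
      have : (s : ℝ) ^ 2 ≤ (R / 100) ^ 2 := pow_le_pow_left₀ (by positivity) hs1 2
      linarith [this, show (R / 100) ^ 2 = R ^ 2 / 10000 by ring]
    have h3 : (2 : ℝ) ^ (10000 * s ^ 2) ≤ n := by
      have he : (2 : ℝ) ≤ Real.exp 1 := by
        have := Real.exp_one_gt_d9
        linarith
      calc (2 : ℝ) ^ (10000 * s ^ 2) ≤ (Real.exp 1) ^ (10000 * s ^ 2) :=
            pow_le_pow_left₀ (by norm_num) he _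
        _ = Real.exp ((10000 * s ^ 2 : ℕ) : ℝ) := by
            rw [← Real.exp_nat_mul, mul_one]
        _ ≤ Real.exp (Real.log n) := Real.exp_le_exp.2 h2
        _ = n := Real.exp_log hnpos
    have h4 : (2 : ℝ) ^ (5 + (3 + 29 * (18 * s ^ 2 + 158 * s + 323))) ≤ n :=
      (pow_le_pow_right₀ (by norm_num) h1).trans h3
    have h5 : (32 : ℕ) * 2 ^ (3 + 29 * (18 * s ^ 2 + 158 * s + 323)) =
        2 ^ (5 + (3 + 29 * (18 * s ^ 2 + 158 * s + 323))) := by
      rw [pow_add 2 5]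
      norm_num
    rw [h5]
    exact_mod_cast h4
  · have h7 : (0 : ℝ) < 2 ^ s := by positivity
    calc 5 * Real.exp (R / 400) ≤ 5 * (2 ^ s / 82944) :=
          mul_le_mul_of_nonneg_left hfin (by norm_num)
      _ ≤ 2 ^ s := by linarith

end Pool.Agent.H692.FL
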