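import Pool.Agent.H692.FL.Gal

/-!
# The first repeated point of a closed gallery
-/

namespace Pool.Agent.H692.FL

open Finset

variable {F : Type} [Field F] {M : ℕ} {C : Type} [Group C] (hM : 3 ≤ M)

/-- the point added by the last letter -/
def np (m : Gt F M C) (x : ZMod 3 × F) (l : List (ZMod 3 × F)) : (gd (F := F) (C := C) hM).Pt :=
  (gd hM).mkP (x.1 + 1) (cur m (x :: l))

open Classical in
/-- the points of a gallery -/
noncomputable def Pts (m : Gt F M C) :
    List (ZMod 3 × F) → Finset (gd (F := F) (C := C) hM).Pt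
  | [] => univ.image fun c => (gd hM).mkP c m
  | x :: l => insert (np hM m x l) (Pts m l)

theorem card_Pts_nil (m : Gt F M C) : (Pts hM m []).card = 3 := by
  classical
  rw [Pts, Finset.card_image_of_injective]
  · rfl
  · intro c c' h
    exact ((gd hM).mkP_eq.1 h).1

theorem card_Pts_le (m : Gt F M C) : ∀ l, (Pts hM m l).card ≤ l.length + 3
  | [] => by rw [card_Pts_nil]; simp
  | x :: l => by
    classical
    have := card_Pts_le m l
    rw [Pts]
    refine (Finset.card_insert_le _ _).trans ?_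
    simp only [List.length_cons]
    omega

theorem Pts_nil_sub (m : Gt F M C) : ∀ l, Pts hM m [] ⊆ Pts hM m l
  | [] => Finset.Subset.refl _
  | x :: l => by
    classical
    exact (Pts_nil_sub m l).trans (Finset.subset_insert _ _)

theorem kel_mem_next {c : ZMod 3} {a : F}
    (h : (kel c a 0 0 : Gt F M C) ∈ (gd (F := F) (C := C) hM).K (c + 1)) : a = 0 := by
  obtain ⟨x, y, z, h⟩ := h
  exact (T2' hM (kel_inj h)).1

/-- Two successive new points determine the letters. -/
theorem np_inj (s : Gt F M C) {c c' : ZMod 3} (hc : c ≠ c') {a a' b b' : F} (ha' : a' ≠ 0)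
    (hb' : b' ≠ 0) (h : (gd hM).mkP (c' + 1) (s * kel c a 0 0 * kel c' a' 0 0) =
      (gd hM).mkP (c' + 1) (s * kel c b 0 0 * kel c' b' 0 0)) : a = b ∧ a' = b' := by
  have h1 := ((gd hM).mkP_eq.1 h).2
  have h2 : (s * kel c a 0 0 * kel c' a' 0 0)⁻¹ * (s * kel c b 0 0 * kel c' b' 0 0) =
      kel c' (-a') 0 0 * kel c (b - a) 0 0 * kel c' b' 0 0 := by
    have e1 : (kel c' (-a') 0 0 : Gt F M C) = (kel c' a' 0 0)⁻¹ := by rw [kel_inv]; simp
    have e2 : (kel c (b - a) 0 0 : Gt F M C) = (kel c a 0 0)⁻¹ * kel c b 0 0 := by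
      rw [kel_inv, kel_mul]
      congr 1 <;> ring
    rw [e1, e2]
    group
  rw [h2] at h1
  have z : ∀ c c' : ZMod 3, c ≠ c' → c' = c + 1 ∨ c = c' + 1 := by decide
  rcases z c c' hc with rfl | rfl
  · have h3 : (kel (c + 1) (-a') 0 0 * kel c (b - a) 0 0 * kel (c + 1) b' 0 0 : Gt F M C) =
        kel c (b - a) (b' - a') ((b - a) * b') := by
      rw [kel_shift, kel_shift, kel_mul, kel_mul]
      congr 1 <;> ring
    rw [h3] at h1
    obtain ⟨x, y, w, h4⟩ := h1
    have z2 : c + 1 + 1 = c + 2 := by ring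
    rw [z2] at h4
    obtain ⟨h5, h6⟩ := T2 hM (kel_inj h4)
    have h7 : b' = a' := sub_eq_zero.1 h5
    have h8 : b - a = 0 := (mul_eq_zero.1 h6).resolve_right hb'
    exact ⟨(sub_eq_zero.1 h8).symm, h7.symm⟩
  · have h3 : (kel c' (-a') 0 0 * kel (c' + 1) (b - a) 0 0 * kel c' b' 0 0 : Gt F M C) =
        kel c' (b' - a') (b - a) (-a' * (b - a)) := by
      rw [kel_shift, kel_mul, kel_mul]
      congr 1 <;> ring
    rw [h3] at h1
    obtain ⟨x, y, w, h4⟩ := h1
    obtain ⟨h5, h6⟩ := T2' hM (kel_inj h4)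
    have h7 : b' = a' := sub_eq_zero.1 h5
    have h8 : b - a = 0 := (mul_eq_zero.1 h6).resolve_left (neg_ne_zero.2 ha')
    exact ⟨(sub_eq_zero.1 h8).symm, h7.symm⟩

/-- a gallery whose points are new, except for the point added by the last letter -/
def BS (m : Gt F M C) (l : List (ZMod 3 × F)) (x y : ZMod 3 × F) : Prop :=
  x.1 ≠ y.1 ∧ y.2 ≠ 0 ∧ (Pts hM m (x :: l)).card = l.length + 4 ∧ np hM m y (x :: l) ∈ Pts hM m l

theorem exists_BS (m : Gt F M C) : ∀ L : List (ZMod 3 × F), WW L →
    (Pts hM m L).card < L.length + 3 → ∃ l x y, BS hM m l x y ∧ l.length + 2 ≤ L.length ∧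
      Pts hM m (x :: l) ⊆ Pts hM m L
  | [], _, h => by rw [card_Pts_nil] at h; simp at h
  | y :: L, hW, h => by
    classical
    by_cases hL : (Pts hM m L).card < L.length + 3
    · obtain ⟨l, x, y', h1, h2, h3⟩ := exists_BS m L hW.1 hL
      exact ⟨l, x, y', h1, by simp only [List.length_cons]; omega,
        h3.trans (Finset.subset_insert _ _)⟩
    · have hcard : (Pts hM m L).card = L.length + 3 :=
        le_antisymm (card_Pts_le hM m L) (by omega)
      have hmem : np hM m y L ∈ Pts hM m L := by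
        by_contra hn
        rw [Pts, Finset.card_insert_of_notMem hn, hcard] at h
        simp only [List.length_cons] at h
        omega
      cases L with
      | nil =>
        exfalso
        rw [Pts, Finset.mem_image] at hmem
        obtain ⟨c, -, hc⟩ := hmem
        rw [np, GD.mkP_eq] at hc
        have hc1 := hc.1
        have hc2 := hc.2
        rw [hc1] at hc2
        apply hW.2.2
        refine kel_mem_next (M := M) (C := C) hM (c := y.1) ?_
        simpa [cur] using hc2
      | cons x l =>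
        refine ⟨l, x, y, ⟨(hW.2.1 : y.1 ≠ x.1).symm, hW.2.2, ?_, ?_⟩, ?_, ?_⟩
        · rw [hcard]
          simp only [List.length_cons]
        · rw [Pts, Finset.mem_insert] at hmem
          rcases hmem with h' | h'
          · exfalso
            rw [np, np, GD.mkP_eq] at h'
            exact hW.2.1 (add_right_cancel h'.1)
          · exact h'
        · simp only [List.length_cons]
          omega
        · rw [Pts]
          exact Finset.subset_insert _ _

/-- the triangles with all points in `S` -/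
def TS (S : Set (gd (F := F) (M := M) (C := C) hM).Pt) : Set (Gt F M C) :=
  {g | ∀ c, (gd hM).mkP c g ∈ S}

theorem Vd.pts {S : Set (gd (F := F) (M := M) (C := C) hM).Pt} {m : Gt F M C} :
    ∀ {l : List (ZMod 3 × F)}, Vd (TS hM S) m l → ∀ p ∈ Pts hM m l, p ∈ S
  | [], h, p, hp => by
    classical
    rw [Pts, Finset.mem_image] at hp
    obtain ⟨c, -, rfl⟩ := hp
    exact h c
  | x :: l, h, p, hp => by
    classical
    rw [Pts, Finset.mem_insert] at hp
    rcases hp with rfl | hp
    · exact h.2 _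
    · exact Vd.pts h.1 p hp

theorem Closed.bs {S : Set (gd (F := F) (M := M) (C := C) hM).Pt} {m : Gt F M C} {L : ℕ}
    (h : Closed (TS hM S) m L) : ∃ l x y, BS hM m l x y ∧ l.length + 2 ≤ L ∧
      ∀ p ∈ Pts hM m (x :: l), p ∈ S := by
  classical
  obtain ⟨k, k1, k2, k3, k4, k5⟩ := h
  have hcard : (Pts hM m k).card < k.length + 3 := by
    cases k with
    | nil => exact absurd rfl k3
    | cons x l =>
      have hmem : np hM m x l ∈ Pts hM m l := by
        apply Pts_nil_sub hM m l
        rw [np, k4, Pts, Finset.mem_image]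
        exact ⟨_, Finset.mem_univ _, rfl⟩
      rw [Pts, Finset.insert_eq_of_mem hmem]
      have := card_Pts_le hM m l
      simp only [List.length_cons]
      omega
  obtain ⟨l, x, y, h1, h2, h3⟩ := exists_BS hM m k k1 hcard
  exact ⟨l, x, y, h1, by omega, fun p hp => Vd.pts hM k2 p (h3 hp)⟩

/-- the number of continuations of a bad structure -/
theorem card_BS [Fintype F] (m : Gt F M C) (l : List (ZMod 3 × F)) :
    (open Classical in (univ.filter fun p : (ZMod 3 × F) × (ZMod 3 × F) =>
      BS hM m l p.1 p.2).card) ≤ 9 * (l.length + 3) := by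
  classical
  have hfib : ∀ c c' : ZMod 3, (univ.filter fun p : (ZMod 3 × F) × (ZMod 3 × F) =>
      BS hM m l p.1 p.2 ∧ p.1.1 = c ∧ p.2.1 = c').card ≤ l.length + 3 := by
    intro c c'
    refine le_trans ?_ (card_Pts_le hM m l)
    refine Finset.card_le_card_of_injOn (fun p => np hM m p.2 (p.1 :: l)) ?_ ?_
    · intro p hp
      rw [Finset.mem_coe, Finset.mem_filter] at hp
      exact hp.2.1.2.2.2
    · rintro ⟨⟨c1, a⟩, ⟨c1', a'⟩⟩ hp ⟨⟨c2, b⟩, ⟨c2', b'⟩⟩ hp' h
      rw [Finset.mem_coe, Finset.mem_filter] at hp hp'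
      obtain ⟨-, h1, rfl, rfl⟩ := hp
      obtain ⟨-, h2, h3, h4⟩ := hp'
      simp only at h3 h4
      subst h3 h4
      simp only [np, cur] at h
      obtain ⟨h5, h6⟩ := np_inj hM (cur m l) h1.1 h1.2.1 h2.2.1 h
      subst h5 h6
      rfl
  calc (univ.filter fun p : (ZMod 3 × F) × (ZMod 3 × F) => BS hM m l p.1 p.2).card
      = ∑ cc : ZMod 3 × ZMod 3, (univ.filter fun p : (ZMod 3 × F) × (ZMod 3 × F) =>
          BS hM m l p.1 p.2 ∧ p.1.1 = cc.1 ∧ p.2.1 = cc.2).card := by
        rw [Finset.card_eq_sum_card_fiberwise (f := fun p => (p.1.1, p.2.1))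
          (t := (univ : Finset (ZMod 3 × ZMod 3))) (fun _ _ => Finset.mem_coe.2 (Finset.mem_univ _))]
        refine Finset.sum_congr rfl fun cc _ => ?_
        rw [Finset.filter_filter]
        congr 1
        ext p
        simp only [Finset.mem_filter, Finset.mem_univ, true_and, Prod.ext_iff]
    _ ≤ ∑ _cc : ZMod 3 × ZMod 3, (l.length + 3) := Finset.sum_le_sum fun cc _ => hfib cc.1 cc.2
    _ = 9 * (l.length + 3) := by
        rw [Finset.sum_const, smul_eq_mul]
        rfl

end Pool.Agent.H692.FL
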