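import Mathlib

/-!
# The choice of the parameters
-/

namespace Pool.Agent.H692.FL

open Finset

theorem two_pow_ge (s : ℕ) : s + 1 ≤ 2 ^ s := Nat.lt_two_pow_self

theorem fact_ge (d : ℕ) : d ^ d ≤ (2 * d).factorial := by
  have h := Nat.factorial_mul_pow_le_factorial (m := d) (n := d)
  calc d ^ d ≤ (d + 1) ^ d := Nat.pow_le_pow_left (Nat.le_succ d) d
    _ = 1 * (d + 1) ^ d := (one_mul _).symm
    _ ≤ d.factorial * (d + 1) ^ d := Nat.mul_le_mul_right _ (Nat.factorial_pos d)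
    _ ≤ (d + d).factorial := h
    _ = (2 * d).factorial := by rw [two_mul]

theorem depth_aux {X : ℕ} (hX : 1 ≤ X) :
    3 * X * (81 * (2 ^ 36 * X ^ 6) * ((2 * X + 1) ^ 2 + 1) + 3) < X ^ 9 * 2 ^ 50 := by
  have h1 : (2 * X + 1) ^ 2 + 1 ≤ 10 * X ^ 2 := by nlinarith
  have h2 : 1 ≤ X ^ 8 := Nat.one_le_pow _ _ hX
  have h9 : 1 ≤ X ^ 9 := Nat.one_le_pow _ _ hX
  calc 3 * X * (81 * (2 ^ 36 * X ^ 6) * ((2 * X + 1) ^ 2 + 1) + 3)
      ≤ 3 * X * (81 * (2 ^ 36 * X ^ 6) * (10 * X ^ 2) + 3 * X ^ 8) := by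
        refine Nat.mul_le_mul_left _ (Nat.add_le_add (Nat.mul_le_mul_left _ h1) ?_)
        omega
    _ = X ^ 9 * (3 * (810 * 2 ^ 36 + 3)) := by ring
    _ < X ^ 9 * 2 ^ 50 := Nat.mul_lt_mul_of_pos_left (by norm_num) (by omega)

theorem param_depth (s : ℕ) : 3 * 2 ^ s * (81 * (2 ^ (2 * s + 12)) ^ 3 *
    ((2 * 2 ^ s + 1) ^ 2 + 1) + 3) < 2 ^ (9 * s + 50) := by
  have h1 : (2 ^ (2 * s + 12)) ^ 3 = 2 ^ 36 * (2 ^ s) ^ 6 := by
    rw [← pow_mul, ← pow_mul, ← pow_add]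
    congr 1
    ring
  have h2 : 2 ^ (9 * s + 50) = (2 ^ s) ^ 9 * 2 ^ 50 := by
    rw [← pow_mul, ← pow_add]
    congr 1
    ring
  rw [h1, h2]
  exact depth_aux Nat.one_le_two_pow

theorem param_term (s i : ℕ) {q : ℝ} (hq0 : 0 ≤ q) (hq : q ≤ 2 ^ (s + 3)) (hi : i < 18 * s + 101) :
    q ^ i * (9 * (i + 3)) ≤ 2 ^ ((s + 3) * (18 * s + 100)) * (9 * (18 * s + 103)) := by
  have hi2 : i ≤ 18 * s + 100 := by omega
  have hi' : (i : ℝ) ≤ 18 * s + 100 := by exact_mod_cast hi2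
  have h1 : q ^ i ≤ 2 ^ ((s + 3) * (18 * s + 100)) := by
    rw [pow_mul]
    exact (pow_le_pow_left₀ hq0 hq i).trans (pow_le_pow_right₀ (one_le_pow₀ (by norm_num)) hi2)
  have h2 : 9 * ((i : ℝ) + 3) ≤ 9 * (18 * s + 103) := by linarith
  exact mul_le_mul h1 h2 (by positivity) (by positivity)

theorem param_num (s : ℕ) :
    (18 * (s : ℝ) + 101) * (9 * (18 * s + 103)) ≤ 1 / 4 * 2 ^ (3 * s + 22) := by
  have h2s : (s : ℝ) + 1 ≤ 2 ^ s := by exact_mod_cast two_pow_ge s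
  have h3 : (2 : ℝ) ^ (3 * s + 22) = (2 ^ s) ^ 3 * 2 ^ 22 := by
    rw [pow_add, ← pow_mul]
    congr 2
    ring
  rw [h3]
  have h5 : (1 : ℝ) ≤ 2 ^ s := one_le_pow₀ (by norm_num)
  generalize (2 : ℝ) ^ s = X at *
  have h6 : (18 * (s : ℝ) + 101) ≤ 103 * X := by linarith
  have h7 : (18 * (s : ℝ) + 103) ≤ 103 * X := by linarith
  have h8 : (18 * (s : ℝ) + 101) * (9 * (18 * s + 103)) ≤ (103 * X) * (9 * (103 * X)) := by
    gcongr
  refine h8.trans ?_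
  have h9 : X ^ 2 ≤ X ^ 3 := pow_le_pow_right₀ h5 (by norm_num)
  nlinarith

theorem param_sum (s : ℕ) {q K : ℝ} (hq0 : 0 ≤ q) (hq : q ≤ 2 ^ (s + 3))
    (hK : K = 2 ^ (18 * s ^ 2 + 157 * s + 322)) :
    ∑ i ∈ range (2 * (9 * s + 50) + 1), q ^ i * (9 * (i + 3)) / K ≤ 1 / 4 := by
  have hL : 2 * (9 * s + 50) + 1 = 18 * s + 101 := by ring
  have hKr0 : 0 < K := by rw [hK]; positivity
  rw [hL, ← Finset.sum_div, div_le_iff₀ hKr0]
  have h1 : ∑ i ∈ range (18 * s + 101), q ^ i * (9 * (i + 3)) ≤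
      ∑ _i ∈ range (18 * s + 101), (2 : ℝ) ^ ((s + 3) * (18 * s + 100)) * (9 * (18 * s + 103)) :=
    Finset.sum_le_sum fun i hi => param_term s i hq0 hq (Finset.mem_range.1 hi)
  refine h1.trans ?_
  rw [Finset.sum_const, Finset.card_range, nsmul_eq_mul]
  have hBe : K = 2 ^ ((s + 3) * (18 * s + 100)) * 2 ^ (3 * s + 22) := by
    rw [hK, ← pow_add]
    congr 1
    ring
  rw [hBe]
  have hp0 : (0 : ℝ) < 2 ^ ((s + 3) * (18 * s + 100)) := by positivity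
  have h4 := param_num s
  generalize (2 : ℝ) ^ ((s + 3) * (18 * s + 100)) = Y at *
  generalize (2 : ℝ) ^ (3 * s + 22) = Z at *
  push_cast
  nlinarith

theorem param_exp (s d A B : ℕ) (hd : d = 2 ^ (2 * s + 11)) (hA : A = 18 * s ^ 2 + 158 * s + 322)
    (hB : B = 18 * s ^ 2 + 157 * s + 322) :
    4 + 30 * (A + 1) + B + (A + 1) * (2 * d) ≤ B * (2 * d) + (2 * s + 11) * d := by
  have hAB : A = B + s := by rw [hA, hB]; ring
  have h1 : (A + 1) * (2 * d) = B * (2 * d) + (s + 1) * (2 * d) := by rw [hAB]; ring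
  rw [h1]
  have h2 : (s + 1) * (2 * d) + 9 * d = (2 * s + 11) * d := by ring
  have h3 : 4 + 30 * (A + 1) + B ≤ 9 * d := by
    have h4 : (s + 1) * (s + 1) ≤ 2 ^ (2 * s) := by
      rw [two_mul, pow_add]
      exact Nat.mul_le_mul (two_pow_ge s) (two_pow_ge s)
    have h5 : d = 2048 * 2 ^ (2 * s) := by
      rw [hd, pow_add]
      ring
    rw [h5, hA, hB]
    generalize 2 ^ (2 * s) = X at *
    nlinarith
  rw [← h2]
  generalize B * (2 * d) = Y at *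
  generalize (s + 1) * (2 * d) = Z at *
  omega

theorem param_heavy (s A B : ℕ) (hA : A = 18 * s ^ 2 + 158 * s + 322)
    (hB : B = 18 * s ^ 2 + 157 * s + 322) {Q K : ℕ} (hQ : Q ≤ 2 ^ (A + 1)) (hK : K = 2 ^ B) :
    3 * (Q : ℝ) ^ 30 * Q.choose (2 ^ (2 * s + 12)) * K ≤
      1 / 4 * (K : ℝ) ^ (2 ^ (2 * s + 12)) := by
  obtain ⟨d, hd⟩ : ∃ d, d = 2 ^ (2 * s + 11) := ⟨_, rfl⟩
  have hD : 2 ^ (2 * s + 12) = 2 * d := by
    rw [hd, show 2 * s + 12 = 1 + (2 * s + 11) by ring, pow_add, pow_one]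
  rw [hD]
  have hQr2 : (Q : ℝ) ≤ 2 ^ (A + 1) := by exact_mod_cast hQ
  have hKr : (K : ℝ) = 2 ^ B := by rw [hK]; push_cast; rfl
  have hch : (Q.choose (2 * d) : ℝ) ≤ (Q : ℝ) ^ (2 * d) / ((2 * d).factorial : ℝ) :=
    Nat.choose_le_pow_div (2 * d) Q
  have hfac : (2 : ℝ) ^ ((2 * s + 11) * d) ≤ ((2 * d).factorial : ℝ) := by
    have h1 := fact_ge d
    have h2 : d ^ d = 2 ^ ((2 * s + 11) * d) := by
      rw [pow_mul, ← hd]
    rw [h2] at h1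
    exact_mod_cast h1
  have hfac0 : (0 : ℝ) < ((2 * d).factorial : ℝ) := by exact_mod_cast Nat.factorial_pos _
  have hexp := param_exp s d A B hd hA hB
  have hmain : 12 * (Q : ℝ) ^ 30 * K * (Q : ℝ) ^ (2 * d) ≤
      (K : ℝ) ^ (2 * d) * ((2 * d).factorial : ℝ) := by
    calc 12 * (Q : ℝ) ^ 30 * K * (Q : ℝ) ^ (2 * d)
        ≤ 2 ^ 4 * (2 ^ (A + 1)) ^ 30 * 2 ^ B * (2 ^ (A + 1)) ^ (2 * d) := by
          rw [hKr]
          have e1 : (Q : ℝ) ^ 30 ≤ (2 ^ (A + 1)) ^ 30 := pow_le_pow_left₀ (by positivity) hQr2 30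
          have e2 : (Q : ℝ) ^ (2 * d) ≤ (2 ^ (A + 1)) ^ (2 * d) :=
            pow_le_pow_left₀ (by positivity) hQr2 _
          refine mul_le_mul (mul_le_mul_of_nonneg_right ?_ (by positivity)) e2 (by positivity)
            (by positivity)
          exact mul_le_mul (by norm_num) e1 (by positivity) (by positivity)
      _ = 2 ^ (4 + 30 * (A + 1) + B + (A + 1) * (2 * d)) := by
          rw [← pow_mul, ← pow_mul, ← pow_add, ← pow_add, ← pow_add]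
          congr 1
          ring
      _ ≤ 2 ^ (B * (2 * d) + (2 * s + 11) * d) := pow_le_pow_right₀ (by norm_num) hexp
      _ = (K : ℝ) ^ (2 * d) * 2 ^ ((2 * s + 11) * d) := by rw [hKr, pow_add, ← pow_mul]
      _ ≤ (K : ℝ) ^ (2 * d) * ((2 * d).factorial : ℝ) :=
          mul_le_mul_of_nonneg_left hfac (by positivity)
  calc 3 * (Q : ℝ) ^ 30 * Q.choose (2 * d) * K
      ≤ 3 * (Q : ℝ) ^ 30 * ((Q : ℝ) ^ (2 * d) / ((2 * d).factorial : ℝ)) * K := by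
        refine mul_le_mul_of_nonneg_right (mul_le_mul_of_nonneg_left hch (by positivity))
          (by positivity)
    _ = 1 / 4 * ((12 * (Q : ℝ) ^ 30 * K * (Q : ℝ) ^ (2 * d)) / ((2 * d).factorial : ℝ)) := by
        ring
    _ ≤ 1 / 4 * (K : ℝ) ^ (2 * d) := by
        refine mul_le_mul_of_nonneg_left ?_ (by norm_num)
        rw [div_le_iff₀ hfac0]
        exact hmain

theorem param_size (s A : ℕ) (hA : A = 18 * s ^ 2 + 158 * s + 322) {Q : ℕ}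
    (hQ : Q ≤ 2 ^ (A + 1)) : 6 * Q ^ 29 ≤ 2 ^ (3 + 29 * (18 * s ^ 2 + 158 * s + 323)) := by
  have e : 3 + 29 * (18 * s ^ 2 + 158 * s + 323) = 3 + (A + 1) * 29 := by
    rw [hA]
    ring
  rw [e, pow_add, pow_mul]
  exact Nat.mul_le_mul (by norm_num) (Nat.pow_le_pow_left hQ 29)

end Pool.Agent.H692.FL
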