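import Pool.Agent.H692.FL.Asm
import Pool.Agent.H692.FL.Final

/-!
# The complexes with weights
-/

namespace Pool.Agent.H692.FL

open Finset

open Classical in
theorem base_core {Q : ℕ} [Fact Q.Prime] (K D H k : ℕ) [NeZero K] (hH1 : 1 ≤ H)
    (hk : 3 * H * (81 * D ^ 3 * ((2 * H + 1) ^ 2 + 1) + 3) < 2 ^ k)
    (hL : ∑ i ∈ range (2 * k + 1), (3 * (Q : ℝ) / K) ^ i * (9 * (i + 3)) / K ≤ 1 / 4)
    (hH : 3 * (Q : ℝ) ^ 30 * Q.choose D * K ≤ 1 / 4 * (K : ℝ) ^ D) :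
    ∃ (E P T : Type) (_ : Fintype E) (_ : Fintype P) (_ : Fintype T) (X : Cx E P T) (good : Set T)
      (_ : X.Wts H good), 0 < Fintype.card E ∧ Fintype.card E ≤ 3 * Q ^ 29 ∧
      (Q : ℝ) / (12 * K) * Fintype.card E ≤ ((univ.filter fun t => t ∈ good).card : ℝ) := by
  have hM : 3 ≤ 3 := le_rfl
  have hQ : 0 < Q := (Fact.out : Q.Prime).pos
  have hKpos : 0 < K := Nat.pos_of_ne_zero (NeZero.ne K)
  obtain ⟨hfG⟩ : Nonempty (Fintype (Gt (ZMod Q) 3 Unit)) := nonempty_fintype _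
  obtain ⟨hfP⟩ : Nonempty (Fintype (gd (F := ZMod Q) (M := 3) (C := Unit) hM).Pt) :=
    nonempty_fintype _
  obtain ⟨hfE⟩ : Nonempty (Fintype (gd (F := ZMod Q) (M := 3) (C := Unit) hM).Ed) :=
    nonempty_fintype _
  have hcardF : Fintype.card (ZMod Q) = Q := ZMod.card Q
  have hcardG : Fintype.card (Gt (ZMod Q) 3 Unit) ≤ Q ^ 30 := by
    have h := card_Gt (F := ZMod Q) (M := 3) (C := Unit)
    rw [hcardF, Nat.card_eq_fintype_card] at h
    simpa using h
  obtain ⟨S, hS1, hS2⟩ := sparse (F := ZMod Q) (M := 3) (C := Unit) hM K D (2 * k + 1)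
    (by rw [hcardF]; exact hL) (by
      rw [hcardF]
      refine le_trans ?_ hH
      have h1 : (Fintype.card (Gt (ZMod Q) 3 Unit) : ℝ) ≤ (Q : ℝ) ^ 30 := by exact_mod_cast hcardG
      gcongr)
  rw [hcardF] at hS2
  obtain ⟨W⟩ := exists_wts (F := ZMod Q) (M := 3) (C := Unit) hM S D H k hH1 hk (by
    intro g hg c
    convert hS1 g hg c)
  -- the numbers
  obtain ⟨e0, he0⟩ : ∃ e0, e0 = (univ.filter fun e : (gd (F := ZMod Q) (M := 3) (C := Unit) hM).Ed =>
        (gd hM).hd e ∈ S ∧ (gd hM).tl e ∈ S).card := ⟨_, rfl⟩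
  obtain ⟨g0, hg0⟩ : ∃ g0, g0 = (univ.filter fun g : Gt (ZMod Q) 3 Unit =>
      g ∈ TS hM S ∧ ¬ Closed (TS hM S) g (2 * k + 1 + 1)).card := ⟨_, rfl⟩
  rw [← he0, ← hg0] at hS2
  have hg0pos : 0 < g0 := by
    have h1 : (0 : ℝ) ≤ (Q : ℝ) / (12 * K) * e0 := by positivity
    have h2 : (0 : ℝ) < g0 := lt_of_le_of_lt h1 hS2
    exact_mod_cast h2
  have he0pos : 0 < e0 := by
    rw [hg0, Finset.card_pos] at hg0pos
    obtain ⟨g, hg⟩ := hg0pos
    rw [Finset.mem_filter] at hg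
    rw [he0, Finset.card_pos]
    refine ⟨(gd hM).mkE 0 g, ?_⟩
    rw [Finset.mem_filter]
    exact ⟨Finset.mem_univ _, hg.2.1 0, hg.2.1 (0 + 2)⟩
  have he0le : e0 ≤ 3 * Q ^ 29 := by
    have h1 : e0 ≤ Fintype.card (gd (F := ZMod Q) (M := 3) (C := Unit) hM).Ed := by
      rw [he0]
      exact Finset.card_le_univ _
    have h2 := card_Ed (F := ZMod Q) (M := 3) (C := Unit) hM
    rw [hcardF, Nat.card_eq_fintype_card, Nat.card_eq_fintype_card] at h2
    have h3 : Q * e0 ≤ 3 * Q ^ 30 := by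
      calc Q * e0 ≤ Q * Fintype.card (gd (F := ZMod Q) (M := 3) (C := Unit) hM).Ed :=
            Nat.mul_le_mul_left _ h1
        _ ≤ 3 * Fintype.card (Gt (ZMod Q) 3 Unit) := h2
        _ ≤ 3 * Q ^ 30 := Nat.mul_le_mul_left _ hcardG
    have h4 : Q * e0 ≤ Q * (3 * Q ^ 29) := by
      refine h3.trans (le_of_eq ?_)
      ring
    exact Nat.le_of_mul_le_mul_left h4 hQ
  have hE : Fintype.card {e : (gd (F := ZMod Q) (M := 3) (C := Unit) hM).Ed //
      (gd hM).cx.hd e ∈ S ∧ (gd hM).cx.tl e ∈ S} = e0 := by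
    rw [Fintype.card_subtype, he0]
    congr
  refine ⟨_, _, _, inferInstance, hfP, inferInstance, _, _, W, ?_, ?_, ?_⟩
  · rw [hE]
    exact he0pos
  · rw [hE]
    exact he0le
  · rw [hE]
    refine hS2.le.trans ?_
    have h1 : g0 = Fintype.card {g : Gt (ZMod Q) 3 Unit // g ∈ TS hM S ∧
        ¬ Closed (TS hM S) g (2 * k + 1 + 1)} := by
      rw [Fintype.card_subtype, hg0]
    rw [h1, ← Finset.card_univ]
    have h2 : (univ : Finset {g : Gt (ZMod Q) 3 Unit // g ∈ TS hM S ∧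
        ¬ Closed (TS hM S) g (2 * k + 1 + 1)}).card ≤
        (univ.filter fun t : {t : Gt (ZMod Q) 3 Unit // ∀ c, (gd hM).cx.hd ((gd hM).cx.e t c) ∈ S} =>
          t ∈ {m : {t : Gt (ZMod Q) 3 Unit // ∀ c, (gd hM).cx.hd ((gd hM).cx.e t c) ∈ S} |
            ¬ Closed (TS hM S) m.1 (2 * (k + 1))}).card := by
      refine Finset.card_le_card_of_injOn (fun a => ⟨a.1, a.2.1⟩) ?_ ?_
      · intro a _
        rw [Finset.mem_coe, Finset.mem_filter]
        exact ⟨Finset.mem_univ _, a.2.2⟩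
      · intro a _ b _ h
        have h' := congrArg (fun z => z.1) h
        exact Subtype.ext h'
    refine le_trans (Nat.cast_le.2 h2) (le_of_eq ?_)
    congr

open Classical in
/-- The complexes with weights. -/
theorem base (s : ℕ) : ∃ (E P T : Type) (_ : Fintype E) (_ : Fintype P) (_ : Fintype T)
      (X : Cx E P T) (good : Set T) (_ : X.Wts (2 ^ s) good), 0 < Fintype.card E ∧
      2 * Fintype.card E ≤ 2 ^ (3 + 29 * (18 * s ^ 2 + 158 * s + 323)) ∧
      (2 : ℝ) ^ s / 12 * Fintype.card E ≤ ((univ.filter fun t => t ∈ good).card : ℝ) := by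
  obtain ⟨A, hA⟩ : ∃ A, A = 18 * s ^ 2 + 158 * s + 322 := ⟨_, rfl⟩
  obtain ⟨B, hB⟩ : ∃ B, B = 18 * s ^ 2 + 157 * s + 322 := ⟨_, rfl⟩
  have hAB : A = B + s := by rw [hA, hB]; ring
  obtain ⟨Q, hQp, hQ1, hQ2⟩ := Nat.exists_prime_lt_and_le_two_mul (2 ^ A) (by positivity)
  have hQ3 : Q ≤ 2 ^ (A + 1) := by rw [pow_succ, mul_comm]; exact hQ2
  have : Fact Q.Prime := ⟨hQp⟩
  obtain ⟨K, hK⟩ : ∃ K : ℕ, K = 2 ^ B := ⟨_, rfl⟩
  have hKpos : 0 < K := by rw [hK]; positivity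
  have : NeZero K := ⟨hKpos.ne'⟩
  have hKr : (K : ℝ) = 2 ^ B := by rw [hK]; push_cast; rfl
  have hQr1 : (2 : ℝ) ^ A ≤ Q := by exact_mod_cast hQ1.le
  have hQr2 : (Q : ℝ) ≤ 2 ^ (A + 1) := by exact_mod_cast hQ3
  have hQr0 : (0 : ℝ) < Q := lt_of_lt_of_le (by positivity) hQr1
  have hKr0 : (0 : ℝ) < K := by exact_mod_cast hKpos
  have hq : 3 * (Q : ℝ) / K ≤ 2 ^ (s + 3) := by
    rw [div_le_iff₀ hKr0, hKr, ← pow_add]
    have : (2 : ℝ) ^ (s + 3 + B) = 4 * 2 ^ (A + 1) := by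
      rw [hAB, show s + 3 + B = 2 + (B + s + 1) by ring, pow_add]
      norm_num
    rw [this]
    have h0 : (0 : ℝ) < 2 ^ (A + 1) := by positivity
    linarith
  obtain ⟨E, P, T, h1, h2, h3, X, good, W, h4, h5, h6⟩ := base_core (Q := Q) K (2 ^ (2 * s + 12))
    (2 ^ s) (9 * s + 50) Nat.one_le_two_pow (param_depth s) (param_sum s (by positivity) hq (by rw [hKr, hB]))
    (param_heavy s A B hA hB hQ3 hK)
  refine ⟨E, P, T, h1, h2, h3, X, good, W, h4, ?_, le_trans ?_ h6⟩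
  · refine le_trans ?_ (param_size s A hA hQ3)
    calc 2 * Fintype.card E ≤ 2 * (3 * Q ^ 29) := Nat.mul_le_mul_left _ h5
      _ = 6 * Q ^ 29 := by ring
  · have h1 : (2 : ℝ) ^ s * K ≤ Q := by
      rw [hKr, ← pow_add, add_comm s B, ← hAB]
      exact hQr1
    refine mul_le_mul_of_nonneg_right ?_ (Nat.cast_nonneg _)
    rw [div_le_div_iff₀ (by norm_num) (by positivity)]
    calc (2 : ℝ) ^ s * (12 * K) = 12 * ((2 : ℝ) ^ s * K) := by ring
      _ ≤ 12 * Q := mul_le_mul_of_nonneg_left h1 (by norm_num)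
      _ = (Q : ℝ) * 12 := by ring

theorem half_le {n e r : ℝ} (h3 : n < e * (r + 1)) (h4 : 2 * e ≤ n) : n / 2 ≤ e * r := by
  nlinarith

open Classical in
/-- The adversaries with `n` inputs. -/
theorem adversary (s n : ℕ) (hn : 2 ^ (3 + 29 * (18 * s ^ 2 + 158 * s + 323)) ≤ n) :
    ∃ (P T : Type) (_ : Fintype P) (_ : Fintype T) (A : AD (2 ^ s) (Fin n) P T)
      (τ : Fin n → ZMod 3),
      (∀ t c, τ (A.tr t c) = c) ∧ (2 : ℝ) ^ s * n / 24 ≤ (A.good.card : ℝ) := by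
  obtain ⟨E, P, T, _, _, _, X, good, W, h4, h5, h6⟩ := base s
  have hEle : 2 * Fintype.card E ≤ n := h5.trans hn
  obtain ⟨r, hr⟩ : ∃ r, r = n / Fintype.card E := ⟨_, rfl⟩
  have hr1 : Fintype.card E * r ≤ n := by rw [hr]; exact Nat.mul_div_le n _
  have hr2 : n < Fintype.card E * (r + 1) := by
    rw [hr]
    exact Nat.lt_mul_div_succ n h4
  obtain ⟨W2, -⟩ : ∃ W2, W2 = W.copy (Fin r) := ⟨_, rfl⟩
  have hE' : Fintype.card (E × Fin r) ≤ Fintype.card (Fin n) := by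
    rw [Fintype.card_prod, Fintype.card_fin, Fintype.card_fin]
    exact hr1
  obtain ⟨emb⟩ := Function.Embedding.nonempty_of_card_le hE'
  obtain ⟨j, hj⟩ : ∃ j : E × Fin r → Fin n, ∀ a, j a = emb a := ⟨fun a => emb a, fun _ => rfl⟩
  have hjinj : Function.Injective j := by
    intro a b h
    rw [hj, hj] at h
    exact emb.injective h
  refine ⟨_, _, inferInstance, inferInstance, (W2.toAD).pad j hjinj,
    Function.extend j (fun a => X.ty a.1) (fun _ => 0), ?_, ?_⟩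
  · intro t c
    change Function.extend j (fun a => X.ty a.1) (fun _ => 0) (j (W2.toAD.tr t c)) = c
    rw [hjinj.extend_apply]
    exact X.e_ty t.1 c
  · have hgood : (univ.filter fun t => t ∈ good).card * r ≤ (W2.toAD.pad j hjinj).good.card := by
      change (univ.filter fun t => t ∈ good).card * r ≤ W2.toAD.good.card
      have h1 : (univ.filter fun t => t ∈ good).card * r =
          ((univ.filter fun t => t ∈ good) ×ˢ (univ : Finset (Fin r))).card := by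
        rw [Finset.card_product, Finset.card_univ, Fintype.card_fin]
      rw [h1]
      refine Finset.card_le_card fun a ha => ?_
      rw [Cx.Wts.mem_good]
      rw [Finset.mem_product, Finset.mem_filter] at ha
      exact ha.1.2
    have h1 : ((univ.filter fun t => t ∈ good).card : ℝ) * (r : ℝ) ≤
        ((W2.toAD.pad j hjinj).good.card : ℝ) := by
      rw [← Nat.cast_mul]
      exact Nat.cast_le.2 hgood
    refine le_trans ?_ h1
    have h2 : (n : ℝ) / 2 ≤ Fintype.card E * r := by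
      have h3 : (n : ℝ) < Fintype.card E * (r + 1) := by exact_mod_cast hr2
      have h4 : 2 * (Fintype.card E : ℝ) ≤ n := by
        have := (Nat.cast_le (α := ℝ)).2 hEle
        rwa [Nat.cast_mul, Nat.cast_ofNat] at this
      exact half_le h3 h4
    calc (2 : ℝ) ^ s * n / 24 = (2 : ℝ) ^ s / 12 * (n / 2) := by ring
      _ ≤ (2 : ℝ) ^ s / 12 * (Fintype.card E * r) := mul_le_mul_of_nonneg_left h2 (by positivity)
      _ = ((2 : ℝ) ^ s / 12 * Fintype.card E) * r := by ring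
      _ ≤ _ := mul_le_mul_of_nonneg_right h6 (Nat.cast_nonneg _)

end Pool.Agent.H692.FL
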