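import Pool.Agent.H692.FL.Gt

/-!
# Sizes
-/

namespace Pool.Agent.H692.FL

open Finset

variable {F : Type} [Field F] [Fintype F] {M : ℕ} [NeZero M] {C : Type} [Group C]

/-- the values on three unit vectors -/
def sgl (g : G1 F M) (r : Fin 3) : ZMod (3 * M) → F :=
  g.1 (Pi.single ((r : ℕ) : ZMod (3 * M)) 1)

theorem single_shift (i : ZMod (3 * M)) :
    (Pi.single i 1 : ZMod (3 * M) → F) = fun j => (Pi.single (i + 3) 1 : ZMod (3 * M) → F) (j + 3) := by
  funext j
  simp [Pi.single_apply]

theorem sgl_injective : Function.Injective (sgl : G1 F M → Fin 3 → ZMod (3 * M) → F) := by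
  intro g g' h
  have key : ∀ k : ℕ, g.1 (Pi.single ((k : ℕ) : ZMod (3 * M)) 1) =
      g'.1 (Pi.single ((k : ℕ) : ZMod (3 * M)) 1) := by
    intro k
    induction k using Nat.strong_induction_on with
    | _ k ih =>
      by_cases hk : k < 3
      · exact congrFun h ⟨k, hk⟩
      · have h1 := ih (k - 3) (by omega)
        rw [single_shift] at h1
        have h2 : ((k - 3 : ℕ) : ZMod (3 * M)) + 3 = ((k : ℕ) : ZMod (3 * M)) := by
          have : ((k - 3 : ℕ) : ZMod (3 * M)) + 3 = ((k - 3 + 3 : ℕ) : ZMod (3 * M)) := by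
            push_cast
            ring
          rw [this, Nat.sub_add_cancel (by omega)]
        rw [h2] at h1
        funext i
        have h3 := congrFun h1 (i - 3)
        rw [g.2, g'.2, sub_add_cancel] at h3
        exact h3
  have hN : NeZero (3 * M) := ⟨by have := NeZero.ne M; omega⟩
  apply Subtype.ext
  apply LinearEquiv.toLinearMap_injective
  refine LinearMap.pi_ext fun i x => ?_
  have h1 : (Pi.single i x : ZMod (3 * M) → F) = x • Pi.single ((i.val : ℕ) : ZMod (3 * M)) 1 := by
    rw [ZMod.natCast_zmod_val]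
    funext j
    simp [Pi.single_apply]
  rw [h1]
  simp only [LinearEquiv.coe_coe, map_smul, key]

instance : Finite (G1 F M) := by
  have hN : NeZero (3 * M) := ⟨by have := NeZero.ne M; omega⟩
  exact Finite.of_injective _ sgl_injective

theorem card_G1 : Nat.card (G1 F M) ≤ Fintype.card F ^ (9 * M) := by
  have hN : NeZero (3 * M) := ⟨by have := NeZero.ne M; omega⟩
  have h := Nat.card_le_card_of_injective _ (sgl_injective (F := F) (M := M))
  refine h.trans (le_of_eq ?_)
  rw [Nat.card_eq_fintype_card, Fintype.card_fun, Fintype.card_fun, ZMod.card, Fintype.card_fin,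
    ← pow_mul]
  congr 1
  ring

instance [Finite C] : Finite (Gt F M C) := by
  have : Finite (Multiplicative (ZMod 3 → F)) := inferInstanceAs (Finite (ZMod 3 → F))
  infer_instance

theorem card_Gt [Finite C] : Nat.card (Gt F M C) ≤ Fintype.card F ^ (9 * M + 3) * Nat.card C := by
  have h1 : Nat.card (Gt F M C) = Nat.card (G1 F M) * Nat.card (Multiplicative (ZMod 3 → F)) *
      Nat.card C := by
    rw [Nat.card_prod, Nat.card_prod]
  have h2 : Nat.card (Multiplicative (ZMod 3 → F)) = Fintype.card F ^ 3 := by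
    change Nat.card (ZMod 3 → F) = _
    rw [Nat.card_eq_fintype_card, Fintype.card_fun]
    rfl
  rw [h1, h2, pow_add]
  exact Nat.mul_le_mul_right _ (Nat.mul_le_mul_right _ card_G1)

/-- the small subgroups have at least `q` elements -/
theorem card_EE [Finite C] (hM : 3 ≤ M) (c : ZMod 3) :
    Fintype.card F ≤ Nat.card ((gd (F := F) (M := M) (C := C) hM).E c) := by
  rw [← Nat.card_eq_fintype_card]
  refine Nat.card_le_card_of_injective
    (fun a : F => (⟨kel c a 0 0, ⟨a, rfl⟩⟩ : (gd (F := F) (M := M) (C := C) hM).E c)) ?_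
  intro a b h
  have h2 : (kel c a 0 0 : Gt F M C) = kel c b 0 0 := congrArg Subtype.val h
  have h3 := T2' (c := c) hM (x := a - b) (y := 0) (z := 0) (x' := 0) (y' := 0) (z' := 0) (by
    intro v
    have h4 : (kel c (a - b) 0 0 : Gt F M C) = kel (c + 1) 0 0 0 := by
      have h5 : (kel c (a - b) 0 0 : Gt F M C) = kel c a 0 0 * (kel c b 0 0)⁻¹ := by
        rw [kel_inv, kel_mul]
        congr 1 <;> ring
      rw [h5, h2, mul_inv_cancel, kel_zero]
    exact kel_inj h4 v)
  exact sub_eq_zero.1 h3.1

theorem card_Ed [Finite C] (hM : 3 ≤ M) : Fintype.card F *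
    Nat.card (gd (F := F) (M := M) (C := C) hM).Ed ≤ 3 * Nat.card (Gt F M C) := by
  have h1 : Nat.card (gd (F := F) (M := M) (C := C) hM).Ed =
      ∑ c : ZMod 3, Nat.card (Gt F M C ⧸ (gd (F := F) (M := M) (C := C) hM).E c) := by
    rw [Nat.card_sigma]
  rw [h1, Finset.mul_sum]
  have h2 : ∀ c : ZMod 3, Fintype.card F * Nat.card (Gt F M C ⧸ (gd (F := F) (M := M) (C := C)
      hM).E c) ≤ Nat.card (Gt F M C) := by
    intro c
    rw [Subgroup.card_eq_card_quotient_mul_card_subgroup ((gd (F := F) (M := M) (C := C) hM).E c),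
      mul_comm]
    exact Nat.mul_le_mul_left _ (card_EE hM c)
  calc _ ≤ ∑ _c : ZMod 3, Nat.card (Gt F M C) := Finset.sum_le_sum fun c _ => h2 c
    _ = 3 * Nat.card (Gt F M C) := by
      rw [Finset.sum_const, smul_eq_mul]
      rfl

end Pool.Agent.H692.FL
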