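import Pool.Agent.H692.FL.Cx5

/-!
# The classification of the circulations with at most five edges
-/

namespace Pool.Agent.H692.FL

open Finset

namespace Cx

variable {E P T : Type*} {X : Cx E P T} [Fintype E] [DecidableEq E] [DecidableEq P]

/-- a circulation with five edges that contains the edges of a triangle -/
theorem classify5_tri {f : E → ℝ} (hf : X.Circ f)
    (hcard : (univ.filter fun e => f e ≠ 0).card = 5) {t : T} (ht : ∀ c, f (X.e t c) ≠ 0) :
    X.Shape5 f := by
  classical
  obtain ⟨f', hf'⟩ : ∃ f' : E → ℝ, ∀ e, f' e = f e - f (X.e t 0) * X.ind t e := ⟨_, fun _ => rfl⟩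
  have hsum : ∀ g : E → ℝ, ∑ e, f' e * g e = ∑ e, f e * g e - f (X.e t 0) * X.V g t := by
    intro g
    rw [← sum_ind t g, Finset.mul_sum, ← Finset.sum_sub_distrib]
    refine Finset.sum_congr rfl fun e _ => ?_
    rw [hf']
    ring
  have hcirc : X.Circ f' := by
    intro p
    rw [hsum, hf p, ← sum_ind, circ_ind t p]
    ring
  have h0 : f' (X.e t 0) = 0 := by rw [hf', ind_self]; ring
  have hsup : ∀ e, f' e ≠ 0 → f e ≠ 0 := by
    intro e he hfe
    apply he
    rw [hf', hfe, ind_eq]
    rw [if_neg]
    · ring
    · intro h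
      apply ht (X.ty e)
      rw [h, hfe]
  have hsub : (univ.filter fun e => f' e ≠ 0) ⊆ (univ.filter fun e => f e ≠ 0).erase (X.e t 0) := by
    intro e he
    rw [Finset.mem_filter] at he
    rw [Finset.mem_erase, Finset.mem_filter]
    exact ⟨fun h => he.2 (by rw [h, h0]), Finset.mem_univ _, hsup e he.2⟩
  have hmem0 : X.e t 0 ∈ univ.filter fun e => f e ≠ 0 :=
    Finset.mem_filter.2 ⟨Finset.mem_univ _, ht 0⟩
  have hcard' : (univ.filter fun e => f' e ≠ 0).card ≤ 4 := by
    refine (Finset.card_le_card hsub).trans ?_
    rw [Finset.card_erase_of_mem hmem0, hcard]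
  by_cases hne : ∃ e, f' e ≠ 0
  · rcases classify hcirc hcard' hne with ⟨l, hl, t', h'⟩ | ⟨l, hl, t', t'', htt, ⟨c0, hc0⟩, h'⟩
    · have hfe : ∀ e, f e = f (X.e t 0) * X.ind t e + l * X.ind t' e := by
        intro e
        have := form_at h' e
        rw [hf', V_single] at this
        linarith
      have hfg : ∀ g : E → ℝ, ∑ e, f e * g e = f (X.e t 0) * X.V g t + l * X.V g t' := by
        intro g
        have := hsum g
        rw [h' g] at this
        linarith
      by_cases hsame : ∀ c, X.e t c = X.e t' c
      · have hV : ∀ g : E → ℝ, X.V g t = X.V g t' := by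
          intro g
          exact Finset.sum_congr rfl fun c _ => by rw [hsame c]
        left
        left
        refine ⟨f (X.e t 0) + l, fun hz => ht 0 ?_, t', fun g => ?_⟩
        · have e1 := hfe (X.e t 0)
          rw [ind_self, hsame 0, ind_self] at e1
          rw [hsame 0]
          rw [hsame 0] at hz
          linarith
        · rw [hfg, hV]
          ring
      push Not at hsame
      obtain ⟨c, hc⟩ := hsame
      have htt' : t ≠ t' := by
        rintro rfl
        exact hc rfl
      by_cases hsh : ∃ c, X.e t c = X.e t' c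
      · right
        left
        have e1 := hfe (X.e t c)
        have e2 := hfe (X.e t' c)
        rw [ind_self, ind_other hc] at e1
        rw [ind_self, ind_other hc.symm] at e2
        refine ⟨t, t', X.e t c, X.e t' c, htt', hsh, Or.inl (ht c), fun g => ?_⟩
        rw [hfg, e1, e2]
        ring
      · exfalso
        push Not at hsh
        have h6 : (univ.image (fun c => X.e t c) ∪ univ.image (fun c => X.e t' c)) ⊆
            (univ.filter fun e => f e ≠ 0) := by
          intro e he
          rw [Finset.mem_union, Finset.mem_image, Finset.mem_image] at he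
          rw [Finset.mem_filter]
          refine ⟨Finset.mem_univ _, ?_⟩
          rcases he with ⟨k, -, rfl⟩ | ⟨k, -, rfl⟩
          · exact ht k
          · rw [hfe, ind_self, ind_other (hsh k).symm]
            simpa using hl
        have h7 := Finset.card_le_card h6
        have hinj : ∀ s : T, Function.Injective (fun c => X.e s c) := by
          intro s a b hab
          have := congrArg X.ty hab
          simp only [X.e_ty] at this
          exact this
        rw [hcard, Finset.card_union_of_disjoint, Finset.card_image_of_injective _ (hinj t),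
          Finset.card_image_of_injective _ (hinj t'), Finset.card_univ, ZMod.card] at h7
        · omega
        · rw [Finset.disjoint_left]
          intro e h8 h9
          rw [Finset.mem_image] at h8 h9
          obtain ⟨a, -, rfl⟩ := h8
          obtain ⟨b, -, hb⟩ := h9
          have : b = a := by
            have := congrArg X.ty hb
            rwa [X.e_ty, X.e_ty] at this
          rw [this] at hb
          exact hsh a hb.symm
    · have hfe' : ∀ e, f' e = l * (X.ind t' e - X.ind t'' e) := by
        intro e
        have := form_at h' e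
        rwa [V_single, V_single] at this
      have hfe : ∀ e, f e = f (X.e t 0) * X.ind t e + l * (X.ind t' e - X.ind t'' e) := by
        intro e
        have := hfe' e
        rw [hf'] at this
        linarith
      have hfg : ∀ g : E → ℝ, ∑ e, f e * g e = f (X.e t 0) * X.V g t +
          l * (X.V g t' - X.V g t'') := by
        intro g
        have := hsum g
        rw [h' g] at this
        linarith
      have z3 : ∀ a c : ZMod 3, c ≠ a → ∃ b, (a = b + 1 ∧ c = b + 2) ∨ (a = b + 2 ∧ c = b + 1) := by
        decide
      have hall : ∀ c, c ≠ c0 → X.e t' c ≠ X.e t'' c := by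
        intro c hc hcc
        obtain ⟨e, he⟩ := hne
        apply he
        have hthree : ∀ k, X.e t' k = X.e t'' k := by
          obtain ⟨b, hb⟩ := z3 c0 c hc
          have hb3 : X.e t' b = X.e t'' b := by
            rcases hb with ⟨rfl, rfl⟩ | ⟨rfl, rfl⟩
            · exact third hc0 hcc
            · exact third hcc hc0
          have z4 : ∀ b k : ZMod 3, k = b ∨ k = b + 1 ∨ k = b + 2 := by decide
          intro k
          rcases hb with ⟨rfl, rfl⟩ | ⟨rfl, rfl⟩ <;> rcases z4 b k with rfl | rfl | rfl <;>
            assumption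
        rw [hfe', ind_eq, ind_eq, hthree]
        ring
      have hinj : ∀ (s s' : T) a b, a ≠ b → X.e s a ≠ X.e s' b := by
        intro s s' a b hab h
        have := congrArg X.ty h
        rw [X.e_ty, X.e_ty] at this
        exact hab this
      have q1 : ∀ c : ZMod 3, c + 1 ≠ c := by decide
      have q2 : ∀ c : ZMod 3, c + 2 ≠ c := by decide
      have q3 : ∀ c : ZMod 3, c + 1 ≠ c + 2 := by decide
      have y1 : c0 + 1 ≠ c0 := q1 c0
      have y2 : c0 + 2 ≠ c0 := q2 c0
      have y3 : c0 + 1 ≠ c0 + 2 := q3 c0
      have h4 : 4 ≤ (univ.filter fun e => f' e ≠ 0).card := by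
        have h5 : ({X.e t' (c0 + 1), X.e t' (c0 + 2), X.e t'' (c0 + 1), X.e t'' (c0 + 2)} :
            Finset E) ⊆ univ.filter fun e => f' e ≠ 0 := by
          intro e he
          rw [Finset.mem_filter]
          refine ⟨Finset.mem_univ _, ?_⟩
          simp only [Finset.mem_insert, Finset.mem_singleton] at he
          rcases he with rfl | rfl | rfl | rfl
          · rw [hfe', ind_self, ind_other (hall _ y1)]; simpa using hl
          · rw [hfe', ind_self, ind_other (hall _ y2)]; simpa using hl
          · rw [hfe', ind_self, ind_other (hall _ y1).symm]; simpa using hl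
          · rw [hfe', ind_self, ind_other (hall _ y2).symm]; simpa using hl
        refine le_trans (le_of_eq ?_) (Finset.card_le_card h5)
        rw [Finset.card_insert_of_notMem, Finset.card_insert_of_notMem,
          Finset.card_insert_of_notMem, Finset.card_singleton]
        · simpa using hinj _ _ _ _ y3
        · simpa using ⟨hinj _ _ _ _ y3.symm, hall _ y2⟩
        · simpa using ⟨hinj _ _ _ _ y3, hall _ y1, hinj _ _ _ _ y3⟩
      have hnz : ∀ c, c ≠ 0 → f' (X.e t c) ≠ 0 := by
        intro c hc hz
        have h5 : (univ.filter fun e => f' e ≠ 0) ⊆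
            ((univ.filter fun e => f e ≠ 0).erase (X.e t 0)).erase (X.e t c) := by
          intro e he
          rw [Finset.mem_erase]
          refine ⟨fun h => ?_, hsub he⟩
          rw [Finset.mem_filter] at he
          exact he.2 (by rw [h, hz])
        have h6 := Finset.card_le_card h5
        rw [Finset.card_erase_of_mem, Finset.card_erase_of_mem hmem0, hcard] at h6
        · omega
        · rw [Finset.mem_erase, Finset.mem_filter]
          exact ⟨hinj _ _ _ _ hc, Finset.mem_univ _, ht c⟩
      have hc00 : c0 = 0 := by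
        by_contra hc
        apply hnz c0 hc
        rw [hfe', ind_eq, ind_eq, X.e_ty, hc0]
        ring
      subst hc00
      have hor : ∀ c, c ≠ 0 → X.e t' c = X.e t c ∨ X.e t'' c = X.e t c := by
        intro c hc
        by_contra hcon
        push Not at hcon
        apply hnz c hc
        rw [hfe', ind_eq, ind_eq, X.e_ty, if_neg hcon.1, if_neg hcon.2]
        ring
      have w1 : (1 : ZMod 3) ≠ 0 := by decide
      have w2 : (2 : ZMod 3) ≠ 0 := by decide
      have w3 : (0 : ZMod 3) + 1 = 1 := by decide
      have w4 : (0 : ZMod 3) + 2 = 2 := by decide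
      have w5 : (1 : ZMod 3) + 1 = 2 := by decide
      have hd1 := hall 1 w1
      have gl0' := X.glue t' 0
      have gl0'' := X.glue t'' 0
      have gl1 := X.glue t 1
      have gl1' := X.glue t' 1
      have gl1'' := X.glue t'' 1
      rw [w3] at gl0' gl0''
      rw [w5] at gl1 gl1' gl1''
      have htl : X.tl (X.e t' 1) = X.tl (X.e t'' 1) := by rw [← gl0', ← gl0'', hc0]
      rcases hor 1 w1 with h1 | h1 <;> rcases hor 2 w2 with h2 | h2
      · have h3 : X.e t 0 = X.e t' 0 := third (by rw [w3]; exact h1.symm) (by rw [w4]; exact h2.symm)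
        have hV : ∀ g : E → ℝ, X.V g t = X.V g t' := by
          intro g
          rw [V_eq g t 0, V_eq g t' 0, w3, w4, h1, h2, h3]
        right
        left
        have e1 := hfe (X.e t' 1)
        have e2 := hfe (X.e t'' 1)
        rw [ind_self, ind_other hd1, h1, ind_self, ← h1] at e1
        rw [ind_self, ind_other hd1.symm, ind_other (by rw [← h1]; exact hd1.symm)] at e2
        refine ⟨t', t'', X.e t' 1, X.e t'' 1, htt, ⟨0, hc0⟩, Or.inr ?_, fun g => ?_⟩
        · rw [e2]
          simpa using hl
        · rw [hfg, hV, e1, e2]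
          ring
      · exfalso
        apply hd1
        apply X.simple _ _ _ htl
        rw [h1, gl1, ← h2, ← gl1'']
      · exfalso
        apply hd1
        apply X.simple _ _ _ htl
        rw [h1, gl1, ← h2, ← gl1']
      · have h3 : X.e t 0 = X.e t'' 0 :=
          third (by rw [w3]; exact h1.symm) (by rw [w4]; exact h2.symm)
        have hV : ∀ g : E → ℝ, X.V g t = X.V g t'' := by
          intro g
          rw [V_eq g t 0, V_eq g t'' 0, w3, w4, h1, h2, h3]
        right
        left
        have e1 := hfe (X.e t' 1)
        have e2 := hfe (X.e t'' 1)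
        rw [ind_self, ind_other hd1, ind_other (by rw [← h1]; exact hd1)] at e1
        rw [ind_self, ind_other hd1.symm, h1, ind_self, ← h1] at e2
        refine ⟨t', t'', X.e t' 1, X.e t'' 1, htt, ⟨0, hc0⟩, Or.inl ?_, fun g => ?_⟩
        · rw [e1]
          simpa using hl
        · rw [hfg, hV, e1, e2]
          ring
  · push Not at hne
    left
    left
    refine ⟨f (X.e t 0), ht 0, t, fun g => ?_⟩
    have := hsum g
    simp only [hne, zero_mul, Finset.sum_const_zero] at this
    linarith

/-- a circulation with five edges that contains no triangle -/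
theorem classify5_free {f : E → ℝ} (hf : X.Circ f)
    (hcard : (univ.filter fun e => f e ≠ 0).card = 5) (ht : ¬ ∃ t, ∀ c, f (X.e t c) ≠ 0) :
    X.Shape5 f := by
  classical
  have full : ∀ S : Finset E, S.card = 5 → (∀ e ∈ S, f e ≠ 0) → ∀ e, f e ≠ 0 → e ∈ S := by
    intro S hS hS' e he
    have hsub : S ⊆ univ.filter fun e => f e ≠ 0 := by
      intro e he
      simp [hS' e he]
    have := Finset.eq_of_subset_of_card_le hsub (by omega)
    rw [this]
    simp [he]
  have notri : ∀ {a b c : E} {p r s : P}, X.Ends a p r → X.Ends b r s → X.Ends c s p →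
      f a ≠ 0 → f b ≠ 0 → f c ≠ 0 → False := by
    intro a b c p r s h1 h2 h3 f1 f2 f3
    obtain ⟨t, h⟩ := tri_of_ends h1 h2 h3
    apply ht
    refine ⟨t, fun k => ?_⟩
    rcases h k with h | h | h <;> rw [h] <;> assumption
  obtain ⟨e1, f1⟩ : ∃ e, f e ≠ 0 := by
    have : (univ.filter fun e => f e ≠ 0).Nonempty := by
      rw [← Finset.card_pos]
      omega
    obtain ⟨e, he⟩ := this
    exact ⟨e, (Finset.mem_filter.1 he).2⟩
  obtain ⟨p0, hp0⟩ : ∃ p, p = X.tl e1 := ⟨_, rfl⟩
  obtain ⟨p1, hp1⟩ : ∃ p, p = X.hd e1 := ⟨_, rfl⟩
  have E1 : X.Ends e1 p0 p1 := by rw [hp0, hp1]; exact ends_self e1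
  obtain ⟨e2, p2, n21, f2, E2, d20, d21⟩ := hf.next f1 E1
  obtain ⟨e3, p3, n32, f3, E3, d31, d32⟩ := hf.next f2 E2
  have d10 := E1.ne
  have d30 : p3 ≠ p0 := by
    rintro rfl
    exact notri E1 E2 E3 f1 f2 f3
  obtain ⟨e4, p4, n43, f4, E4, d42, d43⟩ := hf.next f3 E3
  have d41 : p4 ≠ p1 := by
    rintro rfl
    exact notri E2 E3 E4 f2 f3 f4
  have key : ∀ {a b : E} {p r s u : P}, X.Ends a p r → X.Ends b s u → a = b → p = s ∨ p = u := by
    intro a b p r s u h1 h2 h
    subst h
    exact (h2.mem h1).imp id id
  have n31 : e3 ≠ e1 := by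
    intro h
    rcases key E3 E1 h with h | h
    · exact d20 h
    · exact d21 h
  have n41 : e4 ≠ e1 := by
    intro h
    rcases key E4 E1 h with h | h
    · exact d30 h
    · exact d31 h
  have n42 : e4 ≠ e2 := by
    intro h
    rcases key E4 E2 h with h | h
    · exact d31 h
    · exact d32 h
  by_cases h40 : p4 = p0
  · -- a cycle of length four
    exfalso
    subst h40
    obtain ⟨e5, f5, m1, m2, m3, m4⟩ : ∃ e5, f e5 ≠ 0 ∧ e5 ≠ e1 ∧ e5 ≠ e2 ∧ e5 ≠ e3 ∧ e5 ≠ e4 := by
      by_contra hcon
      push Not at hcon
      have hsub : (univ.filter fun e => f e ≠ 0) ⊆ {e1, e2, e3, e4} := by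
        intro e he
        rw [Finset.mem_filter] at he
        simp only [Finset.mem_insert, Finset.mem_singleton]
        by_contra h
        push Not at h
        exact h.2.2.2 (hcon e he.2 h.1 h.2.1 h.2.2.1)
      have := Finset.card_le_card hsub
      have := Finset.card_le_four (a := e1) (b := e2) (c := e3) (d := e4)
      omega
    have hS := full {e1, e2, e3, e4, e5} (by
      rw [card_insert_of_notMem, card_insert_of_notMem, card_insert_of_notMem,
        card_insert_of_notMem, card_singleton]
      · simpa using m4.symm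
      · simpa using ⟨n43.symm, m3.symm⟩
      · simpa using ⟨n32.symm, n42.symm, m2.symm⟩
      · simpa using ⟨n21.symm, n31.symm, n41.symm, m1.symm⟩) (by
      intro e he
      simp only [mem_insert, mem_singleton] at he
      rcases he with rfl | rfl | rfl | rfl | rfl <;> assumption)
    have hpt : ∀ p r, X.Ends e5 p r → r = p4 ∨ r = p1 ∨ r = p2 ∨ r = p3 := by
      intro p r h4
      obtain ⟨b, s, hb, fb, Eb, -, -⟩ := hf.next f5 h4
      have := hS b fb
      simp only [mem_insert, mem_singleton] at this
      rcases this with h | h | h | h | h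
      · rcases key Eb E1 h with h | h <;> simp [h]
      · rcases key Eb E2 h with h | h <;> simp [h]
      · rcases key Eb E3 h with h | h <;> simp [h]
      · rcases key Eb E4 h with h | h <;> simp [h]
      · exact absurd h hb
    have E5 := ends_self (X := X) e5
    have hq := hpt _ _ E5
    have hr := hpt _ _ E5.symm
    have hqr := E5.ne
    revert E5 hqr
    generalize X.tl e5 = r at hq hr
    generalize X.hd e5 = q at hq hr
    intro E5 hqr
    rcases hr with rfl | rfl | rfl | rfl <;> rcases hq with rfl | rfl | rfl | rfl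
    · exact hqr rfl
    · exact m1 (E5.inj E1)
    · exact notri E1 E2 E5.symm f1 f2 f5
    · exact m4 (E5.symm.inj E4)
    · exact m1 (E5.symm.inj E1)
    · exact hqr rfl
    · exact m2 (E5.inj E2)
    · exact notri E2 E3 E5.symm f2 f3 f5
    · exact notri E1 E2 E5 f1 f2 f5
    · exact m2 (E5.symm.inj E2)
    · exact hqr rfl
    · exact m3 (E5.inj E3)
    · exact m4 (E5.inj E4)
    · exact notri E2 E3 E5 f2 f3 f5
    · exact m3 (E5.symm.inj E3)
    · exact hqr rfl
  · obtain ⟨e5, p5, n54, f5, E5, d53, d54⟩ := hf.next f4 E4
    have n51 : e5 ≠ e1 := by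
      intro h
      rcases key E5 E1 h with h | h
      · exact h40 h
      · exact d41 h
    have n52 : e5 ≠ e2 := by
      intro h
      rcases key E5 E2 h with h | h
      · exact d41 h
      · exact d42 h
    have n53 : e5 ≠ e3 := by
      intro h
      rcases key E5 E3 h with h | h
      · exact d42 h
      · exact d43 h
    have hS := full {e1, e2, e3, e4, e5} (by
      rw [card_insert_of_notMem, card_insert_of_notMem, card_insert_of_notMem,
        card_insert_of_notMem, card_singleton]
      · simpa using n54.symm
      · simpa using ⟨n43.symm, n53.symm⟩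
      · simpa using ⟨n32.symm, n42.symm, n52.symm⟩
      · simpa using ⟨n21.symm, n31.symm, n41.symm, n51.symm⟩) (by
      intro e he
      simp only [mem_insert, mem_singleton] at he
      rcases he with rfl | rfl | rfl | rfl | rfl <;> assumption)
    have h50 : p5 = p0 := by
      obtain ⟨b, s, hb, fb, Eb, -, -⟩ := hf.next f1 E1.symm
      have := hS b fb
      simp only [mem_insert, mem_singleton] at this
      rcases this with h | h | h | h | h
      · exact absurd h hb
      · rcases key Eb E2 h with h | h
        · exact absurd h d10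
        · exact absurd h.symm d20
      · rcases key Eb E3 h with h | h
        · exact absurd h.symm d20
        · exact absurd h.symm d30
      · rcases key Eb E4 h with h | h
        · exact absurd h.symm d30
        · exact absurd h.symm h40
      · rcases key Eb E5 h with h | h
        · exact absurd h.symm h40
        · exact h.symm
    subst h50
    have hs : ∀ e, f e ≠ 0 → e = e1 ∨ e = e2 ∨ e = e3 ∨ e = e4 ∨ e = e5 := by
      intro e he
      have := hS e he
      simpa only [mem_insert, mem_singleton] using this
    have n02 := d20.symm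
    have n03 := d30.symm
    have n04 : p5 ≠ p4 := fun h => h40 h.symm
    have n13 := d31.symm
    have n14 := d41.symm
    have n24 := d42.symm
    have rot : ∀ {a b c d k : E}, (∀ e, f e ≠ 0 → e = a ∨ e = b ∨ e = c ∨ e = d ∨ e = k) →
        ∀ e, f e ≠ 0 → e = b ∨ e = c ∨ e = d ∨ e = k ∨ e = a := by
      intro a b c d k h e he
      have := h e he
      tauto
    have rev : ∀ {a b c d k : E}, (∀ e, f e ≠ 0 → e = a ∨ e = b ∨ e = c ∨ e = d ∨ e = k) →
        ∀ e, f e ≠ 0 → e = d ∨ e = c ∨ e = b ∨ e = a ∨ e = k := by
      intro a b c d k h e he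
      have := h e he
      tauto
    -- one arrow against the others
    have one : ∀ {a b c d k : E} {q0 q1 q2 q3 q4 : P}, q0 ≠ q3 → q1 ≠ q4 →
        (∀ e, f e ≠ 0 → e = a ∨ e = b ∨ e = c ∨ e = d ∨ e = k) → f a ≠ 0 →
        X.Ar a q0 q1 → X.Ar b q1 q2 → X.Ar c q2 q3 → X.Ar d q3 q4 → X.Ar k q0 q4 →
        X.Shape5 f := by
      intro a b c d k q0 q1 q2 q3 q4 m1 m2 h ha g1 g2 g3 g4 g5
      exact shape5 hf h ha m1 m2 g1 g2 g3 g4 g5
    have hs2 := rot hs
    have hs3 := rot hs2
    have hs4 := rot hs3
    have hs5 := rot hs4
    rcases E1 with h1 | h1 <;> rcases E2 with h2 | h2 <;> rcases E3 with h3 | h3 <;>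
      rcases E4 with h4 | h4 <;> rcases E5 with h5 | h5 <;>
      first
      | exact one n03 n14 hs f1 h1 h2 h3 h4 h5
      | exact one n14 n02.symm hs2 f2 h2 h3 h4 h5 h1
      | exact one n02.symm n13.symm hs3 f3 h3 h4 h5 h1 h2
      | exact one n13.symm n24.symm hs4 f4 h4 h5 h1 h2 h3
      | exact one n24.symm n03 hs5 f5 h5 h1 h2 h3 h4
      | exact one n14.symm n03.symm (rev hs) f4 h4 h3 h2 h1 h5
      | exact one n02 n14.symm (rev hs2) f5 h5 h4 h3 h2 h1
      | exact one n13 n02 (rev hs3) f1 h1 h5 h4 h3 h2
      | exact one n24 n13 (rev hs4) f2 h2 h1 h5 h4 h3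
      | exact one n03.symm n24 (rev hs5) f3 h3 h2 h1 h5 h4
      | (exfalso
         have q1 := h1.ty
         have q2 := h2.ty
         have q3 := h3.ty
         have q4 := h4.ty
         have q5 := h5.ty
         revert q1 q2 q3 q4 q5
         generalize X.pty p5 = t0
         generalize X.pty p1 = t1
         generalize X.pty p2 = t2
         generalize X.pty p3 = t3
         generalize X.pty p4 = t4
         revert t0 t1 t2 t3 t4
         decide)

theorem classify5 {f : E → ℝ} (hf : X.Circ f) (hcard : (univ.filter fun e => f e ≠ 0).card ≤ 5)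
    (hne : ∃ e, f e ≠ 0) : X.Shape5 f := by
  by_cases h4 : (univ.filter fun e => f e ≠ 0).card ≤ 4
  · exact Or.inl (classify hf h4 hne)
  · have h5 : (univ.filter fun e => f e ≠ 0).card = 5 := by omega
    by_cases ht : ∃ t, ∀ c, f (X.e t c) ≠ 0
    · obtain ⟨t, ht⟩ := ht
      exact classify5_tri hf h5 ht
    · exact classify5_free hf h5 ht

end Cx

end Pool.Agent.H692.FL
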