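import Pool.Agent.H692.FL.Bad
import Pool.Agent.H692.FL.Card

/-!
# A random set of points
-/

namespace Pool.Agent.H692.FL

open Finset

open Classical in
theorem prob {P : Type*} [Fintype P] (K : ℕ) [NeZero K] (S : Finset P) :
    (∑ χ : P → Fin K, if ∀ p ∈ S, χ p = 0 then (1 : ℝ) else 0) * (K : ℝ) ^ S.card =
      (K : ℝ) ^ Fintype.card P := by
  have h1 : (univ.filter fun χ : P → Fin K => ∀ p ∈ S, χ p = 0) =
      Fintype.piFinset (fun p => if p ∈ S then ({0} : Finset (Fin K)) else univ) := by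
    ext χ
    simp only [Finset.mem_filter, Finset.mem_univ, true_and, Fintype.mem_piFinset]
    refine forall_congr' fun p => ?_
    by_cases h : p ∈ S <;> simp [h]
  rw [Finset.sum_boole, h1, Fintype.card_piFinset]
  have h2 : ∀ p : P, (if p ∈ S then ({0} : Finset (Fin K)) else univ).card =
      if p ∈ S then 1 else K := by
    intro p
    by_cases h : p ∈ S <;> simp [h]
  simp only [h2]
  rw [Finset.prod_ite, Finset.prod_const_one, one_mul, Finset.prod_const]
  push_cast
  rw [← pow_add]
  congr 1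
  have h3 : (univ.filter fun p => p ∉ S) = univ \ S := by
    ext p
    simp
  rw [h3, Finset.card_sdiff_of_subset (Finset.subset_univ _), Finset.card_univ]
  exact Nat.sub_add_cancel (Finset.card_le_univ S)

variable {F : Type} [Field F] [Fintype F] {M : ℕ} [NeZero M] {C : Type} [Group C] [Finite C]
  (hM : 3 ≤ M)

/-- all words of length `i` -/
noncomputable def LL (F : Type) [Fintype F] : ℕ → Finset (List (ZMod 3 × F))
  | 0 => {[]}
  | i + 1 => (LL F i ×ˢ (univ : Finset (ZMod 3 × F))).map (consE F)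

theorem card_LL : ∀ i : ℕ, (LL F i).card = (3 * Fintype.card F) ^ i
  | 0 => by simp [LL]
  | i + 1 => by
    rw [LL, Finset.card_map, Finset.card_product, card_LL i, pow_succ, Finset.card_univ,
      Fintype.card_prod]
    rfl

theorem mem_LL : ∀ l : List (ZMod 3 × F), l ∈ LL F l.length
  | [] => by simp [LL]
  | x :: l => by
    rw [List.length_cons, LL, Finset.mem_map]
    exact ⟨(l, x), Finset.mem_product.2 ⟨mem_LL l, Finset.mem_univ _⟩, rfl⟩

theorem length_LL : ∀ {i : ℕ} {l : List (ZMod 3 × F)}, l ∈ LL F i → l.length = i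
  | 0, l, h => by
    have : l = [] := by simpa [LL] using h
    rw [this]
    rfl
  | i + 1, l, h => by
    rw [LL, Finset.mem_map] at h
    obtain ⟨⟨l', x⟩, h1, rfl⟩ := h
    have := length_LL (Finset.mem_product.1 h1).1
    change l'.length + 1 = i + 1
    exact congrArg (· + 1) this

open Classical in
/-- the points of a line with many triangles -/
noncomputable def HP (g : Gt F M C) (c : ZMod 3) (A : Finset F) :
    Finset (gd (F := F) (C := C) hM).Pt :=
  insert ((gd hM).mkP c g) (insert ((gd hM).mkP (c + 2) g)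
    (A.image fun a => (gd hM).mkP (c + 1) (g * kel c a 0 0)))

theorem line_inj (g : Gt F M C) (c : ZMod 3) : Function.Injective
    (fun a : F => (gd (F := F) (C := C) hM).mkP (c + 1) (g * kel c a 0 0)) := by
  intro a b h
  have h1 := ((gd hM).mkP_eq.1 h).2
  have h2 : (g * kel c a 0 0)⁻¹ * (g * kel c b 0 0) = kel c (b - a) 0 0 := by
    have e2 : (kel c (b - a) 0 0 : Gt F M C) = (kel c a 0 0)⁻¹ * kel c b 0 0 := by
      rw [kel_inv, kel_mul]
      congr 1 <;> ring
    rw [e2]
    group
  rw [h2] at h1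
  exact (sub_eq_zero.1 (kel_mem_next hM h1)).symm

theorem card_HP (g : Gt F M C) (c : ZMod 3) (A : Finset F) : (HP hM g c A).card = A.card + 2 := by
  classical
  have z1 : c ≠ c + 2 := by decide +revert
  have z2 : c + 1 ≠ c := by decide +revert
  have z3 : c + 1 ≠ c + 2 := by decide +revert
  rw [HP, Finset.card_insert_of_notMem, Finset.card_insert_of_notMem,
    Finset.card_image_of_injective _ (line_inj hM g c)]
  · intro h
    rw [Finset.mem_image] at h
    obtain ⟨a, -, h⟩ := h
    exact z3 (GD.mkP_eq _ |>.1 h).1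
  · intro h
    rw [Finset.mem_insert, Finset.mem_image] at h
    rcases h with h | ⟨a, -, h⟩
    · exact z1 (GD.mkP_eq _ |>.1 h).1
    · exact z2 (GD.mkP_eq _ |>.1 h).1

open Classical in
/-- the indicator of the event that all points of `S` are chosen -/
noncomputable def ind {P : Type*} {K : ℕ} [NeZero K] (S : Finset P) (χ : P → Fin K) : ℝ :=
  if ∀ p ∈ S, χ p = 0 then 1 else 0

theorem ind_nonneg {P : Type*} {K : ℕ} [NeZero K] (S : Finset P) (χ : P → Fin K) :
    0 ≤ ind S χ := by
  unfold ind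
  split_ifs <;> norm_num

theorem ind_le {P : Type*} {K : ℕ} [NeZero K] (S : Finset P) (χ : P → Fin K) :
    ind S χ ≤ 1 := by
  unfold ind
  split_ifs <;> norm_num

theorem sum_ind {P : Type*} [Fintype P] [DecidableEq P] (K : ℕ) [NeZero K] (S : Finset P) :
    ∑ χ : P → Fin K, ind S χ = (K : ℝ) ^ Fintype.card P / (K : ℝ) ^ S.card := by
  classical
  have h := prob K S
  have hK : (0 : ℝ) < (K : ℝ) := by exact_mod_cast Nat.pos_of_ne_zero (NeZero.ne K)
  rw [eq_div_iff (pow_pos hK _).ne', ← h]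
  congr 1
  refine Finset.sum_congr (Finset.ext fun _ => by simp only [Finset.mem_univ]) fun χ _ => ?_
  unfold ind
  congr

section

variable [Fintype (Gt F M C)] [Fintype (gd (F := F) (M := M) (C := C) hM).Pt]
  [Fintype (gd (F := F) (M := M) (C := C) hM).Ed]

open Classical in
/-- the number of chosen triangles -/
noncomputable def a1 {K : ℕ} [NeZero K] (χ : (gd (F := F) (M := M) (C := C) hM).Pt → Fin K) : ℝ :=
  ∑ g : Gt F M C, ind (Pts hM g []) χ

open Classical in
/-- the number of bad structures -/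
noncomputable def a2 (L : ℕ) {K : ℕ} [NeZero K]
    (χ : (gd (F := F) (M := M) (C := C) hM).Pt → Fin K) : ℝ :=
  ∑ i ∈ range L, ∑ g : Gt F M C, ∑ l ∈ LL F i, ∑ p : (ZMod 3 × F) × (ZMod 3 × F),
    if BS hM g l p.1 p.2 then ind (Pts hM g (p.1 :: l)) χ else 0

open Classical in
/-- the number of heavy lines -/
noncomputable def a3 (D : ℕ) {K : ℕ} [NeZero K]
    (χ : (gd (F := F) (M := M) (C := C) hM).Pt → Fin K) : ℝ :=
  ∑ g : Gt F M C, ∑ c : ZMod 3, ∑ A ∈ powersetCard D (univ : Finset F), ind (HP hM g c A) χ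

open Classical in
/-- the number of chosen edges -/
noncomputable def a4 {K : ℕ} [NeZero K]
    (χ : (gd (F := F) (M := M) (C := C) hM).Pt → Fin K) : ℝ :=
  ∑ e : (gd (F := F) (M := M) (C := C) hM).Ed, ind {(gd hM).hd e, (gd hM).tl e} χ

open Classical in
theorem sum_a1 (K : ℕ) [NeZero K] : ∑ χ, a1 (K := K) (F := F) (M := M) (C := C) hM χ =
    (Fintype.card (Gt F M C) : ℝ) *
      ((K : ℝ) ^ Fintype.card (gd (F := F) (M := M) (C := C) hM).Pt / (K : ℝ) ^ 3) := by
  simp only [a1]
  rw [Finset.sum_comm]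
  have : ∀ g : Gt F M C, ∑ χ : (gd (F := F) (M := M) (C := C) hM).Pt → Fin K,
      ind (Pts hM g []) χ =
      (K : ℝ) ^ Fintype.card (gd (F := F) (M := M) (C := C) hM).Pt / (K : ℝ) ^ 3 := by
    intro g
    have h := sum_ind K (Pts hM g [])
    rw [card_Pts_nil] at h
    exact h
  simp only [this, Finset.sum_const, Finset.card_univ, nsmul_eq_mul]

open Classical in
theorem sum_a2 (L K : ℕ) [NeZero K] : ∑ χ, a2 (K := K) (F := F) (M := M) (C := C) hM L χ ≤
    (Fintype.card (Gt F M C) : ℝ) *
      ((K : ℝ) ^ Fintype.card (gd (F := F) (M := M) (C := C) hM).Pt / (K : ℝ) ^ 3) *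
      ∑ i ∈ range L, (3 * (Fintype.card F : ℝ) / K) ^ i * (9 * (i + 3)) / K := by
  have hK : (0 : ℝ) < (K : ℝ) := by exact_mod_cast Nat.pos_of_ne_zero (NeZero.ne K)
  simp only [a2]
  rw [Finset.sum_comm, Finset.mul_sum]
  refine Finset.sum_le_sum fun i _ => ?_
  rw [Finset.sum_comm]
  have h1 : ∀ g : Gt F M C, ∑ χ : (gd (F := F) (M := M) (C := C) hM).Pt → Fin K,
      ∑ l ∈ LL F i, ∑ p : (ZMod 3 × F) × (ZMod 3 × F),
        (if BS hM g l p.1 p.2 then ind (Pts hM g (p.1 :: l)) χ else 0) ≤
      (3 * (Fintype.card F : ℝ)) ^ i * (9 * (i + 3)) *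
      ((K : ℝ) ^ Fintype.card (gd (F := F) (M := M) (C := C) hM).Pt / (K : ℝ) ^ (i + 4)) := by
    intro g
    rw [Finset.sum_comm]
    have h2 : ∀ l ∈ LL F i, ∑ χ : (gd (F := F) (M := M) (C := C) hM).Pt → Fin K,
        ∑ p : (ZMod 3 × F) × (ZMod 3 × F),
        (if BS hM g l p.1 p.2 then ind (Pts hM g (p.1 :: l)) χ else 0) ≤
        (9 * (i + 3)) *
      ((K : ℝ) ^ Fintype.card (gd (F := F) (M := M) (C := C) hM).Pt / (K : ℝ) ^ (i + 4)) := by
      intro l hl
      rw [Finset.sum_comm]
      have hlen := length_LL hl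
      have h3 : ∀ p : (ZMod 3 × F) × (ZMod 3 × F),
          ∑ χ : (gd (F := F) (M := M) (C := C) hM).Pt → Fin K,
          (if BS hM g l p.1 p.2 then ind (Pts hM g (p.1 :: l)) χ else 0) =
          if BS hM g l p.1 p.2 then
          ((K : ℝ) ^ Fintype.card (gd (F := F) (M := M) (C := C) hM).Pt / (K : ℝ) ^ (i + 4))
          else 0 := by
        intro p
        by_cases hb : BS hM g l p.1 p.2
        · simp only [hb, if_true]
          have hc := hb.2.2.1
          rw [hlen] at hc
          have h := sum_ind K (Pts hM g (p.1 :: l))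
          rw [hc] at h
          exact h
        · simp [hb]
      simp only [h3]
      rw [← Finset.sum_filter, Finset.sum_const, nsmul_eq_mul]
      have h4 := card_BS hM g l
      rw [hlen] at h4
      have h5 : ((univ.filter fun p : (ZMod 3 × F) × (ZMod 3 × F) =>
        BS hM g l p.1 p.2).card : ℝ) ≤ 9 * (i + 3) := by exact_mod_cast h4
      exact mul_le_mul_of_nonneg_right (by convert h5) (by positivity)
    refine (Finset.sum_le_sum h2).trans ?_
    rw [Finset.sum_const, nsmul_eq_mul, card_LL]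
    push_cast
    apply le_of_eq
    ring
  refine (Finset.sum_le_sum fun g _ => h1 g).trans ?_
  rw [Finset.sum_const, nsmul_eq_mul, Finset.card_univ]
  apply le_of_eq
  rw [div_pow]
  have h6 : (K : ℝ) ^ (i + 4) = (K : ℝ) ^ 3 * (K : ℝ) ^ i * K := by ring
  rw [h6]
  have h7 : (K : ℝ) ^ i ≠ 0 := (pow_pos hK _).ne'
  field_simp

open Classical in
theorem sum_a3 (D K : ℕ) [NeZero K] : ∑ χ, a3 (K := K) (F := F) (M := M) (C := C) hM D χ =
    (Fintype.card (Gt F M C) : ℝ) * (3 * ((Fintype.card F).choose D *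
      ((K : ℝ) ^ Fintype.card (gd (F := F) (M := M) (C := C) hM).Pt / (K : ℝ) ^ (D + 2)))) := by
  simp only [a3]
  rw [Finset.sum_comm]
  have h1 : ∀ g : Gt F M C, ∑ χ : (gd (F := F) (M := M) (C := C) hM).Pt → Fin K,
      ∑ c : ZMod 3, ∑ A ∈ powersetCard D (univ : Finset F), ind (HP hM g c A) χ =
      3 * ((Fintype.card F).choose D *
      ((K : ℝ) ^ Fintype.card (gd (F := F) (M := M) (C := C) hM).Pt / (K : ℝ) ^ (D + 2))) := by
    intro g
    rw [Finset.sum_comm]
    have h2 : ∀ c : ZMod 3, ∑ χ : (gd (F := F) (M := M) (C := C) hM).Pt → Fin K,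
        ∑ A ∈ powersetCard D (univ : Finset F), ind (HP hM g c A) χ =
        (Fintype.card F).choose D *
        ((K : ℝ) ^ Fintype.card (gd (F := F) (M := M) (C := C) hM).Pt / (K : ℝ) ^ (D + 2)) := by
      intro c
      rw [Finset.sum_comm]
      have h3 : ∀ A ∈ powersetCard D (univ : Finset F),
          ∑ χ : (gd (F := F) (M := M) (C := C) hM).Pt → Fin K, ind (HP hM g c A) χ =
          ((K : ℝ) ^ Fintype.card (gd (F := F) (M := M) (C := C) hM).Pt / (K : ℝ) ^ (D + 2)) := by
        intro A hA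
        have h4 := card_HP hM g c A
        rw [(Finset.mem_powersetCard.1 hA).2] at h4
        have h := sum_ind K (HP hM g c A)
        rw [h4] at h
        exact h
      rw [Finset.sum_congr rfl h3, Finset.sum_const, Finset.card_powersetCard, nsmul_eq_mul,
        Finset.card_univ]
    simp only [h2, Finset.sum_const, Finset.card_univ, nsmul_eq_mul]
    rfl
  simp only [h1, Finset.sum_const, Finset.card_univ, nsmul_eq_mul]

open Classical in
theorem sum_a4 (K : ℕ) [NeZero K] : ∑ χ, a4 (K := K) (F := F) (M := M) (C := C) hM χ =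
    (Fintype.card (gd (F := F) (M := M) (C := C) hM).Ed : ℝ) *
      ((K : ℝ) ^ Fintype.card (gd (F := F) (M := M) (C := C) hM).Pt / (K : ℝ) ^ 2) := by
  simp only [a4]
  rw [Finset.sum_comm]
  have : ∀ e : (gd (F := F) (M := M) (C := C) hM).Ed,
      ∑ χ : (gd (F := F) (M := M) (C := C) hM).Pt → Fin K, ind {(gd hM).hd e, (gd hM).tl e} χ =
      (K : ℝ) ^ Fintype.card (gd (F := F) (M := M) (C := C) hM).Pt / (K : ℝ) ^ 2 := by
    intro e
    have h1 : ({(gd hM).hd e, (gd hM).tl e} :
        Finset (gd (F := F) (M := M) (C := C) hM).Pt).card = 2 := by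
      rw [Finset.card_pair]
      intro h
      have h2 : e.1 = e.1 + 2 := congrArg Sigma.fst h
      have z : ∀ c : ZMod 3, c ≠ c + 2 := by decide
      exact z _ h2
    have h := sum_ind K ({(gd hM).hd e, (gd hM).tl e} :
        Finset (gd (F := F) (M := M) (C := C) hM).Pt)
    rw [h1] at h
    exact h
  simp only [this, Finset.sum_const, Finset.card_univ, nsmul_eq_mul]

end

end Pool.Agent.H692.FL
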