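import Mathlib

/-!
# Three-coloured complexes without short cycles, and their circulations of small support
-/

namespace Pool.Agent.H692.FL

open Finset

/-- Edges of three types between points of three types, with triangles; every closed walk of length
at most five comes from triangles. -/
structure Cx (E P T : Type*) where
  ty : E → ZMod 3
  pty : P → ZMod 3
  hd : E → P
  tl : E → P
  e : T → ZMod 3 → E
  hd_ty : ∀ a, pty (hd a) = ty a
  tl_ty : ∀ a, pty (tl a) = ty a + 2
  e_ty : ∀ t c, ty (e t c) = c
  glue : ∀ t c, hd (e t c) = tl (e t (c + 1))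
  simple : ∀ a b, hd a = hd b → tl a = tl b → a = b
  tri : ∀ a : ZMod 3 → E, (∀ c, ty (a c) = c) → (∀ c, hd (a c) = tl (a (c + 1))) →
    ∃ t, ∀ c, e t c = a c
  quad : ∀ a b c d, hd a = hd b → tl b = tl c → hd c = hd d → tl d = tl a → a = b ∨ b = c
  kite : ∀ a b a' b', tl a = tl b → a ≠ b → hd a = tl a' → hd b = tl b' → hd a' = hd b' →
    ∃ t t', e t (ty a) = a ∧ e t (ty a + 1) = a' ∧ e t' (ty a) = b ∧ e t' (ty a + 1) = b' ∧
      e t (ty a + 2) = e t' (ty a + 2)
  penta : ∀ a b c d f, hd a = tl b → hd b = tl c → hd c = tl d → hd d = hd f → tl f = tl a →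
    hd a ≠ hd d → tl a ≠ hd c → ∃ t, e t (ty a) = a ∧ e t (ty a + 1) = b

namespace Cx

variable {E P T : Type*} (X : Cx E P T)

/-- an arrow from `p` to `r` -/
def Ar (a : E) (p r : P) : Prop := X.tl a = p ∧ X.hd a = r

/-- an edge between `p` and `r` -/
def Ends (a : E) (p r : P) : Prop := X.Ar a p r ∨ X.Ar a r p

variable {X}

theorem Ar.ty {a : E} {p r : P} (h : X.Ar a p r) : X.pty r = X.pty p + 1 := by
  have h1 := X.hd_ty a
  have h2 := X.tl_ty a
  rw [h.1] at h2
  rw [h.2] at h1
  rw [h1, h2]
  exact z (X.ty a)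
where
  z : ∀ c : ZMod 3, c = c + 2 + 1 := by decide

theorem Ends.symm {a : E} {p r : P} (h : X.Ends a p r) : X.Ends a r p := Or.symm h

theorem Ends.ne {a : E} {p r : P} (h : X.Ends a p r) : p ≠ r := by
  have z : ∀ c : ZMod 3, c ≠ c + 1 := by decide
  rintro rfl
  rcases h with h | h <;> exact z _ h.ty

theorem Ends.inj {a b : E} {p r : P} (ha : X.Ends a p r) (hb : X.Ends b p r) : a = b := by
  have z : ∀ c : ZMod 3, c ≠ c + 1 + 1 := by decide
  rcases ha with ha | ha <;> rcases hb with hb | hb
  · exact X.simple a b (ha.2.trans hb.2.symm) (ha.1.trans hb.1.symm)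
  · have := ha.ty
    rw [hb.ty] at this
    exact absurd this (z _)
  · have := ha.ty
    rw [hb.ty] at this
    exact absurd this (z _)
  · exact X.simple a b (ha.2.trans hb.2.symm) (ha.1.trans hb.1.symm)

theorem Ends.mem {a : E} {p r p' r' : P} (ha : X.Ends a p r) (hb : X.Ends a p' r') :
    p' = p ∨ p' = r := by
  rcases ha with ha | ha <;> rcases hb with hb | hb
  · exact Or.inl (hb.1.symm.trans ha.1)
  · exact Or.inr (hb.2.symm.trans ha.2)
  · exact Or.inr (hb.1.symm.trans ha.1)
  · exact Or.inl (hb.2.symm.trans ha.2)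

theorem ends_self (a : E) : X.Ends a (X.tl a) (X.hd a) := Or.inl ⟨rfl, rfl⟩

variable [Fintype E] [DecidableEq E] [DecidableEq P]

/-- `f` is a circulation -/
def Circ (X : Cx E P T) (f : E → ℝ) : Prop :=
  ∀ p, ∑ e, f e * ((if X.hd e = p then 1 else 0) - (if X.tl e = p then 1 else 0)) = 0

theorem Circ.next {f : E → ℝ} (hf : X.Circ f) {a : E} (ha : f a ≠ 0) {p r : P}
    (h : X.Ends a p r) : ∃ b s, b ≠ a ∧ f b ≠ 0 ∧ X.Ends b r s ∧ s ≠ p ∧ s ≠ r := by
  by_contra hcon
  push Not at hcon
  have h0 := hf r
  rw [Finset.sum_eq_single a] at h0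
  · rcases h with h | h
    · rw [if_pos h.2, if_neg (by rw [h.1]; exact Ends.ne (Or.inl h : X.Ends a p r))] at h0
      exact ha (by linarith)
    · rw [if_pos h.1, if_neg (by rw [h.2]; exact Ends.ne (Or.inr h : X.Ends a p r))] at h0
      exact ha (by linarith)
  · intro b _ hba
    by_cases hb : f b = 0
    · rw [hb, zero_mul]
    have key : ∀ s, ¬ X.Ends b r s := by
      intro s hs
      refine hs.ne (hcon b s hba hb hs ?_).symm
      rintro rfl
      exact hba (hs.symm.inj h)
    rw [if_neg, if_neg]
    · ring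
    · rintro h1
      exact key (X.hd b) (Or.inl ⟨h1, rfl⟩)
    · rintro h1
      exact key (X.tl b) (Or.inr ⟨rfl, h1⟩)
  · simp

theorem sum_supp3 {f : E → ℝ} {a b c : E} (hab : a ≠ b) (hac : a ≠ c) (hbc : b ≠ c)
    (hs : ∀ e, f e ≠ 0 → e = a ∨ e = b ∨ e = c) (g : E → ℝ) :
    ∑ e, f e * g e = f a * g a + f b * g b + f c * g c := by
  rw [← Finset.sum_subset (Finset.subset_univ {a, b, c})]
  · rw [Finset.sum_insert (by simp [hab, hac]), Finset.sum_insert (by simp [hbc]),
      Finset.sum_singleton]
    ring
  · intro e _ he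
    simp only [Finset.mem_insert, Finset.mem_singleton, not_or] at he
    by_contra h
    have := hs e (left_ne_zero_of_mul h)
    tauto

theorem sum_supp4 {f : E → ℝ} {a b c d : E} (hab : a ≠ b) (hac : a ≠ c) (had : a ≠ d) (hbc : b ≠ c)
    (hbd : b ≠ d) (hcd : c ≠ d)
    (hs : ∀ e, f e ≠ 0 → e = a ∨ e = b ∨ e = c ∨ e = d) (g : E → ℝ) :
    ∑ e, f e * g e = f a * g a + f b * g b + f c * g c + f d * g d := by
  rw [← Finset.sum_subset (Finset.subset_univ {a, b, c, d})]
  · rw [Finset.sum_insert (by simp [hab, hac, had]), Finset.sum_insert (by simp [hbc, hbd]),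
      Finset.sum_insert (by simp [hcd]), Finset.sum_singleton]
    ring
  · intro e _ he
    simp only [Finset.mem_insert, Finset.mem_singleton, not_or] at he
    by_contra h
    have := hs e (left_ne_zero_of_mul h)
    tauto

/-- the sum of `g` over the edges of a triangle -/
def V (X : Cx E P T) (g : E → ℝ) (t : T) : ℝ := ∑ c, g (X.e t c)

/-- the shape of a small circulation -/
def Shape (X : Cx E P T) (f : E → ℝ) : Prop :=
  (∃ l : ℝ, l ≠ 0 ∧ ∃ t, ∀ g : E → ℝ, ∑ e, f e * g e = l * X.V g t) ∨
  ∃ l : ℝ, l ≠ 0 ∧ ∃ t t', t ≠ t' ∧ (∃ c, X.e t c = X.e t' c) ∧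
    ∀ g : E → ℝ, ∑ e, f e * g e = l * (X.V g t - X.V g t')

theorem V_eq (g : E → ℝ) (t : T) (c : ZMod 3) :
    X.V g t = g (X.e t c) + g (X.e t (c + 1)) + g (X.e t (c + 2)) := by
  have h : ∀ c : ZMod 3, (univ : Finset (ZMod 3)) = {c, c + 1, c + 2} := by decide
  have h1 : ∀ c : ZMod 3, c ≠ c + 1 := by decide
  have h2 : ∀ c : ZMod 3, c ≠ c + 2 := by decide
  have h3 : ∀ c : ZMod 3, c + 1 ≠ c + 2 := by decide
  rw [V, h c, Finset.sum_insert (by simp only [mem_insert, mem_singleton, not_or]
                                    exact ⟨h1 c, h2 c⟩),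
    Finset.sum_insert (by simp only [mem_singleton]; exact h3 c), Finset.sum_singleton]
  ring

theorem shape3 {f : E → ℝ} (hf : X.Circ f) {a b c : E} (hs : ∀ e, f e ≠ 0 → e = a ∨ e = b ∨ e = c)
    (ha : f a ≠ 0) {p r s : P} (h1 : X.Ar a p r) (h2 : X.Ar b r s) (h3 : X.Ar c s p) :
    X.Shape f := by
  have hpr : p ≠ r := Ends.ne (Or.inl h1)
  have hrs : r ≠ s := Ends.ne (Or.inl h2)
  have hsp : s ≠ p := Ends.ne (Or.inl h3)
  have hab : a ≠ b := by
    rintro rfl
    exact hpr (h1.1.symm.trans h2.1)
  have hac : a ≠ c := by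
    rintro rfl
    exact hsp (h3.1.symm.trans h1.1)
  have hbc : b ≠ c := by
    rintro rfl
    exact hrs (h2.1.symm.trans h3.1)
  have hsum := fun g => sum_supp3 hab hac hbc hs g
  have b1 := hf r
  have b2 := hf s
  rw [hsum] at b1 b2
  rw [h1.1, h1.2, h2.1, h2.2, h3.1, h3.2] at b1 b2
  simp only [if_true, if_neg hpr, if_neg hpr.symm, if_neg hrs, if_neg hrs.symm, if_neg hsp,
    if_neg hsp.symm] at b1 b2
  have e1 : f b = f a := by linarith
  have e2 : f c = f a := by linarith
  -- types
  have z : ∀ x y : ZMod 3, x = y + 1 → ∀ w, w = x + 1 → y = w + 1 := by decide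
  have tr := h1.ty
  have ts := h2.ty
  have tya : X.ty a = X.pty r := by rw [← X.hd_ty, h1.2]
  have tyb : X.ty b = X.pty s := by rw [← X.hd_ty, h2.2]
  have tyc : X.ty c = X.pty p := by rw [← X.hd_ty, h3.2]
  have tp := h3.ty
  obtain ⟨A, hA0, hA1, hA2⟩ : ∃ A : ZMod 3 → E, A (X.ty a) = a ∧ A (X.ty a + 1) = b ∧
      A (X.ty a + 2) = c := by
    refine ⟨fun k => if k = X.ty a then a else if k = X.ty a + 1 then b else c, ?_, ?_, ?_⟩
    · simp
    · have : X.ty a + 1 ≠ X.ty a := by generalize X.ty a = k; decide +revert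
      simp only [if_neg this, if_true]
    · have z1 : ∀ k : ZMod 3, k + 2 ≠ k := by decide
      have z2 : ∀ k : ZMod 3, k + 2 ≠ k + 1 := by decide
      simp only [if_neg (z1 _), if_neg (z2 _)]
  have hb1 : X.ty b = X.ty a + 1 := by rw [tyb, ts, tya]
  have hc1 : X.ty c = X.ty a + 2 := by rw [tyc, tp, ts, tya]; ring
  have all : ∀ k : ZMod 3, k = X.ty a ∨ k = X.ty a + 1 ∨ k = X.ty a + 2 := by
    intro k
    generalize X.ty a = m
    decide +revert
  obtain ⟨t, ht⟩ := X.tri A (by
    intro k
    rcases all k with rfl | rfl | rfl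
    · rw [hA0]
    · rw [hA1, hb1]
    · rw [hA2, hc1]) (by
    intro k
    rcases all k with rfl | rfl | rfl
    · rw [hA0, hA1, h1.2, h2.1]
    · rw [show X.ty a + 1 + 1 = X.ty a + 2 by ring, hA1, hA2, h2.2, h3.1]
    · have : X.ty a + 2 + 1 = X.ty a := by
        have z : ∀ k : ZMod 3, k + 2 + 1 = k := by decide
        exact z _
      rw [this, hA2, hA0, h3.2, h1.1])
  left
  refine ⟨f a, ha, t, fun g => ?_⟩
  rw [hsum, V_eq g t (X.ty a), ht, ht, ht, hA0, hA1, hA2, e1, e2]
  ring

theorem shape4 {f : E → ℝ} (hf : X.Circ f) {a b c d : E}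
    (hs : ∀ e, f e ≠ 0 → e = a ∨ e = b ∨ e = c ∨ e = d)
    (ha : f a ≠ 0) {p r r' s : P} (hr : r ≠ r') (h1 : X.Ar a p r) (h2 : X.Ar b r s)
    (h3 : X.Ar c p r') (h4 : X.Ar d r' s) : X.Shape f := by
  have hpr : p ≠ r := Ends.ne (Or.inl h1)
  have hrs : r ≠ s := Ends.ne (Or.inl h2)
  have hpr' : p ≠ r' := Ends.ne (Or.inl h3)
  have hrs' : r' ≠ s := Ends.ne (Or.inl h4)
  have hps : p ≠ s := by
    have h5 := h2.ty
    have h6 := h1.ty
    rw [h6] at h5
    intro h
    rw [h] at h5
    have z : ∀ c : ZMod 3, c ≠ c + 1 + 1 := by decide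
    exact z _ h5
  have hab : a ≠ b := by
    rintro rfl
    exact hpr (h1.1.symm.trans h2.1)
  have hac : a ≠ c := by
    rintro rfl
    exact hr (h1.2.symm.trans h3.2)
  have had : a ≠ d := by
    rintro rfl
    exact hpr' (h1.1.symm.trans h4.1)
  have hbc : b ≠ c := by
    rintro rfl
    exact hpr (h3.1.symm.trans h2.1)
  have hbd : b ≠ d := by
    rintro rfl
    exact hr (h2.1.symm.trans h4.1)
  have hcd : c ≠ d := by
    rintro rfl
    exact hpr' (h3.1.symm.trans h4.1)
  have hsum := fun g => sum_supp4 hab hac had hbc hbd hcd hs g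
  have b1 := hf r
  have b2 := hf p
  have b3 := hf r'
  rw [hsum] at b1 b2 b3
  rw [h1.1, h1.2, h2.1, h2.2, h3.1, h3.2, h4.1, h4.2] at b1 b2 b3
  simp only [if_true, if_neg hpr, if_neg hpr.symm, if_neg hrs, if_neg hrs.symm, if_neg hps,
    if_neg hps.symm, if_neg hpr', if_neg hpr'.symm, if_neg hrs', if_neg hrs'.symm, if_neg hr,
    if_neg hr.symm] at b1 b2 b3
  have e1 : f b = f a := by linarith
  have e2 : f c = -f a := by linarith
  have e3 : f d = -f a := by linarith
  obtain ⟨t, t', k1, k2, k3, k4, k5⟩ := X.kite a c b d (h1.1.trans h3.1.symm) hac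
    (h1.2.trans h2.1.symm) (h3.2.trans h4.1.symm) (h2.2.trans h4.2.symm)
  right
  refine ⟨f a, ha, t, t', ?_, ⟨_, k5⟩, fun g => ?_⟩
  · rintro rfl
    exact hac (k1.symm.trans k3)
  · rw [hsum, V_eq g t (X.ty a), V_eq g t' (X.ty a), k1, k2, k3, k4, k5, e1, e2, e3]
    ring

theorem classify {f : E → ℝ} (hf : X.Circ f) (hcard : (univ.filter fun e => f e ≠ 0).card ≤ 4)
    (hne : ∃ e, f e ≠ 0) : X.Shape f := by
  classical
  obtain ⟨e1, f1⟩ := hne
  have full : ∀ S : Finset E, S.card = 4 → (∀ e ∈ S, f e ≠ 0) → ∀ e, f e ≠ 0 → e ∈ S := by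
    intro S hS hS' e he
    have hsub : S ⊆ univ.filter fun e => f e ≠ 0 := by
      intro e he
      simp [hS' e he]
    have := Finset.eq_of_subset_of_card_le hsub (by omega)
    rw [this]
    simp [he]
  obtain ⟨p0, hp0⟩ : ∃ p, p = X.tl e1 := ⟨_, rfl⟩
  obtain ⟨p1, hp1⟩ : ∃ p, p = X.hd e1 := ⟨_, rfl⟩
  have E1 : X.Ends e1 p0 p1 := by rw [hp0, hp1]; exact ends_self e1
  obtain ⟨e2, p2, n21, f2, E2, d20, d21⟩ := hf.next f1 E1
  obtain ⟨e3, p3, n32, f3, E3, d31, d32⟩ := hf.next f2 E2
  have n31 : e3 ≠ e1 := by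
    rintro rfl
    rcases E1.mem E3 with h | h
    · exact d20 h
    · exact d21 h
  have d10 := E1.ne
  by_cases h30 : p3 = p0
  · subst h30
    have hs : ∀ e, f e ≠ 0 → e = e1 ∨ e = e2 ∨ e = e3 := by
      intro e4 f4
      by_contra hcon
      push Not at hcon
      obtain ⟨n41, n42, n43⟩ := hcon
      have hS := full {e1, e2, e3, e4} (by
        rw [card_insert_of_notMem, card_insert_of_notMem, card_insert_of_notMem, card_singleton]
        · simpa using n43.symm
        · simpa using ⟨n32.symm, n42.symm⟩
        · simpa using ⟨n21.symm, n31.symm, n41.symm⟩) (by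
        intro e he
        simp only [mem_insert, mem_singleton] at he
        rcases he with rfl | rfl | rfl | rfl <;> assumption)
      have hpt : ∀ p r, X.Ends e4 p r → r = p3 ∨ r = p1 ∨ r = p2 := by
        intro p r h4
        obtain ⟨b, s, hb, fb, Eb, -, -⟩ := hf.next f4 h4
        have := hS b fb
        simp only [mem_insert, mem_singleton] at this
        rcases this with rfl | rfl | rfl | rfl
        · rcases E1.mem Eb with h | h <;> simp [h]
        · rcases E2.mem Eb with h | h <;> simp [h]
        · rcases E3.mem Eb with h | h <;> simp [h]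
        · exact absurd rfl hb
      have E4 := X.ends_self e4
      have k1 := hpt _ _ E4
      have k2 := hpt _ _ E4.symm
      have hne := E4.ne
      generalize X.tl e4 = x at *
      generalize X.hd e4 = y at *
      rcases k1 with rfl | rfl | rfl <;> rcases k2 with rfl | rfl | rfl
      · exact hne rfl
      · exact n41 (E4.inj E1.symm)
      · exact n43 (E4.inj E3)
      · exact n41 (E4.inj E1)
      · exact hne rfl
      · exact n42 (E4.inj E2.symm)
      · exact n43 (E4.inj E3.symm)
      · exact n42 (E4.inj E2)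
      · exact hne rfl
    rcases E1 with A1 | A1 <;> rcases E2 with A2 | A2 <;> rcases E3 with A3 | A3
    · exact shape3 hf hs f1 A1 A2 A3
    pick_goal 7
    · exact shape3 hf (fun e he => by have := hs e he; tauto) f3 A3 A2 A1
    all_goals
      exfalso
      have h1 := A1.ty
      have h2 := A2.ty
      have h3 := A3.ty
      revert h1 h2 h3
      generalize X.pty p3 = x
      generalize X.pty p1 = y
      generalize X.pty p2 = w
      revert x y w
      decide
  · obtain ⟨e4, p4, n43, f4, E4, d42, d43⟩ := hf.next f3 E3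
    have n41 : e4 ≠ e1 := by
      rintro rfl
      rcases E1.mem E4 with h | h
      · exact h30 h
      · exact d31 h
    have n42 : e4 ≠ e2 := by
      rintro rfl
      rcases E2.mem E4 with h | h
      · exact d31 h
      · exact d32 h
    have hS := full {e1, e2, e3, e4} (by
      rw [card_insert_of_notMem, card_insert_of_notMem, card_insert_of_notMem, card_singleton]
      · simpa using n43.symm
      · simpa using ⟨n32.symm, n42.symm⟩
      · simpa using ⟨n21.symm, n31.symm, n41.symm⟩) (by
      intro e he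
      simp only [mem_insert, mem_singleton] at he
      rcases he with rfl | rfl | rfl | rfl <;> assumption)
    simp only [mem_insert, mem_singleton] at hS
    -- the walk closes
    have h40 : p4 = p0 := by
      obtain ⟨b, s, hb, fb, Eb, -, -⟩ := hf.next f1 E1.symm
      rcases hS b fb with rfl | rfl | rfl | rfl
      · exact absurd rfl hb
      · rcases E2.mem Eb with h | h
        · exact absurd h d10
        · exact absurd h.symm d20
      · rcases E3.mem Eb with h | h
        · exact absurd h.symm d20
        · exact absurd h.symm h30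
      · rcases E4.mem Eb with h | h
        · exact absurd h.symm h30
        · exact h.symm
    subst h40
    rcases E1 with A1 | A1 <;> rcases E2 with A2 | A2 <;> rcases E3 with A3 | A3 <;>
      rcases E4 with A4 | A4
    · exfalso
      have h1 := A1.ty
      have h2 := A2.ty
      have h3 := A3.ty
      have h4 := A4.ty
      revert h1 h2 h3 h4
      generalize X.pty p4 = x
      generalize X.pty p1 = y
      generalize X.pty p2 = w
      generalize X.pty p3 = u
      revert x y w u
      decide
    · exfalso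
      have h1 := A1.ty
      have h2 := A2.ty
      have h3 := A3.ty
      have h4 := A4.ty
      revert h1 h2 h3 h4
      generalize X.pty p4 = x
      generalize X.pty p1 = y
      generalize X.pty p2 = w
      generalize X.pty p3 = u
      revert x y w u
      decide
    · exfalso
      have h1 := A1.ty
      have h2 := A2.ty
      have h3 := A3.ty
      have h4 := A4.ty
      revert h1 h2 h3 h4
      generalize X.pty p4 = x
      generalize X.pty p1 = y
      generalize X.pty p2 = w
      generalize X.pty p3 = u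
      revert x y w u
      decide
    · exact shape4 hf (fun e he => by have := hS e he; tauto) f1 (Ne.symm d31) A1 A2 A4 A3
    · exfalso
      have h1 := A1.ty
      have h2 := A2.ty
      have h3 := A3.ty
      have h4 := A4.ty
      revert h1 h2 h3 h4
      generalize X.pty p4 = x
      generalize X.pty p1 = y
      generalize X.pty p2 = w
      generalize X.pty p3 = u
      revert x y w u
      decide
    · exfalso
      rcases X.quad e1 e2 e3 e4 (A1.2.trans A2.2.symm) (A2.1.trans A3.1.symm)
        (A3.2.trans A4.2.symm) (A4.1.trans A1.1.symm) with h | h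
      · exact n21 h.symm
      · exact n32 h.symm
    · exact shape4 hf (fun e he => by have := hS e he; tauto) f4 (Ne.symm d20) A4 A1 A3 A2
    · exfalso
      have h1 := A1.ty
      have h2 := A2.ty
      have h3 := A3.ty
      have h4 := A4.ty
      revert h1 h2 h3 h4
      generalize X.pty p4 = x
      generalize X.pty p1 = y
      generalize X.pty p2 = w
      generalize X.pty p3 = u
      revert x y w u
      decide
    · exfalso
      have h1 := A1.ty
      have h2 := A2.ty
      have h3 := A3.ty
      have h4 := A4.ty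
      revert h1 h2 h3 h4
      generalize X.pty p4 = x
      generalize X.pty p1 = y
      generalize X.pty p2 = w
      generalize X.pty p3 = u
      revert x y w u
      decide
    · exact shape4 hf (fun e he => by have := hS e he; tauto) f1 (Ne.symm d20) A1 A4 A2 A3
    · exfalso
      rcases X.quad e2 e3 e4 e1 (A2.2.trans A3.2.symm) (A3.1.trans A4.1.symm)
        (A4.2.trans A1.2.symm) (A1.1.trans A2.1.symm) with h | h
      · exact n32 h.symm
      · exact n43 h.symm
    · exfalso
      have h1 := A1.ty
      have h2 := A2.ty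
      have h3 := A3.ty
      have h4 := A4.ty
      revert h1 h2 h3 h4
      generalize X.pty p4 = x
      generalize X.pty p1 = y
      generalize X.pty p2 = w
      generalize X.pty p3 = u
      revert x y w u
      decide
    · exact shape4 hf (fun e he => by have := hS e he; tauto) f2 (Ne.symm d31) A2 A1 A3 A4
    · exfalso
      have h1 := A1.ty
      have h2 := A2.ty
      have h3 := A3.ty
      have h4 := A4.ty
      revert h1 h2 h3 h4
      generalize X.pty p4 = x
      generalize X.pty p1 = y
      generalize X.pty p2 = w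
      generalize X.pty p3 = u
      revert x y w u
      decide
    · exfalso
      have h1 := A1.ty
      have h2 := A2.ty
      have h3 := A3.ty
      have h4 := A4.ty
      revert h1 h2 h3 h4
      generalize X.pty p4 = x
      generalize X.pty p1 = y
      generalize X.pty p2 = w
      generalize X.pty p3 = u
      revert x y w u
      decide
    · exfalso
      have h1 := A1.ty
      have h2 := A2.ty
      have h3 := A3.ty
      have h4 := A4.ty
      revert h1 h2 h3 h4
      generalize X.pty p4 = x
      generalize X.pty p1 = y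
      generalize X.pty p2 = w
      generalize X.pty p3 = u
      revert x y w u
      decide

end Cx

end Pool.Agent.H692.FL
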