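import Pool.Agent.H692.FL.Cls5
import Pool.Agent.H692.FL.Adv

/-!
# Sub-complexes, disjoint copies, weights, and the adversary of a complex
-/

namespace Pool.Agent.H692.FL

open Finset

namespace Cx

variable {E P T : Type*} (X : Cx E P T)

theorem z21' : ∀ c : ZMod 3, c + 2 + 1 = c := by decide

theorem tl_e (t : T) (c : ZMod 3) : X.tl (X.e t c) = X.hd (X.e t (c + 2)) := by
  rw [X.glue t (c + 2), z21']

/-- the part of the complex on a set of points -/
def sub (S : Set P) : Cx {e : E // X.hd e ∈ S ∧ X.tl e ∈ S} P {t : T // ∀ c, X.hd (X.e t c) ∈ S} where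
  ty a := X.ty a.1
  pty := X.pty
  hd a := X.hd a.1
  tl a := X.tl a.1
  e t c := ⟨X.e t.1 c, t.2 c, by rw [X.tl_e]; exact t.2 _⟩
  hd_ty a := X.hd_ty a.1
  tl_ty a := X.tl_ty a.1
  e_ty t c := X.e_ty t.1 c
  glue t c := X.glue t.1 c
  simple a b h1 h2 := Subtype.ext (X.simple a.1 b.1 h1 h2)
  tri a h1 h2 := by
    obtain ⟨t, ht⟩ := X.tri (fun c => (a c).1) h1 h2
    exact ⟨⟨t, fun c => by rw [ht c]; exact (a c).2.1⟩, fun c => Subtype.ext (ht c)⟩
  quad a b c d h1 h2 h3 h4 := by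
    rcases X.quad a.1 b.1 c.1 d.1 h1 h2 h3 h4 with h | h
    · exact Or.inl (Subtype.ext h)
    · exact Or.inr (Subtype.ext h)
  kite a b a' b' h1 h2 h3 h4 h5 := by
    obtain ⟨t, t', k1, k2, k3, k4, k5⟩ := X.kite a.1 b.1 a'.1 b'.1 h1
      (fun h => h2 (Subtype.ext h)) h3 h4 h5
    have all : ∀ c k : ZMod 3, k = c ∨ k = c + 1 ∨ k = c + 2 := by decide
    have hS : ∀ s : T, X.hd (X.e s (X.ty a.1)) ∈ S → X.hd (X.e s (X.ty a.1 + 1)) ∈ S →
        X.tl (X.e s (X.ty a.1)) ∈ S → ∀ c, X.hd (X.e s c) ∈ S := by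
      intro s s1 s2 s3 c
      rcases all (X.ty a.1) c with rfl | rfl | rfl
      · exact s1
      · exact s2
      · rw [X.tl_e] at s3
        exact s3
    refine ⟨⟨t, hS t (by rw [k1]; exact a.2.1) (by rw [k2]; exact a'.2.1)
      (by rw [k1]; exact a.2.2)⟩, ⟨t', hS t' (by rw [k3]; exact b.2.1) (by rw [k4]; exact b'.2.1)
      (by rw [k3]; exact b.2.2)⟩, Subtype.ext k1, Subtype.ext k2, Subtype.ext k3, Subtype.ext k4,
      Subtype.ext k5⟩
  penta a b c d f h1 h2 h3 h4 h5 h6 h7 := by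
    obtain ⟨t, k1, k2⟩ := X.penta a.1 b.1 c.1 d.1 f.1 h1 h2 h3 h4 h5 h6 h7
    have all : ∀ c k : ZMod 3, k = c ∨ k = c + 1 ∨ k = c + 2 := by decide
    have hS : ∀ c, X.hd (X.e t c) ∈ S := by
      intro c
      rcases all (X.ty a.1) c with rfl | rfl | rfl
      · rw [k1]; exact a.2.1
      · rw [k2]; exact b.2.1
      · rw [← X.tl_e, k1]; exact a.2.2
    exact ⟨⟨t, hS⟩, Subtype.ext k1, Subtype.ext k2⟩

/-- disjoint copies -/
def copy (κ : Type*) : Cx (E × κ) (P × κ) (T × κ) where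
  ty a := X.ty a.1
  pty p := X.pty p.1
  hd a := (X.hd a.1, a.2)
  tl a := (X.tl a.1, a.2)
  e t c := (X.e t.1 c, t.2)
  hd_ty a := X.hd_ty a.1
  tl_ty a := X.tl_ty a.1
  e_ty t c := X.e_ty t.1 c
  glue t c := by rw [X.glue t.1 c]
  simple a b h1 h2 := Prod.ext (X.simple a.1 b.1 (congrArg Prod.fst h1) (congrArg Prod.fst h2))
    (congrArg Prod.snd h1 :)
  tri a h1 h2 := by
    obtain ⟨t, ht⟩ := X.tri (fun c => (a c).1) h1 (fun c => congrArg Prod.fst (h2 c))
    have h3 : ∀ c, (a c).2 = (a (c + 1)).2 := fun c => (congrArg Prod.snd (h2 c) :)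
    have h4 : ∀ c, (a c).2 = (a 0).2 := by
      intro c
      have e1 := h3 0
      have e2 := h3 1
      have z1 : (0 : ZMod 3) + 1 = 1 := by decide
      have z2 : (1 : ZMod 3) + 1 = 2 := by decide
      rw [z1] at e1
      rw [z2] at e2
      have z : ∀ c : ZMod 3, c = 0 ∨ c = 1 ∨ c = 2 := by decide
      rcases z c with rfl | rfl | rfl
      · rfl
      · exact e1.symm
      · exact (e1.trans e2).symm
    exact ⟨(t, (a 0).2), fun c => Prod.ext (ht c) (h4 c).symm⟩
  quad a b c d h1 h2 h3 h4 := by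
    have s1 : a.2 = b.2 := (congrArg Prod.snd h1 :)
    have s2 : b.2 = c.2 := (congrArg Prod.snd h2 :)
    rcases X.quad a.1 b.1 c.1 d.1 (congrArg Prod.fst h1) (congrArg Prod.fst h2)
      (congrArg Prod.fst h3) (congrArg Prod.fst h4) with h | h
    · exact Or.inl (Prod.ext h s1)
    · exact Or.inr (Prod.ext h s2)
  kite a b a' b' h1 h2 h3 h4 h5 := by
    have s1 : a.2 = b.2 := (congrArg Prod.snd h1 :)
    have s2 : a.2 = a'.2 := (congrArg Prod.snd h3 :)
    have s3 : b.2 = b'.2 := (congrArg Prod.snd h4 :)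
    obtain ⟨t, t', k1, k2, k3, k4, k5⟩ := X.kite a.1 b.1 a'.1 b'.1 (congrArg Prod.fst h1)
      (fun h => h2 (Prod.ext h s1)) (congrArg Prod.fst h3) (congrArg Prod.fst h4)
      (congrArg Prod.fst h5)
    exact ⟨(t, a.2), (t', b.2), Prod.ext k1 rfl, Prod.ext k2 s2, Prod.ext k3 rfl,
      Prod.ext k4 s3, Prod.ext k5 s1⟩
  penta a b c d f h1 h2 h3 h4 h5 h6 h7 := by
    have s1 : a.2 = b.2 := (congrArg Prod.snd h1 :)
    have s2 : b.2 = c.2 := (congrArg Prod.snd h2 :)
    have s3 : c.2 = d.2 := (congrArg Prod.snd h3 :)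
    obtain ⟨t, k1, k2⟩ := X.penta a.1 b.1 c.1 d.1 f.1 (congrArg Prod.fst h1)
      (congrArg Prod.fst h2) (congrArg Prod.fst h3) (congrArg Prod.fst h4) (congrArg Prod.fst h5)
      (fun h => h6 (Prod.ext h (s1.trans (s2.trans s3)))) (fun h => h7 (Prod.ext h (s1.trans s2)))
    exact ⟨(t, a.2), Prod.ext k1 rfl, Prod.ext k2 s1⟩

/-- weights for the adversary -/
structure Wts (H : ℕ) (good : Set T) where
  w : E → ℤ
  u : T → E → ℤ
  w1 : ∀ t, 0 < V3 X.e w t
  w2 : ∀ m ∈ good, V3 X.e (u m) m = 0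
  w3 : ∀ m ∈ good, ∀ t, t ≠ m → 0 < V3 X.e (u m) t
  w4 : ∀ t t', t ≠ t' → (∃ c, X.e t c = X.e t' c) → ∀ α β : ℤ, |α| ≤ H → |β| ≤ H →
    (α ≠ 0 ∨ β ≠ 0) → α * V3 X.e w t + β * V3 X.e w t' ≠ 0 ∧
    ∀ m ∈ good, m ≠ t → m ≠ t' →
      SignType.sign (α * V3 X.e (u m) t + β * V3 X.e (u m) t') =
      SignType.sign (α * V3 X.e w t + β * V3 X.e w t')
  w5 : ∀ t t' t'' c c', t ≠ t' → t' ≠ t'' → c ≠ c' → X.e t c = X.e t' c → X.e t' c' = X.e t'' c' →
    V3 X.e w t - V3 X.e w t' + V3 X.e w t'' ≠ 0 ∧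
    ∀ m ∈ good, m ≠ t → m ≠ t' → m ≠ t'' →
      SignType.sign (V3 X.e (u m) t - V3 X.e (u m) t' + V3 X.e (u m) t'') =
      SignType.sign (V3 X.e w t - V3 X.e w t' + V3 X.e w t'')

variable {X} {H : ℕ}

open Classical in
/-- weights on the copies -/
noncomputable def Wts.copy {good : Set T} (W : X.Wts H good) (κ : Type*) :
    (X.copy κ).Wts H {t : T × κ | t.1 ∈ good} where
  w a := W.w a.1
  u m a := if a.2 = m.2 then W.u m.1 a.1 else W.w a.1
  w1 t := W.w1 t.1
  w2 m hm := by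
    have : V3 (X.copy κ).e (fun a : E × κ => if a.2 = m.2 then W.u m.1 a.1 else W.w a.1) m =
        V3 X.e (W.u m.1) m.1 := by
      refine Finset.sum_congr rfl fun c _ => ?_
      exact if_pos rfl
    rw [this]
    exact W.w2 m.1 hm
  w3 m hm t ht := by
    by_cases h : t.2 = m.2
    · have : V3 (X.copy κ).e (fun a : E × κ => if a.2 = m.2 then W.u m.1 a.1 else W.w a.1) t =
          V3 X.e (W.u m.1) t.1 := Finset.sum_congr rfl fun c _ => if_pos h
      rw [this]
      exact W.w3 m.1 hm t.1 fun h' => ht (Prod.ext h' h)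
    · have : V3 (X.copy κ).e (fun a : E × κ => if a.2 = m.2 then W.u m.1 a.1 else W.w a.1) t =
          V3 X.e W.w t.1 := Finset.sum_congr rfl fun c _ => if_neg h
      rw [this]
      exact W.w1 t.1
  w4 t t' htt hadj α β hα hβ hαβ := by
    obtain ⟨c, hc⟩ := hadj
    have hs : t.2 = t'.2 := (congrArg Prod.snd hc :)
    have hf : X.e t.1 c = X.e t'.1 c := (congrArg Prod.fst hc :)
    have hne : t.1 ≠ t'.1 := fun h => htt (Prod.ext h hs)
    obtain ⟨h1, h2⟩ := W.w4 t.1 t'.1 hne ⟨c, hf⟩ α β hα hβ hαβ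
    refine ⟨h1, fun m hm hmt hmt' => ?_⟩
    by_cases h : t.2 = m.2
    · have h' : t'.2 = m.2 := hs.symm.trans h
      have e1 : V3 (X.copy κ).e (fun a : E × κ => if a.2 = m.2 then W.u m.1 a.1 else W.w a.1) t =
          V3 X.e (W.u m.1) t.1 := Finset.sum_congr rfl fun c _ => if_pos h
      have e2 : V3 (X.copy κ).e (fun a : E × κ => if a.2 = m.2 then W.u m.1 a.1 else W.w a.1) t' =
          V3 X.e (W.u m.1) t'.1 := Finset.sum_congr rfl fun c _ => if_pos h'
      rw [e1, e2]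
      exact h2 m.1 hm (fun h3 => hmt (Prod.ext h3 h.symm)) (fun h3 => hmt' (Prod.ext h3 h'.symm))
    · have h' : ¬ t'.2 = m.2 := fun h3 => h (hs.trans h3)
      have e1 : V3 (X.copy κ).e (fun a : E × κ => if a.2 = m.2 then W.u m.1 a.1 else W.w a.1) t =
          V3 X.e W.w t.1 := Finset.sum_congr rfl fun c _ => if_neg h
      have e2 : V3 (X.copy κ).e (fun a : E × κ => if a.2 = m.2 then W.u m.1 a.1 else W.w a.1) t' =
          V3 X.e W.w t'.1 := Finset.sum_congr rfl fun c _ => if_neg h'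
      rw [e1, e2]
      rfl
  w5 t t' t'' c c' h1 h2 hcc hc hc' := by
    have hs : t.2 = t'.2 := (congrArg Prod.snd hc :)
    have hs' : t'.2 = t''.2 := (congrArg Prod.snd hc' :)
    have hf : X.e t.1 c = X.e t'.1 c := (congrArg Prod.fst hc :)
    have hf' : X.e t'.1 c' = X.e t''.1 c' := (congrArg Prod.fst hc' :)
    have hne : t.1 ≠ t'.1 := fun h => h1 (Prod.ext h hs)
    have hne' : t'.1 ≠ t''.1 := fun h => h2 (Prod.ext h hs')
    obtain ⟨k1, k2⟩ := W.w5 t.1 t'.1 t''.1 c c' hne hne' hcc hf hf'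
    refine ⟨k1, fun m hm hmt hmt' hmt'' => ?_⟩
    by_cases h : t.2 = m.2
    · have h' : t'.2 = m.2 := hs.symm.trans h
      have h'' : t''.2 = m.2 := hs'.symm.trans h'
      have e1 : V3 (X.copy κ).e (fun a : E × κ => if a.2 = m.2 then W.u m.1 a.1 else W.w a.1) t =
          V3 X.e (W.u m.1) t.1 := Finset.sum_congr rfl fun c _ => if_pos h
      have e2 : V3 (X.copy κ).e (fun a : E × κ => if a.2 = m.2 then W.u m.1 a.1 else W.w a.1) t' =
          V3 X.e (W.u m.1) t'.1 := Finset.sum_congr rfl fun c _ => if_pos h'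
      have e3 : V3 (X.copy κ).e (fun a : E × κ => if a.2 = m.2 then W.u m.1 a.1 else W.w a.1) t'' =
          V3 X.e (W.u m.1) t''.1 := Finset.sum_congr rfl fun c _ => if_pos h''
      rw [e1, e2, e3]
      exact k2 m.1 hm (fun h3 => hmt (Prod.ext h3 h.symm)) (fun h3 => hmt' (Prod.ext h3 h'.symm))
        (fun h3 => hmt'' (Prod.ext h3 h''.symm))
    · have h' : ¬ t'.2 = m.2 := fun h3 => h (hs.trans h3)
      have h'' : ¬ t''.2 = m.2 := fun h3 => h' (hs'.trans h3)
      have e1 : V3 (X.copy κ).e (fun a : E × κ => if a.2 = m.2 then W.u m.1 a.1 else W.w a.1) t =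
          V3 X.e W.w t.1 := Finset.sum_congr rfl fun c _ => if_neg h
      have e2 : V3 (X.copy κ).e (fun a : E × κ => if a.2 = m.2 then W.u m.1 a.1 else W.w a.1) t' =
          V3 X.e W.w t'.1 := Finset.sum_congr rfl fun c _ => if_neg h'
      have e3 : V3 (X.copy κ).e (fun a : E × κ => if a.2 = m.2 then W.u m.1 a.1 else W.w a.1) t'' =
          V3 X.e W.w t''.1 := Finset.sum_congr rfl fun c _ => if_neg h''
      rw [e1, e2, e3]
      rfl

end Cx

section

variable {E P T : Type*} [Fintype E] [Fintype P] [Fintype T] {X : Cx E P T}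

open Classical in
/-- the adversary of a complex with weights -/
noncomputable def Cx.Wts.toAD {H : ℕ} {good : Set T} (W : X.Wts H good) : AD H E P T where
  tr := X.e
  B a p := (if X.hd a = p then 1 else 0) - (if X.tl a = p then 1 else 0)
  glue t p := by
    rw [Finset.sum_sub_distrib, sub_eq_zero]
    have h1 : ∀ c, (if X.hd (X.e t c) = p then (1 : ℤ) else 0) =
        (fun c => if X.tl (X.e t c) = p then (1 : ℤ) else 0) (c + 1) := by
      intro c
      simp only [X.glue t c]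
    rw [Finset.sum_congr rfl fun c _ => h1 c]
    exact Equiv.sum_comp (Equiv.addRight (1 : ZMod 3)) (fun c => if X.tl (X.e t c) = p then (1 : ℤ)
      else 0)
  inj a b hab := by
    by_contra hcon
    push Not at hcon
    have z : ∀ c : ZMod 3, c ≠ c + 2 := by decide
    have hne : ∀ a : E, X.hd a ≠ X.tl a := by
      intro a h
      have h1 := X.hd_ty a
      rw [h, X.tl_ty] at h1
      exact z _ h1.symm
    apply hab
    apply X.simple
    · have h := hcon (X.hd a)
      rw [if_pos rfl, if_neg (hne a).symm] at h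
      by_contra hn
      rw [if_neg (Ne.symm hn)] at h
      split_ifs at h <;> omega
    · have h := hcon (X.tl a)
      rw [if_neg (hne a), if_pos rfl] at h
      by_contra hn
      rw [if_neg (Ne.symm hn)] at h
      split_ifs at h <;> omega
  cls f hcard hf hne := by
    have hc : X.Circ f := by
      intro p
      have := hf p
      push_cast at this
      exact this
    exact Cx.classify hc (by convert hcard) hne
  cls5 f hcard hf hne := by
    have hc : X.Circ f := by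
      intro p
      have := hf p
      push_cast at this
      exact this
    exact Cx.classify5 hc (by convert hcard) hne
  good := Finset.univ.filter fun t => t ∈ good
  w := W.w
  u := W.u
  w1 := W.w1
  w2 m hm := W.w2 m (by simpa using hm)
  w3 m hm := W.w3 m (by simpa using hm)
  w4 t t' h1 h2 α β h3 h4 h5 := ⟨(W.w4 t t' h1 h2 α β h3 h4 h5).1,
    fun m hm => (W.w4 t t' h1 h2 α β h3 h4 h5).2 m (by simpa using hm)⟩
  w5 t t' t'' c c' h1 h2 h3 h4 h5 := ⟨(W.w5 t t' t'' c c' h1 h2 h3 h4 h5).1,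
    fun m hm => (W.w5 t t' t'' c c' h1 h2 h3 h4 h5).2 m (by simpa using hm)⟩

end

section

variable {E P T : Type*} [Fintype E] [Fintype P] [Fintype T] {X : Cx E P T}

theorem Cx.Wts.mem_good {H : ℕ} {good : Set T} (W : X.Wts H good) {t : T} :
    t ∈ W.toAD.good ↔ t ∈ good := by
  simp [Cx.Wts.toAD]

end

/-! ### padding -/

section

variable {ι P T κ : Type*} [Fintype ι] [Fintype P] [Fintype T] [Fintype κ]

open Classical in
theorem sum_extend (j : ι → κ) (hj : Function.Injective j) (f g : κ → ℝ)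
    (hf : ∀ i, (¬ ∃ e, j e = i) → f i = 0) : ∑ i, f i * g i = ∑ e, f (j e) * g (j e) := by
  have h1 := Finset.sum_map (Finset.univ : Finset ι) ⟨j, hj⟩ (fun i => f i * g i)
  simp only [Function.Embedding.coeFn_mk] at h1
  rw [← h1]
  symm
  refine Finset.sum_subset (Finset.subset_univ _) fun i _ hi => ?_
  rw [hf i, zero_mul]
  rintro ⟨e, rfl⟩
  exact hi (Finset.mem_map.2 ⟨e, Finset.mem_univ e, rfl⟩)

open Classical in
/-- the boundary of the padded inputs -/
noncomputable def padB {H : ℕ} (A : AD H ι P T) (j : ι → κ) (i : κ) (p : P ⊕ κ) : ℤ := match p with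
  | Sum.inl p => Function.extend j (fun e => A.B e p) 0 i
  | Sum.inr i' => if i = i' ∧ ¬ ∃ e, j e = i then 1 else 0

omit [Fintype P] [Fintype T] in
theorem pad_zero {H : ℕ} (A : AD H ι P T) (j : ι → κ) (f : κ → ℝ)
    (hf : ∀ i', ∑ i, f i * (padB A j i (Sum.inr i') : ℝ) = 0) :
    ∀ i, (¬ ∃ e, j e = i) → f i = 0 := by
  intro i hi
  have h1 := hf i
  simp only [padB] at h1
  rw [Finset.sum_eq_single i] at h1
  · rw [if_pos ⟨rfl, hi⟩] at h1
    simpa using h1
  · intro i' _ hi'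
    rw [if_neg (fun h => hi' h.1)]
    simp
  · simp

open Classical in
theorem pad_card {s : ℕ} (j : ι → κ) (hj : Function.Injective j) (f : κ → ℝ)
    (hcard : (univ.filter fun i => f i ≠ 0).card ≤ s) :
    (univ.filter fun e => f (j e) ≠ 0).card ≤ s := by
  refine le_trans ?_ hcard
  rw [← Finset.card_map ⟨j, hj⟩]
  refine Finset.card_le_card fun i hi => ?_
  rw [Finset.mem_map] at hi
  obtain ⟨e, he, rfl⟩ := hi
  simpa using he

omit [Fintype P] [Fintype T] in
theorem pad_bd {H : ℕ} (A : AD H ι P T) (j : ι → κ) (hj : Function.Injective j) (f : κ → ℝ)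
    (h0 : ∀ i, (¬ ∃ e, j e = i) → f i = 0)
    (hf : ∀ p, ∑ i, f i * (padB A j i (Sum.inl p) : ℝ) = 0) (p : P) :
    ∑ e, f (j e) * (A.B e p : ℝ) = 0 := by
  have h1 := hf p
  simp only [padB] at h1
  rw [sum_extend j hj f (fun i => ((Function.extend j (fun e => A.B e p) 0 i : ℤ) : ℝ)) h0] at h1
  simpa only [hj.extend_apply] using h1

omit [Fintype ι] [Fintype κ] in
theorem pad_ne (j : ι → κ) (f : κ → ℝ) (h0 : ∀ i, (¬ ∃ e, j e = i) → f i = 0)
    (hne : ∃ i, f i ≠ 0) : ∃ e, f (j e) ≠ 0 := by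
  obtain ⟨i, hi⟩ := hne
  by_contra hcon
  push Not at hcon
  apply hi
  by_cases h : ∃ e, j e = i
  · obtain ⟨e, rfl⟩ := h
    exact hcon e
  · exact h0 i h

open Classical in
/-- padding the inputs of the adversary -/
noncomputable def AD.pad {H : ℕ} (A : AD H ι P T) (j : ι → κ) (hj : Function.Injective j) :
    AD H κ (P ⊕ κ) T where
  tr t c := j (A.tr t c)
  B := padB A j
  glue t p := by
    rcases p with p | i'
    · simp only [padB, hj.extend_apply]
      exact A.glue t p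
    · refine Finset.sum_eq_zero fun c _ => ?_
      simp only [padB]
      rw [if_neg]
      rintro ⟨-, h⟩
      exact h ⟨_, rfl⟩
  inj i i' hii := by
    by_cases h : ∃ e, j e = i
    · by_cases h' : ∃ e, j e = i'
      · obtain ⟨e, rfl⟩ := h
        obtain ⟨e', rfl⟩ := h'
        obtain ⟨p, hp⟩ := A.inj e e' (fun h => hii (by rw [h]))
        refine ⟨Sum.inl p, ?_⟩
        simp only [padB, hj.extend_apply]
        exact hp
      · refine ⟨Sum.inr i', ?_⟩
        simp only [padB]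
        rw [if_neg (fun h2 => hii h2.1), if_pos ⟨trivial, h'⟩]
        norm_num
    · refine ⟨Sum.inr i, ?_⟩
      simp only [padB]
      rw [if_pos ⟨trivial, h⟩, if_neg (fun h2 => hii h2.1.symm)]
      norm_num
  cls f hcard hf hne := by
    have h0 := pad_zero A j f (fun i' => hf (Sum.inr i'))
    have hs := fun g : κ → ℝ => sum_extend j hj f g h0
    have hcl := A.cls (fun e => f (j e)) (pad_card j hj f hcard)
      (pad_bd A j hj f h0 (fun p => hf (Sum.inl p))) (pad_ne j f h0 hne)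
    rcases hcl with ⟨l, hl, t, h⟩ | ⟨l, hl, t, t', h1, ⟨c, h2⟩, h⟩
    · exact Or.inl ⟨l, hl, t, fun g => by rw [hs g]; exact h fun e => g (j e)⟩
    · exact Or.inr ⟨l, hl, t, t', h1, ⟨c, congrArg j h2⟩, fun g => by
        rw [hs g]; exact h fun e => g (j e)⟩
  cls5 f hcard hf hne := by
    have h0 := pad_zero A j f (fun i' => hf (Sum.inr i'))
    have hs := fun g : κ → ℝ => sum_extend j hj f g h0
    have hcl := A.cls5 (fun e => f (j e)) (pad_card j hj f hcard)
      (pad_bd A j hj f h0 (fun p => hf (Sum.inl p))) (pad_ne j f h0 hne)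
    rcases hcl with (⟨l, hl, t, h⟩ | ⟨l, hl, t, t', h1, ⟨c, h2⟩, h⟩) |
      ⟨t, t', i, i', h1, ⟨c, h2⟩, h3, h⟩ | ⟨l, hl, t, t', t'', c, c', h1, h2, h3, h4, h5, h⟩
    · exact Or.inl (Or.inl ⟨l, hl, t, fun g => by rw [hs g]; exact h fun e => g (j e)⟩)
    · exact Or.inl (Or.inr ⟨l, hl, t, t', h1, ⟨c, congrArg j h2⟩, fun g => by
        rw [hs g]; exact h fun e => g (j e)⟩)
    · exact Or.inr (Or.inl ⟨t, t', j i, j i', h1, ⟨c, congrArg j h2⟩, h3, fun g => by
        rw [hs g]; exact h fun e => g (j e)⟩)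
    · exact Or.inr (Or.inr ⟨l, hl, t, t', t'', c, c', h1, h2, h3, congrArg j h4, congrArg j h5,
        fun g => by rw [hs g]; exact h fun e => g (j e)⟩)
  good := A.good
  w := Function.extend j A.w 0
  u m := Function.extend j (A.u m) 0
  w1 t := by
    simp only [V3, hj.extend_apply]
    exact A.w1 t
  w2 m hm := by
    simp only [V3, hj.extend_apply]
    exact A.w2 m hm
  w3 m hm t ht := by
    simp only [V3, hj.extend_apply]
    exact A.w3 m hm t ht
  w4 t t' h1 h2 := by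
    simp only [V3, hj.extend_apply]
    obtain ⟨c, h2⟩ := h2
    exact A.w4 t t' h1 ⟨c, hj h2⟩
  w5 t t' t'' c c' h1 h2 h3 h4 h5 := by
    simp only [V3, hj.extend_apply]
    exact A.w5 t t' t'' c c' h1 h2 h3 (hj h4) (hj h5)

end

end Pool.Agent.H692.FL
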