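import Pool.Agent.H692.FL.Cx

/-!
# Circulations with at most five edges
-/

namespace Pool.Agent.H692.FL

open Finset

namespace Cx

variable {E P T : Type*} {X : Cx E P T}

theorem tri_of_ar {a b c : E} {p r s : P} (h1 : X.Ar a p r) (h2 : X.Ar b r s) (h3 : X.Ar c s p) :
    ∃ t, ∀ k, X.e t k = a ∨ X.e t k = b ∨ X.e t k = c := by
  classical
  have tr := h1.ty
  have ts := h2.ty
  have tp := h3.ty
  have tya : X.ty a = X.pty r := by rw [← X.hd_ty, h1.2]
  have tyb : X.ty b = X.pty s := by rw [← X.hd_ty, h2.2]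
  have tyc : X.ty c = X.pty p := by rw [← X.hd_ty, h3.2]
  have hb1 : X.ty b = X.ty a + 1 := by rw [tyb, ts, tya]
  have hc1 : X.ty c = X.ty a + 2 := by rw [tyc, tp, ts, tya]; ring
  obtain ⟨A, hA0, hA1, hA2⟩ : ∃ A : ZMod 3 → E, A (X.ty a) = a ∧ A (X.ty a + 1) = b ∧
      A (X.ty a + 2) = c := by
    refine ⟨fun k => if k = X.ty a then a else if k = X.ty a + 1 then b else c, ?_, ?_, ?_⟩
    · simp
    · have : X.ty a + 1 ≠ X.ty a := by generalize X.ty a = k; decide +revert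
      simp only [if_neg this, if_true]
    · have z1 : ∀ k : ZMod 3, k + 2 ≠ k := by decide
      have z2 : ∀ k : ZMod 3, k + 2 ≠ k + 1 := by decide
      simp only [if_neg (z1 _), if_neg (z2 _)]
  have all : ∀ k : ZMod 3, k = X.ty a ∨ k = X.ty a + 1 ∨ k = X.ty a + 2 := by
    intro k
    generalize X.ty a = m
    decide +revert
  obtain ⟨t, ht⟩ := X.tri A (by
    intro k
    rcases all k with rfl | rfl | rfl
    · rw [hA0]
    · rw [hA1, hb1]
    · rw [hA2, hc1]) (by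
    intro k
    rcases all k with rfl | rfl | rfl
    · rw [hA0, hA1, h1.2, h2.1]
    · rw [show X.ty a + 1 + 1 = X.ty a + 2 by ring, hA1, hA2, h2.2, h3.1]
    · have : X.ty a + 2 + 1 = X.ty a := by
        have z : ∀ k : ZMod 3, k + 2 + 1 = k := by decide
        exact z _
      rw [this, hA2, hA0, h3.2, h1.1])
  refine ⟨t, fun k => ?_⟩
  rcases all k with rfl | rfl | rfl
  · rw [ht, hA0]
    exact Or.inl rfl
  · rw [ht, hA1]
    exact Or.inr (Or.inl rfl)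
  · rw [ht, hA2]
    exact Or.inr (Or.inr rfl)

theorem ztri1 : ∀ a b c : ZMod 3, b = a + 1 → c = b + 1 → c = a + 1 → False := by decide
theorem ztri2 : ∀ a b c : ZMod 3, b = a + 1 → b = c + 1 → a = c + 1 → False := by decide
theorem ztri3 : ∀ a b c : ZMod 3, a = b + 1 → c = b + 1 → c = a + 1 → False := by decide
theorem ztri4 : ∀ a b c : ZMod 3, b = a + 1 → b = c + 1 → c = a + 1 → False := by decide
theorem ztri5 : ∀ a b c : ZMod 3, a = b + 1 → c = b + 1 → a = c + 1 → False := by decide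
theorem ztri6 : ∀ a b c : ZMod 3, a = b + 1 → b = c + 1 → a = c + 1 → False := by decide

theorem tri_of_ends {a b c : E} {p r s : P} (h1 : X.Ends a p r) (h2 : X.Ends b r s)
    (h3 : X.Ends c s p) : ∃ t, ∀ k, X.e t k = a ∨ X.e t k = b ∨ X.e t k = c := by
  rcases h1 with h1 | h1 <;> rcases h2 with h2 | h2 <;> rcases h3 with h3 | h3
  · exact tri_of_ar h1 h2 h3
  · exact (ztri1 _ _ _ h1.ty h2.ty h3.ty).elim
  · exact (ztri2 _ _ _ h1.ty h2.ty h3.ty).elim
  · exact (ztri4 _ _ _ h1.ty h2.ty h3.ty).elim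
  · exact (ztri5 _ _ _ h1.ty h2.ty h3.ty).elim
  · exact (ztri3 _ _ _ h1.ty h2.ty h3.ty).elim
  · exact (ztri6 _ _ _ h1.ty h2.ty h3.ty).elim
  · obtain ⟨t, ht⟩ := tri_of_ar h3 h2 h1
    refine ⟨t, fun k => ?_⟩
    rcases ht k with h | h | h
    · exact Or.inr (Or.inr h)
    · exact Or.inr (Or.inl h)
    · exact Or.inl h

/-- two common edges force a third one -/
theorem third {t t' : T} {c : ZMod 3} (h1 : X.e t (c + 1) = X.e t' (c + 1))
    (h2 : X.e t (c + 2) = X.e t' (c + 2)) : X.e t c = X.e t' c := by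
  have z : ∀ c : ZMod 3, c + 2 + 1 = c := by decide
  apply X.simple
  · rw [X.glue t c, X.glue t' c, h1]
  · have e1 := X.glue t (c + 2)
    have e2 := X.glue t' (c + 2)
    rw [z] at e1 e2
    rw [← e1, ← e2, h2]

variable [Fintype E] [DecidableEq E]

/-- the indicator of the edges of a triangle -/
def ind (X : Cx E P T) (t : T) (e : E) : ℝ := ∑ c, if X.e t c = e then 1 else 0

theorem sum_ind (t : T) (g : E → ℝ) : ∑ e, X.ind t e * g e = X.V g t := by
  simp only [ind, Finset.sum_mul, V]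
  rw [Finset.sum_comm]
  refine Finset.sum_congr rfl fun c _ => ?_
  simp

theorem ind_eq (t : T) (e : E) : X.ind t e = if X.e t (X.ty e) = e then 1 else 0 := by
  rw [ind, Finset.sum_eq_single (X.ty e)]
  · intro c _ hc
    rw [if_neg]
    intro h
    apply hc
    rw [← h, X.e_ty]
  · simp

theorem ind_self (t : T) (c : ZMod 3) : X.ind t (X.e t c) = 1 := by
  rw [ind_eq, X.e_ty, if_pos rfl]

theorem ind_other {t t' : T} {c : ZMod 3} (h : X.e t c ≠ X.e t' c) : X.ind t' (X.e t c) = 0 := by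
  rw [ind_eq, X.e_ty, if_neg (Ne.symm h)]

theorem form_at {f : E → ℝ} {φ : (E → ℝ) → ℝ} (h : ∀ g : E → ℝ, ∑ e, f e * g e = φ g) (e : E) :
    f e = φ (fun e' => if e' = e then 1 else 0) := by
  rw [← h]
  simp

theorem V_single (t : T) (e : E) : X.V (fun e' => if e' = e then 1 else 0) t = X.ind t e := rfl

/-- the shape of a circulation with at most five edges -/
def Shape5 (X : Cx E P T) (f : E → ℝ) : Prop :=
  X.Shape f ∨
  (∃ t t' i j, t ≠ t' ∧ (∃ c, X.e t c = X.e t' c) ∧ (f i ≠ 0 ∨ f j ≠ 0) ∧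
    ∀ g : E → ℝ, ∑ e, f e * g e = f i * X.V g t + f j * X.V g t') ∨
  ∃ l : ℝ, l ≠ 0 ∧ ∃ t t' t'' c c', t ≠ t' ∧ t' ≠ t'' ∧ c ≠ c' ∧ X.e t c = X.e t' c ∧
    X.e t' c' = X.e t'' c' ∧
    ∀ g : E → ℝ, ∑ e, f e * g e = l * (X.V g t - X.V g t' + X.V g t'')

theorem sum_supp5 {f : E → ℝ} {a b c d k : E} (hab : a ≠ b) (hac : a ≠ c) (had : a ≠ d)
    (hak : a ≠ k) (hbc : b ≠ c) (hbd : b ≠ d) (hbk : b ≠ k) (hcd : c ≠ d) (hck : c ≠ k)
    (hdk : d ≠ k) (hs : ∀ e, f e ≠ 0 → e = a ∨ e = b ∨ e = c ∨ e = d ∨ e = k) (g : E → ℝ) :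
    ∑ e, f e * g e = f a * g a + f b * g b + f c * g c + f d * g d + f k * g k := by
  rw [← Finset.sum_subset (Finset.subset_univ {a, b, c, d, k})]
  · rw [Finset.sum_insert (by simp [hab, hac, had, hak]), Finset.sum_insert (by simp [hbc, hbd, hbk]),
      Finset.sum_insert (by simp [hcd, hck]), Finset.sum_insert (by simp [hdk]),
      Finset.sum_singleton]
    ring
  · intro e _ he
    simp only [Finset.mem_insert, Finset.mem_singleton, not_or] at he
    by_contra h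
    have := hs e (left_ne_zero_of_mul h)
    tauto

variable [DecidableEq P]

theorem circ_ind (t : T) : X.Circ (X.ind t) := by
  intro p
  rw [sum_ind, V, Finset.sum_sub_distrib, sub_eq_zero]
  have h1 : ∀ c, (if X.hd (X.e t c) = p then (1 : ℝ) else 0) =
      (fun c => if X.tl (X.e t c) = p then (1 : ℝ) else 0) (c + 1) := by
    intro c
    simp only [X.glue t c]
  rw [Finset.sum_congr rfl fun c _ => h1 c]
  exact Equiv.sum_comp (Equiv.addRight (1 : ZMod 3)) (fun c => if X.tl (X.e t c) = p then (1 : ℝ)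
    else 0)

theorem shape5 {f : E → ℝ} (hf : X.Circ f) {a1 a2 a3 a4 a5 : E}
    (hs : ∀ e, f e ≠ 0 → e = a1 ∨ e = a2 ∨ e = a3 ∨ e = a4 ∨ e = a5) (ha : f a1 ≠ 0)
    {p0 p1 p2 p3 p4 : P} (n03 : p0 ≠ p3) (n14 : p1 ≠ p4) (h1 : X.Ar a1 p0 p1)
    (h2 : X.Ar a2 p1 p2) (h3 : X.Ar a3 p2 p3) (h4 : X.Ar a4 p3 p4) (h5 : X.Ar a5 p0 p4) :
    X.Shape5 f := by
  have t1 := h1.ty
  have t2 := h2.ty
  have t3 := h3.ty
  have t4 := h4.ty
  obtain ⟨τ, hτ⟩ : ∃ τ, τ = X.pty p0 := ⟨_, rfl⟩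
  have zz : ∀ x : ZMod 3, x + 1 + 1 = x + 2 := by decide
  have zz2 : ∀ x : ZMod 3, x + 2 + 1 = x := by decide
  have z1 : ∀ x : ZMod 3, x ≠ x + 1 := by decide
  have z2 : ∀ x : ZMod 3, x ≠ x + 2 := by decide
  have z3 : ∀ x : ZMod 3, x + 1 ≠ x + 2 := by decide
  rw [← hτ] at t1
  rw [t1, zz] at t2
  rw [t2, zz2] at t3
  rw [t3] at t4
  have nty : ∀ p q : P, X.pty p ≠ X.pty q → p ≠ q := fun p q h h' => h (by rw [h'])
  have n01 : p0 ≠ p1 := nty _ _ (by rw [← hτ, t1]; exact z1 _)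
  have n02 : p0 ≠ p2 := nty _ _ (by rw [← hτ, t2]; exact z2 _)
  have n04 : p0 ≠ p4 := nty _ _ (by rw [← hτ, t4]; exact z1 _)
  have n12 : p1 ≠ p2 := nty _ _ (by rw [t1, t2]; exact z3 _)
  have n13 : p1 ≠ p3 := nty _ _ (by rw [t1, t3]; exact (z1 _).symm)
  have n23 : p2 ≠ p3 := nty _ _ (by rw [t2, t3]; exact (z2 _).symm)
  have n24 : p2 ≠ p4 := nty _ _ (by rw [t2, t4]; exact (z3 _).symm)
  have n34 : p3 ≠ p4 := nty _ _ (by rw [t3, t4]; exact z1 _)
  have d12 : a1 ≠ a2 := by rintro rfl; exact n01 (h1.1.symm.trans h2.1)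
  have d13 : a1 ≠ a3 := by rintro rfl; exact n02 (h1.1.symm.trans h3.1)
  have d14 : a1 ≠ a4 := by rintro rfl; exact n03 (h1.1.symm.trans h4.1)
  have d15 : a1 ≠ a5 := by rintro rfl; exact n14 (h1.2.symm.trans h5.2)
  have d23 : a2 ≠ a3 := by rintro rfl; exact n12 (h2.1.symm.trans h3.1)
  have d24 : a2 ≠ a4 := by rintro rfl; exact n13 (h2.1.symm.trans h4.1)
  have d25 : a2 ≠ a5 := by rintro rfl; exact n01 (h5.1.symm.trans h2.1)
  have d34 : a3 ≠ a4 := by rintro rfl; exact n23 (h3.1.symm.trans h4.1)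
  have d35 : a3 ≠ a5 := by rintro rfl; exact n02 (h5.1.symm.trans h3.1)
  have d45 : a4 ≠ a5 := by rintro rfl; exact n03 (h5.1.symm.trans h4.1)
  have hsum := fun g => sum_supp5 d12 d13 d14 d15 d23 d24 d25 d34 d35 d45 hs g
  have b1 := hf p1
  have b2 := hf p2
  have b3 := hf p3
  have b4 := hf p4
  rw [hsum] at b1 b2 b3 b4
  rw [h1.1, h1.2, h2.1, h2.2, h3.1, h3.2, h4.1, h4.2, h5.1, h5.2] at b1 b2 b3 b4
  simp [n01, n01.symm, n02, n02.symm, n03, n03.symm, n04, n04.symm, n12, n12.symm, n13, n13.symm,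
    n14, n14.symm, n23, n23.symm, n24, n24.symm, n34, n34.symm] at b1 b2 b3 b4
  have e2 : f a2 = f a1 := by linarith
  have e3 : f a3 = f a1 := by linarith
  have e4 : f a4 = f a1 := by linarith
  have e5 : f a5 = -f a1 := by linarith
  obtain ⟨t, k1, k2⟩ := X.penta a1 a2 a3 a4 a5 (h1.2.trans h2.1.symm) (h2.2.trans h3.1.symm)
    (h3.2.trans h4.1.symm) (h4.2.trans h5.2.symm) (h5.1.trans h1.1.symm)
    (by rw [h1.2, h4.2]; exact n14) (by rw [h1.1, h3.2]; exact n03)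
  have ty1 : X.ty a1 = τ + 1 := by rw [← X.hd_ty, h1.2, t1]
  have ty3 : X.ty a3 = τ := by rw [← X.hd_ty, h3.2, t3]
  rw [ty1] at k1 k2
  rw [zz] at k2
  -- the third edge
  have g1 := X.glue t (τ + 2)
  rw [zz2] at g1
  have g2 := X.glue t (τ + 1)
  rw [zz] at g2
  have g3 := X.glue t τ
  have hd' : X.hd (X.e t τ) = p0 := by rw [g3, k1, h1.1]
  have tl' : X.tl (X.e t τ) = p2 := by rw [← g1, k2, h2.2]
  have hne : a3 ≠ X.e t τ := by
    intro h
    apply n03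
    rw [← hd', ← h, h3.2]
  obtain ⟨t', t'', q1, q2, q3, q4, q5⟩ := X.kite a3 (X.e t τ) a4 a5 (by rw [h3.1, tl']) hne
    (h3.2.trans h4.1.symm) (by rw [hd', h5.1]) (h4.2.trans h5.2.symm)
  rw [ty3] at q1 q2 q3 q4 q5
  right
  right
  refine ⟨f a1, ha, t, t'', t', τ, τ + 2, ?_, ?_, z2 _, q3.symm, q5.symm, fun g => ?_⟩
  · rintro rfl
    exact d15 (k1.symm.trans q4)
  · rintro rfl
    exact hne (q1.symm.trans q3)
  · rw [hsum, V_eq g t τ, V_eq g t' τ, V_eq g t'' τ, k1, k2, q1, q2, q3, q4, q5, e2, e3, e4, e5]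
    ring

end Cx

end Pool.Agent.H692.FL
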