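import Pool.Agent.H692.FL.Expect
import Pool.Agent.H692.FL.Adv

/-!
# Linear equations in three variables
-/

namespace Pool.Agent.H692.FL

open Finset

/-- a solution of `α 0 * x + α 1 * y + α 2 * z = 0` with three different indices -/
def SolD {n : ℕ} (α : ZMod 3 → ℤ) (x : Fin n → ℤ) : Prop :=
  ∃ i j k : Fin n, i ≠ j ∧ i ≠ k ∧ j ≠ k ∧ α 0 * x i + α 1 * x j + α 2 * x k = 0

/-- a solution whose indices need not be different, except if the equation does not change under
translations: then the three indices are not all the same -/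
def SolW {n : ℕ} (α : ZMod 3 → ℤ) (x : Fin n → ℤ) : Prop :=
  ∃ i j k : Fin n, ¬ (i = j ∧ j = k ∧ α 0 + α 1 + α 2 = 0) ∧
    α 0 * x i + α 1 * x j + α 2 * x k = 0

theorem sum3 {M : Type*} [AddCommMonoid M] (f : ZMod 3 → M) : ∑ c, f c = f 0 + f 1 + f 2 := by
  have hu : (univ : Finset (ZMod 3)) = {0, 1, 2} := rfl
  rw [hu, Finset.sum_insert (by decide), Finset.sum_insert (by decide), Finset.sum_singleton,
    add_assoc]

theorem exists_off (α : ZMod 3 → ℤ) (hα : ∀ c, α c ≠ 0) : ∃ o : ZMod 3 → ℤ,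
    Function.Injective o ∧ ∑ c, α c * o c = 0 := by
  have h0 := hα 0
  have h1 := hα 1
  have h2 := hα 2
  obtain ⟨t, ht0, ht1, ht2⟩ : ∃ t : ℤ, 0 ≤ t ∧ α 1 ≠ -α 0 + α 2 * t ∧
      -α 0 + α 2 * t ≠ -α 1 * t := by
    by_contra hcon
    push Not at hcon
    have k0 := hcon 0
    have k1 := hcon 1
    have k2 := hcon 2
    by_cases e : α 1 = -α 0 + α 2 * 0
    · have d1 : α 1 ≠ -α 0 + α 2 * 1 := fun h => h2 (by linarith)
      have d2 : α 1 ≠ -α 0 + α 2 * 2 := fun h => h2 (by linarith)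
      have e1 := k1 (by norm_num) d1
      have e2 := k2 (by norm_num) d2
      exact h0 (by linarith)
    · have e0 := k0 (by norm_num) e
      exact h0 (by linarith)
  refine ⟨fun c => if c = 0 then α 1 else if c = 1 then -α 0 + α 2 * t else -α 1 * t, ?_, ?_⟩
  · have z10 : (1 : ZMod 3) ≠ 0 := by decide
    have z20 : (2 : ZMod 3) ≠ 0 := by decide
    have z21 : (2 : ZMod 3) ≠ 1 := by decide
    have a02 : α 1 ≠ -α 1 * t := by
      intro h
      have h3 : α 1 * (1 + t) = 0 := by linarith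
      rcases mul_eq_zero.1 h3 with h4 | h4
      · exact h1 h4
      · omega
    intro a b hab
    have all : ∀ c : ZMod 3, c = 0 ∨ c = 1 ∨ c = 2 := by decide
    rcases all a with rfl | rfl | rfl <;> rcases all b with rfl | rfl | rfl <;>
      simp only [if_true, if_neg z10, if_neg z20, if_neg z21] at hab <;>
      first
      | rfl
      | exact absurd hab ht1
      | exact absurd hab a02
      | exact absurd hab.symm ht1
      | exact absurd hab ht2
      | exact absurd hab.symm a02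
      | exact absurd hab.symm ht2
  · rw [sum3]
    have z10 : (1 : ZMod 3) ≠ 0 := by decide
    have z20 : (2 : ZMod 3) ≠ 0 := by decide
    have z21 : (2 : ZMod 3) ≠ 1 := by decide
    simp only [if_true, if_neg z10, if_neg z20, if_neg z21]
    ring

open Classical in
/-- The lower bound for a linear equation in three variables. -/
theorem lower3 {n H : ℕ} {P T : Type} [Fintype P] [Fintype T] (A : AD H (Fin n) P T)
    (hH : 1 ≤ H) (τ : Fin n → ZMod 3) (hτ : ∀ t c, τ (A.tr t c) = c) (α : ZMod 3 → ℤ)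
    (hα : ∀ c, α c ≠ 0) {G H₀ : ℝ} (hG : ∀ c, |(α c : ℝ)| ≤ G) (hGH : G ^ 2 * H₀ ≤ H)
    {Ω : Type} [Fintype Ω] (p : Ω → ℝ) (hp : ∀ ω, 0 ≤ p ω) (hp1 : ∑ ω, p ω = 1)
    (t : Ω → Tree (Fin n)) (hs : ∀ ω, (t ω).FiveTerm H₀)
    (hcor : ∀ x : Fin n → ℤ, StrictMono x → (SolD α x ∨ ¬ SolW α x) → 2 / 3 ≤ ∑ ω, p ω *
      (if ((t ω).run (fun i => (x i : ℝ)) = true ↔ SolD α x) then (1 : ℝ) else 0)) :
    ∃ x : Fin n → ℤ, StrictMono x ∧ ¬ SolW α x ∧
      (A.good.card : ℝ) / 9 ≤ ∑ ω, p ω * ((t ω).cost (fun i => (x i : ℝ)) : ℝ) := by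
  obtain ⟨off, off_inj, off_sum⟩ := exists_off α hα
  obtain ⟨κ, hκ⟩ : ∃ κ : ZMod 3 → ℤ, ∀ c, κ c = α (c + 1) * α (c + 2) := ⟨_, fun _ => rfl⟩
  have hκ0 : ∀ c, κ c ≠ 0 := fun c => by rw [hκ]; exact mul_ne_zero (hα _) (hα _)
  have hακ : ∀ c, α c * κ c = α 0 * α 1 * α 2 := by
    intro c
    have all : ∀ c : ZMod 3, c = 0 ∨ c = 1 ∨ c = 2 := by decide
    have z1 : (1 : ZMod 3) + 1 = 2 := by decide
    have z2 : (1 : ZMod 3) + 2 = 0 := by decide
    have z3 : (2 : ZMod 3) + 1 = 0 := by decide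
    have z4 : (2 : ZMod 3) + 2 = 1 := by decide
    have z5 : (0 : ZMod 3) + 1 = 1 := by decide
    have z6 : (0 : ZMod 3) + 2 = 2 := by decide
    rcases all c with rfl | rfl | rfl
    · rw [hκ, z5, z6]; ring
    · rw [hκ, z1, z2]; ring
    · rw [hκ, z3, z4]; ring
  -- the triple forms and the pair forms
  obtain ⟨tf, htf⟩ : ∃ tf : Fin n × Fin n × Fin n → (Fin n → ℝ), ∀ k i, tf k i =
      (if i = k.1 then ((α 0 * κ (τ k.1) : ℤ) : ℝ) else 0) +
      (if i = k.2.1 then ((α 1 * κ (τ k.2.1) : ℤ) : ℝ) else 0) +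
      (if i = k.2.2 then ((α 2 * κ (τ k.2.2) : ℤ) : ℝ) else 0) := ⟨_, fun _ _ => rfl⟩
  obtain ⟨pf, hpf⟩ : ∃ pf : Fin n × Fin n → (Fin n → ℝ), ∀ k i, pf k i =
      (if i = k.1 then 1 else 0) - (if i = k.2 then 1 else 0) := ⟨_, fun _ _ => rfl⟩
  obtain ⟨qf, hqf⟩ : ∃ qf : (Fin n → ℝ) → Equiv.Perm (Fin n) → (Fin n → ℝ), ∀ a σ i, qf a σ i =
      (κ (τ i) : ℝ) * a (σ.symm i) := ⟨_, fun _ _ _ => rfl⟩
  have hfin : (⋃ ω, (t ω).qs).Finite := Set.finite_iUnion fun ω => (t ω).qs_finite
  obtain ⟨Q, hQ⟩ : ∃ Q : Finset ((Fin n → ℝ) × ℝ), Q =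
    ((hfin.toFinset ×ˢ (Finset.univ : Finset (Equiv.Perm (Fin n)))).image
      fun z => (qf z.1.1 z.2, z.1.2)) ∪ (Finset.univ.image (fun k => (tf k, (0 : ℝ))) ∪
    Finset.univ.image (fun k => (pf k, (0 : ℝ)))) := ⟨_, rfl⟩
  have hκG : ∀ c, |(κ c : ℝ)| ≤ G ^ 2 := by
    intro c
    rw [hκ]
    push_cast
    rw [abs_mul, sq]
    exact mul_le_mul (hG _) (hG _) (abs_nonneg _) ((abs_nonneg _).trans (hG 0))
  obtain ⟨x, y, h1, h2, h3, h5⟩ := A.main hH Q (by
    intro s hsQ
    rw [hQ, Finset.mem_union, Finset.mem_union] at hsQ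
    rcases hsQ with h | h | h
    · rw [Finset.mem_image] at h
      obtain ⟨⟨z, σ⟩, hz, rfl⟩ := h
      rw [Finset.mem_product, Set.Finite.mem_toFinset, Set.mem_iUnion] at hz
      obtain ⟨ω, hω⟩ := hz.1
      have hcard : (univ.filter fun i => qf z.1 σ i ≠ 0).card ≤
          (univ.filter fun i => z.1 i ≠ 0).card := by
        refine Finset.card_le_card_of_injOn σ.symm ?_ σ.symm.injective.injOn
        intro i hi
        rw [Finset.mem_coe, Finset.mem_filter] at hi ⊢
        refine ⟨Finset.mem_univ _, fun h0 => hi.2 ?_⟩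
        rw [hqf, h0, mul_zero]
      rcases Tree.qs_adm (hs ω) z hω with hz4 | ⟨hz5, hzint⟩
      · exact Or.inl (hcard.trans (by convert hz4))
      · refine Or.inr ⟨hcard.trans (by convert hz5), fun i => ?_⟩
        obtain ⟨v, hv, hv'⟩ := hzint (σ.symm i)
        refine ⟨κ (τ i) * v, ?_, ?_⟩
        · change qf z.1 σ i = _
          rw [hqf, hv]
          push_cast
          ring
        · push_cast
          rw [abs_mul]
          exact (mul_le_mul (hκG _) hv' (abs_nonneg _) (sq_nonneg _)).trans hGH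
    · rw [Finset.mem_image] at h
      obtain ⟨k, -, rfl⟩ := h
      have hsub : (univ.filter fun i => tf k i ≠ 0) ⊆ {k.1, k.2.1, k.2.2} := by
        intro i hi
        rw [Finset.mem_filter, htf] at hi
        by_contra hcon
        simp only [Finset.mem_insert, Finset.mem_singleton, not_or] at hcon
        apply hi.2
        rw [if_neg hcon.1, if_neg hcon.2.1, if_neg hcon.2.2]
        norm_num
      left
      refine le_trans (Finset.card_le_card (by convert hsub)) ?_
      exact le_trans (Finset.card_le_three) (by norm_num)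
    · rw [Finset.mem_image] at h
      obtain ⟨k, -, rfl⟩ := h
      have hsub : (univ.filter fun i => pf k i ≠ 0) ⊆ {k.1, k.2} := by
        intro i hi
        rw [Finset.mem_filter, hpf] at hi
        by_contra hcon
        simp only [Finset.mem_insert, Finset.mem_singleton, not_or] at hcon
        apply hi.2
        rw [if_neg hcon.1, if_neg hcon.2]
        norm_num
      left
      refine le_trans (Finset.card_le_card (by convert hsub)) ?_
      exact le_trans (Finset.card_le_two) (by norm_num))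
  have tfsum : ∀ (k : Fin n × Fin n × Fin n) (g : Fin n → ℝ),
      ∑ i, tf k i * g i = ((α 0 * κ (τ k.1) : ℤ) : ℝ) * g k.1 +
        ((α 1 * κ (τ k.2.1) : ℤ) : ℝ) * g k.2.1 + ((α 2 * κ (τ k.2.2) : ℤ) : ℝ) * g k.2.2 := by
    intro k g
    simp only [htf, add_mul, Finset.sum_add_distrib, ite_mul, zero_mul,
      Finset.sum_ite_eq', Finset.mem_univ, if_true]
  have pfsum : ∀ (k : Fin n × Fin n) (g : Fin n → ℝ),
      ∑ i, pf k i * g i = g k.1 - g k.2 := by
    intro k g
    simp only [hpf, sub_mul, Finset.sum_sub_distrib, ite_mul, one_mul, zero_mul,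
      Finset.sum_ite_eq', Finset.mem_univ, if_true]
  have hc0 : ∀ (c : ZMod 3) (i : Fin n), ((α c * κ (τ i) : ℤ) : ℝ) ≠ 0 := by
    intro c i
    exact_mod_cast mul_ne_zero (hα c) (hκ0 _)
  -- the facts about the inputs
  have f1 : ∀ i j k : Fin n, ¬ (i = j ∧ j = k ∧ α 0 + α 1 + α 2 = 0) →
      α 0 * κ (τ i) * x i + α 1 * κ (τ j) * x j + α 2 * κ (τ k) * x k ≠ 0 := by
    intro i j k hijk h
    have hmem : (tf (i, j, k), (0 : ℝ)) ∈ Q := by
      rw [hQ, Finset.mem_union, Finset.mem_union]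
      exact Or.inr (Or.inl (Finset.mem_image_of_mem (fun k => (tf k, (0 : ℝ)))
        (Finset.mem_univ _)))
    refine h2 _ hmem ?_ ?_
    · by_cases hij : i = j
      · by_cases hjk : j = k
        · have hs : α 0 + α 1 + α 2 ≠ 0 := fun h => hijk ⟨hij, hjk, h⟩
          refine ⟨i, ?_⟩
          change tf (i, j, k) i ≠ 0
          rw [htf]
          simp only
          rw [if_pos trivial, if_pos hij, if_pos (hij.trans hjk), ← hjk, ← hij]
          have : (α 0 * κ (τ i) + α 1 * κ (τ i) + α 2 * κ (τ i) : ℤ) ≠ 0 := by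
            rw [← add_mul, ← add_mul]
            exact mul_ne_zero hs (hκ0 _)
          exact_mod_cast this
        · refine ⟨k, ?_⟩
          change tf (i, j, k) k ≠ 0
          rw [htf]
          simp only
          rw [if_neg (fun h => hjk (hij.symm.trans h.symm)), if_neg (fun h => hjk h.symm),
            if_pos trivial, zero_add, zero_add]
          exact hc0 2 k
      · by_cases hik : i = k
        · refine ⟨j, ?_⟩
          change tf (i, j, k) j ≠ 0
          rw [htf]
          simp only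
          rw [if_neg (fun h => hij h.symm), if_pos trivial,
            if_neg (fun h => hij (hik.trans h.symm)), zero_add, add_zero]
          exact hc0 1 j
        · refine ⟨i, ?_⟩
          change tf (i, j, k) i ≠ 0
          rw [htf]
          simp only
          rw [if_pos trivial, if_neg hij, if_neg hik, add_zero, add_zero]
          exact hc0 0 i
    · rw [tfsum]
      simp only
      exact_mod_cast h
  have f2 : ∀ i j : Fin n, i ≠ j → x i ≠ x j ∧ ∀ m,
      SignType.sign (x i - x j) = SignType.sign (y m i - y m j) := by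
    intro i j hij
    have hmem : (pf (i, j), (0 : ℝ)) ∈ Q := by
      rw [hQ, Finset.mem_union, Finset.mem_union]
      exact Or.inr (Or.inr (Finset.mem_image_of_mem (fun k => (pf k, (0 : ℝ)))
        (Finset.mem_univ _)))
    obtain ⟨p, hp⟩ := A.inj i j hij
    obtain ⟨g1, g2⟩ := h5 _ hmem ⟨p, by
      rw [pfsum (i, j) (fun i => (A.B i p : ℝ))]
      simp only
      rw [sub_ne_zero]
      exact_mod_cast hp⟩
    simp only [pfsum, add_zero] at g1 g2
    refine ⟨fun h => g1 (by rw [h]; ring), fun m => ?_⟩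
    have := g2 m
    rw [← Int.cast_sub, ← Int.cast_sub, sign_intCast, sign_intCast] at this
    exact this
  -- the scale of the offsets
  obtain ⟨Z, hZ⟩ : ∃ Z : Option T → Fin n → ℤ, ∀ m, Z m = m.elim x y := ⟨_, fun _ => rfl⟩
  have hev1 : ∀ᶠ M : ℕ in Filter.atTop, ∀ z ∈ hfin.toFinset, ∀ σ : Equiv.Perm (Fin n),
      ∀ m : Option T, (∑ i, z.1 (σ.symm i) * (off (τ i) : ℝ)) ≠ 0 →
      SignType.sign ((M : ℝ) * (∑ i, z.1 (σ.symm i) * (off (τ i) : ℝ)) +
        (∑ i, qf z.1 σ i * (Z m i : ℝ) + z.2)) =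
      SignType.sign (∑ i, z.1 (σ.symm i) * (off (τ i) : ℝ)) := by
    rw [Filter.eventually_all_finset]
    intro z _
    rw [Filter.eventually_all]
    intro σ
    rw [Filter.eventually_all]
    intro m
    by_cases h : (∑ i, z.1 (σ.symm i) * (off (τ i) : ℝ)) = 0
    · exact Filter.Eventually.of_forall fun M h' => absurd h h'
    · filter_upwards [evsign h (∑ i, qf z.1 σ i * (Z m i : ℝ) + z.2)] with M hM _
      exact hM
  have hev2 : ∀ᶠ M : ℕ in Filter.atTop, ∀ i j : Fin n, ∀ m : Option T,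
      off (τ i) - off (τ j) ≠ 0 → SignType.sign ((M : ℤ) * (off (τ i) - off (τ j)) +
        (κ (τ i) * Z m i - κ (τ j) * Z m j)) = SignType.sign (off (τ i) - off (τ j)) := by
    rw [Filter.eventually_all]
    intro i
    rw [Filter.eventually_all]
    intro j
    rw [Filter.eventually_all]
    intro m
    by_cases h : off (τ i) - off (τ j) = 0
    · exact Filter.Eventually.of_forall fun M h' => absurd h h'
    · have hr : ((off (τ i) - off (τ j) : ℤ) : ℝ) ≠ 0 := by exact_mod_cast h
      filter_upwards [evsign hr ((κ (τ i) * Z m i - κ (τ j) * Z m j : ℤ) : ℝ)] with M hM _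
      rw [sign_intCast] at hM
      rw [← hM, ← sign_intCast]
      push_cast
      rfl
  have hev3 : ∀ᶠ M : ℕ in Filter.atTop, ∀ i j k : Fin n,
      α 0 * off (τ i) + α 1 * off (τ j) + α 2 * off (τ k) ≠ 0 →
      (M : ℤ) * (α 0 * off (τ i) + α 1 * off (τ j) + α 2 * off (τ k)) +
        (α 0 * κ (τ i) * x i + α 1 * κ (τ j) * x j + α 2 * κ (τ k) * x k) ≠ 0 := by
    rw [Filter.eventually_all]
    intro i
    rw [Filter.eventually_all]
    intro j
    rw [Filter.eventually_all]
    intro k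
    by_cases h : α 0 * off (τ i) + α 1 * off (τ j) + α 2 * off (τ k) = 0
    · exact Filter.Eventually.of_forall fun M h' => absurd h h'
    · have hr : ((α 0 * off (τ i) + α 1 * off (τ j) + α 2 * off (τ k) : ℤ) : ℝ) ≠ 0 := by
        exact_mod_cast h
      filter_upwards [evsign hr ((α 0 * κ (τ i) * x i + α 1 * κ (τ j) * x j +
        α 2 * κ (τ k) * x k : ℤ) : ℝ)] with M hM _ h0
      have h0' : (M : ℝ) * ((α 0 * off (τ i) + α 1 * off (τ j) + α 2 * off (τ k) : ℤ) : ℝ) +
          ((α 0 * κ (τ i) * x i + α 1 * κ (τ j) * x j + α 2 * κ (τ k) * x k : ℤ) : ℝ) = 0 := by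
        exact_mod_cast h0
      rw [h0', sign_zero] at hM
      exact hr (sign_eq_zero_iff.1 hM.symm)
  obtain ⟨M, hM1, hM2, hM3⟩ := (hev1.and (hev2.and hev3)).exists
  -- the shifted inputs
  obtain ⟨X, hX⟩ : ∃ X : Option T → Fin n → ℤ, ∀ m i, X m i = κ (τ i) * Z m i + M * off (τ i) :=
    ⟨_, fun _ _ => rfl⟩
  have hord : ∀ i j m, SignType.sign (X none i - X none j) = SignType.sign (X m i - X m j) := by
    intro i j m
    have e : ∀ m, X m i - X m j = (M : ℤ) * (off (τ i) - off (τ j)) +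
        (κ (τ i) * Z m i - κ (τ j) * Z m j) := by
      intro m
      rw [hX, hX]
      ring
    by_cases h : off (τ i) - off (τ j) = 0
    · have hij := off_inj (sub_eq_zero.1 h)
      by_cases hne : i = j
      · rw [hne]
        simp
      · have e' : ∀ m, X m i - X m j = κ (τ j) * (Z m i - Z m j) := by
          intro m
          rw [e m, h, hij]
          ring
        rw [e', e', sign_mul, sign_mul]
        congr 1
        cases m with
        | none => rfl
        | some m =>
          rw [hZ, hZ]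
          exact (f2 i j hne).2 m
    · rw [e, e, hM2 i j none h, hM2 i j m h]
  have hne : ∀ i j, i ≠ j → X none i ≠ X none j := by
    intro i j hij h0
    have e : X none i - X none j = (M : ℤ) * (off (τ i) - off (τ j)) +
        (κ (τ i) * Z none i - κ (τ j) * Z none j) := by
      rw [hX, hX]
      ring
    have h0' : X none i - X none j = 0 := sub_eq_zero.2 h0
    by_cases h : off (τ i) - off (τ j) = 0
    · have hij' := off_inj (sub_eq_zero.1 h)
      rw [h, hij', mul_zero, zero_add, ← mul_sub, hZ] at e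
      rw [h0'] at e
      exact (f2 i j hij).1 (sub_eq_zero.1 ((mul_eq_zero.1 e.symm).resolve_left (hκ0 _)))
    · have h3 := hM2 i j none h
      rw [← e, h0', sign_zero] at h3
      exact h (sign_eq_zero_iff.1 h3.symm)
  obtain ⟨σ, hσ⟩ : ∃ σ : Equiv.Perm (Fin n), StrictMono (X none ∘ σ) := by
    refine ⟨Tuple.sort (X none), (Tuple.monotone_sort (X none)).strictMono_of_injective ?_⟩
    intro i j h
    by_contra hij
    exact hne _ _ (fun h' => hij ((Tuple.sort (X none)).injective h')) h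
  have hmono : ∀ m, StrictMono (fun i => X m (σ i)) := by
    intro m i j hij
    have h3 := hσ hij
    have h4 := hord (σ i) (σ j) m
    simp only [Function.comp_apply] at h3
    rw [sign_neg (by linarith)] at h4
    have := sign_eq_neg_one_iff.1 h4.symm
    linarith
  -- the forms
  have hform : ∀ (a : Fin n → ℝ) (b : ℝ) (m : Option T),
      ∑ i, a i * ((X m (σ i) : ℤ) : ℝ) + b =
      (M : ℝ) * (∑ i, a (σ.symm i) * (off (τ i) : ℝ)) + (∑ i, qf a σ i * (Z m i : ℝ) + b) := by
    intro a b m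
    have e1 : ∑ i, a i * ((X m (σ i) : ℤ) : ℝ) = ∑ i, a (σ.symm i) * ((X m i : ℤ) : ℝ) := by
      rw [← Equiv.sum_comp σ (fun i => a (σ.symm i) * ((X m i : ℤ) : ℝ))]
      refine Finset.sum_congr rfl fun i _ => ?_
      rw [Equiv.symm_apply_apply]
    rw [e1, Finset.mul_sum, ← add_assoc, ← Finset.sum_add_distrib]
    congr 1
    refine Finset.sum_congr rfl fun i _ => ?_
    rw [hX, hqf]
    push_cast
    ring
  have hno : ¬ SolW α (fun i => X none (σ i)) := by
    rintro ⟨i, j, k, hijk, h⟩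
    simp only at h
    have e : α 0 * X none (σ i) + α 1 * X none (σ j) + α 2 * X none (σ k) =
        (M : ℤ) * (α 0 * off (τ (σ i)) + α 1 * off (τ (σ j)) + α 2 * off (τ (σ k))) +
        (α 0 * κ (τ (σ i)) * x (σ i) + α 1 * κ (τ (σ j)) * x (σ j) +
          α 2 * κ (τ (σ k)) * x (σ k)) := by
      rw [hX, hX, hX, hZ]
      simp only [Option.elim]
      ring
    rw [h] at e
    by_cases ho : α 0 * off (τ (σ i)) + α 1 * off (τ (σ j)) + α 2 * off (τ (σ k)) = 0
    · rw [ho, mul_zero, zero_add] at e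
      refine f1 (σ i) (σ j) (σ k) ?_ e.symm
      rintro ⟨h1, h2, h3⟩
      exact hijk ⟨σ.injective h1, σ.injective h2, h3⟩
    · exact hM3 _ _ _ ho e.symm
  have hyes : ∀ m ∈ A.good, SolD α (fun i => X (some m) (σ i)) := by
    intro m hm
    have hdist : ∀ c c' : ZMod 3, c ≠ c' → σ.symm (A.tr m c) ≠ σ.symm (A.tr m c') := by
      intro c c' hc h
      apply hc
      rw [← hτ m c, σ.symm.injective h, hτ]
    refine ⟨σ.symm (A.tr m 0), σ.symm (A.tr m 1), σ.symm (A.tr m 2), hdist 0 1 (by decide),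
      hdist 0 2 (by decide), hdist 1 2 (by decide), ?_⟩
    simp only [Equiv.apply_symm_apply]
    have h := h3 m hm
    rw [V3, sum3] at h
    rw [sum3] at off_sum
    rw [hX, hX, hX, hτ, hτ, hτ, hZ]
    simp only [Option.elim]
    have e : α 0 * (κ 0 * y m (A.tr m 0) + ↑M * off 0) + α 1 * (κ 1 * y m (A.tr m 1) + ↑M * off 1) +
        α 2 * (κ 2 * y m (A.tr m 2) + ↑M * off 2) =
        (α 0 * κ 0) * y m (A.tr m 0) + (α 1 * κ 1) * y m (A.tr m 1) +
        (α 2 * κ 2) * y m (A.tr m 2) +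
        M * (α 0 * off 0 + α 1 * off 1 + α 2 * off 2) := by ring
    rw [e, hακ, hακ, hακ, off_sum, ← mul_add, ← mul_add, h]
    ring
  have hDW : ∀ x : Fin n → ℤ, SolD α x → SolW α x := by
    rintro x ⟨i, j, k, h1, h2, h3, h⟩
    exact ⟨i, j, k, fun h' => h1 h'.1, h⟩
  refine ⟨fun i => X none (σ i), hσ, hno, ?_⟩
  refine expect A.good (fun i => (X none (σ i) : ℝ)) (fun m i => (X (some m) (σ i) : ℝ)) p hp hp1 t
    ?_ ?_ ?_
  · have := hcor (fun i => X none (σ i)) hσ (Or.inr hno)
    refine this.trans (le_of_eq (Finset.sum_congr rfl fun ω _ => ?_))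
    have hn : ¬ SolD α (fun i => X none (σ i)) := fun h => hno (hDW _ h)
    congr 1
    refine if_congr ?_ rfl rfl
    rw [← Bool.not_eq_true]
    tauto
  · intro m hm
    have := hcor (fun i => X (some m) (σ i)) (hmono _) (Or.inl (hyes m hm))
    refine this.trans (le_of_eq (Finset.sum_congr rfl fun ω _ => ?_))
    have hn := hyes m hm
    congr 1
    refine if_congr ?_ rfl rfl
    tauto
  · intro ω s hsq
    have hsq' : s ∈ hfin.toFinset := by
      rw [Set.Finite.mem_toFinset, Set.mem_iUnion]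
      exact ⟨ω, hsq⟩
    by_cases hg : (∑ i, s.1 (σ.symm i) * (off (τ i) : ℝ)) = 0
    · obtain ⟨S, hS, hS'⟩ := h1 (qf s.1 σ, s.2) (by
        rw [hQ, Finset.mem_union]
        left
        rw [Finset.mem_image]
        exact ⟨(s, σ), Finset.mem_product.2 ⟨hsq', Finset.mem_univ _⟩, rfl⟩)
      refine ⟨S, hS, fun m hm hmS => ?_⟩
      rw [hform, hform, hg, mul_zero, zero_add, zero_add, hZ, hZ]
      exact hS' m hm hmS
    · refine ⟨∅, by simp, fun m _ _ => ?_⟩
      rw [hform, hform, hM1 s hsq' σ none hg, hM1 s hsq' σ (some m) hg]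

end Pool.Agent.H692.FL
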