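import Pool.Agent.H692.FL.Base
import Pool.Agent.H692.FL.Lower3
import Pool.Agent.H692.FL.Asym

/-!
# The lower bound for linear equations in three variables
-/

namespace Pool.Agent.H692.FL

open Finset

open Classical in
theorem equation : ∃ n₀ : ℕ, ∀ n ≥ n₀, ∀ α : ZMod 3 → ℤ, (∀ c, α c ≠ 0) → ∀ G H : ℝ,
    (∀ c, |(α c : ℝ)| ≤ G) → G ^ 2 * H ≤ 5 * Real.exp (√(Real.log n) / 400) →
    ∀ (Ω : Type) [Fintype Ω] (p : Ω → ℝ) (t : Ω → Tree (Fin n)), (∀ ω, 0 ≤ p ω) →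
    ∑ ω, p ω = 1 → (∀ ω, (t ω).FiveTerm H) →
    (∀ x : Fin n → ℤ, StrictMono x → (SolD α x ∨ ¬ SolW α x) → 2 / 3 ≤ ∑ ω, p ω *
      (if ((t ω).run (fun i => (x i : ℝ)) = true ↔ SolD α x) then (1 : ℝ) else 0)) →
    ∃ x : Fin n → ℤ, StrictMono x ∧ ¬ SolW α x ∧
      n * Real.exp (√(Real.log n) / 400) ≤
        ∑ ω, p ω * ((t ω).cost (fun i => (x i : ℝ)) : ℝ) := by
  obtain ⟨n₀, h₀⟩ := asym
  refine ⟨n₀, fun n hn α hα G H hG hGH Ω _ p t hp hp1 hs hcor => ?_⟩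
  obtain ⟨s, hs1, hs2, hs3⟩ := h₀ n hn
  obtain ⟨P, T, _, _, A, τ, hτ, hA⟩ := adversary s n (le_trans (Nat.le_mul_of_pos_left _
    (by norm_num)) hs1)
  obtain ⟨x, hx1, hx2, hx3⟩ := lower3 A Nat.one_le_two_pow τ hτ α hα hG (hGH.trans (hs3.trans (by
    push_cast
    exact le_rfl))) p hp hp1 t hs hcor
  refine ⟨x, hx1, hx2, le_trans ?_ hx3⟩
  have h2s : (0 : ℝ) < 2 ^ s := by positivity
  calc (n : ℝ) * Real.exp (√(Real.log n) / 400) ≤ n * (2 ^ s / 82944) :=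
        mul_le_mul_of_nonneg_left hs2 (Nat.cast_nonneg n)
    _ ≤ n * (2 ^ s / 216) := by
        refine mul_le_mul_of_nonneg_left ?_ (Nat.cast_nonneg n)
        exact div_le_div_of_nonneg_left h2s.le (by norm_num) (by norm_num)
    _ = (2 ^ s * n / 24) / 9 := by ring
    _ ≤ (A.good.card : ℝ) / 9 := div_le_div_of_nonneg_right hA (by norm_num)

end Pool.Agent.H692.FL
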