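import Pool.Agent.H692.FL.Cx2

/-!
# Random maps of the points
-/

namespace Pool.Agent.H692.FL

open Finset

section Count

variable {P : Type*} [Fintype P] [DecidableEq P] {N : ℕ}

theorem count_one {a b : P} (hab : a ≠ b) :
    N * (univ.filter fun φ : P → Fin N => φ a = φ b).card ≤ N ^ Fintype.card P := by
  classical
  have h1 : N * (univ.filter fun φ : P → Fin N => φ a = φ b).card =
      ((univ : Finset (Fin N)) ×ˢ (univ.filter fun φ : P → Fin N => φ a = φ b)).card := by
    rw [Finset.card_product, Finset.card_univ, Fintype.card_fin]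
  have h2 : N ^ Fintype.card P = (univ : Finset (P → Fin N)).card := by
    rw [Finset.card_univ, Fintype.card_fun, Fintype.card_fin]
  rw [h1, h2]
  refine Finset.card_le_card_of_injOn (fun z => Function.update z.2 a z.1) (fun _ _ =>
    Finset.mem_coe.2 (Finset.mem_univ _)) ?_
  rintro ⟨x, φ⟩ hz ⟨x', φ'⟩ hz' h
  simp only [Finset.coe_product, Set.mem_prod, Finset.mem_coe, Finset.mem_filter, Finset.mem_univ,
    true_and] at hz hz'
  simp only at h
  have hx : x = x' := by
    have := congrFun h a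
    simpa using this
  have hφ : φ = φ' := by
    funext p
    by_cases hp : p = a
    · subst hp
      have h3 := congrFun h b
      rw [Function.update_of_ne hab.symm, Function.update_of_ne hab.symm] at h3
      rw [hz, hz', h3]
    · have h3 := congrFun h p
      rwa [Function.update_of_ne hp, Function.update_of_ne hp] at h3
  rw [hx, hφ]

theorem count_two {a b a' b' : P} (hab : a ≠ b) (hab' : a' ≠ b') (h1 : a ≠ a') (h2 : a ≠ b')
    (h3 : b ≠ a') :
    N ^ 2 * (univ.filter fun φ : P → Fin N => φ a = φ b ∧ φ a' = φ b').card ≤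
      N ^ Fintype.card P := by
  classical
  have e1 : N ^ 2 * (univ.filter fun φ : P → Fin N => φ a = φ b ∧ φ a' = φ b').card =
      ((univ : Finset (Fin N × Fin N)) ×ˢ
        (univ.filter fun φ : P → Fin N => φ a = φ b ∧ φ a' = φ b')).card := by
    rw [Finset.card_product, Finset.card_univ, Fintype.card_prod, Fintype.card_fin, sq]
  have e2 : N ^ Fintype.card P = (univ : Finset (P → Fin N)).card := by
    rw [Finset.card_univ, Fintype.card_fun, Fintype.card_fin]
  rw [e1, e2]
  refine Finset.card_le_card_of_injOn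
    (fun z => Function.update (Function.update z.2 a z.1.1) a' z.1.2) (fun _ _ =>
    Finset.mem_coe.2 (Finset.mem_univ _)) ?_
  rintro ⟨⟨x, y⟩, φ⟩ hz ⟨⟨x', y'⟩, φ'⟩ hz' h
  simp only [Finset.coe_product, Set.mem_prod, Finset.mem_coe, Finset.mem_filter, Finset.mem_univ,
    true_and] at hz hz'
  simp only at h
  have hy : y = y' := by
    have := congrFun h a'
    rwa [Function.update_self, Function.update_self] at this
  have hx : x = x' := by
    have := congrFun h a
    rwa [Function.update_of_ne h1, Function.update_of_ne h1, Function.update_self,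
      Function.update_self] at this
  have hφ : ∀ p, p ≠ a → p ≠ a' → φ p = φ' p := by
    intro p hp hp'
    have h4 := congrFun h p
    rwa [Function.update_of_ne hp', Function.update_of_ne hp', Function.update_of_ne hp,
      Function.update_of_ne hp] at h4
  have hφ' : φ = φ' := by
    funext p
    by_cases hp : p = a
    · rw [hp, hz.1, hz'.1]
      exact hφ b hab.symm h3
    · by_cases hp' : p = a'
      · rw [hp', hz.2, hz'.2]
        exact hφ b' h2.symm hab'.symm
      · exact hφ p hp hp'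
  rw [hx, hy, hφ']

end Count

variable {E P T : Type*} [Fintype E] [Fintype P] [Fintype T] (X : Cx E P T)

/-- the edge `e` has its own pair of images of end points -/
def Free {N : ℕ} (φ : P → Fin N) (e : E) : Prop :=
  ∀ e', X.ty e' = X.ty e → φ (X.hd e') = φ (X.hd e) → φ (X.tl e') = φ (X.tl e) → e' = e

open Classical in
theorem count_pair {N : ℕ} (hN : 0 < N) {e e' : E} (hty : X.ty e' = X.ty e) (hne : e' ≠ e) :
    ((univ.filter fun φ : P → Fin N => φ (X.hd e') = φ (X.hd e) ∧
      φ (X.tl e') = φ (X.tl e)).card : ℝ) ≤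
    (N : ℝ) ^ Fintype.card P * (1 / (N : ℝ) ^ 2 +
      if X.hd e' = X.hd e ∨ X.tl e' = X.tl e then 1 / (N : ℝ) else 0) := by
  have hNr : (0 : ℝ) < N := by exact_mod_cast hN
  have ph := X.hd_ty e
  have ph' := X.hd_ty e'
  have pt := X.tl_ty e
  have pt' := X.tl_ty e'
  have z : ∀ c : ZMod 3, c ≠ c + 2 := by decide
  have n1 : X.hd e' ≠ X.tl e' := by
    intro h; rw [h, pt'] at ph'; exact z _ ph'.symm
  have n2 : X.hd e' ≠ X.tl e := by
    intro h; rw [h, pt, hty] at ph'; exact z _ ph'.symm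
  have n3 : X.hd e ≠ X.tl e' := by
    intro h; rw [h, pt', hty] at ph; exact z _ ph.symm
  have step1 : ∀ a b : P, a ≠ b → (∀ φ : P → Fin N, (φ (X.hd e') = φ (X.hd e) ∧
      φ (X.tl e') = φ (X.tl e)) → φ a = φ b) →
      ((univ.filter fun φ : P → Fin N => φ (X.hd e') = φ (X.hd e) ∧
      φ (X.tl e') = φ (X.tl e)).card : ℝ) ≤ (N : ℝ) ^ Fintype.card P * (1 / (N : ℝ)) := by
    intro a b hab himp
    have h1 := count_one (N := N) hab
    have h2 : (univ.filter fun φ : P → Fin N => φ (X.hd e') = φ (X.hd e) ∧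
        φ (X.tl e') = φ (X.tl e)).card ≤ (univ.filter fun φ : P → Fin N => φ a = φ b).card := by
      refine Finset.card_le_card fun φ hφ => ?_
      rw [Finset.mem_filter] at hφ ⊢
      exact ⟨hφ.1, himp φ hφ.2⟩
    have h3 : (N : ℝ) * ((univ.filter fun φ : P → Fin N => φ (X.hd e') = φ (X.hd e) ∧
        φ (X.tl e') = φ (X.tl e)).card : ℝ) ≤ (N : ℝ) ^ Fintype.card P := by
      exact_mod_cast (Nat.mul_le_mul_left N h2).trans h1
    rw [mul_one_div, le_div_iff₀ hNr, mul_comm]
    exact h3
  by_cases h1 : X.hd e' = X.hd e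
  · have h2 : X.tl e' ≠ X.tl e := fun h2 => hne (X.simple e' e h1 h2)
    rw [if_pos (Or.inl h1)]
    refine (step1 _ _ h2 (fun φ h => h.2)).trans ?_
    refine mul_le_mul_of_nonneg_left ?_ (by positivity)
    have : (0 : ℝ) ≤ 1 / (N : ℝ) ^ 2 := by positivity
    linarith
  · by_cases h2 : X.tl e' = X.tl e
    · rw [if_pos (Or.inr h2)]
      refine (step1 _ _ h1 (fun φ h => h.1)).trans ?_
      refine mul_le_mul_of_nonneg_left ?_ (by positivity)
      have : (0 : ℝ) ≤ 1 / (N : ℝ) ^ 2 := by positivity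
      linarith
    · rw [if_neg (by rintro (h | h) <;> contradiction), add_zero]
      have h3 := count_two (N := N) h1 h2 n1 n2 n3
      have h4 : (N : ℝ) ^ 2 * ((univ.filter fun φ : P → Fin N => φ (X.hd e') = φ (X.hd e) ∧
          φ (X.tl e') = φ (X.tl e)).card : ℝ) ≤ (N : ℝ) ^ Fintype.card P := by
        exact_mod_cast h3
      rw [mul_one_div, le_div_iff₀ (by positivity), mul_comm]
      exact h4

open Classical in
/-- There is a map of the points such that half of the triangles have free edges. -/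
theorem exists_fold {N : ℕ} (hN : 0 < N) (G : Finset T) (Δ : ℕ)
    (hΔ : ∀ e, (univ.filter fun e' => X.hd e' = X.hd e ∨ X.tl e' = X.tl e).card ≤ Δ)
    (h1 : 12 * Fintype.card E ≤ N ^ 2) (h2 : 12 * Δ ≤ N) :
    ∃ φ : P → Fin N, (G.card : ℝ) / 2 ≤ ((G.filter fun m => ∀ c, Free X φ (X.e m c)).card : ℝ) := by
  have hNr : (0 : ℝ) < N := by exact_mod_cast hN
  by_contra hcon
  push Not at hcon
  -- the number of triangles that are not free
  have hb : ∀ φ : P → Fin N, (G.card : ℝ) / 2 ≤
      ((G.filter fun m => ¬ ∀ c, Free X φ (X.e m c)).card : ℝ) := by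
    intro φ
    have h3 := Finset.card_filter_add_card_filter_not (s := G) (fun m => ∀ c, Free X φ (X.e m c))
    have h4 : ((G.filter fun m => ∀ c, Free X φ (X.e m c)).card : ℝ) +
        ((G.filter fun m => ¬ ∀ c, Free X φ (X.e m c)).card : ℝ) = G.card := by exact_mod_cast h3
    have h5 := hcon φ
    linarith
  -- the sum over all maps
  have hub : ∀ φ : P → Fin N, ((G.filter fun m => ¬ ∀ c, Free X φ (X.e m c)).card : ℝ) ≤
      ∑ m ∈ G, ∑ c : ZMod 3, ∑ e' : E, if (X.ty e' = c ∧ e' ≠ X.e m c) ∧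
        (φ (X.hd e') = φ (X.hd (X.e m c)) ∧ φ (X.tl e') = φ (X.tl (X.e m c))) then (1 : ℝ)
        else 0 := by
    intro φ
    rw [Finset.card_filter, Nat.cast_sum]
    refine Finset.sum_le_sum fun m _ => ?_
    have hnn : 0 ≤ ∑ c : ZMod 3, ∑ e' : E, if (X.ty e' = c ∧ e' ≠ X.e m c) ∧
        (φ (X.hd e') = φ (X.hd (X.e m c)) ∧ φ (X.tl e') = φ (X.tl (X.e m c))) then (1 : ℝ)
        else 0 := Finset.sum_nonneg fun c _ => Finset.sum_nonneg fun e' _ => by
          split_ifs <;> norm_num
    by_cases h : ∀ c, Free X φ (X.e m c)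
    · rw [if_neg (not_not.2 h)]
      simpa using hnn
    · rw [if_pos h]
      push Not at h
      obtain ⟨c, hc⟩ := h
      rw [Free] at hc
      push Not at hc
      obtain ⟨e', k1, k2, k3, k4⟩ := hc
      rw [X.e_ty] at k1
      have h6 : (1 : ℝ) ≤ ∑ e' : E, if (X.ty e' = c ∧ e' ≠ X.e m c) ∧
          (φ (X.hd e') = φ (X.hd (X.e m c)) ∧ φ (X.tl e') = φ (X.tl (X.e m c))) then (1 : ℝ)
          else 0 := by
        refine le_trans (le_of_eq ?_) (Finset.single_le_sum (f := fun e' => if (X.ty e' = c ∧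
          e' ≠ X.e m c) ∧ (φ (X.hd e') = φ (X.hd (X.e m c)) ∧
          φ (X.tl e') = φ (X.tl (X.e m c))) then (1 : ℝ) else 0) (fun e' _ => by
            split_ifs <;> norm_num) (Finset.mem_univ e'))
        rw [if_pos ⟨⟨k1, k4⟩, k2, k3⟩]
      refine le_trans (by simpa using h6) (Finset.single_le_sum (f := fun c => ∑ e' : E,
        if (X.ty e' = c ∧ e' ≠ X.e m c) ∧ (φ (X.hd e') = φ (X.hd (X.e m c)) ∧
          φ (X.tl e') = φ (X.tl (X.e m c))) then (1 : ℝ) else 0) (fun c _ =>
            Finset.sum_nonneg fun e' _ => by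
              split_ifs <;> norm_num) (Finset.mem_univ c))
  have hsum : ∑ φ : P → Fin N, ((G.filter fun m => ¬ ∀ c, Free X φ (X.e m c)).card : ℝ) ≤
      (G.card : ℝ) * (3 * ((N : ℝ) ^ Fintype.card P *
        ((Fintype.card E : ℝ) / (N : ℝ) ^ 2 + Δ / N))) := by
    refine (Finset.sum_le_sum fun φ _ => hub φ).trans ?_
    rw [Finset.sum_comm]
    have hm : ∀ m ∈ G, ∑ φ : P → Fin N, ∑ c : ZMod 3, ∑ e' : E,
        (if (X.ty e' = c ∧ e' ≠ X.e m c) ∧ (φ (X.hd e') = φ (X.hd (X.e m c)) ∧
          φ (X.tl e') = φ (X.tl (X.e m c))) then (1 : ℝ) else 0) ≤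
        3 * ((N : ℝ) ^ Fintype.card P * ((Fintype.card E : ℝ) / (N : ℝ) ^ 2 + Δ / N)) := by
      intro m _
      rw [Finset.sum_comm]
      have hc : ∀ c : ZMod 3, ∑ φ : P → Fin N, ∑ e' : E,
          (if (X.ty e' = c ∧ e' ≠ X.e m c) ∧ (φ (X.hd e') = φ (X.hd (X.e m c)) ∧
            φ (X.tl e') = φ (X.tl (X.e m c))) then (1 : ℝ) else 0) ≤
          (N : ℝ) ^ Fintype.card P * ((Fintype.card E : ℝ) / (N : ℝ) ^ 2 + Δ / N) := by
        intro c
        rw [Finset.sum_comm]
        have he : ∀ e' : E, ∑ φ : P → Fin N,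
            (if (X.ty e' = c ∧ e' ≠ X.e m c) ∧ (φ (X.hd e') = φ (X.hd (X.e m c)) ∧
              φ (X.tl e') = φ (X.tl (X.e m c))) then (1 : ℝ) else 0) ≤
            (N : ℝ) ^ Fintype.card P * (1 / (N : ℝ) ^ 2 +
              if X.hd e' = X.hd (X.e m c) ∨ X.tl e' = X.tl (X.e m c) then 1 / (N : ℝ)
              else 0) := by
          intro e'
          by_cases hcond : X.ty e' = c ∧ e' ≠ X.e m c
          · have h7 := count_pair X hN (e := X.e m c) (e' := e') (by rw [X.e_ty]; exact hcond.1)
              hcond.2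
            refine le_trans (le_of_eq ?_) h7
            rw [Finset.sum_boole]
            congr 2
            ext φ
            simp only [Finset.mem_filter, Finset.mem_univ, true_and]
            exact ⟨fun h => h.2, fun h => ⟨hcond, h⟩⟩
          · have h0 : ∀ φ : P → Fin N, (if (X.ty e' = c ∧ e' ≠ X.e m c) ∧
                (φ (X.hd e') = φ (X.hd (X.e m c)) ∧
                φ (X.tl e') = φ (X.tl (X.e m c))) then (1 : ℝ) else 0) = 0 :=
              fun φ => if_neg fun h => hcond h.1
            rw [Finset.sum_congr rfl fun φ _ => h0 φ, Finset.sum_const_zero]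
            refine mul_nonneg (by positivity) (add_nonneg (by positivity) ?_)
            split_ifs <;> positivity
        refine (Finset.sum_le_sum fun e' _ => he e').trans ?_
        rw [← Finset.mul_sum]
        refine mul_le_mul_of_nonneg_left ?_ (by positivity)
        rw [Finset.sum_add_distrib, Finset.sum_const, Finset.card_univ, nsmul_eq_mul, mul_one_div]
        refine add_le_add le_rfl ?_
        rw [← Finset.sum_filter, Finset.sum_const, nsmul_eq_mul, mul_one_div]
        exact div_le_div_of_nonneg_right (by exact_mod_cast hΔ (X.e m c)) hNr.le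
      refine (Finset.sum_le_sum fun c _ => hc c).trans (le_of_eq ?_)
      rw [Finset.sum_const, Finset.card_univ, ZMod.card, nsmul_eq_mul]
      norm_num
    refine (Finset.sum_le_sum hm).trans (le_of_eq ?_)
    rw [Finset.sum_const, nsmul_eq_mul]
  -- comparison
  have hG : 0 < G.card := by
    obtain ⟨φ⟩ : Nonempty (P → Fin N) := ⟨fun _ => ⟨0, hN⟩⟩
    have h5 := hcon φ
    by_contra h0
    have h0' : G.card = 0 := by omega
    rw [h0'] at h5
    have : (0 : ℝ) ≤ ((G.filter fun m => ∀ c, Free X φ (X.e m c)).card : ℝ) := Nat.cast_nonneg _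
    simp only [Nat.cast_zero, zero_div] at h5
    linarith
  have hGr : (0 : ℝ) < G.card := by exact_mod_cast hG
  have hstrict : ∀ φ : P → Fin N, (G.card : ℝ) / 2 <
      ((G.filter fun m => ¬ ∀ c, Free X φ (X.e m c)).card : ℝ) := by
    intro φ
    have h3 := Finset.card_filter_add_card_filter_not (s := G) (fun m => ∀ c, Free X φ (X.e m c))
    have h4 : ((G.filter fun m => ∀ c, Free X φ (X.e m c)).card : ℝ) +
        ((G.filter fun m => ¬ ∀ c, Free X φ (X.e m c)).card : ℝ) = G.card := by exact_mod_cast h3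
    have h5 := hcon φ
    linarith
  have hlow : (N : ℝ) ^ Fintype.card P * ((G.card : ℝ) / 2) <
      ∑ φ : P → Fin N, ((G.filter fun m => ¬ ∀ c, Free X φ (X.e m c)).card : ℝ) := by
    have h3 : (N : ℝ) ^ Fintype.card P * ((G.card : ℝ) / 2) =
        ∑ _φ : P → Fin N, (G.card : ℝ) / 2 := by
      rw [Finset.sum_const, Finset.card_univ, Fintype.card_fun, Fintype.card_fin, nsmul_eq_mul]
      push_cast
      rfl
    rw [h3]
    exact Finset.sum_lt_sum_of_nonempty ⟨fun _ => ⟨0, hN⟩, Finset.mem_univ _⟩ fun φ _ => hstrict φ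
  have e1 : (Fintype.card E : ℝ) / (N : ℝ) ^ 2 ≤ 1 / 12 := by
    rw [div_le_div_iff₀ (by positivity) (by norm_num)]
    have : (12 : ℝ) * Fintype.card E ≤ (N : ℝ) ^ 2 := by exact_mod_cast h1
    linarith
  have e2 : (Δ : ℝ) / N ≤ 1 / 12 := by
    rw [div_le_div_iff₀ hNr (by norm_num)]
    have : (12 : ℝ) * Δ ≤ N := by exact_mod_cast h2
    linarith
  have e3 : (G.card : ℝ) * (3 * ((N : ℝ) ^ Fintype.card P *
      ((Fintype.card E : ℝ) / (N : ℝ) ^ 2 + Δ / N))) ≤
      (N : ℝ) ^ Fintype.card P * ((G.card : ℝ) / 2) := by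
    calc (G.card : ℝ) * (3 * ((N : ℝ) ^ Fintype.card P *
        ((Fintype.card E : ℝ) / (N : ℝ) ^ 2 + Δ / N)))
        ≤ (G.card : ℝ) * (3 * ((N : ℝ) ^ Fintype.card P * (1 / 12 + 1 / 12))) := by gcongr
      _ = (N : ℝ) ^ Fintype.card P * ((G.card : ℝ) / 2) := by ring
  linarith [hsum, hlow, e3]

end Pool.Agent.H692.FL
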