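import Pool.Agent.H692.FL.Model

/-!
# Substitution in linear decision trees
-/

namespace Pool.Agent.H692.FL

open Finset

namespace Tree

variable {κ ι : Type} [Fintype κ] [Fintype ι]

open Classical in
/-- the tree on the inputs `x : ι → ℝ` that simulates a tree on the inputs `x (f k) + v k` -/
noncomputable def pull (f : κ → ι) (v : κ → ℝ) : Tree κ → Tree ι
  | leaf b => leaf b
  | node a b t => node (fun i => ∑ k ∈ univ.filter (fun k => f k = i), a k) (b + ∑ k, a k * v k)
      (fun σ => (t σ).pull f v)

open Classical in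
theorem pull_form (f : κ → ι) (a : κ → ℝ) (x : ι → ℝ) :
    ∑ i, (∑ k ∈ univ.filter (fun k => f k = i), a k) * x i = ∑ k, a k * x (f k) := by
  rw [← Finset.sum_fiberwise univ f (fun k => a k * x (f k))]
  refine Finset.sum_congr rfl fun i _ => ?_
  rw [Finset.sum_mul]
  refine Finset.sum_congr rfl fun k hk => ?_
  rw [(Finset.mem_filter.1 hk).2]

open Classical in
theorem run_pull (f : κ → ι) (v : κ → ℝ) (x : ι → ℝ) : ∀ t : Tree κ,
    (t.pull f v).run x = t.run (fun k => x (f k) + v k)
  | leaf b => rfl
  | node a b t => by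
    have e : ∑ i, (∑ k ∈ univ.filter (fun k => f k = i), a k) * x i + (b + ∑ k, a k * v k) =
        ∑ k, a k * (x (f k) + v k) + b := by
      rw [pull_form]
      simp only [mul_add, Finset.sum_add_distrib]
      ring
    simp only [pull, run]
    rw [e]
    exact run_pull f v x _

open Classical in
theorem cost_pull (f : κ → ι) (v : κ → ℝ) (x : ι → ℝ) : ∀ t : Tree κ,
    (t.pull f v).cost x = t.cost (fun k => x (f k) + v k)
  | leaf b => rfl
  | node a b t => by
    have e : ∑ i, (∑ k ∈ univ.filter (fun k => f k = i), a k) * x i + (b + ∑ k, a k * v k) =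
        ∑ k, a k * (x (f k) + v k) + b := by
      rw [pull_form]
      simp only [mul_add, Finset.sum_add_distrib]
      ring
    simp only [pull, cost]
    rw [e, cost_pull f v x _]

open Classical in
theorem adm_pull (f : κ → ι) {H : ℝ} (hH : 0 ≤ H) {a : κ → ℝ} (h : Adm H a) :
    Adm (5 * H) (fun i => ∑ k ∈ univ.filter (fun k => f k = i), a k) := by
  have h1 : (univ.filter fun i => ∑ k ∈ univ.filter (fun k => f k = i), a k ≠ 0) ⊆
      (univ.filter fun k => a k ≠ 0).image f := by
    intro i hi
    rw [Finset.mem_filter] at hi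
    obtain ⟨k, hk, hk'⟩ := Finset.exists_ne_zero_of_sum_ne_zero hi.2
    rw [Finset.mem_filter] at hk
    exact Finset.mem_image.2 ⟨k, Finset.mem_filter.2 ⟨Finset.mem_univ _, hk'⟩, hk.2⟩
  have h2 := (Finset.card_le_card h1).trans Finset.card_image_le
  rcases h with h | ⟨h, hint⟩
  · left
    refine le_trans (le_of_eq ?_) (h2.trans (le_trans (le_of_eq ?_) h))
    · congr
    · congr
  · right
    refine ⟨le_trans (le_of_eq ?_) (h2.trans (le_trans (le_of_eq ?_) h)), fun i => ?_⟩
    · congr
    · congr
    · choose z hz hz' using hint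
      refine ⟨∑ k ∈ univ.filter (fun k => f k = i), z k, ?_, ?_⟩
      · push_cast
        exact Finset.sum_congr rfl fun k _ => hz k
      · push_cast
        calc |∑ k ∈ univ.filter (fun k => f k = i), (z k : ℝ)|
            ≤ ∑ k ∈ univ.filter (fun k => f k = i), |(z k : ℝ)| := Finset.abs_sum_le_sum_abs _ _
          _ ≤ ∑ k, |(z k : ℝ)| :=
              Finset.sum_le_sum_of_subset_of_nonneg (Finset.subset_univ _)
                fun k _ _ => abs_nonneg _
          _ = ∑ k ∈ univ.filter (fun k => a k ≠ 0), |(z k : ℝ)| := by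
              symm
              refine Finset.sum_subset (Finset.subset_univ _) fun k _ hk => ?_
              rw [Finset.mem_filter, not_and, not_not] at hk
              rw [← hz k, hk (Finset.mem_univ _), abs_zero]
          _ ≤ ∑ _k ∈ univ.filter (fun k => a k ≠ 0), H := Finset.sum_le_sum fun k _ => hz' k
          _ = ((univ.filter fun k => a k ≠ 0).card : ℝ) * H := by
              rw [Finset.sum_const, nsmul_eq_mul]
          _ ≤ 5 * H := by
              refine mul_le_mul_of_nonneg_right ?_ hH
              have h3 : (univ.filter fun k => a k ≠ 0).card ≤ 5 :=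
                le_trans (le_of_eq (by congr)) h
              exact_mod_cast h3

theorem fiveTerm_pull (f : κ → ι) (v : κ → ℝ) {H : ℝ} (hH : 0 ≤ H) : ∀ {t : Tree κ},
    t.FiveTerm H → (t.pull f v).FiveTerm (5 * H)
  | leaf b, _ => trivial
  | node a b t, h => ⟨adm_pull f hH h.1, fun σ => fiveTerm_pull f v hH (h.2 σ)⟩

end Tree

end Pool.Agent.H692.FL
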