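import Pool.Agent.H692.FL.Expect
import Pool.Agent.H692.FL.Pull
import Pool.Agent.H692.FL.Base
import Pool.Agent.H692.FL.Fold

/-!
# Exact Triangle
-/

namespace Pool.Agent.H692.FL

open Finset

/-- There are three different vertices whose triangle has weight zero. -/
def ZeroTri {n : ℕ} (w : Fin n → Fin n → ℤ) : Prop :=
  ∃ i j k : Fin n, i ≠ j ∧ j ≠ k ∧ i ≠ k ∧ w i j + w j k + w i k = 0

open Classical in
theorem exact_lower {n H : ℕ} {E P T : Type} [Fintype E] [Fintype P] [Fintype T]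
    (A : AD H (Sym2 (Fin n) ⊕ E) P T) (hH : 1 ≤ H) (v : T → ZMod 3 → Fin n)
    (hv : ∀ m ∈ A.good, (∀ c, A.tr m c = Sum.inl s(v m c, v m (c + 2))) ∧
      Function.Injective (v m))
    {H₀ : ℝ} (hH₀ : 0 ≤ H₀) (hHH : 5 * H₀ ≤ H)
    {Ω : Type} [Fintype Ω] (p : Ω → ℝ) (hp : ∀ ω, 0 ≤ p ω) (hp1 : ∑ ω, p ω = 1)
    (t : Ω → Tree (Fin n × Fin n)) (hs : ∀ ω, (t ω).FiveTerm H₀)
    (hcor : ∀ w : Fin n → Fin n → ℤ, (∀ i j, w i j = w j i) → 2 / 3 ≤ ∑ ω, p ω *
      (if ((t ω).run (fun k => (w k.1 k.2 : ℝ)) = true ↔ ZeroTri w) then (1 : ℝ) else 0)) :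
    ∃ w : Fin n → Fin n → ℤ, (∀ i j, w i j = w j i) ∧ ¬ ZeroTri w ∧
      (A.good.card : ℝ) / 9 ≤ ∑ ω, p ω * ((t ω).cost (fun k => (w k.1 k.2 : ℝ)) : ℝ) := by
  obtain ⟨f, hf⟩ : ∃ f : Fin n × Fin n → Sym2 (Fin n) ⊕ E, ∀ k, f k = Sum.inl s(k.1, k.2) :=
    ⟨_, fun _ => rfl⟩
  obtain ⟨tf, htf⟩ : ∃ tf : (Sym2 (Fin n) ⊕ E) × (Sym2 (Fin n) ⊕ E) × (Sym2 (Fin n) ⊕ E) →
      ((Sym2 (Fin n) ⊕ E) → ℝ), ∀ k i, tf k i =
      (if i = k.1 then 1 else 0) + (if i = k.2.1 then 1 else 0) +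
      (if i = k.2.2 then 1 else 0) := ⟨_, fun _ _ => rfl⟩
  have hfin : (⋃ ω, ((t ω).pull f 0).qs).Finite :=
    Set.finite_iUnion fun ω => ((t ω).pull f 0).qs_finite
  obtain ⟨Q, hQ⟩ : ∃ Q : Finset (((Sym2 (Fin n) ⊕ E) → ℝ) × ℝ), Q =
    hfin.toFinset ∪ Finset.univ.image (fun k => (tf k, (0 : ℝ))) := ⟨_, rfl⟩
  obtain ⟨x, y, h1, h2, h3, -⟩ := A.main hH Q (by
    intro s hsQ
    rw [hQ, Finset.mem_union] at hsQ
    rcases hsQ with h | h
    · rw [Set.Finite.mem_toFinset, Set.mem_iUnion] at h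
      obtain ⟨ω, hω⟩ := h
      exact (Tree.qs_adm (Tree.fiveTerm_pull f 0 hH₀ (hs ω)) s hω).mono hHH
    · rw [Finset.mem_image] at h
      obtain ⟨k, -, rfl⟩ := h
      have hsub : (univ.filter fun i => tf k i ≠ 0) ⊆ {k.1, k.2.1, k.2.2} := by
        intro i hi
        rw [Finset.mem_filter, htf] at hi
        by_contra hcon
        simp only [Finset.mem_insert, Finset.mem_singleton, not_or] at hcon
        apply hi.2
        rw [if_neg hcon.1, if_neg hcon.2.1, if_neg hcon.2.2]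
        norm_num
      left
      refine le_trans (Finset.card_le_card (by convert hsub)) ?_
      exact le_trans (Finset.card_le_three) (by norm_num))
  have tfsum : ∀ (k : (Sym2 (Fin n) ⊕ E) × (Sym2 (Fin n) ⊕ E) × (Sym2 (Fin n) ⊕ E))
      (g : (Sym2 (Fin n) ⊕ E) → ℝ), ∑ i, tf k i * g i = g k.1 + g k.2.1 + g k.2.2 := by
    intro k g
    simp only [htf, add_mul, Finset.sum_add_distrib, ite_mul, one_mul, zero_mul,
      Finset.sum_ite_eq', Finset.mem_univ, if_true]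
  have f1 : ∀ i j k : (Sym2 (Fin n) ⊕ E), x i + x j + x k ≠ 0 := by
    intro i j k h
    have hmem : (tf (i, j, k), (0 : ℝ)) ∈ Q := by
      rw [hQ, Finset.mem_union]
      exact Or.inr (Finset.mem_image_of_mem (fun k => (tf k, (0 : ℝ))) (Finset.mem_univ _))
    refine h2 _ hmem ⟨i, ?_⟩ ?_
    · simp only [htf]
      rw [if_pos trivial]
      split_ifs <;> norm_num
    · rw [tfsum]
      exact_mod_cast h
  have hrun : ∀ (z : (Sym2 (Fin n) ⊕ E) → ℤ) ω, ((t ω).pull f 0).run (fun i => (z i : ℝ)) =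
      (t ω).run (fun k => ((z (Sum.inl s(k.1, k.2)) : ℤ) : ℝ)) := by
    intro z ω
    rw [Tree.run_pull]
    congr 1
    funext k
    rw [hf]
    simp
  have hcost : ∀ (z : (Sym2 (Fin n) ⊕ E) → ℤ) ω, ((t ω).pull f 0).cost (fun i => (z i : ℝ)) =
      (t ω).cost (fun k => ((z (Sum.inl s(k.1, k.2)) : ℤ) : ℝ)) := by
    intro z ω
    rw [Tree.cost_pull]
    congr 1
    funext k
    rw [hf]
    simp
  have hno : ¬ ZeroTri (fun i j => x (Sum.inl s(i, j))) := by
    rintro ⟨i, j, k, -, -, -, h⟩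
    exact f1 _ _ _ h
  have hyes : ∀ m ∈ A.good, ZeroTri (fun i j => y m (Sum.inl s(i, j))) := by
    intro m hm
    obtain ⟨k1, k2⟩ := hv m hm
    refine ⟨v m 0, v m 1, v m 2, fun h => absurd (k2 h) (by decide),
      fun h => absurd (k2 h) (by decide), fun h => absurd (k2 h) (by decide), ?_⟩
    have h := h3 m hm
    have hu : (univ : Finset (ZMod 3)) = {0, 1, 2} := rfl
    rw [V3, hu, Finset.sum_insert (by decide), Finset.sum_insert (by decide),
      Finset.sum_singleton, k1, k1, k1] at h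
    have z0 : (0 : ZMod 3) + 2 = 2 := by decide
    have z1 : (1 : ZMod 3) + 2 = 0 := by decide
    have z2 : (2 : ZMod 3) + 2 = 1 := by decide
    rw [z0, z1, z2, Sym2.eq_swap (a := v m 1) (b := v m 0),
      Sym2.eq_swap (a := v m 2) (b := v m 1)] at h
    simp only
    linarith
  have hsym : ∀ (z : (Sym2 (Fin n) ⊕ E) → ℤ) (i j : Fin n),
      z (Sum.inl s(i, j)) = z (Sum.inl s(j, i)) := fun z i j => by rw [Sym2.eq_swap]
  refine ⟨fun i j => x (Sum.inl s(i, j)), hsym x, hno, ?_⟩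
  have hexp := expect A.good (fun i => (x i : ℝ)) (fun m i => (y m i : ℝ)) p hp hp1
    (fun ω => (t ω).pull f 0) ?_ ?_ ?_
  · refine hexp.trans (le_of_eq (Finset.sum_congr rfl fun ω _ => ?_))
    rw [hcost]
  · have := hcor (fun i j => x (Sum.inl s(i, j))) (hsym x)
    refine this.trans (le_of_eq (Finset.sum_congr rfl fun ω _ => ?_))
    congr 1
    refine if_congr ?_ rfl rfl
    rw [hrun, ← Bool.not_eq_true]
    tauto
  · intro m hm
    have := hcor (fun i j => y m (Sum.inl s(i, j))) (hsym (y m))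
    refine this.trans (le_of_eq (Finset.sum_congr rfl fun ω _ => ?_))
    have hn := hyes m hm
    congr 1
    refine if_congr ?_ rfl rfl
    rw [hrun]
    tauto
  · intro ω s hsq
    exact h1 s (by
      rw [hQ, Finset.mem_union]
      left
      rw [Set.Finite.mem_toFinset, Set.mem_iUnion]
      exact ⟨ω, hsq⟩)

/-- fewer good triangles -/
def AD.restrict {H : ℕ} {ι P T : Type*} [Fintype ι] [Fintype P] [Fintype T] (A : AD H ι P T)
    (G : Finset T) (hG : G ⊆ A.good) : AD H ι P T where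
  tr := A.tr
  B := A.B
  glue := A.glue
  inj := A.inj
  cls := A.cls
  cls5 := A.cls5
  good := G
  w := A.w
  u := A.u
  w1 := A.w1
  w2 m hm := A.w2 m (hG hm)
  w3 m hm := A.w3 m (hG hm)
  w4 t t' h1 h2 α β h3 h4 h5 := ⟨(A.w4 t t' h1 h2 α β h3 h4 h5).1,
    fun m hm => (A.w4 t t' h1 h2 α β h3 h4 h5).2 m (hG hm)⟩
  w5 t t' t'' c c' h1 h2 h3 h4 h5 := ⟨(A.w5 t t' t'' c c' h1 h2 h3 h4 h5).1,
    fun m hm => (A.w5 t t' t'' c c' h1 h2 h3 h4 h5).2 m (hG hm)⟩

theorem fin_embed {n N : ℕ} (h : 3 * N ≤ n) : ∃ ν : ZMod 3 × Fin N → Fin n, Function.Injective ν := by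
  have h1 : Fintype.card (ZMod 3 × Fin N) ≤ Fintype.card (Fin n) := by
    rw [Fintype.card_prod, Fintype.card_fin, Fintype.card_fin, ZMod.card]
    exact h
  obtain ⟨e⟩ := Function.Embedding.nonempty_of_card_le h1
  exact ⟨e, e.injective⟩

open Classical in
theorem exact_adversary_aux {H : ℕ} {E P T : Type} [Fintype E] [Fintype P] [Fintype T]
    (X : Cx E P T) (good : Set T) (W : X.Wts H good) {n N : ℕ} (hn : 3 * N ≤ n) (hN : 0 < N) (Δ : ℕ)
    (hΔ : ∀ e, (univ.filter fun e' => X.hd e' = X.hd e ∨ X.tl e' = X.tl e).card ≤ Δ)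
    (h1 : 12 * Fintype.card E ≤ N ^ 2) (h2 : 12 * Δ ≤ N) :
    ∃ (A : AD H (Sym2 (Fin n) ⊕ E) (P ⊕ (Sym2 (Fin n) ⊕ E)) T) (v : T → ZMod 3 → Fin n),
      (∀ m ∈ A.good, (∀ c, A.tr m c = Sum.inl s(v m c, v m (c + 2))) ∧
        Function.Injective (v m)) ∧
      ((univ.filter fun t => t ∈ good).card : ℝ) / 2 ≤ (A.good.card : ℝ) := by
  obtain ⟨φ, hφ⟩ := exists_fold X hN (univ.filter fun t => t ∈ good) Δ hΔ h1 h2
  obtain ⟨ν, hν⟩ := fin_embed hn
  obtain ⟨j, hj⟩ : ∃ j : E → Sym2 (Fin n) ⊕ E, ∀ e, j e = if Free X φ e then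
      Sum.inl s(ν (X.ty e, φ (X.hd e)), ν (X.ty e + 2, φ (X.tl e))) else Sum.inr e :=
    ⟨_, fun _ => rfl⟩
  have hjinj : Function.Injective j := by
    intro e e' h
    rw [hj, hj] at h
    by_cases h1 : Free X φ e
    · by_cases h2 : Free X φ e'
      · rw [if_pos h1, if_pos h2] at h
        have h3 := Sum.inl_injective h
        rw [Sym2.eq_iff] at h3
        rcases h3 with ⟨h4, h5⟩ | ⟨h4, h5⟩
        · have h6 := hν h4
          have h7 := hν h5
          rw [Prod.mk.injEq] at h6 h7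
          exact h2 e h6.1 h6.2 h7.2
        · have h6 := hν h4
          have h7 := hν h5
          rw [Prod.mk.injEq] at h6 h7
          have z : ∀ a b : ZMod 3, a = b + 2 → a + 2 = b → False := by decide
          exact absurd h7.1 (fun h8 => z _ _ h6.1 h8)
      · rw [if_pos h1, if_neg h2] at h
        exact absurd h (by simp)
    · by_cases h2 : Free X φ e'
      · rw [if_neg h1, if_pos h2] at h
        exact absurd h (by simp)
      · rw [if_neg h1, if_neg h2] at h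
        exact Sum.inr_injective h
  obtain ⟨G, hG⟩ : ∃ G : Finset T, G = (univ.filter fun t => t ∈ good).filter
      fun m => ∀ c, Free X φ (X.e m c) := ⟨_, rfl⟩
  have hGsub : G ⊆ (W.toAD.pad j hjinj).good := by
    intro m hm
    change m ∈ W.toAD.good
    rw [Cx.Wts.mem_good]
    rw [hG, Finset.mem_filter, Finset.mem_filter] at hm
    exact hm.1.2
  refine ⟨(W.toAD.pad j hjinj).restrict G hGsub, fun m c => ν (c, φ (X.hd (X.e m c))), ?_, ?_⟩
  · intro m hm
    have hm' : m ∈ G := hm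
    rw [hG, Finset.mem_filter] at hm'
    refine ⟨fun c => ?_, fun c c' h => ?_⟩
    · change j (X.e m c) = _
      rw [hj, if_pos (hm'.2 c), X.e_ty, X.tl_e]
    · have := hν h
      rw [Prod.mk.injEq] at this
      exact this.1
  · change _ ≤ (G.card : ℝ)
    rw [hG]
    exact hφ

end Pool.Agent.H692.FL
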