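import Pool.Agent.H692.FL.Exact

/-!
# Exact Triangle: the parameters
-/

namespace Pool.Agent.H692.FL

open Finset

theorem exact_num {e r N n S g : ℝ} (he : 0 < e) (h1 : 12 * e ≤ N) (hN : 2 ≤ N)
    (hr : N ^ 2 / (12 * e) < r + 1) (hn : n ≤ 4 * N) (hn0 : 0 ≤ n) (hS : 0 ≤ S)
    (hg : S / 12 * e ≤ g) (hr0 : 0 ≤ r) : S * n ^ 2 / 9216 ≤ g * r / 2 := by
  have h2 : N ^ 2 < (r + 1) * (12 * e) := by
    rwa [div_lt_iff₀ (by positivity)] at hr
  have h3 : N ^ 2 / 24 ≤ e * r := by nlinarith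
  have h4 : n ^ 2 ≤ 16 * N ^ 2 := by nlinarith
  have h5 : n ^ 2 / 384 ≤ e * r := by linarith
  calc S * n ^ 2 / 9216 = S / 24 * (n ^ 2 / 384) := by ring
    _ ≤ S / 24 * (e * r) := mul_le_mul_of_nonneg_left h5 (by positivity)
    _ = (S / 12 * e) * r / 2 := by ring
    _ ≤ g * r / 2 := by
        have := mul_le_mul_of_nonneg_right hg hr0
        linarith

open Classical in
theorem exact_adversary (s n : ℕ) (hn : 32 * 2 ^ (3 + 29 * (18 * s ^ 2 + 158 * s + 323)) ≤ n) :
    ∃ (E P T : Type) (_ : Fintype E) (_ : Fintype P) (_ : Fintype T)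
      (A : AD (2 ^ s) (Sym2 (Fin n) ⊕ E) P T) (v : T → ZMod 3 → Fin n),
      (∀ m ∈ A.good, (∀ c, A.tr m c = Sum.inl s(v m c, v m (c + 2))) ∧
        Function.Injective (v m)) ∧
      (2 : ℝ) ^ s * (n : ℝ) ^ 2 / 9216 ≤ (A.good.card : ℝ) := by
  obtain ⟨E, P, T, _, _, _, X, good, W, h4, h5, h6⟩ := base s
  obtain ⟨B, hB⟩ : ∃ B, B = 2 ^ (3 + 29 * (18 * s ^ 2 + 158 * s + 323)) := ⟨_, rfl⟩
  rw [← hB] at hn h5
  have hB1 : 1 ≤ B := by rw [hB]; exact Nat.one_le_two_pow
  clear hB
  obtain ⟨N, hN⟩ : ∃ N, N = n / 3 := ⟨_, rfl⟩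
  have hN1 : 3 * N ≤ n := by omega
  have hN2 : n < 3 * N + 3 := by omega
  have hN3 : 6 * B ≤ N := by omega
  have hN4 : 0 < N := by omega
  obtain ⟨r, hr⟩ : ∃ r, r = N ^ 2 / (12 * Fintype.card E) := ⟨_, rfl⟩
  have hr1 : 12 * Fintype.card E * r ≤ N ^ 2 := by rw [hr]; exact Nat.mul_div_le _ _
  have hr2 : N ^ 2 < 12 * Fintype.card E * (r + 1) := by
    rw [hr]
    exact Nat.lt_mul_div_succ _ (by omega)
  obtain ⟨A, v, hv, hA⟩ := exact_adversary_aux (X.copy (Fin r)) _ (W.copy (Fin r)) hN1 hN4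
    (Fintype.card E) (by
      intro e
      have h7 : (univ.filter fun e' => (X.copy (Fin r)).hd e' = (X.copy (Fin r)).hd e ∨
          (X.copy (Fin r)).tl e' = (X.copy (Fin r)).tl e) ⊆
          (univ : Finset E).image fun a => (a, e.2) := by
        intro e' he'
        rw [Finset.mem_filter] at he'
        have h8 : e'.2 = e.2 := by
          rcases he'.2 with h | h
          · exact (congrArg Prod.snd h :)
          · exact (congrArg Prod.snd h :)
        exact Finset.mem_image.2 ⟨e'.1, Finset.mem_univ _, Prod.ext rfl h8.symm⟩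
      have h9 := (Finset.card_le_card h7).trans
        (Finset.card_image_le.trans (le_of_eq (Finset.card_univ)))
      refine le_trans (le_of_eq ?_) h9
      congr) (by
      rw [Fintype.card_prod, Fintype.card_fin]
      calc 12 * (Fintype.card E * r) = 12 * Fintype.card E * r := by ring
        _ ≤ N ^ 2 := hr1) (by omega)
  refine ⟨_, _, _, inferInstance, inferInstance, inferInstance, A, v, hv, le_trans ?_ hA⟩
  have h7 : (univ.filter fun t => t ∈ good).card * r ≤
      (univ.filter fun t : T × Fin r => t ∈ {t : T × Fin r | t.1 ∈ good}).card := by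
    have h8 : (univ.filter fun t => t ∈ good).card * r =
        ((univ.filter fun t => t ∈ good) ×ˢ (univ : Finset (Fin r))).card := by
      rw [Finset.card_product, Finset.card_univ, Fintype.card_fin]
    rw [h8]
    refine Finset.card_le_card fun a ha => ?_
    rw [Finset.mem_product, Finset.mem_filter] at ha
    rw [Finset.mem_filter]
    exact ⟨Finset.mem_univ _, ha.1.2⟩
  have h8 : ((univ.filter fun t => t ∈ good).card : ℝ) * (r : ℝ) ≤
      ((univ.filter fun t : T × Fin r => t ∈ {t : T × Fin r | t.1 ∈ good}).card : ℝ) := by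
    rw [← Nat.cast_mul]
    exact Nat.cast_le.2 h7
  refine le_trans ?_ (div_le_div_of_nonneg_right h8 (by norm_num))
  have he : (0 : ℝ) < Fintype.card E := by exact_mod_cast h4
  refine exact_num (e := Fintype.card E) (N := N) he ?_ ?_ ?_ ?_ (Nat.cast_nonneg _) (by positivity)
    h6 (Nat.cast_nonneg _)
  · have : 12 * Fintype.card E ≤ N := by omega
    exact_mod_cast this
  · have : 2 ≤ N := by omega
    exact_mod_cast this
  · rw [div_lt_iff₀ (by positivity)]
    have : N ^ 2 < (r + 1) * (12 * Fintype.card E) := by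
      calc N ^ 2 < 12 * Fintype.card E * (r + 1) := hr2
        _ = (r + 1) * (12 * Fintype.card E) := by ring
    exact_mod_cast this
  · have : n ≤ 4 * N := by omega
    exact_mod_cast this

end Pool.Agent.H692.FL
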