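import Pool.Agent.H692.FL.Model

/-!
# Expected number of queries
-/

namespace Pool.Agent.H692.FL

open Finset

theorem Adm.mono {ι : Type*} [Fintype ι] {H H' : ℝ} {a : ι → ℝ} (h : Adm H a) (hH : H ≤ H') :
    Adm H' a := by
  rcases h with h | ⟨h1, h2⟩
  · exact Or.inl h
  · refine Or.inr ⟨h1, fun i => ?_⟩
    obtain ⟨z, hz, hz'⟩ := h2 i
    exact ⟨z, hz, hz'.trans hH⟩

namespace Tree

variable {ι : Type} [Fintype ι]

/-- the queries of the tree -/
def qs : Tree ι → Set ((ι → ℝ) × ℝ)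
  | leaf _ => ∅
  | node a b t => insert (a, b) (⋃ σ, (t σ).qs)

theorem qs_finite : ∀ t : Tree ι, t.qs.Finite
  | leaf _ => Set.finite_empty
  | node a b t => (Set.finite_iUnion fun σ => qs_finite (t σ)).insert _

theorem qs_adm {H : ℝ} : ∀ {t : Tree ι}, t.FiveTerm H → ∀ p ∈ t.qs, Adm H p.1
  | leaf _, _, p, hp => absurd hp (by simp [qs])
  | node a b t, h, p, hp => by
    rcases hp with rfl | hp
    · exact h.1
    · obtain ⟨σ, hσ⟩ := Set.mem_iUnion.1 hp
      exact qs_adm (h.2 σ) p hσ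

theorem sep {T : Type} (good : Finset T) (x : ι → ℝ) (y : T → ι → ℝ) : ∀ t : Tree ι,
    (∀ p ∈ t.qs, ∃ S : Finset T, S.card ≤ 3 ∧ ∀ m ∈ good, m ∉ S →
      SignType.sign (∑ i, p.1 i * x i + p.2) = SignType.sign (∑ i, p.1 i * y m i + p.2)) →
    ∃ S : Finset T, S.card ≤ 3 * t.cost x ∧ ∀ m ∈ good, m ∉ S → t.run (y m) = t.run x
  | leaf b, _ => ⟨∅, by simp, fun _ _ _ => rfl⟩
  | node a b t, h => by
    classical
    obtain ⟨S1, hS1, h1⟩ := h (a, b) (Set.mem_insert _ _)
    obtain ⟨S2, hS2, h2⟩ := sep good x y (t (SignType.sign (∑ i, a i * x i + b)))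
      (fun p hp => h p (Set.mem_insert_of_mem _ (Set.mem_iUnion_of_mem _ hp)))
    refine ⟨S1 ∪ S2, ?_, fun m hm hmS => ?_⟩
    · have := Finset.card_union_le S1 S2
      simp only [cost]
      omega
    · rw [Finset.mem_union, not_or] at hmS
      have e1 := h1 m hm hmS.1
      simp only at e1
      have e2 := h2 m hm hmS.2
      simp only [run]
      rw [← e1]
      exact e2

end Tree

/-- If every query separates the input `x` from at most three of the inputs `y m`, `m ∈ good`, and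
the random tree answers `false` on `x` and `true` on the `y m` with probability at least `2 / 3`
each, then the expected number of queries on `x` is at least a ninth of the number of the `m`. -/
theorem expect {ι : Type} [Fintype ι] {T : Type} (good : Finset T) (x : ι → ℝ) (y : T → ι → ℝ)
    {Ω : Type} [Fintype Ω] (p : Ω → ℝ) (hp : ∀ ω, 0 ≤ p ω) (hp1 : ∑ ω, p ω = 1)
    (t : Ω → Tree ι)
    (hx : 2 / 3 ≤ ∑ ω, p ω * (if (t ω).run x = false then (1 : ℝ) else 0))
    (hy : ∀ m ∈ good, 2 / 3 ≤ ∑ ω, p ω * (if (t ω).run (y m) = true then (1 : ℝ) else 0))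
    (hsep : ∀ ω, ∀ s ∈ (t ω).qs, ∃ S : Finset T, S.card ≤ 3 ∧ ∀ m ∈ good, m ∉ S →
      SignType.sign (∑ i, s.1 i * x i + s.2) = SignType.sign (∑ i, s.1 i * y m i + s.2)) :
    (good.card : ℝ) / 9 ≤ ∑ ω, p ω * ((t ω).cost x : ℝ) := by
  classical
  have hone : ∀ ω, (∑ m ∈ good, if ((t ω).run x = false ∧ (t ω).run (y m) = true) then (1 : ℝ)
      else 0) ≤ 3 * ((t ω).cost x : ℝ) := by
    intro ω
    obtain ⟨S, hS, hS'⟩ := Tree.sep good x y (t ω) (hsep ω)
    rw [Finset.sum_boole]
    have hsub : (good.filter fun m => (t ω).run x = false ∧ (t ω).run (y m) = true) ⊆ S := by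
      intro m hm
      rw [Finset.mem_filter] at hm
      by_contra hmS
      have := hS' m hm.1 hmS
      rw [hm.2.1, hm.2.2] at this
      exact absurd this (by simp)
    have := (Finset.card_le_card hsub).trans hS
    exact_mod_cast this
  have hpair : ∀ m ∈ good, 1 / 3 ≤ ∑ ω, p ω *
      (if ((t ω).run x = false ∧ (t ω).run (y m) = true) then (1 : ℝ) else 0) := by
    intro m hm
    have e2 := hy m hm
    have e3 : ∑ ω, p ω * (if (t ω).run x = false then (1 : ℝ) else 0) +
        ∑ ω, p ω * (if (t ω).run (y m) = true then (1 : ℝ) else 0) -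
        ∑ ω, p ω ≤ ∑ ω, p ω * (if ((t ω).run x = false ∧ (t ω).run (y m) = true) then (1 : ℝ)
          else 0) := by
      rw [← Finset.sum_add_distrib, ← Finset.sum_sub_distrib]
      refine Finset.sum_le_sum fun ω _ => ?_
      have hpω := hp ω
      rw [← mul_add]
      cases hr : (t ω).run x <;> cases hr' : (t ω).run (y m) <;> simp <;> nlinarith
    rw [hp1] at e3
    linarith
  have hsum : (good.card : ℝ) * (1 / 3) ≤ ∑ ω, p ω * (3 * ((t ω).cost x : ℝ)) := by
    calc (good.card : ℝ) * (1 / 3) = ∑ m ∈ good, (1 / 3 : ℝ) := by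
          rw [Finset.sum_const, nsmul_eq_mul]
      _ ≤ ∑ m ∈ good, ∑ ω, p ω * (if ((t ω).run x = false ∧ (t ω).run (y m) = true) then (1 : ℝ)
          else 0) := Finset.sum_le_sum hpair
      _ = ∑ ω, p ω * ∑ m ∈ good, (if ((t ω).run x = false ∧ (t ω).run (y m) = true) then (1 : ℝ)
          else 0) := by
          rw [Finset.sum_comm]
          refine Finset.sum_congr rfl fun ω _ => ?_
          rw [Finset.mul_sum]
      _ ≤ _ := Finset.sum_le_sum fun ω _ => mul_le_mul_of_nonneg_left (hone ω) (hp ω)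
  have hfinal : ∑ ω, p ω * (3 * ((t ω).cost x : ℝ)) = 3 * ∑ ω, p ω * ((t ω).cost x : ℝ) := by
    rw [Finset.mul_sum]
    refine Finset.sum_congr rfl fun ω _ => ?_
    ring
  rw [hfinal] at hsum
  linarith

end Pool.Agent.H692.FL
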