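import Pool.Agent.H692.FL.Cx

/-!
# Complexes of cosets
-/

namespace Pool.Agent.H692.FL

/-- three pairs of subgroups with the properties which make the coset complex free of short
cycles -/
structure GD (G : Type*) [Group G] where
  K : ZMod 3 → Subgroup G
  E : ZMod 3 → Subgroup G
  le : ∀ c g, g ∈ E c → g ∈ K c
  le' : ∀ c g, g ∈ E c → g ∈ K (c + 2)
  inf : ∀ c g, g ∈ K c → g ∈ K (c + 2) → g ∈ E c
  t3 : ∀ k1 k2, k1 ∈ K 1 → k2 ∈ K 2 → k1 * k2 ∈ K 0 →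
    ∃ e1 ∈ E 1, ∃ e2 ∈ E 2, ∃ e0 ∈ E 0, k1 = e1 * e2⁻¹ ∧ k2 = e2 * e0
  t4a : ∀ c k1 k2 k3, k1 ∈ K (c + 1) → k2 ∈ K c → k3 ∈ K (c + 1) → k1 * k2 * k3 ∈ K c →
    k1 ∈ E (c + 1) ∨ k2 ∈ E (c + 1)
  t4b : ∀ c k1 k2 k3 k4, k1 ∈ K (c + 2) → k2 ∈ K c → k3 ∈ K (c + 1) → k4 ∈ K c →
    k1 * k2 = k4 * k3 → k1 ∈ E c ∨
      ∃ a ∈ E c, ∃ a' ∈ E (c + 1), ∃ b ∈ E c, ∃ b' ∈ E (c + 1), ∃ d ∈ E (c + 2),
        k2 = a * a' ∧ k4 = b * b' ∧ k1 * a = b * d
  t5 : ∀ c k5 k1 k2 k4 k3, k5 ∈ K c → k1 ∈ K (c + 1) → k2 ∈ K (c + 2) → k4 ∈ K (c + 1) → k3 ∈ K c →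
    k5 * k1 * k2 = k4 * k3 → k5 ∉ K (c + 1) → k4 ∉ K c →
      ∃ a ∈ E (c + 1), ∃ a' ∈ E (c + 2), k1 = a * a'

namespace GD

variable {G : Type*} [Group G] (D : GD G)

/-- points -/
abbrev Pt : Type _ := Σ c : ZMod 3, G ⧸ D.K c

/-- edges -/
abbrev Ed : Type _ := Σ c : ZMod 3, G ⧸ D.E c

/-- the point of type `c` of the element `g` -/
def mkP (c : ZMod 3) (g : G) : D.Pt := ⟨c, (g : G ⧸ D.K c)⟩

/-- the edge of type `c` of the element `g` -/
def mkE (c : ZMod 3) (g : G) : D.Ed := ⟨c, (g : G ⧸ D.E c)⟩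

theorem mkP_eq {c c' : ZMod 3} {g g' : G} :
    D.mkP c g = D.mkP c' g' ↔ c = c' ∧ g⁻¹ * g' ∈ D.K c := by
  constructor
  · intro h
    have h1 : c = c' := congrArg Sigma.fst h
    subst h1
    refine ⟨rfl, ?_⟩
    have := eq_of_heq (Sigma.mk.inj h).2
    exact QuotientGroup.eq.1 this
  · rintro ⟨rfl, h⟩
    have := QuotientGroup.eq.2 h
    unfold mkP
    rw [this]

theorem mkE_eq {c c' : ZMod 3} {g g' : G} :
    D.mkE c g = D.mkE c' g' ↔ c = c' ∧ g⁻¹ * g' ∈ D.E c := by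
  constructor
  · intro h
    have h1 : c = c' := congrArg Sigma.fst h
    subst h1
    refine ⟨rfl, ?_⟩
    have := eq_of_heq (Sigma.mk.inj h).2
    exact QuotientGroup.eq.1 this
  · rintro ⟨rfl, h⟩
    have := QuotientGroup.eq.2 h
    unfold mkE
    rw [this]

theorem exE (a : D.Ed) : ∃ g, a = D.mkE a.1 g := by
  obtain ⟨c, q⟩ := a
  obtain ⟨g, rfl⟩ := QuotientGroup.mk_surjective q
  exact ⟨g, rfl⟩

/-- the head of an edge -/
def hd (a : D.Ed) : D.Pt :=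
  ⟨a.1, Quotient.map' (s₁ := QuotientGroup.leftRel (D.E a.1)) (s₂ := QuotientGroup.leftRel (D.K a.1))
    id (fun x y h => by
      rw [QuotientGroup.leftRel_apply] at h ⊢
      exact D.le _ _ h) a.2⟩

/-- the tail of an edge -/
def tl (a : D.Ed) : D.Pt :=
  ⟨a.1 + 2, Quotient.map' (s₁ := QuotientGroup.leftRel (D.E a.1))
    (s₂ := QuotientGroup.leftRel (D.K (a.1 + 2)))
    id (fun x y h => by
      rw [QuotientGroup.leftRel_apply] at h ⊢
      exact D.le' _ _ h) a.2⟩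

theorem hd_mk (c : ZMod 3) (g : G) : D.hd (D.mkE c g) = D.mkP c g := rfl

theorem tl_mk (c : ZMod 3) (g : G) : D.tl (D.mkE c g) = D.mkP (c + 2) g := rfl

/-- the complex of cosets -/
def cx : Cx D.Ed D.Pt G where
  ty a := a.1
  pty p := p.1
  hd := D.hd
  tl := D.tl
  e g c := D.mkE c g
  hd_ty _ := rfl
  tl_ty _ := rfl
  e_ty _ _ := rfl
  glue g c := by
    rw [hd_mk, tl_mk, mkP_eq]
    refine ⟨?_, ?_⟩
    · have z : ∀ c : ZMod 3, c = c + 1 + 2 := by decide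
      exact z c
    · rw [inv_mul_cancel]
      exact Subgroup.one_mem _
  simple a b h1 h2 := by
    obtain ⟨g, hg⟩ := D.exE a
    obtain ⟨g', hg'⟩ := D.exE b
    rw [hg, hg'] at h1 h2
    rw [hd_mk, hd_mk, mkP_eq] at h1
    rw [tl_mk, tl_mk, mkP_eq] at h2
    rw [hg, hg', mkE_eq]
    exact ⟨h1.1, D.inf _ _ h1.2 h2.2⟩
  tri a h1 h2 := by
    choose g hg using fun c => D.exE (a c)
    simp only [h1] at hg
    have h3 : ∀ c, (g c)⁻¹ * g (c + 1) ∈ D.K c := by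
      intro c
      have := h2 c
      rw [hg, hg, hd_mk, tl_mk, mkP_eq] at this
      exact this.2
    have k0 := h3 0
    have k1 := h3 1
    have k2 := h3 2
    have z1 : (0 : ZMod 3) + 1 = 1 := by decide
    have z2 : (1 : ZMod 3) + 1 = 2 := by decide
    have z3 : (2 : ZMod 3) + 1 = 0 := by decide
    rw [z1] at k0
    rw [z2] at k1
    rw [z3] at k2
    obtain ⟨e1, he1, e2, he2, e0, he0, q1, q2⟩ := D.t3 _ _ k1 k2 (by
      have : (g 1)⁻¹ * g 2 * ((g 2)⁻¹ * g 0) = ((g 0)⁻¹ * g 1)⁻¹ := by group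
      rw [this]
      exact Subgroup.inv_mem _ k0)
    refine ⟨g 1 * e1, ?_⟩
    intro c
    have z : ∀ c : ZMod 3, c = 0 ∨ c = 1 ∨ c = 2 := by decide
    rcases z c with rfl | rfl | rfl
    · rw [hg 0, mkE_eq]
      refine ⟨rfl, ?_⟩
      have : (g 1 * e1)⁻¹ * g 0 = e0 := by
        have h4 : g 0 = g 1 * ((g 1)⁻¹ * g 2) * ((g 2)⁻¹ * g 0) := by group
        rw [h4, q1, q2]
        group
      rw [this]
      exact he0
    · rw [hg 1, mkE_eq]
      refine ⟨rfl, ?_⟩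
      have : (g 1 * e1)⁻¹ * g 1 = e1⁻¹ := by group
      rw [this]
      exact Subgroup.inv_mem _ he1
    · rw [hg 2, mkE_eq]
      refine ⟨rfl, ?_⟩
      have : (g 1 * e1)⁻¹ * g 2 = e2⁻¹ := by
        have h4 : g 2 = g 1 * ((g 1)⁻¹ * g 2) := by group
        rw [h4, q1]
        group
      rw [this]
      exact Subgroup.inv_mem _ he2
  quad a b c d h1 h2 h3 h4 := by
    obtain ⟨ga, hga⟩ := D.exE a
    obtain ⟨gb, hgb⟩ := D.exE b
    obtain ⟨gc, hgc⟩ := D.exE c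
    obtain ⟨gd, hgd⟩ := D.exE d
    obtain ⟨x, hx⟩ : ∃ x, a.1 = x + 1 := ⟨a.1 - 1, by ring⟩
    rw [hga, hgb, hd_mk, hd_mk, mkP_eq] at h1
    rw [hgb, hgc, tl_mk, tl_mk, mkP_eq] at h2
    rw [hgc, hgd, hd_mk, hd_mk, mkP_eq] at h3
    rw [hgd, hga, tl_mk, tl_mk, mkP_eq] at h4
    obtain ⟨t1, h1⟩ := h1
    obtain ⟨t2, h2⟩ := h2
    obtain ⟨t3, h3⟩ := h3
    obtain ⟨t4, h4⟩ := h4
    have t2' : b.1 = c.1 := add_right_cancel t2
    rw [← t1] at h2
    rw [← t2', ← t1] at h3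
    rw [t4] at h4
    have z : ∀ x : ZMod 3, x + 1 + 2 = x := by decide
    rw [hx, z] at h2 h4
    rw [hx] at h1 h3
    rcases D.t4a x _ _ _ h1 h2 h3 (by
      have : ga⁻¹ * gb * (gb⁻¹ * gc) * (gc⁻¹ * gd) = (gd⁻¹ * ga)⁻¹ := by group
      rw [this]
      exact Subgroup.inv_mem _ h4) with h | h
    · left
      rw [hga, hgb, mkE_eq]
      exact ⟨t1, by rw [hx]; exact h⟩
    · right
      rw [hgb, hgc, mkE_eq]
      exact ⟨t2', by rw [← t1, hx]; exact h⟩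
  kite a b a' b' h1 hab h2 h3 h4 := by
    obtain ⟨ga, hga⟩ := D.exE a
    obtain ⟨gb, hgb⟩ := D.exE b
    obtain ⟨ga', hga'⟩ := D.exE a'
    obtain ⟨gb', hgb'⟩ := D.exE b'
    rw [hga, hgb, tl_mk, tl_mk, mkP_eq] at h1
    rw [hga, hga', hd_mk, tl_mk, mkP_eq] at h2
    rw [hgb, hgb', hd_mk, tl_mk, mkP_eq] at h3
    rw [hga', hgb', hd_mk, hd_mk, mkP_eq] at h4
    obtain ⟨x, hx⟩ : ∃ x, x = a.1 := ⟨_, rfl⟩
    have z : ∀ x y : ZMod 3, x = y + 2 → y = x + 1 := by decide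
    have tb : b.1 = x := by rw [hx]; exact (add_right_cancel h1.1).symm
    have ta' : a'.1 = x + 1 := by rw [hx]; exact z _ _ h2.1
    have tb' : b'.1 = x + 1 := by rw [← tb]; exact z _ _ h3.1
    rw [← hx] at hga
    rw [tb] at hgb
    rw [ta'] at hga'
    rw [tb'] at hgb'
    have q1 := h1.2
    have q2 := h2.2
    have q3 := h3.2
    have q4 := h4.2
    rw [← hx] at q1 q2
    rw [tb] at q3
    rw [ta'] at q4
    have q1' : gb⁻¹ * ga ∈ D.K (x + 2) := by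
      have : gb⁻¹ * ga = (ga⁻¹ * gb)⁻¹ := by group
      rw [this]
      exact Subgroup.inv_mem _ q1
    have q4' : gb'⁻¹ * ga' ∈ D.K (x + 1) := by
      have : gb'⁻¹ * ga' = (ga'⁻¹ * gb')⁻¹ := by group
      rw [this]
      exact Subgroup.inv_mem _ q4
    rcases D.t4b x (gb⁻¹ * ga) (ga⁻¹ * ga') (gb'⁻¹ * ga') (gb⁻¹ * gb') q1' q2 q4' q3 (by group) with
      h | ⟨u, hu, u', hu', v, hv, v', hv', w, hw, e1, e2, e3⟩
    · exfalso
      apply hab
      rw [hga, hgb, mkE_eq]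
      refine ⟨rfl, ?_⟩
      have : ga⁻¹ * gb = (gb⁻¹ * ga)⁻¹ := by group
      rw [this]
      exact Subgroup.inv_mem _ h
    · refine ⟨ga * u, gb * v, ?_, ?_, ?_, ?_, ?_⟩
      · rw [← hx, hga, mkE_eq]
        refine ⟨rfl, ?_⟩
        have : (ga * u)⁻¹ * ga = u⁻¹ := by group
        rw [this]
        exact Subgroup.inv_mem _ hu
      · rw [← hx, hga', mkE_eq]
        refine ⟨rfl, ?_⟩
        have : (ga * u)⁻¹ * ga' = u' := by
          have h4 : ga' = ga * (ga⁻¹ * ga') := by group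
          rw [h4, e1]
          group
        rw [this]
        exact hu'
      · rw [← hx, hgb, mkE_eq]
        refine ⟨rfl, ?_⟩
        have : (gb * v)⁻¹ * gb = v⁻¹ := by group
        rw [this]
        exact Subgroup.inv_mem _ hv
      · rw [← hx, hgb', mkE_eq]
        refine ⟨rfl, ?_⟩
        have : (gb * v)⁻¹ * gb' = v' := by
          have h4 : gb' = gb * (gb⁻¹ * gb') := by group
          rw [h4, e2]
          group
        rw [this]
        exact hv'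
      · rw [← hx, mkE_eq]
        refine ⟨rfl, ?_⟩
        have : (ga * u)⁻¹ * (gb * v) = w⁻¹ := by
          have h4 : ga * u = gb * (gb⁻¹ * ga * u) := by group
          rw [h4, e3]
          group
        rw [this]
        exact Subgroup.inv_mem _ hw

  penta a b c d f h1 h2 h3 h4 h5 h6 h7 := by
    obtain ⟨x, hx⟩ : ∃ x, a.1 = x + 1 := ⟨a.1 - 1, by ring⟩
    obtain ⟨g1, e1⟩ := D.exE a
    obtain ⟨g2, e2⟩ := D.exE b
    obtain ⟨g3, e3⟩ := D.exE c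
    obtain ⟨g4, e4⟩ := D.exE d
    obtain ⟨g5, e5⟩ := D.exE f
    have z : ∀ u v : ZMod 3, u = v + 2 → v = u + 1 := by decide
    have zz : ∀ x : ZMod 3, x + 1 + 1 = x + 2 := by decide
    have zz2 : ∀ x : ZMod 3, x + 2 + 1 = x := by decide
    have zz3 : ∀ x : ZMod 3, x + 1 + 2 = x := by decide
    have zz4 : ∀ x : ZMod 3, x + 2 + 2 = x + 1 := by decide
    have t1 : b.1 = x + 2 := by
      have := congrArg Sigma.fst h1
      change a.1 = b.1 + 2 at this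
      rw [z _ _ this, hx, zz]
    have t2 : c.1 = x := by
      have := congrArg Sigma.fst h2
      change b.1 = c.1 + 2 at this
      rw [z _ _ this, t1, zz2]
    have t3 : d.1 = x + 1 := by
      have := congrArg Sigma.fst h3
      change c.1 = d.1 + 2 at this
      rw [z _ _ this, t2]
    have t4 : f.1 = x + 1 := by
      have := congrArg Sigma.fst h4
      change d.1 = f.1 at this
      rw [← this, t3]
    rw [hx] at e1
    rw [t1] at e2
    rw [t2] at e3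
    rw [t3] at e4
    rw [t4] at e5
    rw [e1, e2, hd_mk, tl_mk, mkP_eq] at h1
    rw [e2, e3, hd_mk, tl_mk, mkP_eq] at h2
    rw [e3, e4, hd_mk, tl_mk, mkP_eq] at h3
    rw [e4, e5, hd_mk, hd_mk, mkP_eq] at h4
    rw [e5, e1, tl_mk, tl_mk, mkP_eq, zz3] at h5
    obtain ⟨u, hu, u', hu', huu⟩ := D.t5 x (g5⁻¹ * g1) (g1⁻¹ * g2) (g2⁻¹ * g3) (g5⁻¹ * g4)
      (g4⁻¹ * g3) h5.2 h1.2 h2.2 (by
        have : g5⁻¹ * g4 = (g4⁻¹ * g5)⁻¹ := by group
        rw [this]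
        exact Subgroup.inv_mem _ h4.2) (by
        have : g4⁻¹ * g3 = (g3⁻¹ * g4)⁻¹ := by group
        rw [this]
        exact Subgroup.inv_mem _ h3.2) (by group) (by
        intro hk
        apply h6
        rw [e1, e4, hd_mk, hd_mk, mkP_eq]
        refine ⟨rfl, ?_⟩
        have : g1⁻¹ * g4 = (g5⁻¹ * g1)⁻¹ * (g4⁻¹ * g5)⁻¹ := by group
        rw [this]
        exact Subgroup.mul_mem _ (Subgroup.inv_mem _ hk) (Subgroup.inv_mem _ h4.2)) (by
        intro hk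
        apply h7
        rw [e1, e3, hd_mk, tl_mk, mkP_eq]
        refine ⟨zz3 x, ?_⟩
        rw [zz3]
        have : g1⁻¹ * g3 = (g5⁻¹ * g1)⁻¹ * (g5⁻¹ * g4) * (g3⁻¹ * g4)⁻¹ := by group
        rw [this]
        exact Subgroup.mul_mem _ (Subgroup.mul_mem _ (Subgroup.inv_mem _ h5.2) hk)
          (Subgroup.inv_mem _ h3.2))
    refine ⟨g1 * u, ?_, ?_⟩
    · rw [hx, e1, mkE_eq]
      refine ⟨rfl, ?_⟩
      have : (g1 * u)⁻¹ * g1 = u⁻¹ := by group
      rw [this]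
      exact Subgroup.inv_mem _ hu
    · rw [hx, zz, e2, mkE_eq]
      refine ⟨rfl, ?_⟩
      have : (g1 * u)⁻¹ * g2 = u' := by
        have h8 : g2 = g1 * (g1⁻¹ * g2) := by group
        rw [h8, huu]
        group
      rw [this]
      exact hu'

end GD

end Pool.Agent.H692.FL
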