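import Pool.Agent.H692.FL.Gt

/-!
# Galleries
-/

namespace Pool.Agent.H692.FL

open Finset

variable {F : Type} [Field F] {M : ℕ} {C : Type} [Group C]

/-- the element reached from `m` along a word (its head is the last letter) -/
def cur (m : Gt F M C) : List (ZMod 3 × F) → Gt F M C
  | [] => m
  | x :: l => cur m l * kel x.1 x.2 0 0

/-- the type `c` may follow the word -/
def Nx : List (ZMod 3 × F) → ZMod 3 → Prop
  | [], c => c = 0
  | y :: _, c => c ≠ y.1

/-- the words of galleries: they leave through the edge of type `0` and never turn back -/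
def WW : List (ZMod 3 × F) → Prop
  | [] => True
  | x :: l => WW l ∧ Nx l x.1 ∧ x.2 ≠ 0

/-- all triangles of the gallery lie in `S` -/
def Vd (S : Set (Gt F M C)) (m : Gt F M C) : List (ZMod 3 × F) → Prop
  | [] => m ∈ S
  | x :: l => Vd S m l ∧ cur m (x :: l) ∈ S

theorem Vd.mem {S : Set (Gt F M C)} {m : Gt F M C} : ∀ {l : List (ZMod 3 × F)}, Vd S m l →
    cur m l ∈ S
  | [], h => h
  | _ :: _, h => h.2

/-- append the inverse of `l'` to `l` -/
def rapp : List (ZMod 3 × F) → List (ZMod 3 × F) → List (ZMod 3 × F)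
  | [], l => l
  | x :: l', l => rapp l' ((x.1, -x.2) :: l)

theorem xel_mul (c : ZMod 3) (a b : F) :
    (kel c a 0 0 * kel c b 0 0 : Gt F M C) = kel c (a + b) 0 0 := by
  rw [kel_mul]
  simp

theorem rapp_length : ∀ l' l : List (ZMod 3 × F), (rapp l' l).length = l'.length + l.length
  | [], l => by simp [rapp]
  | x :: l', l => by
    rw [rapp, rapp_length l']
    simp only [List.length_cons]
    omega

theorem rapp_WW : ∀ l' l : List (ZMod 3 × F), WW l' → WW l → (∀ x ∈ l'.head?, Nx l x.1) →
    WW (rapp l' l)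
  | [], l, _, h, _ => h
  | x :: l', l, h', h, hj => by
    rw [rapp]
    refine rapp_WW l' _ h'.1 ⟨h, hj x (by simp), neg_ne_zero.2 h'.2.2⟩ ?_
    intro y hy
    cases l' with
    | nil => simp at hy
    | cons z l'' =>
      simp only [List.head?_cons, Option.mem_def, Option.some.injEq] at hy
      subst hy
      exact (h'.2.1 : x.1 ≠ z.1).symm

theorem rapp_Vd {S : Set (Gt F M C)} {m : Gt F M C} : ∀ l' l : List (ZMod 3 × F), Vd S m l' →
    Vd S m l → cur m l = cur m l' → Vd S m (rapp l' l) ∧ cur m (rapp l' l) = m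
  | [], l, _, h, hc => ⟨h, hc⟩
  | x :: l', l, h', h, hc => by
    rw [rapp]
    have h1 : cur m ((x.1, -x.2) :: l) = cur m l' := by
      simp only [cur]
      rw [hc]
      simp only [cur]
      rw [mul_assoc, xel_mul, add_neg_cancel, kel_zero, mul_one]
    exact rapp_Vd l' _ h'.1 ⟨h, by rw [h1]; exact h'.1.mem⟩ h1

/-- `m` lies on a short closed gallery -/
def Closed (S : Set (Gt F M C)) (m : Gt F M C) (L : ℕ) : Prop :=
  ∃ l, WW l ∧ Vd S m l ∧ l ≠ [] ∧ cur m l = m ∧ l.length ≤ L

theorem closed_of_ne {S : Set (Gt F M C)} {m : Gt F M C} : ∀ (l l' : List (ZMod 3 × F)), WW l →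
    WW l' → Vd S m l → Vd S m l' → l.length = l'.length → l ≠ l' → cur m l = cur m l' →
    Closed S m (l.length + l'.length)
  | [], [], _, _, _, _, _, h, _ => absurd rfl h
  | [], _ :: _, _, _, _, _, h, _, _ => by simp at h
  | _ :: _, [], _, _, _, _, h, _, _ => by simp at h
  | x :: l, y :: l', h1, h1', h2, h2', hlen, hne, hc => by
    by_cases hxy : x.1 = y.1
    · by_cases hxy2 : x.2 = y.2
      · have hx : x = y := Prod.ext hxy hxy2
        subst hx
        obtain ⟨k, k1, k2, k3, k4, k5⟩ := closed_of_ne l l' h1.1 h1'.1 h2.1 h2'.1 (by simpa using hlen)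
          (fun h => hne (by rw [h])) (mul_right_cancel hc)
        refine ⟨k, k1, k2, k3, k4, k5.trans ?_⟩
        simp only [List.length_cons]
        omega
      · -- merge the two letters
        have hc' : cur m ((x.1, x.2 - y.2) :: l) = cur m l' := by
          simp only [cur] at hc ⊢
          rw [sub_eq_add_neg, ← xel_mul, ← mul_assoc, hc, hxy, mul_assoc, xel_mul,
            add_neg_cancel, kel_zero, mul_one]
        obtain ⟨k1, k2⟩ := rapp_Vd (S := S) (m := m) l' ((x.1, x.2 - y.2) :: l) h2'.1
          ⟨h2.1, by rw [hc']; exact h2'.1.mem⟩ hc'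
        refine ⟨_, rapp_WW l' ((x.1, x.2 - y.2) :: l) h1'.1
          ⟨h1.1, h1.2.1, sub_ne_zero.2 hxy2⟩ ?_, k1, ?_, k2, ?_⟩
        · intro z hz
          cases l' with
          | nil => simp at hz
          | cons w l'' =>
            simp only [List.head?_cons, Option.mem_def, Option.some.injEq] at hz
            subst hz
            change w.1 ≠ x.1
            rw [hxy]
            exact (h1'.2.1 : y.1 ≠ w.1).symm
        · intro h
          have := congrArg List.length h
          rw [rapp_length] at this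
          simp at this
        · rw [rapp_length]
          simp only [List.length_cons]
          omega
    · obtain ⟨k1, k2⟩ := rapp_Vd (S := S) (m := m) (y :: l') (x :: l) h2' h2 hc
      refine ⟨_, rapp_WW (y :: l') (x :: l) h1' h1 ?_, k1, ?_, k2, ?_⟩
      · intro z hz
        simp only [List.head?_cons, Option.mem_def, Option.some.injEq] at hz
        subst hz
        exact fun h => hxy h.symm
      · intro h
        have := congrArg List.length h
        rw [rapp_length] at this
        simp at this
      · rw [rapp_length]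
        simp only [List.length_cons]
        omega

variable [Fintype F]

/-- adding a letter -/
def consE (F : Type) : List (ZMod 3 × F) × (ZMod 3 × F) ↪ List (ZMod 3 × F) :=
  ⟨fun p => p.2 :: p.1, fun p p' h => by
    simp only [List.cons.injEq] at h
    exact Prod.ext h.2 h.1⟩

theorem consE_apply (p : List (ZMod 3 × F) × (ZMod 3 × F)) : consE F p = p.2 :: p.1 := rfl

open Classical in
/-- the words of the galleries of length `j` in `S` from `m` -/
noncomputable def WV (S : Set (Gt F M C)) (m : Gt F M C) : ℕ → Finset (List (ZMod 3 × F))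
  | 0 => {[]}
  | j + 1 => ((WV S m j ×ˢ (univ : Finset (ZMod 3 × F))).filter fun p =>
      Nx p.1 p.2.1 ∧ p.2.2 ≠ 0 ∧ cur m (p.2 :: p.1) ∈ S).map (consE F)

theorem WV_spec {S : Set (Gt F M C)} {m : Gt F M C} (hm : m ∈ S) : ∀ {j : ℕ}
    {l : List (ZMod 3 × F)}, l ∈ WV S m j → WW l ∧ Vd S m l ∧ l.length = j
  | 0, l, h => by
    have : l = [] := by simpa [WV] using h
    subst this
    exact ⟨trivial, hm, rfl⟩
  | j + 1, l, h => by
    rw [WV, Finset.mem_map] at h
    obtain ⟨⟨l', x⟩, h1, rfl⟩ := h
    classical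
    rw [Finset.mem_filter, Finset.mem_product] at h1
    obtain ⟨a1, a2, a3⟩ := WV_spec hm h1.1.1
    exact ⟨⟨a1, h1.2.1, h1.2.2.1⟩, ⟨a2, h1.2.2.2⟩, by
      change l'.length + 1 = j + 1
      exact congrArg (· + 1) a3⟩

open Classical in
/-- the number of galleries of length `j` from `m` to `t` -/
noncomputable def GG (S : Set (Gt F M C)) (m : Gt F M C) (j : ℕ) (t : Gt F M C) : ℤ :=
  ∑ l ∈ WV S m j, if cur m l = t then 1 else 0

theorem GG_le {S : Set (Gt F M C)} {m : Gt F M C} (hm : m ∈ S) {j : ℕ}
    (hcl : ¬ Closed S m (2 * j)) (t : Gt F M C) : GG S m j t ≤ 1 := by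
  classical
  rw [GG, Finset.sum_boole]
  have : ((WV S m j).filter fun l => cur m l = t).card ≤ 1 := by
    rw [Finset.card_le_one]
    intro l hl l' hl'
    rw [Finset.mem_filter] at hl hl'
    by_contra hne
    obtain ⟨a1, a2, a3⟩ := WV_spec hm hl.1
    obtain ⟨b1, b2, b3⟩ := WV_spec hm hl'.1
    apply hcl
    have := closed_of_ne l l' a1 b1 a2 b2 (a3.trans b3.symm) hne (hl.2.trans hl'.2.symm)
    rw [a3, b3] at this
    rwa [two_mul]
  exact_mod_cast this

theorem GG_nonneg {S : Set (Gt F M C)} {m : Gt F M C} {j : ℕ} (t : Gt F M C) :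
    0 ≤ GG S m j t :=
  Finset.sum_nonneg fun l _ => by split_ifs <;> omega

theorem GG_self {S : Set (Gt F M C)} {m : Gt F M C} (hm : m ∈ S) {j : ℕ} (hj : 0 < j)
    (hcl : ¬ Closed S m (2 * j)) : GG S m j m = 0 := by
  classical
  refine Finset.sum_eq_zero fun l hl => ?_
  rw [if_neg]
  intro h
  obtain ⟨a1, a2, a3⟩ := WV_spec hm hl
  refine hcl ⟨l, a1, a2, ?_, h, by omega⟩
  rintro rfl
  simp at a3
  omega

variable (hM : 3 ≤ M)

open Classical in
/-- the edges by which the galleries of length `j` may be continued -/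
noncomputable def yy (S : Set (Gt F M C)) (m : Gt F M C) (j : ℕ)
    (κ : (gd (F := F) (C := C) hM).Ed) : ℤ :=
  ∑ l ∈ WV S m j, ∑ c, if Nx l c ∧ (gd hM).mkE c (cur m l) = κ then 1 else 0

open Classical in
theorem sum_yy (S : Set (Gt F M C)) (m : Gt F M C) (j : ℕ) {t : Gt F M C} (ht : t ∈ S) :
    ∑ c, yy hM S m j ((gd hM).mkE c t) =
      (∑ l ∈ WV S m j, ∑ c, if Nx l c ∧ cur m l = t then 1 else 0) + GG S m (j + 1) t := by
  -- the continuations
  have hG : GG S m (j + 1) t = ∑ l ∈ WV S m j, ∑ c : ZMod 3, ∑ a : F,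
      if Nx l c ∧ a ≠ 0 ∧ cur m l * kel c a 0 0 = t then 1 else 0 := by
    rw [GG, WV, Finset.sum_map, Finset.sum_filter, Finset.sum_product]
    refine Finset.sum_congr rfl fun l _ => ?_
    rw [Fintype.sum_prod_type]
    refine Finset.sum_congr rfl fun c _ => Finset.sum_congr rfl fun a _ => ?_
    simp only [consE_apply, cur]
    by_cases h1 : cur m l * kel c a 0 0 = t
    · simp only [h1, ht, and_true, if_true]
    · simp only [h1, and_false, if_false, ite_self]
  rw [hG, ← Finset.sum_add_distrib]
  simp only [yy]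
  rw [Finset.sum_comm]
  refine Finset.sum_congr rfl fun l _ => ?_
  rw [Finset.sum_comm, ← Finset.sum_add_distrib]
  refine Finset.sum_congr rfl fun c _ => ?_
  have h1 : ∀ c', ((gd (F := F) (C := C) hM).mkE c (cur m l) = (gd hM).mkE c' t) ↔
      c = c' ∧ ∃ a : F, cur m l * kel c a 0 0 = t := by
    intro c'
    rw [GD.mkE_eq]
    refine and_congr Iff.rfl ⟨?_, ?_⟩
    · rintro ⟨a, ha⟩
      refine ⟨a, ?_⟩
      rw [← ha]
      group
    · rintro ⟨a, rfl⟩
      exact ⟨a, by group⟩
  simp only [h1]
  by_cases hN : Nx l c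
  · simp only [hN, true_and]
    rw [Finset.sum_eq_single c (by intro c' _ h; rw [if_neg (fun h' => h h'.1.symm)]) (by simp)]
    simp only [true_and]
    by_cases hex : ∃ a : F, cur m l * kel c a 0 0 = t
    · rw [if_pos hex]
      obtain ⟨a, ha⟩ := hex
      have huniq : ∀ b : F, cur m l * kel c b 0 0 = t ↔ b = a := by
        intro b
        constructor
        · intro hb
          have h2 : (kel c b 0 0 : Gt F M C) = kel c a 0 0 := mul_left_cancel (hb.trans ha.symm)
          have h3 := T2' (c := c) hM (x := b - a) (y := 0) (z := 0) (x' := 0) (y' := 0) (z' := 0) (by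
            intro v
            have h4 : (kel c (b - a) 0 0 : Gt F M C) = kel (c + 1) 0 0 0 := by
              rw [kel_zero, sub_eq_add_neg, ← xel_mul, h2, xel_mul, add_neg_cancel, kel_zero]
            exact kel_inj h4 v)
          exact sub_eq_zero.1 h3.1
        · rintro rfl
          exact ha
      have h0 : cur m l = t ↔ (0 : F) = a := by
        rw [← huniq 0, kel_zero, mul_one]
      simp only [huniq, h0]
      by_cases ha0 : (0 : F) = a
      · subst ha0
        simp
      · rw [if_neg ha0, zero_add, Finset.sum_eq_single a]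
        · simp [Ne.symm ha0]
        · intro b _ hb
          rw [if_neg]
          exact fun h => hb h.2
        · simp
    · rw [if_neg hex]
      push Not at hex
      have h0 : cur m l ≠ t := by
        intro h
        apply hex 0
        rw [kel_zero, mul_one, h]
      rw [if_neg h0, zero_add]
      symm
      refine Finset.sum_eq_zero fun a _ => ?_
      rw [if_neg]
      exact fun h => hex a h.2
  · simp [hN]

open Classical in
/-- the correction after `k` steps -/
noncomputable def zk (S : Set (Gt F M C)) (m : Gt F M C) : ℕ →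
    (gd (F := F) (C := C) hM).Ed → ℤ
  | 0, κ => -yy hM S m 0 κ
  | k + 1, κ => 2 * zk S m k κ + (-1) ^ k * yy hM S m (k + 1) κ

open Classical in
theorem sum_zk (S : Set (Gt F M C)) (m : Gt F M C) {t : Gt F M C} (ht : t ∈ S) : ∀ k : ℕ,
    ∑ c, zk hM S m k ((gd hM).mkE c t) =
      -2 ^ k * (if t = m then 1 else 0) + (-1) ^ (k + 1) * GG S m (k + 1) t
  | 0 => by
    simp only [zk, Finset.sum_neg_distrib]
    rw [sum_yy hM S m 0 ht]
    have h1 : (∑ l ∈ WV S m 0, ∑ c, if Nx l c ∧ cur m l = t then (1 : ℤ) else 0) =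
        if t = m then 1 else 0 := by
      rw [WV, Finset.sum_singleton]
      simp only [Nx, cur]
      by_cases h : t = m
      · subst h
        simp
      · rw [if_neg h]
        simp [Ne.symm h]
    rw [h1]
    ring
  | k + 1 => by
    simp only [zk, Finset.sum_add_distrib, ← Finset.mul_sum]
    rw [sum_yy hM S m (k + 1) ht, sum_zk S m ht k]
    have h1 : (∑ l ∈ WV S m (k + 1), ∑ c, if Nx l c ∧ cur m l = t then (1 : ℤ) else 0) =
        2 * GG S m (k + 1) t := by
      rw [GG, Finset.mul_sum]
      refine Finset.sum_congr rfl fun l hl => ?_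
      have hl' : ∃ y l', l = y :: l' := by
        rw [WV, Finset.mem_map] at hl
        obtain ⟨p, -, rfl⟩ := hl
        exact ⟨_, _, rfl⟩
      obtain ⟨y, l', rfl⟩ := hl'
      by_cases h : cur m (y :: l') = t
      · simp only [h, and_true, if_true, Nx]
        have z : ∀ d : ZMod 3, ∑ c : ZMod 3, (if c ≠ d then (1 : ℤ) else 0) = 2 := by decide
        rw [mul_one, ← z y.1]
      · simp [h]
    rw [h1]
    ring

end Pool.Agent.H692.FL
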