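import Mathlib

/-!
# The operators `kop c x y z` on cyclic sequences and their products
-/

namespace Pool.Agent.H692.FL

variable {F : Type*} [Field F] {M : ℕ}

/-- the residue class modulo 3 of a position -/
def cl (i : ZMod (3 * M)) : ZMod 3 := ZMod.castHom (dvd_mul_right 3 M) (ZMod 3) i

theorem cl_add (i j : ZMod (3 * M)) : cl (i + j) = cl i + cl j := map_add _ _ _

theorem cl_nat (k : ℕ) : cl ((k : ℕ) : ZMod (3 * M)) = (k : ZMod 3) := map_natCast _ _

theorem cl_int (k : ℤ) : cl ((k : ℤ) : ZMod (3 * M)) = (k : ZMod 3) := map_intCast _ _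

theorem cl_one : cl (1 : ZMod (3 * M)) = 1 := map_one _

theorem cl_ofNat (k : ℕ) [k.AtLeastTwo] : cl (OfNat.ofNat k : ZMod (3 * M)) = OfNat.ofNat k :=
  map_ofNat _ _

theorem exists_cl (c : ZMod 3) : ∃ i : ZMod (3 * M), cl i = c :=
  ⟨((c.val : ℕ) : ZMod (3 * M)), by rw [cl_nat, ZMod.natCast_zmod_val]⟩

/-- the operator with parameters `x, y, z` on the classes `c, c + 1` -/
def kop (c : ZMod 3) (x y z : F) : (ZMod (3 * M) → F) →ₗ[F] (ZMod (3 * M) → F) where
  toFun v i := if cl i = c then v i + x * v (i + 1) + z * v (i + 2)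
    else if cl i = c + 1 then v i + y * v (i + 1) else v i
  map_add' v w := by
    funext i
    by_cases h : cl i = c
    · simp [h]; ring
    · by_cases h' : cl i = c + 1
      · simp [h']; ring
      · simp [h, h']
  map_smul' r v := by
    funext i
    by_cases h : cl i = c
    · simp [h]; ring
    · by_cases h' : cl i = c + 1
      · simp [h']; ring
      · simp [h, h']

theorem z01 : ∀ c : ZMod 3, c + 1 ≠ c := by decide
theorem z02 : ∀ c : ZMod 3, c + 2 ≠ c := by decide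
theorem z21 : ∀ c : ZMod 3, c + 2 ≠ c + 1 := by decide
theorem z12 : ∀ c : ZMod 3, c = c + 1 + 2 := by decide
theorem z12' : ∀ c : ZMod 3, c = c + 2 + 1 := by decide
theorem z22 : ∀ c : ZMod 3, c + 1 = c + 2 + 2 := by decide
theorem z11 : ∀ c : ZMod 3, c + 2 = c + 1 + 1 := by decide
theorem zadd3 : ∀ c : ZMod 3, c + 3 = c := by decide

theorem kop_at0 {c : ZMod 3} {i : ZMod (3 * M)} (h : cl i = c) (x y z : F) (v : ZMod (3 * M) → F) :
    kop c x y z v i = v i + x * v (i + 1) + z * v (i + 2) := by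
  change (if cl i = c then _ else _) = _
  rw [if_pos h]

theorem kop_at1 {c : ZMod 3} {i : ZMod (3 * M)} (h : cl i = c + 1) (x y z : F)
    (v : ZMod (3 * M) → F) : kop c x y z v i = v i + y * v (i + 1) := by
  change (if cl i = c then _ else _) = _
  rw [if_neg (by rw [h]; exact z01 c), if_pos h]

theorem kop_at2 {c : ZMod 3} {i : ZMod (3 * M)} (h : cl i = c + 2) (x y z : F)
    (v : ZMod (3 * M) → F) : kop c x y z v i = v i := by
  change (if cl i = c then _ else _) = _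
  rw [if_neg (by rw [h]; exact z02 c), if_neg (by rw [h]; exact z21 c)]

theorem cases3 (c d : ZMod 3) : d = c ∨ d = c + 1 ∨ d = c + 2 := by decide +revert

theorem kop_mul (c : ZMod 3) (x y z x' y' z' : F) (v : ZMod (3 * M) → F) :
    kop c x y z (kop c x' y' z' v) = kop c (x + x') (y + y') (z + z' + x * y') v := by
  funext i
  have e1 : i + 1 + 1 = i + 2 := by ring
  rcases cases3 c (cl i) with h | h | h
  · have h1 : cl (i + 1) = c + 1 := by rw [cl_add, h, cl_one]
    have h2 : cl (i + 2) = c + 2 := by rw [cl_add, h, cl_ofNat]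
    rw [kop_at0 h, kop_at0 h, kop_at0 h, kop_at1 h1, kop_at2 h2, e1]
    ring
  · have h1 : cl (i + 1) = c + 2 := by rw [cl_add, h, cl_one]; ring
    rw [kop_at1 h, kop_at1 h, kop_at1 h, kop_at2 h1]
    ring
  · rw [kop_at2 h, kop_at2 h, kop_at2 h]

theorem kop_zero (c : ZMod 3) (v : ZMod (3 * M) → F) : kop c 0 0 0 v = v := by
  funext i
  rcases cases3 c (cl i) with h | h | h
  · rw [kop_at0 h]; ring
  · rw [kop_at1 h]; ring
  · rw [kop_at2 h]

theorem kop_shift (c : ZMod 3) (x : F) (v : ZMod (3 * M) → F) :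
    kop (c + 1) x 0 0 v = kop c 0 x 0 v := by
  funext i
  rcases cases3 c (cl i) with h | h | h
  · have h' : cl i = c + 1 + 2 := by rw [h]; exact z12 c
    rw [kop_at0 h, kop_at2 h']; ring
  · rw [kop_at1 h, kop_at0 h]; ring
  · have h' : cl i = c + 1 + 1 := by rw [h]; ring
    rw [kop_at2 h, kop_at1 h']; ring

/-- commuting with the shift by 3 -/
theorem kop_comm (c : ZMod 3) (x y z : F) (v : ZMod (3 * M) → F) (i : ZMod (3 * M)) :
    kop c x y z (fun j => v (j + 3)) i = kop c x y z v (i + 3) := by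
  have e1 : i + 1 + 3 = i + 3 + 1 := by ring
  have e2 : i + 2 + 3 = i + 3 + 2 := by ring
  have h3 : cl (i + 3) = cl i := by
    rw [cl_add, cl_ofNat]
    exact zadd3 _
  rcases cases3 c (cl i) with h | h | h
  · rw [kop_at0 h, kop_at0 (h3.trans h), e1, e2]
  · rw [kop_at1 h, kop_at1 (h3.trans h), e1]
  · rw [kop_at2 h, kop_at2 (h3.trans h)]

/-- comparing coefficients -/
theorem coef {i : ZMod (3 * M)} (hM : 3 ≤ M) {a b : Fin 7 → F}
    (h : ∀ v : ZMod (3 * M) → F, ∑ l : Fin 7, a l * v (i + ((l : ℕ) : ZMod (3 * M))) =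
      ∑ l : Fin 7, b l * v (i + ((l : ℕ) : ZMod (3 * M)))) (l : Fin 7) : a l = b l := by
  classical
  have h1 := h fun j => if j = i + ((l : ℕ) : ZMod (3 * M)) then 1 else 0
  have key : ∀ c : Fin 7 → F, ∑ l' : Fin 7, c l' *
      (if i + ((l' : ℕ) : ZMod (3 * M)) = i + ((l : ℕ) : ZMod (3 * M)) then 1 else 0) = c l := by
    intro c
    rw [Finset.sum_eq_single l]
    · simp
    · intro l' _ hl
      rw [if_neg, mul_zero]
      intro he
      apply hl
      have he' := add_left_cancel he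
      rw [ZMod.natCast_eq_natCast_iff'] at he'
      rw [Nat.mod_eq_of_lt (by omega), Nat.mod_eq_of_lt (by omega)] at he'
      exact Fin.ext he'
    · simp
  rwa [key a, key b] at h1

theorem coef5 {i : ZMod (3 * M)} (hM : 3 ≤ M) {a1 a2 a3 a4 a5 b1 b2 b3 b4 b5 : F}
    (h : ∀ v : ZMod (3 * M) → F,
      v i + a1 * v (i + 1) + a2 * v (i + 2) + a3 * v (i + 3) + a4 * v (i + 4) + a5 * v (i + 5) =
      v i + b1 * v (i + 1) + b2 * v (i + 2) + b3 * v (i + 3) + b4 * v (i + 4) + b5 * v (i + 5)) :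
    a1 = b1 ∧ a2 = b2 ∧ a3 = b3 ∧ a4 = b4 := by
  have h' : ∀ v : ZMod (3 * M) → F,
      ∑ l : Fin 7, (![1, a1, a2, a3, a4, a5, 0] : Fin 7 → F) l * v (i + ((l : ℕ) : ZMod (3 * M))) =
      ∑ l : Fin 7, (![1, b1, b2, b3, b4, b5, 0] : Fin 7 → F) l *
        v (i + ((l : ℕ) : ZMod (3 * M))) := by
    intro v
    have := h v
    simpa [Fin.sum_univ_seven] using this
  have c1 := coef hM h' 1
  have c2 := coef hM h' 2
  have c3 := coef hM h' 3
  have c4 := coef hM h' 4
  simp at c1 c2 c3 c4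
  exact ⟨c1, c2, c3, c4⟩

section T

variable {c : ZMod 3}

theorem T2 (hM : 3 ≤ M) {x y z x' y' z' : F}
    (h : ∀ v : ZMod (3 * M) → F, kop c x y z v = kop (c + 2) x' y' z' v) : y = 0 ∧ z = 0 := by
  obtain ⟨i, hi⟩ := exists_cl (M := M) c
  have g1 : cl (i + 1) = c + 1 := by rw [cl_add, hi, cl_one]
  have r0 := coef5 (i := i) hM (a1 := x) (a2 := z) (a3 := 0) (a4 := 0) (a5 := 0) (b1 := y')
    (b2 := 0) (b3 := 0) (b4 := 0) (b5 := 0) (by
      intro v
      have h1 := congrFun (h v) i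
      rw [kop_at0 hi, kop_at1 (c := c + 2) (by rw [hi]; exact z12' c)] at h1
      linear_combination h1)
  have r1 := coef5 (i := i + 1) hM (a1 := y) (a2 := 0) (a3 := 0)
    (a4 := 0) (a5 := 0) (b1 := 0) (b2 := 0) (b3 := 0) (b4 := 0) (b5 := 0) (by
      intro v
      have h1 := congrFun (h v) (i + 1)
      rw [kop_at1 g1, kop_at2 (c := c + 2) (by rw [g1]; exact z22 c)] at h1
      linear_combination h1)
  exact ⟨r1.1, r0.2.1⟩

theorem T2' (hM : 3 ≤ M) {x y z x' y' z' : F}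
    (h : ∀ v : ZMod (3 * M) → F, kop c x y z v = kop (c + 1) x' y' z' v) : x = 0 ∧ z = 0 := by
  obtain ⟨i, hi⟩ := exists_cl (M := M) c
  have r0 := coef5 (i := i) hM (a1 := x) (a2 := z) (a3 := 0) (a4 := 0) (a5 := 0) (b1 := 0)
    (b2 := 0) (b3 := 0) (b4 := 0) (b5 := 0) (by
      intro v
      have h1 := congrFun (h v) i
      rw [kop_at0 hi, kop_at2 (c := c + 1) (by rw [hi]; exact z12 c)] at h1
      linear_combination h1)
  exact ⟨r0.1, r0.2.1⟩

theorem T3 (hM : 3 ≤ M) {x1 y1 z1 x2 y2 z2 x0 y0 z0 : F}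
    (h : ∀ v : ZMod (3 * M) → F, kop (c + 1) x1 y1 z1 (kop (c + 2) x2 y2 z2 v) =
      kop c x0 y0 z0 v) : y1 = -x2 ∧ z1 = x1 * y1 ∧ z2 = x2 * y2 ∧ x0 = y2 ∧ y0 = x1 ∧ z0 = 0 := by
  obtain ⟨i, hi⟩ := exists_cl (M := M) c
  have g1 : cl (i + 1) = c + 1 := by rw [cl_add, hi, cl_one]
  have g2 : cl (i + 2) = c + 2 := by rw [cl_add, hi, cl_ofNat]
  have g3 : cl (i + 3) = c := by rw [cl_add, hi, cl_ofNat, zadd3]
  have e11 : i + 1 + 1 = i + 2 := by ring
  have e12 : i + 1 + 2 = i + 3 := by ring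
  have e21 : i + 2 + 1 = i + 3 := by ring
  have e22 : i + 2 + 2 = i + 4 := by ring
  have e31 : i + 3 + 1 = i + 4 := by ring
  have e1 : ∀ k : ZMod (3 * M), i + 1 + k = i + (k + 1) := by intro k; ring
  have r0 := coef5 (i := i) hM (a1 := y2) (a2 := 0) (a3 := 0) (a4 := 0) (a5 := 0) (b1 := x0)
    (b2 := z0) (b3 := 0) (b4 := 0) (b5 := 0) (by
      intro v
      have h1 := congrFun (h v) i
      rw [kop_at0 hi, kop_at2 (c := c + 1) (by rw [hi]; exact z12 c),
        kop_at1 (c := c + 2) (by rw [hi]; exact z12' c)] at h1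
      linear_combination h1)
  have r1 := coef5 (i := i + 1) hM (a1 := x1) (a2 := x1 * x2 + z1) (a3 := x1 * z2 + z1 * y2)
    (a4 := 0) (a5 := 0) (b1 := y0) (b2 := 0) (b3 := 0) (b4 := 0) (b5 := 0) (by
      intro v
      have h1 := congrFun (h v) (i + 1)
      rw [kop_at1 g1, kop_at0 g1, kop_at2 (c := c + 2) (by rw [g1]; exact z22 c), e11, e12,
        kop_at0 g2, kop_at1 (c := c + 2) (i := i + 3) (by rw [g3]; exact z12' c), e21, e22,
        e31] at h1
      have f3 : i + 1 + 3 = i + 4 := by ring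
      rw [f3, e11, e12]
      linear_combination h1)
  have r2 := coef5 (i := i + 2) hM (a1 := x2 + y1) (a2 := z2 + y1 * y2) (a3 := 0)
    (a4 := 0) (a5 := 0) (b1 := 0) (b2 := 0) (b3 := 0) (b4 := 0) (b5 := 0) (by
      intro v
      have h1 := congrFun (h v) (i + 2)
      rw [kop_at2 g2, kop_at1 (c := c + 1) (by rw [g2]; exact z11 c), kop_at0 g2, e21, e22,
        kop_at1 (c := c + 2) (i := i + 3) (by rw [g3]; exact z12' c), e31] at h1
      rw [e21, e22]
      linear_combination h1)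
  obtain ⟨a01, a02, -, -⟩ := r0
  obtain ⟨a11, a12, -, -⟩ := r1
  obtain ⟨a21, a22, -, -⟩ := r2
  have hy : y1 = -x2 := by linear_combination a21
  refine ⟨hy, ?_, ?_, a01.symm, a11.symm, a02.symm⟩
  · rw [hy]; linear_combination a12
  · rw [hy] at a22; linear_combination a22

/-- A path of length four alternating between the classes `c + 1` and `c` is degenerate. -/
theorem T4a (hM : 3 ≤ M) {x1 y1 z1 x2 y2 z2 x3 y3 z3 x0 y0 z0 : F}
    (h : ∀ v : ZMod (3 * M) → F,
      kop (c + 1) x1 y1 z1 (kop c x2 y2 z2 (kop (c + 1) x3 y3 z3 v)) = kop c x0 y0 z0 v) :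
    (y1 = 0 ∧ z1 = 0) ∨ (x2 = 0 ∧ z2 = 0) := by
  obtain ⟨i, hi⟩ := exists_cl (M := M) c
  have g1 : cl (i + 1) = c + 1 := by rw [cl_add, hi, cl_one]
  have g2 : cl (i + 2) = c + 2 := by rw [cl_add, hi, cl_ofNat]
  have g3 : cl (i + 3) = c := by rw [cl_add, hi, cl_ofNat, zadd3]
  have g4 : cl (i + 4) = c + 1 := by
    rw [show i + 4 = i + 3 + 1 by ring, cl_add, g3, cl_one]
  have g5 : cl (i + 5) = c + 2 := by
    rw [show i + 5 = i + 3 + 2 by ring, cl_add, g3, cl_ofNat]
  have e11 : i + 1 + 1 = i + 2 := by ring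
  have e12 : i + 1 + 2 = i + 3 := by ring
  have e21 : i + 2 + 1 = i + 3 := by ring
  have e22 : i + 2 + 2 = i + 4 := by ring
  have e31 : i + 3 + 1 = i + 4 := by ring
  have e32 : i + 3 + 2 = i + 5 := by ring
  have e41 : i + 4 + 1 = i + 5 := by ring
  have e42 : i + 4 + 2 = i + 6 := by ring
  have e51 : i + 5 + 1 = i + 6 := by ring
  have r1 := coef5 (i := i + 1) hM (a1 := x3 + y2 + x1)
    (a2 := z3 + y2 * y3 + x1 * y3 + z1) (a3 := z1 * x2) (a4 := z1 * (x2 * x3 + z2))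
    (a5 := z1 * (x2 * z3 + z2 * y3)) (b1 := y0) (b2 := 0) (b3 := 0) (b4 := 0) (b5 := 0) (by
      intro v
      have h1 := congrFun (h v) (i + 1)
      rw [kop_at0 g1, e11, e12, kop_at1 g1, kop_at1 g1, e11, kop_at0 g1, e11, e12,
        kop_at1 (c := c + 1) (i := i + 2) (by rw [g2]; exact z11 c), e21,
        kop_at2 g2, kop_at1 (c := c + 1) (i := i + 2) (by rw [g2]; exact z11 c), e21,
        kop_at0 g3, e31, e32, kop_at2 (c := c + 1) (i := i + 3) (by rw [g3]; exact z12 c),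
        kop_at0 g4, e41, e42,
        kop_at1 (c := c + 1) (i := i + 5) (by rw [g5]; exact z11 c), e51] at h1
      have f3 : i + 1 + 3 = i + 4 := by ring
      have f4 : i + 1 + 4 = i + 5 := by ring
      have f5 : i + 1 + 5 = i + 6 := by ring
      rw [f3, f4, f5, e11, e12]
      linear_combination h1)
  have r2 := coef5 (i := i + 2) hM (a1 := y3 + y1) (a2 := y1 * x2)
    (a3 := y1 * (x2 * x3 + z2)) (a4 := y1 * (x2 * z3 + z2 * y3)) (a5 := 0)
    (b1 := 0) (b2 := 0) (b3 := 0) (b4 := 0) (b5 := 0) (by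
      intro v
      have h1 := congrFun (h v) (i + 2)
      rw [kop_at2 g2, kop_at1 (c := c + 1) (i := i + 2) (by rw [g2]; exact z11 c), e21,
        kop_at2 g2, kop_at1 (c := c + 1) (i := i + 2) (by rw [g2]; exact z11 c), e21,
        kop_at0 g3, e31, e32, kop_at2 (c := c + 1) (i := i + 3) (by rw [g3]; exact z12 c),
        kop_at0 g4, e41, e42,
        kop_at1 (c := c + 1) (i := i + 5) (by rw [g5]; exact z11 c), e51] at h1
      have f3 : i + 2 + 3 = i + 5 := by ring
      have f4 : i + 2 + 4 = i + 6 := by ring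
      rw [f3, f4, e21, e22]
      linear_combination h1)
  obtain ⟨-, a12, a13, a14⟩ := r1
  obtain ⟨a21, a22, a23, -⟩ := r2
  by_cases h2 : x2 = 0
  · subst h2
    by_cases h3 : z2 = 0
    · exact Or.inr ⟨rfl, h3⟩
    left
    constructor
    · have : y1 * z2 = 0 := by linear_combination a23
      exact (mul_eq_zero.1 this).resolve_right h3
    · have : z1 * z2 = 0 := by linear_combination a14
      exact (mul_eq_zero.1 this).resolve_right h3
  · exact Or.inl ⟨(mul_eq_zero.1 a22).resolve_right h2, (mul_eq_zero.1 a13).resolve_right h2⟩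

theorem T4b (hM : 3 ≤ M) {x1 y1 z1 x2 y2 z2 x3 y3 z3 x4 y4 z4 : F}
    (h : ∀ v : ZMod (3 * M) → F,
      kop (c + 2) x1 y1 z1 (kop c x2 y2 z2 v) = kop c x4 y4 z4 (kop (c + 1) x3 y3 z3 v)) :
    (x1 = 0 ∧ z1 = 0) ∨ (z1 = -(x1 * x2) ∧ z2 = x2 * y2 ∧ z4 = x4 * y4 ∧ x2 + y1 = x4) := by
  obtain ⟨i, hi⟩ := exists_cl (M := M) c
  have g1 : cl (i + 1) = c + 1 := by rw [cl_add, hi, cl_one]
  have g2 : cl (i + 2) = c + 2 := by rw [cl_add, hi, cl_ofNat]
  have g3 : cl (i + 3) = c := by rw [cl_add, hi, cl_ofNat, zadd3]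
  have g4 : cl (i + 4) = c + 1 := by
    rw [show i + 4 = i + 3 + 1 by ring, cl_add, g3, cl_one]
  have e11 : i + 1 + 1 = i + 2 := by ring
  have e12 : i + 1 + 2 = i + 3 := by ring
  have e21 : i + 2 + 1 = i + 3 := by ring
  have e22 : i + 2 + 2 = i + 4 := by ring
  have e31 : i + 3 + 1 = i + 4 := by ring
  have e32 : i + 3 + 2 = i + 5 := by ring
  have e41 : i + 4 + 1 = i + 5 := by ring
  have r0 := coef5 (i := i) hM (a1 := x2 + y1) (a2 := z2 + y1 * y2) (a3 := 0) (a4 := 0) (a5 := 0)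
    (b1 := x4) (b2 := x4 * x3 + z4) (b3 := x4 * z3 + z4 * y3) (b4 := 0) (b5 := 0) (by
      intro v
      have h1 := congrFun (h v) i
      rw [kop_at1 (c := c + 2) (i := i) (by rw [hi]; exact z12' c), kop_at0 hi, kop_at1 g1, e11,
        kop_at0 hi, kop_at2 (c := c + 1) (i := i) (by rw [hi]; exact z12 c), kop_at0 g1,
        e11, e12, kop_at1 (c := c + 1) (i := i + 2) (by rw [g2]; exact z11 c), e21] at h1
      linear_combination h1)
  have r1 := coef5 (i := i + 1) hM (a1 := y2) (a2 := 0) (a3 := 0) (a4 := 0) (a5 := 0)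
    (b1 := x3 + y4) (b2 := z3 + y4 * y3) (b3 := 0) (b4 := 0) (b5 := 0) (by
      intro v
      have h1 := congrFun (h v) (i + 1)
      rw [kop_at2 (c := c + 2) (i := i + 1) (by rw [g1]; exact z22 c), kop_at1 g1, e11,
        kop_at1 g1, e11, kop_at0 g1, e11, e12,
        kop_at1 (c := c + 1) (i := i + 2) (by rw [g2]; exact z11 c), e21] at h1
      rw [e11, e12]
      linear_combination h1)
  have r2 := coef5 (i := i + 2) hM (a1 := x1) (a2 := x1 * x2 + z1) (a3 := x1 * z2 + z1 * y2)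
    (a4 := 0) (a5 := 0)
    (b1 := y3) (b2 := 0) (b3 := 0) (b4 := 0) (b5 := 0) (by
      intro v
      have h1 := congrFun (h v) (i + 2)
      rw [kop_at0 (c := c + 2) (i := i + 2) g2, e21, e22, kop_at2 g2, kop_at0 g3, e31, e32,
        kop_at1 g4, e41, kop_at2 g2,
        kop_at1 (c := c + 1) (i := i + 2) (by rw [g2]; exact z11 c), e21] at h1
      have f3 : i + 2 + 3 = i + 5 := by ring
      rw [e21, e22, f3]
      linear_combination h1)
  obtain ⟨a01, a02, a03, -⟩ := r0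
  obtain ⟨a11, a12, -, -⟩ := r1
  obtain ⟨a21, a22, a23, -⟩ := r2
  have hz1 : z1 = -(x1 * x2) := by linear_combination a22
  by_cases h1 : x1 = 0
  · left
    exact ⟨h1, by rw [hz1, h1]; ring⟩
  right
  refine ⟨hz1, ?_, ?_, a01⟩
  · have : x1 * (z2 - x2 * y2) = 0 := by rw [hz1] at a23; linear_combination a23
    exact sub_eq_zero.1 ((mul_eq_zero.1 this).resolve_left h1)
  · have : x1 * (z4 - x4 * y4) = 0 := by
      have hz3 : z3 = -(y4 * y3) := by linear_combination -a12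
      rw [hz3, ← a21] at a03
      linear_combination -a03
    exact sub_eq_zero.1 ((mul_eq_zero.1 this).resolve_left h1)

theorem T5 (hM : 3 ≤ M) {x5 y5 z5 x1 y1 z1 x2 y2 z2 x4 y4 z4 x3 y3 z3 : F}
    (h : ∀ v : ZMod (3 * M) → F,
      kop c x5 y5 z5 (kop (c + 1) x1 y1 z1 (kop (c + 2) x2 y2 z2 v)) =
      kop (c + 1) x4 y4 z4 (kop c x3 y3 z3 v)) :
    (x5 = 0 ∧ z5 = 0) ∨ (y4 = 0 ∧ z4 = 0) ∨ z1 = x1 * y1 := by
  obtain ⟨i, hi⟩ := exists_cl (M := M) c
  have g1 : cl (i + 1) = c + 1 := by rw [cl_add, hi, cl_one]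
  have g2 : cl (i + 2) = c + 2 := by rw [cl_add, hi, cl_ofNat]
  have g3 : cl (i + 3) = c := by rw [cl_add, hi, cl_ofNat, zadd3]
  have e11 : i + 1 + 1 = i + 2 := by ring
  have e12 : i + 1 + 2 = i + 3 := by ring
  have e21 : i + 2 + 1 = i + 3 := by ring
  have e22 : i + 2 + 2 = i + 4 := by ring
  have e31 : i + 3 + 1 = i + 4 := by ring
  have e32 : i + 3 + 2 = i + 5 := by ring
  have r0 := coef5 (i := i) hM (a1 := y2 + x5) (a2 := x5 * x1 + z5)
    (a3 := x5 * (x1 * x2 + z1) + z5 * (x2 + y1))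
    (a4 := x5 * (x1 * z2 + z1 * y2) + z5 * (z2 + y1 * y2)) (a5 := 0)
    (b1 := x3) (b2 := z3) (b3 := 0) (b4 := 0) (b5 := 0) (by
      intro v
      have h1 := congrFun (h v) i
      rw [kop_at0 hi, kop_at2 (c := c + 1) (i := i) (by rw [hi]; exact z12 c),
        kop_at1 (c := c + 2) (i := i) (by rw [hi]; exact z12' c), kop_at0 g1, e11, e12,
        kop_at2 (c := c + 2) (i := i + 1) (by rw [g1]; exact z22 c), kop_at0 g2, e21, e22,
        kop_at1 (c := c + 2) (i := i + 3) (by rw [g3]; exact z12' c), e31,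
        kop_at1 (c := c + 1) (i := i + 2) (by rw [g2]; exact z11 c), e21, kop_at0 g2, e21, e22,
        kop_at1 (c := c + 2) (i := i + 3) (by rw [g3]; exact z12' c), e31,
        kop_at2 (c := c + 1) (i := i) (by rw [hi]; exact z12 c), kop_at0 hi] at h1
      linear_combination h1)
  have r1 := coef5 (i := i + 1) hM (a1 := x1 + y5) (a2 := x1 * x2 + z1 + y5 * (x2 + y1))
    (a3 := x1 * z2 + z1 * y2 + y5 * (z2 + y1 * y2)) (a4 := 0) (a5 := 0)
    (b1 := y3 + x4) (b2 := z4) (b3 := z4 * x3) (b4 := z4 * z3) (b5 := 0) (by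
      intro v
      have h1 := congrFun (h v) (i + 1)
      rw [kop_at1 g1, e11, kop_at0 g1, e11, e12,
        kop_at2 (c := c + 2) (i := i + 1) (by rw [g1]; exact z22 c), kop_at0 g2, e21, e22,
        kop_at1 (c := c + 2) (i := i + 3) (by rw [g3]; exact z12' c), e31,
        kop_at1 (c := c + 1) (i := i + 2) (by rw [g2]; exact z11 c), e21, kop_at0 g2, e21, e22,
        kop_at1 (c := c + 2) (i := i + 3) (by rw [g3]; exact z12' c), e31,
        kop_at0 g1, e11, e12, kop_at1 g1, e11, kop_at2 g2, kop_at0 g3, e31, e32] at h1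
      have f3 : i + 1 + 3 = i + 4 := by ring
      have f4 : i + 1 + 4 = i + 5 := by ring
      rw [f3, f4, e11, e12]
      linear_combination h1)
  have r2 := coef5 (i := i + 2) hM (a1 := x2 + y1) (a2 := z2 + y1 * y2) (a3 := 0) (a4 := 0)
    (a5 := 0) (b1 := y4) (b2 := y4 * x3) (b3 := y4 * z3) (b4 := 0) (b5 := 0) (by
      intro v
      have h1 := congrFun (h v) (i + 2)
      rw [kop_at2 g2, kop_at1 (c := c + 1) (i := i + 2) (by rw [g2]; exact z11 c), e21,
        kop_at0 g2, e21, e22, kop_at1 (c := c + 2) (i := i + 3) (by rw [g3]; exact z12' c), e31,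
        kop_at1 (c := c + 1) (i := i + 2) (by rw [g2]; exact z11 c), e21, kop_at2 g2, kop_at0 g3,
        e31, e32] at h1
      have f3 : i + 2 + 3 = i + 5 := by ring
      rw [e21, e22, f3]
      linear_combination h1)
  obtain ⟨-, a02, a03, -⟩ := r0
  obtain ⟨-, a12, -, a14⟩ := r1
  obtain ⟨a21, -, a23, -⟩ := r2
  by_cases hx : x5 = 0
  · by_cases hz : z5 = 0
    · exact Or.inl ⟨hx, hz⟩
    right
    left
    have hz3 : z3 ≠ 0 := by
      rw [← a02, hx, zero_mul, zero_add]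
      exact hz
    exact ⟨(mul_eq_zero.1 a23.symm).resolve_right hz3, (mul_eq_zero.1 a14.symm).resolve_right hz3⟩
  · right
    by_cases hz3 : z3 = 0
    · have hz5 : z5 = -(x5 * x1) := by linear_combination a02 + hz3
      have h5 : x5 * (z1 - x1 * y1) = 0 := by
        rw [hz5] at a03
        linear_combination a03
      right
      exact sub_eq_zero.1 ((mul_eq_zero.1 h5).resolve_left hx)
    · left
      exact ⟨(mul_eq_zero.1 a23.symm).resolve_right hz3,
        (mul_eq_zero.1 a14.symm).resolve_right hz3⟩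

end T

end Pool.Agent.H692.FL
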