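import Pool.Agent.H692.FL.Grp
import Pool.Agent.H692.FL.GD

/-!
# The group: linear maps commuting with the shift by three, with the three characters adjoined
-/

namespace Pool.Agent.H692.FL

variable {F : Type} [Field F] {M : ℕ}

/-- the linear automorphisms commuting with the shift by 3 -/
def G1 (F : Type) [Field F] (M : ℕ) :
    Subgroup ((ZMod (3 * M) → F) ≃ₗ[F] (ZMod (3 * M) → F)) where
  carrier := {g | ∀ v i, g (fun j => v (j + 3)) i = g v (i + 3)}
  mul_mem' := by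
    intro a b ha hb v i
    have h1 : b (fun j => v (j + 3)) = fun j => b v (j + 3) := by
      funext j
      exact hb v j
    change a (b (fun j => v (j + 3))) i = a (b v) (i + 3)
    rw [h1, ha]
  one_mem' := by
    intro v i
    rfl
  inv_mem' := by
    intro a ha v i
    have h1 : a (fun j => a⁻¹ v (j + 3)) = fun j => v (j + 3) := by
      funext j
      rw [ha]
      exact congrFun (a.apply_symm_apply v) (j + 3)
    have h2 : a⁻¹ (fun j => v (j + 3)) = fun j => a⁻¹ v (j + 3) := by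
      rw [← h1]
      exact a.symm_apply_apply _
    rw [h2]

/-- the group -/
abbrev Gt (F : Type) [Field F] (M : ℕ) (C : Type) [Group C] : Type :=
  (G1 F M × Multiplicative (ZMod 3 → F)) × C

/-- the invertible linear map -/
def kg (c : ZMod 3) (x y z : F) : (ZMod (3 * M) → F) ≃ₗ[F] (ZMod (3 * M) → F) :=
  LinearEquiv.ofLinearMap (kop c x y z) (kop c (-x) (-y) (x * y - z))
    (by
      ext1 v
      funext w
      simp only [LinearMap.comp_apply, LinearMap.id_apply, kop_mul]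
      rw [show x + -x = 0 by ring, show y + -y = 0 by ring, show z + (x * y - z) + x * -y = 0 by ring,
        kop_zero])
    (by
      ext1 v
      funext w
      simp only [LinearMap.comp_apply, LinearMap.id_apply, kop_mul]
      rw [show -x + x = 0 by ring, show -y + y = 0 by ring, show x * y - z + z + -x * y = 0 by ring,
        kop_zero])

theorem kg_apply (c : ZMod 3) (x y z : F) (v : ZMod (3 * M) → F) : kg c x y z v = kop c x y z v :=
  rfl

theorem kg_mem (c : ZMod 3) (x y z : F) : kg c x y z ∈ G1 F M := by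
  intro v i
  exact kop_comm c x y z v i

variable {C : Type} [Group C]

/-- the characters of an elementary product -/
def chi (c : ZMod 3) (x y : F) : ZMod 3 → F := Pi.single c x + Pi.single (c + 1) y

/-- the elements of the large subgroups -/
def kel (c : ZMod 3) (x y z : F) : Gt F M C :=
  ((⟨kg c x y z, kg_mem c x y z⟩, Multiplicative.ofAdd (chi c x y)), 1)

theorem kel_mul (c : ZMod 3) (x y z x' y' z' : F) :
    (kel c x y z * kel c x' y' z' : Gt F M C) = kel c (x + x') (y + y') (z + z' + x * y') := by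
  refine Prod.ext (Prod.ext (Subtype.ext ?_) ?_) ?_
  · refine LinearEquiv.ext fun v => ?_
    exact kop_mul c x y z x' y' z' v
  · change Multiplicative.ofAdd (chi c x y) * Multiplicative.ofAdd (chi c x' y') =
      Multiplicative.ofAdd (chi c (x + x') (y + y'))
    rw [← ofAdd_add]
    congr 1
    simp only [chi, Pi.single_add]
    abel
  · change (1 : C) * 1 = 1
    exact mul_one 1

theorem kel_zero (c : ZMod 3) : (kel c 0 0 0 : Gt F M C) = 1 := by
  refine Prod.ext (Prod.ext (Subtype.ext ?_) ?_) ?_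
  · refine LinearEquiv.ext fun v => ?_
    exact kop_zero c v
  · change Multiplicative.ofAdd (chi c 0 0) = 1
    simp [chi]
  · rfl

theorem kel_inv (c : ZMod 3) (x y z : F) :
    (kel c x y z : Gt F M C)⁻¹ = kel c (-x) (-y) (x * y - z) := by
  rw [inv_eq_iff_mul_eq_one, kel_mul]
  rw [show x + -x = 0 by ring, show y + -y = 0 by ring, show z + (x * y - z) + x * -y = 0 by ring,
    kel_zero]

theorem kel_shift (c : ZMod 3) (x : F) : (kel (c + 1) x 0 0 : Gt F M C) = kel c 0 x 0 := by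
  refine Prod.ext (Prod.ext (Subtype.ext ?_) ?_) ?_
  · refine LinearEquiv.ext fun v => ?_
    exact kop_shift c x v
  · change Multiplicative.ofAdd (chi (c + 1) x 0) = Multiplicative.ofAdd (chi c 0 x)
    simp [chi]
  · rfl

theorem kel_shift' (c : ZMod 3) (x : F) : (kel c x 0 0 : Gt F M C) = kel (c + 2) 0 x 0 := by
  rw [← kel_shift, ← zz]
where
  zz : c = c + 2 + 1 := z12' c

/-- the large subgroups -/
def KK (F : Type) [Field F] (M : ℕ) (C : Type) [Group C] (c : ZMod 3) : Subgroup (Gt F M C) where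
  carrier := {g | ∃ x y z, g = kel c x y z}
  mul_mem' := by
    rintro _ _ ⟨x, y, z, rfl⟩ ⟨x', y', z', rfl⟩
    exact ⟨_, _, _, kel_mul c x y z x' y' z'⟩
  one_mem' := ⟨0, 0, 0, (kel_zero c).symm⟩
  inv_mem' := by
    rintro _ ⟨x, y, z, rfl⟩
    exact ⟨_, _, _, kel_inv c x y z⟩

/-- the small subgroups -/
def EE (F : Type) [Field F] (M : ℕ) (C : Type) [Group C] (c : ZMod 3) : Subgroup (Gt F M C) where
  carrier := {g | ∃ x, g = kel c x 0 0}
  mul_mem' := by
    rintro _ _ ⟨x, rfl⟩ ⟨x', rfl⟩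
    refine ⟨x + x', ?_⟩
    rw [kel_mul]
    simp
  one_mem' := ⟨0, (kel_zero c).symm⟩
  inv_mem' := by
    rintro _ ⟨x, rfl⟩
    refine ⟨-x, ?_⟩
    rw [kel_inv]
    simp

theorem kel_inj {c c' : ZMod 3} {x y z x' y' z' : F}
    (h : (kel c x y z : Gt F M C) = kel c' x' y' z') (v : ZMod (3 * M) → F) :
    kop c x y z v = kop c' x' y' z' v := by
  have h1 := congrArg (fun g : Gt F M C => g.1.1.1 v) h
  exact h1

theorem kel_mul_apply (g h : Gt F M C) (v : ZMod (3 * M) → F) :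
    (g * h).1.1.1 v = g.1.1.1 (h.1.1.1 v) := rfl

theorem kel_split (c : ZMod 3) (x y : F) :
    (kel c x y (x * y) : Gt F M C) = kel c x 0 0 * kel (c + 1) y 0 0 := by
  rw [kel_shift, kel_mul]
  simp

/-- the coset data -/
def gd (hM : 3 ≤ M) : GD (Gt F M C) where
  K := KK F M C
  E := EE F M C
  le := by
    rintro c _ ⟨x, rfl⟩
    exact ⟨x, 0, 0, rfl⟩
  le' := by
    rintro c _ ⟨x, rfl⟩
    exact ⟨0, x, 0, kel_shift' c x⟩
  inf := by
    rintro c _ ⟨x, y, z, rfl⟩ ⟨x', y', z', h⟩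
    obtain ⟨rfl, rfl⟩ := T2 (c := c) hM (kel_inj h)
    exact ⟨x, rfl⟩
  t3 := by
    rintro _ _ ⟨x1, y1, z1, rfl⟩ ⟨x2, y2, z2, rfl⟩ ⟨x0, y0, z0, h⟩
    obtain ⟨h1, h2, h3, -⟩ := T3 (c := 0) hM (x1 := x1) (y1 := y1) (z1 := z1) (x2 := x2) (y2 := y2)
      (z2 := z2) (x0 := x0) (y0 := y0) (z0 := z0) (by
        intro v
        have h1 := congrArg (fun g : Gt F M C => g.1.1.1 v) h
        rw [show (0 : ZMod 3) + 1 = 1 by decide, show (0 : ZMod 3) + 2 = 2 by decide]
        exact h1)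
    refine ⟨kel 1 x1 0 0, ⟨_, rfl⟩, kel 2 x2 0 0, ⟨_, rfl⟩, kel 0 y2 0 0, ⟨_, rfl⟩, ?_, ?_⟩
    · rw [kel_inv, h2, h1]
      have := kel_split (M := M) (C := C) 1 x1 (-x2)
      rw [this]
      simp
      rfl
    · rw [h3, kel_split]
      rfl
  t4a := by
    rintro c _ _ _ ⟨x1, y1, z1, rfl⟩ ⟨x2, y2, z2, rfl⟩ ⟨x3, y3, z3, rfl⟩ ⟨x0, y0, z0, h⟩
    rcases T4a (c := c) hM (x1 := x1) (y1 := y1) (z1 := z1) (x2 := x2) (y2 := y2)
      (z2 := z2) (x3 := x3) (y3 := y3) (z3 := z3) (x0 := x0) (y0 := y0) (z0 := z0) (by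
        intro v
        have h1 := congrArg (fun g : Gt F M C => g.1.1.1 v) h
        exact h1) with ⟨rfl, rfl⟩ | ⟨rfl, rfl⟩
    · exact Or.inl ⟨x1, rfl⟩
    · exact Or.inr ⟨y2, (kel_shift c y2).symm⟩
  t4b := by
    rintro c _ _ _ _ ⟨x1, y1, z1, rfl⟩ ⟨x2, y2, z2, rfl⟩ ⟨x3, y3, z3, rfl⟩ ⟨x4, y4, z4, rfl⟩ h
    rcases T4b (c := c) hM (x1 := x1) (y1 := y1) (z1 := z1) (x2 := x2) (y2 := y2)
      (z2 := z2) (x3 := x3) (y3 := y3) (z3 := z3) (x4 := x4) (y4 := y4) (z4 := z4) (by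
        intro v
        have h1 := congrArg (fun g : Gt F M C => g.1.1.1 v) h
        exact h1) with ⟨rfl, rfl⟩ | ⟨h1, h2, h3, h4⟩
    · left
      exact ⟨y1, (kel_shift' c y1).symm⟩
    · right
      refine ⟨kel c x2 0 0, ⟨_, rfl⟩, kel (c + 1) y2 0 0, ⟨_, rfl⟩, kel c x4 0 0, ⟨_, rfl⟩,
        kel (c + 1) y4 0 0, ⟨_, rfl⟩, kel (c + 2) x1 0 0, ⟨_, rfl⟩, ?_, ?_, ?_⟩
      · rw [h2, kel_split]
      · rw [h3, kel_split]
      · rw [kel_shift' c x2, kel_shift' c x4, kel_mul, kel_mul, ← h4, h1]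
        congr 1 <;> ring
  t5 := by
    rintro c _ _ _ _ _ ⟨x5, y5, z5, rfl⟩ ⟨x1, y1, z1, rfl⟩ ⟨x2, y2, z2, rfl⟩ ⟨x4, y4, z4, rfl⟩
      ⟨x3, y3, z3, rfl⟩ h n5 n4
    rcases T5 (c := c) hM (x5 := x5) (y5 := y5) (z5 := z5) (x1 := x1) (y1 := y1) (z1 := z1)
      (x2 := x2) (y2 := y2) (z2 := z2) (x4 := x4) (y4 := y4) (z4 := z4) (x3 := x3) (y3 := y3)
      (z3 := z3) (by
        intro v
        have h1 := congrArg (fun g : Gt F M C => g.1.1.1 v) h
        exact h1) with ⟨rfl, rfl⟩ | ⟨rfl, rfl⟩ | h1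
    · exact absurd ⟨y5, 0, 0, (kel_shift c y5).symm⟩ n5
    · refine absurd ⟨0, x4, 0, ?_⟩ n4
      exact kel_shift c x4
    · refine ⟨kel (c + 1) x1 0 0, ⟨_, rfl⟩, kel (c + 2) y1 0 0, ⟨_, rfl⟩, ?_⟩
      rw [h1, kel_split]
      congr 2
      ring

end Pool.Agent.H692.FL
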