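import Mathlib

/-!
# Linear decision trees
-/

namespace Pool.Agent.H692.FL

/-- A linear decision tree on inputs `x : ι → ℝ`.  An inner node computes the affine form
`∑ i, a i * x i + b` and branches according to its sign (negative, zero, positive); a leaf gives
the answer. -/
inductive Tree (ι : Type) : Type where
  | leaf : Bool → Tree ι
  | node : (ι → ℝ) → ℝ → (SignType → Tree ι) → Tree ι

open Classical in
/-- The admissible coefficient vectors: at most four coefficients are different from zero, or at
most five, and then all coefficients are integers of absolute value at most `H`. -/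
def Adm {ι : Type*} [Fintype ι] (H : ℝ) (a : ι → ℝ) : Prop :=
  (Finset.univ.filter fun i => a i ≠ 0).card ≤ 4 ∨
    ((Finset.univ.filter fun i => a i ≠ 0).card ≤ 5 ∧ ∀ i, ∃ z : ℤ, a i = z ∧ |(z : ℝ)| ≤ H)

namespace Tree

variable {ι : Type} [Fintype ι]

/-- the answer of the tree on the input `x` -/
noncomputable def run : Tree ι → (ι → ℝ) → Bool
  | leaf b, _ => b
  | node a b t, x => (t (SignType.sign (∑ i, a i * x i + b))).run x

/-- the number of queries made on the input `x` -/
noncomputable def cost : Tree ι → (ι → ℝ) → ℕ
  | leaf _, _ => 0
  | node a b t, x => (t (SignType.sign (∑ i, a i * x i + b))).cost x + 1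

/-- The coefficient vectors of all the queries are admissible: every query has at most four
non-zero coefficients, or at most five, and then they are integers of absolute value at
most `H`. -/
def FiveTerm (H : ℝ) : Tree ι → Prop
  | leaf _ => True
  | node a _ t => Adm H a ∧ ∀ σ, (t σ).FiveTerm H

end Tree

/-- The set `{x i}` contains three pairwise distinct elements, two of which sum to the third. -/
def Sol {n : ℕ} (x : Fin n → ℤ) : Prop :=
  ∃ i j k : Fin n, x i ≠ x j ∧ x i ≠ x k ∧ x j ≠ x k ∧ x i + x j = x k

end Pool.Agent.H692.FL
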