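import Pool.Agent.H692.FL.Count

/-!
# Existence of a good set of points
-/

namespace Pool.Agent.H692.FL

open Finset

variable {F : Type} [Field F] [Fintype F] {M : ℕ} [NeZero M] {C : Type} [Group C] [Finite C]
  (hM : 3 ≤ M)

variable [Fintype (Gt F M C)] [Fintype (gd (F := F) (M := M) (C := C) hM).Pt]
  [Fintype (gd (F := F) (M := M) (C := C) hM).Ed]

theorem ind_eq_one {P : Type*} {K : ℕ} [NeZero K] {S : Finset P} {χ : P → Fin K}
    (h : ∀ p ∈ S, χ p = 0) : ind S χ = 1 := by
  unfold ind
  rw [if_pos h]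

theorem ind_eq_zero {P : Type*} {K : ℕ} [NeZero K] {S : Finset P} {χ : P → Fin K}
    (h : ¬ ∀ p ∈ S, χ p = 0) : ind S χ = 0 := by
  unfold ind
  rw [if_neg h]

theorem mem_Pts_nil (g : Gt F M C) (S : Set (gd (F := F) (M := M) (C := C) hM).Pt) :
    (∀ p ∈ Pts hM g [], p ∈ S) ↔ g ∈ TS hM S := by
  classical
  constructor
  · intro h c
    apply h
    rw [Pts, Finset.mem_image]
    exact ⟨c, Finset.mem_univ _, rfl⟩
  · intro h p hp
    rw [Pts, Finset.mem_image] at hp
    obtain ⟨c, -, rfl⟩ := hp
    exact h c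

open Classical in
theorem exists_chi (K D L : ℕ) [NeZero K]
    (hL : ∑ i ∈ range L, (3 * (Fintype.card F : ℝ) / K) ^ i * (9 * (i + 3)) / K ≤ 1 / 4)
    (hH : 3 * (Fintype.card (Gt F M C) : ℝ) * (Fintype.card F).choose D * K ≤ 1 / 4 * (K : ℝ) ^ D) :
    ∃ χ : (gd (F := F) (M := M) (C := C) hM).Pt → Fin K,
      a2 hM L χ + Fintype.card (Gt F M C) * a3 hM D χ +
        (Fintype.card F : ℝ) / (12 * K) * a4 hM χ < a1 hM χ := by
  by_contra hcon
  push Not at hcon
  have hK : (0 : ℝ) < (K : ℝ) := by exact_mod_cast Nat.pos_of_ne_zero (NeZero.ne K)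
  have hG : (0 : ℝ) < (Fintype.card (Gt F M C) : ℝ) := by
    exact_mod_cast Fintype.card_pos
  have hF : (0 : ℝ) < (Fintype.card F : ℝ) := by exact_mod_cast Fintype.card_pos
  obtain ⟨N, hN⟩ : ∃ N : ℝ, N = (K : ℝ) ^ Fintype.card (gd (F := F) (M := M) (C := C) hM).Pt :=
    ⟨_, rfl⟩
  have hNpos : 0 < N := by rw [hN]; exact pow_pos hK _
  have hsum : ∑ χ, a1 (K := K) (F := F) (M := M) (C := C) hM χ ≤
      ∑ χ, (a2 (K := K) (F := F) (M := M) (C := C) hM L χ + Fintype.card (Gt F M C) *
        a3 hM D χ + (Fintype.card F : ℝ) / (12 * K) * a4 hM χ) :=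
    Finset.sum_le_sum fun χ _ => hcon χ
  rw [Finset.sum_add_distrib, Finset.sum_add_distrib, ← Finset.mul_sum, ← Finset.mul_sum,
    sum_a1, sum_a3, sum_a4, ← hN] at hsum
  have h2 := sum_a2 (F := F) (C := C) hM L K
  rw [← hN] at h2
  obtain ⟨μ, hμ⟩ : ∃ μ : ℝ, μ = (Fintype.card (Gt F M C) : ℝ) * (N / (K : ℝ) ^ 3) := ⟨_, rfl⟩
  have hμpos : 0 < μ := by rw [hμ]; positivity
  -- the second term
  have b2 : ∑ χ, a2 (K := K) (F := F) (M := M) (C := C) hM L χ ≤ μ * (1 / 4) := by
    refine h2.trans ?_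
    rw [← hμ]
    exact mul_le_mul_of_nonneg_left hL hμpos.le
  -- the third term
  have b3 : (Fintype.card (Gt F M C) : ℝ) * ((Fintype.card (Gt F M C) : ℝ) *
      (3 * ((Fintype.card F).choose D * (N / (K : ℝ) ^ (D + 2))))) ≤ μ * (1 / 4) := by
    have e1 : (Fintype.card (Gt F M C) : ℝ) * ((Fintype.card (Gt F M C) : ℝ) *
        (3 * ((Fintype.card F).choose D * (N / (K : ℝ) ^ (D + 2))))) =
        μ * ((3 * (Fintype.card (Gt F M C) : ℝ) * (Fintype.card F).choose D * K) / (K : ℝ) ^ D) := by
      rw [hμ]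
      have : (K : ℝ) ^ (D + 2) = (K : ℝ) ^ D * (K : ℝ) ^ 2 := by ring
      rw [this]
      field_simp
    rw [e1]
    refine mul_le_mul_of_nonneg_left ?_ hμpos.le
    rw [div_le_iff₀ (pow_pos hK _)]
    exact hH
  -- the fourth term
  have b4 : (Fintype.card F : ℝ) / (12 * K) *
      ((Fintype.card (gd (F := F) (M := M) (C := C) hM).Ed : ℝ) * (N / (K : ℝ) ^ 2)) ≤
      μ * (1 / 4) := by
    have h4 : (Fintype.card F : ℝ) *
        (Fintype.card (gd (F := F) (M := M) (C := C) hM).Ed : ℝ) ≤
        3 * Fintype.card (Gt F M C) := by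
      have := card_Ed (F := F) (M := M) (C := C) hM
      rw [Nat.card_eq_fintype_card, Nat.card_eq_fintype_card] at this
      exact_mod_cast this
    have e1 : (Fintype.card F : ℝ) / (12 * K) *
      ((Fintype.card (gd (F := F) (M := M) (C := C) hM).Ed : ℝ) * (N / (K : ℝ) ^ 2)) =
      ((Fintype.card F : ℝ) * (Fintype.card (gd (F := F) (M := M) (C := C) hM).Ed : ℝ)) *
      (N / (12 * (K : ℝ) ^ 3)) := by
      field_simp
    rw [e1, hμ]
    refine (mul_le_mul_of_nonneg_right h4 (by positivity)).trans (le_of_eq ?_)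
    field_simp
    norm_num
  rw [← hμ] at hsum
  linarith

open Classical in
theorem sparse (K D L : ℕ) [NeZero K]
    (hL : ∑ i ∈ range L, (3 * (Fintype.card F : ℝ) / K) ^ i * (9 * (i + 3)) / K ≤ 1 / 4)
    (hH : 3 * (Fintype.card (Gt F M C) : ℝ) * (Fintype.card F).choose D * K ≤ 1 / 4 * (K : ℝ) ^ D) :
    ∃ S : Set (gd (F := F) (M := M) (C := C) hM).Pt,
      (∀ g ∈ TS hM S, ∀ c, (univ.filter fun a : F => g * kel c a 0 0 ∈ TS hM S).card ≤ D) ∧
      (Fintype.card F : ℝ) / (12 * K) * ((univ.filter fun e : (gd (F := F) (M := M) (C := C) hM).Ed =>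
        (gd hM).hd e ∈ S ∧ (gd hM).tl e ∈ S).card : ℝ) <
      ((univ.filter fun g : Gt F M C => g ∈ TS hM S ∧ ¬ Closed (TS hM S) g (L + 1)).card : ℝ) := by
  obtain ⟨χ, hχ⟩ := exists_chi (C := C) hM K D L hL hH
  refine ⟨{p | χ p = 0}, ?_, ?_⟩
  · -- no heavy line
    intro g hg c
    by_contra hcon
    push Not at hcon
    obtain ⟨A, hA, hAc⟩ := Finset.exists_subset_card_eq hcon.le
    have h3 : 1 ≤ a3 hM D χ := by
      have h4 : ind (HP hM g c A) χ = 1 := by
        apply ind_eq_one
        intro p hp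
        rw [HP, Finset.mem_insert, Finset.mem_insert, Finset.mem_image] at hp
        rcases hp with rfl | rfl | ⟨a, ha, rfl⟩
        · exact hg c
        · exact hg (c + 2)
        · have := hA ha
          rw [Finset.mem_filter] at this
          exact this.2 (c + 1)
      rw [← h4]
      unfold a3
      refine le_trans ?_ (Finset.single_le_sum (f := fun g : Gt F M C => ∑ c : ZMod 3,
        ∑ A ∈ powersetCard D (univ : Finset F), ind (HP hM g c A) χ)
        (fun g _ => Finset.sum_nonneg fun c _ => Finset.sum_nonneg fun A _ => ind_nonneg _ _)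
        (Finset.mem_univ g))
      refine le_trans ?_ (Finset.single_le_sum (f := fun c : ZMod 3 =>
        ∑ A ∈ powersetCard D (univ : Finset F), ind (HP hM g c A) χ)
        (fun c _ => Finset.sum_nonneg fun A _ => ind_nonneg _ _) (Finset.mem_univ c))
      exact Finset.single_le_sum (f := fun A => ind (HP hM g c A) χ)
        (fun A _ => ind_nonneg _ _) (Finset.mem_powersetCard.2 ⟨Finset.subset_univ _, hAc⟩)
    have h1 : a1 hM χ ≤ Fintype.card (Gt F M C) := by
      unfold a1
      refine (Finset.sum_le_sum fun g _ => ind_le _ _).trans ?_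
      rw [Finset.sum_const, Finset.card_univ, nsmul_eq_mul, mul_one]
    have h2 : 0 ≤ a2 hM L χ := by
      unfold a2
      refine Finset.sum_nonneg fun i _ => Finset.sum_nonneg fun g _ => Finset.sum_nonneg fun l _ =>
        Finset.sum_nonneg fun p _ => ?_
      split_ifs
      · exact ind_nonneg _ _
      · exact le_rfl
    have h4 : 0 ≤ (Fintype.card F : ℝ) / (12 * K) * a4 hM χ := by
      refine mul_nonneg (by positivity) ?_
      unfold a4
      exact Finset.sum_nonneg fun e _ => ind_nonneg _ _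
    have h5 : (Fintype.card (Gt F M C) : ℝ) * 1 ≤ Fintype.card (Gt F M C) * a3 hM D χ :=
      mul_le_mul_of_nonneg_left h3 (by positivity)
    linarith
  · -- the number of good triangles
    have h3 : 0 ≤ (Fintype.card (Gt F M C) : ℝ) * a3 hM D χ := by
      refine mul_nonneg (by positivity) ?_
      unfold a3
      exact Finset.sum_nonneg fun g _ => Finset.sum_nonneg fun c _ => Finset.sum_nonneg fun A _ =>
        ind_nonneg _ _
    have h4 : a4 hM χ = ((univ.filter fun e : (gd (F := F) (M := M) (C := C) hM).Ed =>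
        (gd hM).hd e ∈ {p | χ p = 0} ∧ (gd hM).tl e ∈ {p | χ p = 0}).card : ℝ) := by
      unfold a4
      rw [Finset.card_filter]
      push_cast
      refine Finset.sum_congr rfl fun e _ => ?_
      unfold ind
      congr 1
      simp
    have h1 : a1 hM χ - a2 hM L χ ≤ ((univ.filter fun g : Gt F M C =>
        g ∈ TS hM {p | χ p = 0} ∧ ¬ Closed (TS hM {p | χ p = 0}) g (L + 1)).card : ℝ) := by
      unfold a1 a2
      rw [Finset.sum_comm, ← Finset.sum_sub_distrib, Finset.card_filter]
      push_cast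
      refine Finset.sum_le_sum fun g _ => ?_
      have hnn : 0 ≤ ∑ i ∈ range L, ∑ l ∈ LL F i, ∑ p : (ZMod 3 × F) × (ZMod 3 × F),
          (if BS hM g l p.1 p.2 then ind (Pts hM g (p.1 :: l)) χ else 0) := by
        refine Finset.sum_nonneg fun i _ => Finset.sum_nonneg fun l _ =>
          Finset.sum_nonneg fun p _ => ?_
        split_ifs
        · exact ind_nonneg _ _
        · exact le_rfl
      by_cases hg : g ∈ TS hM {p | χ p = 0}
      · by_cases hcl : Closed (TS hM {p | χ p = 0}) g (L + 1)
        · rw [if_neg (by tauto)]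
          obtain ⟨l, x, y, hb, hlen, hpts⟩ := Closed.bs hM hcl
          have h5 : 1 ≤ ∑ i ∈ range L, ∑ l ∈ LL F i, ∑ p : (ZMod 3 × F) × (ZMod 3 × F),
              (if BS hM g l p.1 p.2 then ind (Pts hM g (p.1 :: l)) χ else 0) := by
            have h6 : (if BS hM g l (x, y).1 (x, y).2 then ind (Pts hM g ((x, y).1 :: l)) χ
                else 0) = 1 := by
              rw [if_pos hb]
              exact ind_eq_one hpts
            have nn : ∀ (l : List (ZMod 3 × F)) (p : (ZMod 3 × F) × (ZMod 3 × F)), 0 ≤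
                (if BS hM g l p.1 p.2 then ind (Pts hM g (p.1 :: l)) χ else 0) := by
              intro l p
              split_ifs
              · exact ind_nonneg _ _
              · exact le_rfl
            rw [← h6]
            refine le_trans ?_ (Finset.single_le_sum (f := fun i => ∑ l ∈ LL F i,
              ∑ p : (ZMod 3 × F) × (ZMod 3 × F),
              (if BS hM g l p.1 p.2 then ind (Pts hM g (p.1 :: l)) χ else 0))
              (fun i _ => Finset.sum_nonneg fun l _ => Finset.sum_nonneg fun p _ => nn l p)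
              (Finset.mem_range.2 (show l.length < L by omega)))
            refine le_trans ?_ (Finset.single_le_sum (f := fun l =>
              ∑ p : (ZMod 3 × F) × (ZMod 3 × F),
              (if BS hM g l p.1 p.2 then ind (Pts hM g (p.1 :: l)) χ else 0))
              (fun l _ => Finset.sum_nonneg fun p _ => nn l p) (mem_LL l))
            exact Finset.single_le_sum (f := fun p : (ZMod 3 × F) × (ZMod 3 × F) =>
              (if BS hM g l p.1 p.2 then ind (Pts hM g (p.1 :: l)) χ else 0))
              (fun p _ => nn l p) (Finset.mem_univ (x, y))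
          have := ind_le (Pts hM g []) χ
          linarith
        · rw [if_pos ⟨hg, hcl⟩]
          have := ind_le (Pts hM g []) χ
          linarith
      · rw [if_neg (by tauto), ind_eq_zero]
        · linarith
        · intro h
          exact hg ((mem_Pts_nil hM g {p | χ p = 0}).1 h)
    have h6 : (Fintype.card F : ℝ) / (12 * K) * a4 hM χ < ((univ.filter fun g : Gt F M C =>
        g ∈ TS hM {p | χ p = 0} ∧ ¬ Closed (TS hM {p | χ p = 0}) g (L + 1)).card : ℝ) := by
      linarith
    rw [h4] at h6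
    convert h6

end Pool.Agent.H692.FL
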